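import Pool.Agent.Lib.MP_edb142_al.Mod

open CategoryTheory MonoidalCategory Limits

set_option linter.unusedSectionVars false

namespace Pool.Agent.Lib.MP_edb142_al

universe v u v' u'

section Inv
variable {A : Type u} [Category.{v} A] [MonoidalCategory A]

theorem half_isIso {W : A} (γ : ∀ U : A, W ⊗ U ⟶ U ⊗ W)
    (nat : ∀ {U U' : A} (f : U ⟶ U'), W ◁ f ≫ γ U' = γ U ≫ f ▷ W)
    (mon : ∀ U U' : A, γ (U ⊗ U') = 𝟙 _ ⊗≫ γ U ▷ U' ⊗≫ U ◁ γ U' ⊗≫ 𝟙 _)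
    (un : γ (𝟙_ A) = (ρ_ W).hom ≫ (λ_ W).inv) {L U : A} (P : Du L U) : IsIso (γ U) := by
  refine ⟨𝟙 _ ⊗≫ (U ⊗ W) ◁ P.η ⊗≫ U ◁ γ L ▷ U ⊗≫ P.ε ▷ (W ⊗ U) ⊗≫ 𝟙 _, ?_, ?_⟩
  · calc _ = 𝟙 _ ⊗≫ (γ U ▷ 𝟙_ A ≫ (U ⊗ W) ◁ P.η) ⊗≫ U ◁ γ L ▷ U ⊗≫ P.ε ▷ (W ⊗ U) ⊗≫ 𝟙 _ := by
          monoidal
      _ = 𝟙 _ ⊗≫ (W ⊗ U) ◁ P.η ⊗≫ ((𝟙 (W ⊗ U ⊗ L) ⊗≫ γ U ▷ L ⊗≫ U ◁ γ L ⊗≫ 𝟙 ((U ⊗ L) ⊗ W)) ≫
            P.ε ▷ W) ▷ U ⊗≫ 𝟙 _ := by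
          rw [← whisker_exchange]; monoidal
      _ = 𝟙 _ ⊗≫ W ◁ (U ◁ P.η ⊗≫ P.ε ▷ U) ⊗≫ 𝟙 _ := by
          rw [← mon, ← nat, un]; monoidal
      _ = _ := by rw [P.z1]; monoidal
  · calc _ = 𝟙 _ ⊗≫ (U ⊗ W) ◁ P.η ⊗≫ U ◁ γ L ▷ U ⊗≫ (P.ε ▷ (W ⊗ U) ≫ 𝟙_ A ◁ γ U) ⊗≫ 𝟙 _ := by
          monoidal
      _ = 𝟙 _ ⊗≫ U ◁ (W ◁ P.η ≫ (𝟙 (W ⊗ L ⊗ U) ⊗≫ γ L ▷ U ⊗≫ L ◁ γ U ⊗≫ 𝟙 ((L ⊗ U) ⊗ W))) ⊗≫
            P.ε ▷ (U ⊗ W) ⊗≫ 𝟙 _ := by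
          rw [← whisker_exchange]; monoidal
      _ = 𝟙 _ ⊗≫ (U ◁ P.η ⊗≫ P.ε ▷ U) ▷ W ⊗≫ 𝟙 _ := by
          rw [← mon, nat, un]; monoidal
      _ = _ := by rw [P.z1]; monoidal

theorem half_unit {X : A} (b : HalfBraiding X) : (b.β (𝟙_ A)).hom = (ρ_ X).hom ≫ (λ_ X).inv := by
  have h1 := b.monoidal (𝟙_ A) (𝟙_ A)
  have h2 := b.naturality (λ_ (𝟙_ A)).hom
  rw [h1] at h2
  have h3 : (b.β (𝟙_ A)).hom ≫ 𝟙 _ = (b.β (𝟙_ A)).hom ≫ (λ_ X).hom ≫ (ρ_ X).inv ≫ (b.β (𝟙_ A)).hom := by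
    calc _ = X ◁ (λ_ (𝟙_ A)).inv ≫ X ◁ (λ_ (𝟙_ A)).hom ≫ (b.β (𝟙_ A)).hom := by monoidal
      _ = _ := by rw [h2]; monoidal
  rw [cancel_epi] at h3
  rw [← cancel_epi ((λ_ X).hom ≫ (ρ_ X).inv), Category.assoc, ← h3]; simp

end Inv

variable {A : Type u} [Category.{v} A] [Preadditive A] [Linear ℂ A] [MonoidalCategory A]
  [MonoidalPreadditive A] [MonoidalLinear ℂ A] [HasFiniteBiproducts A] [RigidCategory A]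
  {J : Type} [Fintype J]

namespace Fusion
variable (Φ : Fusion A J)

noncomputable def W : A := ⨁ fun i => Φ.X i ⊗ (Φ.X i)ᘁ
noncomputable def pW (i : J) : Φ.W ⟶ Φ.X i ⊗ (Φ.X i)ᘁ := biproduct.π (fun i => Φ.X i ⊗ (Φ.X i)ᘁ) i
noncomputable def iW (i : J) : Φ.X i ⊗ (Φ.X i)ᘁ ⟶ Φ.W := biproduct.ι (fun i => Φ.X i ⊗ (Φ.X i)ᘁ) i

theorem W_tot : ∑ i, Φ.pW i ≫ Φ.iW i = 𝟙 _ := biproduct.total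
@[reassoc] theorem iW_pW (i : J) : Φ.iW i ≫ Φ.pW i = 𝟙 _ := biproduct.ι_π_self _ _
@[reassoc] theorem iW_pW_ne {i j : J} (h : i ≠ j) : Φ.iW i ≫ Φ.pW j = 0 := biproduct.ι_π_ne _ h

noncomputable def q (i : J) : Φ.W ⊗ Φ.X i ⟶ Φ.X i := (du (Φ.X i)).unR (Φ.pW i)

noncomputable def B (i : J) (V V' : A) : (V ⟶ Φ.X i) →ₗ[ℂ] (Φ.X i ⟶ V') →ₗ[ℂ] (Φ.W ⊗ V ⟶ V') :=
  LinearMap.mk₂ ℂ (fun f e => Φ.W ◁ f ≫ Φ.q i ≫ e) (by simp) (by simp) (by simp) (by simp)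

noncomputable def π (V : A) : Φ.W ⊗ V ⟶ V :=
  ∑ i, ∑ a, Φ.W ◁ (Φ.ss.fr V).f i a ≫ Φ.q i ≫ (Φ.ss.fr V).e i a

@[reassoc] theorem π_nat {V V' : A} (h : V ⟶ V') : Φ.W ◁ h ≫ Φ.π V' = Φ.π V ≫ h := by
  unfold π
  rw [Preadditive.comp_sum, Preadditive.sum_comp]
  refine Finset.sum_congr rfl fun i _ => ?_
  have := (Φ.ss.fr V).ext_bilin Φ.ss (Φ.ss.fr V') h i (Φ.B i V V')
  simpa [B, Preadditive.comp_sum, Preadditive.sum_comp] using this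

theorem π_X (i : J) : Φ.π (Φ.X i) = Φ.q i := by
  unfold π
  conv_rhs => rw [← Category.comp_id (Φ.q i), ← (Φ.ss.fr (Φ.X i)).tot, Preadditive.comp_sum]
  refine Finset.sum_congr rfl fun j _ => ?_
  rw [Preadditive.comp_sum]
  refine Finset.sum_congr rfl fun a _ => ?_
  by_cases hij : i = j
  · subst hij
    rw [(Φ.ss.sim i).spec ((Φ.ss.fr (Φ.X i)).f i a)]; simp
  · rw [Φ.ss.zero i j hij ((Φ.ss.fr (Φ.X i)).f j a)]; simp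

theorem π_frame {V : A} (φ : Frame Φ.X V) :
    Φ.π V = ∑ i, ∑ a, Φ.W ◁ φ.f i a ≫ Φ.q i ≫ φ.e i a := by
  conv_lhs => rw [← Category.comp_id (Φ.π V), ← φ.tot, Preadditive.comp_sum]
  refine Finset.sum_congr rfl fun j _ => ?_
  rw [Preadditive.comp_sum]
  refine Finset.sum_congr rfl fun a _ => ?_
  rw [← Φ.π_nat_assoc, π_X]

theorem uniq {Z R : A} {x y : Z ⟶ R ⊗ Φ.W}
    (h : ∀ V, x ▷ V ≫ (α_ _ _ _).hom ≫ R ◁ Φ.π V = y ▷ V ≫ (α_ _ _ _).hom ≫ R ◁ Φ.π V) :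
    x = y := by
  have key : ∀ (i : J) (z : Z ⟶ R ⊗ Φ.W), (du (Φ.X i)).unR (z ≫ R ◁ Φ.pW i ≫ (α_ _ _ _).inv) =
      z ▷ Φ.X i ≫ (α_ _ _ _).hom ≫ R ◁ Φ.π (Φ.X i) := by
    intro i z
    rw [π_X]; unfold q Du.unR; monoidal
  have k2 : ∀ i, x ≫ R ◁ Φ.pW i = y ≫ R ◁ Φ.pW i := by
    intro i
    have := h (Φ.X i)
    rw [← key, ← key] at this
    have := congrArg (du (Φ.X i)).toR this
    rw [Du.toR_unR, Du.toR_unR] at this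
    simpa using this =≫ (α_ _ _ _).hom
  rw [← Category.comp_id x, ← Category.comp_id y, ← MonoidalCategory.whiskerLeft_id, ← Φ.W_tot,
    whiskerLeft_sum, Preadditive.comp_sum, Preadditive.comp_sum]
  refine Finset.sum_congr rfl fun i _ => ?_
  rw [MonoidalCategory.whiskerLeft_comp, reassoc_of% (k2 i)]

noncomputable def ex {Z R : A} (n : ∀ V, Z ⊗ V ⟶ R ⊗ V) : Z ⟶ R ⊗ Φ.W :=
  ∑ i, (du (Φ.X i)).toR (n (Φ.X i)) ≫ (α_ _ _ _).hom ≫ R ◁ Φ.iW i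

theorem ex_spec {Z R : A} (n : ∀ V, Z ⊗ V ⟶ R ⊗ V)
    (hn : ∀ {V V' : A} (h : V ⟶ V'), Z ◁ h ≫ n V' = n V ≫ R ◁ h) (V : A) :
    Φ.ex n ▷ V ≫ (α_ _ _ _).hom ≫ R ◁ Φ.π V = n V := by
  have k1 : ∀ j, Φ.ex n ▷ Φ.X j ≫ (α_ _ _ _).hom ≫ R ◁ Φ.π (Φ.X j) = n (Φ.X j) := by
    intro j
    unfold ex
    rw [sum_whiskerRight, Preadditive.sum_comp, Finset.sum_eq_single j]
    · conv_rhs => rw [← (du (Φ.X j)).unR_toR (n (Φ.X j))]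
      rw [π_X]; unfold q Du.unR
      calc _ = (du (Φ.X j)).toR (n (Φ.X j)) ▷ Φ.X j ⊗≫ R ◁ (Φ.iW j ≫ Φ.pW j) ▷ Φ.X j ⊗≫
          (R ⊗ Φ.X j) ◁ (du (Φ.X j)).ε ⊗≫ 𝟙 _ := by monoidal
        _ = _ := by rw [iW_pW]; monoidal
    · intro i _ hi
      rw [π_X]; unfold q Du.unR
      calc _ = (du (Φ.X i)).toR (n (Φ.X i)) ▷ Φ.X j ⊗≫ R ◁ (Φ.iW i ≫ Φ.pW j) ▷ Φ.X j ⊗≫
          (R ⊗ Φ.X j) ◁ (du (Φ.X j)).ε ⊗≫ 𝟙 _ := by monoidal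
        _ = _ := by rw [Φ.iW_pW_ne hi]; simp [monoidalComp]
    · simp
  have k2 : ∀ j (e : Φ.X j ⟶ V), Z ◁ e ≫ Φ.ex n ▷ V ≫ (α_ _ _ _).hom ≫ R ◁ Φ.π V = Z ◁ e ≫ n V := by
    intro j e
    rw [hn, ← k1 j, whisker_exchange_assoc, associator_naturality_right_assoc,
      ← MonoidalCategory.whiskerLeft_comp, π_nat]
    simp
  rw [← Category.id_comp (n V), ← Category.id_comp (Φ.ex n ▷ V ≫ _),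
    ← MonoidalCategory.whiskerLeft_id, ← (Φ.ss.fr V).tot]
  simp only [whiskerLeft_sum, Preadditive.sum_comp, MonoidalCategory.whiskerLeft_comp,
    Category.assoc, k2]

noncomputable def γ (U : A) : Φ.W ⊗ U ⟶ U ⊗ Φ.W := Φ.ex fun V => (α_ _ _ _).hom ≫ Φ.π (U ⊗ V)

theorem γ_spec (U V : A) :
    Φ.γ U ▷ V ≫ (α_ _ _ _).hom ≫ U ◁ Φ.π V = (α_ _ _ _).hom ≫ Φ.π (U ⊗ V) :=
  Φ.ex_spec _ (fun h => by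
    rw [associator_naturality_right_assoc, π_nat, Category.assoc]) V

theorem γ_nat {U U' : A} (f : U ⟶ U') : Φ.W ◁ f ≫ Φ.γ U' = Φ.γ U ≫ f ▷ Φ.W := by
  apply Φ.uniq
  intro V
  rw [comp_whiskerRight, Category.assoc, γ_spec, associator_naturality_middle_assoc, π_nat,
    comp_whiskerRight, Category.assoc, associator_naturality_left_assoc, ← whisker_exchange,
    reassoc_of% (Φ.γ_spec U V)]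

theorem γ_mon (U U' : A) : Φ.γ (U ⊗ U') = 𝟙 _ ⊗≫ Φ.γ U ▷ U' ⊗≫ U ◁ Φ.γ U' ⊗≫ 𝟙 _ := by
  apply Φ.uniq
  intro V
  rw [γ_spec]
  symm
  calc _ = 𝟙 _ ⊗≫ Φ.γ U ▷ (U' ⊗ V) ⊗≫ U ◁ (Φ.γ U' ▷ V ≫ (α_ _ _ _).hom ≫ U' ◁ Φ.π V) ⊗≫ 𝟙 _ := by
        monoidal
    _ = 𝟙 _ ⊗≫ (Φ.γ U ▷ (U' ⊗ V) ≫ (α_ _ _ _).hom ≫ U ◁ Φ.π (U' ⊗ V)) ⊗≫ 𝟙 _ := by
        rw [γ_spec]; monoidal
    _ = 𝟙 _ ⊗≫ (Φ.π (U ⊗ U' ⊗ V) ≫ (α_ _ _ _).inv) := by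
        rw [γ_spec]; monoidal
    _ = _ := by rw [← π_nat]; monoidal

theorem γ_unit : Φ.γ (𝟙_ A) = (ρ_ _).hom ≫ (λ_ _).inv := by
  apply Φ.uniq
  intro V
  rw [γ_spec]
  calc _ = (α_ _ _ _).hom ≫ (Φ.π (𝟙_ A ⊗ V) ≫ (λ_ V).hom) ≫ (λ_ V).inv := by monoidal
    _ = _ := by rw [← π_nat]; monoidal

instance γ_isIso (U : A) : IsIso (Φ.γ U) :=
  half_isIso Φ.γ Φ.γ_nat Φ.γ_mon Φ.γ_unit (Du.ofEP (ᘁU : A) U)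

noncomputable def Z : Center A :=
  ⟨Φ.W, { β := fun U => asIso (Φ.γ U)
          monoidal := fun U U' => by
            simp only [asIso_hom]
            rw [γ_mon]; monoidal
          naturality := fun f => Φ.γ_nat f }⟩

noncomputable def εW : Φ.W ⟶ 𝟙_ A := (ρ_ _).inv ≫ Φ.π (𝟙_ A)

theorem π_eq (U : A) : Φ.π U = Φ.γ U ≫ U ◁ Φ.εW ≫ (ρ_ U).hom := by
  unfold εW
  calc _ = (ρ_ _).inv ≫ (α_ _ _ _).hom ≫ (Φ.W ◁ (ρ_ U).hom ≫ Φ.π U) := by monoidal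
    _ = (ρ_ _).inv ≫ ((α_ _ _ _).hom ≫ Φ.π (U ⊗ 𝟙_ A)) ≫ (ρ_ U).hom := by
      rw [π_nat]; monoidal
    _ = _ := by rw [← γ_spec]; monoidal

end Fusion

end Pool.Agent.Lib.MP_edb142_al
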