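import Mathlib

open Polynomial Cardinal

namespace Pool.Agent.Lib.MP_edb142_al

theorem exists_equiv {R K L : Type} [CommRing R] [Field K] [Field L] [Algebra R K] [Algebra R L]
    [IsAlgClosed K] [IsAlgClosed L] (hK' : Function.Injective (algebraMap R K))
    (hL' : Function.Injective (algebraMap R L)) (hR : #R ≤ ℵ₀) (hK : ℵ₀ < #K) (hKL : #K = #L) :
    ∃ σ : K ≃+* L, ∀ x, σ (algebraMap R K x) = algebraMap R L x := by
  have : Nontrivial R := RingHom.domain_nontrivial (algebraMap R K)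
  have := (faithfulSMul_iff_algebraMap_injective R K).2 hK'
  have := (faithfulSMul_iff_algebraMap_injective R L).2 hL'
  obtain ⟨s, hs⟩ := exists_isTranscendenceBasis R K
  obtain ⟨t, ht⟩ := exists_isTranscendenceBasis R L
  have h1 := IsAlgClosed.cardinal_eq_cardinal_transcendence_basis_of_aleph0_lt' _ hs hR hK
  have h2 := IsAlgClosed.cardinal_eq_cardinal_transcendence_basis_of_aleph0_lt' _ ht hR (hKL ▸ hK)
  obtain ⟨e⟩ := Cardinal.eq.1 (h1.symm.trans (hKL.trans h2))
  have := IsAlgClosed.isAlgClosure_of_transcendence_basis _ hs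
  have := IsAlgClosed.isAlgClosure_of_transcendence_basis _ ht
  let e' : Algebra.adjoin R (Set.range ((↑) : s → K)) ≃ₐ[R]
      Algebra.adjoin R (Set.range ((↑) : t → L)) :=
    hs.1.aevalEquiv.symm.trans ((MvPolynomial.renameEquiv R e).trans ht.1.aevalEquiv)
  refine ⟨IsAlgClosure.equivOfEquiv K L e'.toRingEquiv, fun x => ?_⟩
  have h3 := IsAlgClosure.equivOfEquiv_algebraMap K L e'.toRingEquiv (algebraMap R _ x)
  have h4 : e'.toRingEquiv (algebraMap R _ x) = algebraMap R _ x := e'.commutes x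
  rw [h4, ← IsScalarTower.algebraMap_apply, ← IsScalarTower.algebraMap_apply] at h3
  exact h3

instance cycInst (n : ℕ) [NeZero n] : IsCyclotomicExtension {n} ℚ (CyclotomicField n ℚ) :=
  CyclotomicField.isCyclotomicExtension n ℚ

theorem exists_emb {n : ℕ} [NeZero n] {q : ℂ} (hq : IsPrimitiveRoot q n) :
    ∃ φ : CyclotomicField n ℚ →ₐ[ℚ] ℂ, φ (IsCyclotomicExtension.zeta n ℚ (CyclotomicField n ℚ)) = q := by
  have hz := IsCyclotomicExtension.zeta_spec n ℚ (CyclotomicField n ℚ)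
  have hirr := cyclotomic.irreducible_rat (NeZero.pos n)
  refine ⟨(hz.embeddingsEquivPrimitiveRoots ℂ hirr).symm
    ⟨q, (mem_primitiveRoots (NeZero.pos n)).2 hq⟩, ?_⟩
  rw [← hz.embeddingsEquivPrimitiveRoots_apply_coe ℂ hirr]; simp

theorem exists_sigma {n : ℕ} [NeZero n] {q r : ℂ} (hq : IsPrimitiveRoot q n)
    (hr : IsPrimitiveRoot r n) : ∃ σ : ℂ →+* ℂ, σ q = r := by
  obtain ⟨φ, hφ⟩ := exists_emb hq
  obtain ⟨φ', hφ'⟩ := exists_emb hr
  have hc : #(CyclotomicField n ℚ) ≤ ℵ₀ := by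
    have := Algebra.IsAlgebraic.cardinalMk_le_max ℚ (CyclotomicField n ℚ)
    simpa using this
  obtain ⟨σ, hσ⟩ := @exists_equiv (CyclotomicField n ℚ) ℂ ℂ _ _ _ φ.toRingHom.toAlgebra
    φ'.toRingHom.toAlgebra _ _ φ.toRingHom.injective φ'.toRingHom.injective hc
    (by rw [Cardinal.mk_complex]; exact Cardinal.aleph0_lt_continuum) rfl
  refine ⟨σ.toRingHom, ?_⟩
  rw [← hφ, ← hφ']
  exact hσ _

theorem integral_coeff {p : ℕ} [hp : Fact p.Prime] {q : ℂ} (hq : IsPrimitiveRoot q p)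
    (a : ZMod p → ℤ) (β : ℂ) (hβ : IsIntegral ℤ β) (h : p * β = ∑ z, (a z : ℂ) * q ^ z.val)
    (z : ZMod p) : ((a z : ℤ) : ZMod p) = a 0 := by
  obtain ⟨φ, hφ⟩ := exists_emb hq
  set ζ := IsCyclotomicExtension.zeta p ℚ (CyclotomicField p ℚ) with hζ
  have hz : IsPrimitiveRoot ζ p := IsCyclotomicExtension.zeta_spec p ℚ (CyclotomicField p ℚ)
  have hp0 : (p : ℂ) ≠ 0 := Nat.cast_ne_zero.2 hp.out.ne_zero
  have hp0' : (p : CyclotomicField p ℚ) ≠ 0 := Nat.cast_ne_zero.2 hp.out.ne_zero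
  set β' : CyclotomicField p ℚ := (p : CyclotomicField p ℚ)⁻¹ * ∑ z, (a z : _) * ζ ^ z.val with hβ'
  have e : φ β' = β := by
    rw [hβ', map_mul, map_sum]
    simp only [map_mul, map_pow, hφ, map_intCast, map_inv₀, map_natCast]
    rw [← h]; field_simp
  have hi : IsIntegral ℤ β' := by
    rw [← isIntegral_algHom_iff (φ.restrictScalars ℤ) φ.toRingHom.injective]
    exact e ▸ hβ
  have := IsCyclotomicExtension.Rat.isIntegralClosure_adjoin_singleton_of_prime hz
  obtain ⟨⟨y, hy⟩, hy'⟩ := this.isIntegral_iff.1 hi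
  rw [Algebra.adjoin_singleton_eq_range_aeval] at hy
  obtain ⟨f, hf⟩ := hy
  have hf' : aeval ζ f = β' := by rw [← hy']; exact hf
  set A : ℤ[X] := ∑ z : ZMod p, C (a z) * X ^ z.val with hA
  have h0 : aeval ζ (A - C (p : ℤ) * f) = 0 := by
    rw [map_sub, map_mul, hf', hβ', hA, map_sum]
    simp only [map_mul, map_pow, aeval_X, eq_intCast, map_intCast, map_natCast]
    rw [mul_inv_cancel_left₀ hp0', sub_self]
  have hd := minpoly.isIntegrallyClosed_dvd (hz.isIntegral hp.out.pos) h0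
  rw [← cyclotomic_eq_minpoly hz hp.out.pos] at hd
  have hd2 := Polynomial.map_dvd (Int.castRingHom (ZMod p)) hd
  rw [map_cyclotomic_int, Polynomial.map_sub, Polynomial.map_mul, map_C] at hd2
  simp only [eq_intCast, Int.cast_natCast, CharP.cast_eq_zero, map_zero, zero_mul, sub_zero] at hd2
  have hcoef : ∀ w : ZMod p, (A.map (Int.castRingHom (ZMod p))).coeff w.val = a w := by
    intro w
    rw [coeff_map, hA, finsetSum_coeff, Finset.sum_eq_single w]
    · simp
    · intro b _ hb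
      rw [coeff_C_mul, coeff_X_pow, if_neg (fun h => hb (ZMod.val_injective p h).symm), mul_zero]
    · simp
  have hdeg : (A.map (Int.castRingHom (ZMod p))).natDegree ≤ (cyclotomic p (ZMod p)).natDegree := by
    rw [natDegree_cyclotomic, Nat.totient_prime hp.out]
    refine natDegree_map_le.trans (natDegree_sum_le_of_forall_le _ _ fun w _ => ?_)
    refine (natDegree_C_mul_X_pow_le _ _).trans ?_
    have := ZMod.val_lt w
    omega
  have h3 := eq_leadingCoeff_mul_of_monic_of_dvd_of_natDegree_le (cyclotomic.monic p (ZMod p)) hd2 hdeg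
  have h4 : ∀ w : ZMod p, ((a w : ℤ) : ZMod p) = (A.map (Int.castRingHom (ZMod p))).leadingCoeff := by
    intro w
    rw [← hcoef]
    conv_lhs => rw [h3, coeff_C_mul, cyclotomic_prime, finsetSum_coeff]
    simp [coeff_X_pow, ZMod.val_lt w]
  rw [h4, h4]

theorem conv_const {p : ℕ} [hp : Fact p.Prime] (ε : ZMod p → ℂ) (h0 : ε 0 = 0) (C : ℂ)
    (h : ∀ z : ZMod p, z ≠ 0 → ∑ x, ε x * ε (z * x⁻¹) = C) {a : ZMod p} (ha : a ≠ 0) :
    ε a = ε 1 := by
  have hχ : ∀ χ : DirichletCharacter ℂ p, χ ≠ 1 → ∑ b, χ b * ε b = 0 := by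
    intro χ hχ
    have e : (∑ b, χ b * ε b) * (∑ b, χ b * ε b) = ∑ z, χ z * C := by
      rw [Finset.sum_mul]
      have : ∀ x : ZMod p, χ x * ε x * ∑ b, χ b * ε b = ∑ z, χ z * (ε x * ε (z * x⁻¹)) := by
        intro x
        by_cases hx : x = 0
        · simp [hx, h0]
        · rw [Finset.mul_sum, ← Equiv.sum_comp (Equiv.mulRight₀ x⁻¹ (inv_ne_zero hx))]
          refine Finset.sum_congr rfl fun z _ => ?_
          have : χ z = χ x * χ (z * x⁻¹) := by
            rw [← map_mul]; congr 1; field_simp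
          simp only [Equiv.mulRight₀_apply]
          rw [this]; ring
      simp only [this]
      rw [Finset.sum_comm]
      refine Finset.sum_congr rfl fun z _ => ?_
      rw [← Finset.mul_sum]
      by_cases hz : z = 0
      · rw [hz, MulChar.map_zero, zero_mul, zero_mul]
      · rw [h z hz]
    rw [← Finset.sum_mul, MulChar.sum_eq_zero_of_ne_one hχ, zero_mul] at e
    exact mul_self_eq_zero.1 e
  have key : ∀ a : ZMod p, a ≠ 0 → (p.totient : ℂ) * ε a =
      ∑ b, (1 : DirichletCharacter ℂ p) b * ε b := by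
    intro a ha
    have e : (p.totient : ℂ) * ε a = ∑ b, (∑ χ : DirichletCharacter ℂ p, χ a⁻¹ * χ b) * ε b := by
      simp only [DirichletCharacter.sum_char_inv_mul_char_eq ℂ (Ne.isUnit ha)]
      simp
    rw [e]
    simp only [Finset.sum_mul]
    rw [Finset.sum_comm, Finset.sum_eq_single 1]
    · rw [MulChar.one_apply (Ne.isUnit (inv_ne_zero ha))]; simp
    · intro χ _ h1
      simp only [mul_assoc]
      rw [← Finset.mul_sum, hχ χ h1, mul_zero]
    · simp
  have ht : (p.totient : ℂ) ≠ 0 := Nat.cast_ne_zero.2 (Nat.totient_pos.2 hp.out.pos).ne'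
  apply mul_left_cancel₀ ht
  rw [key a ha, key 1 one_ne_zero]

end Pool.Agent.Lib.MP_edb142_al
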