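import Pool.Agent.Lib.MP_edb142_al.Pos2

open scoped ComplexOrder

set_option linter.unusedSectionVars false

namespace Pool.Agent.Lib.MP_edb142_al

theorem TotPos.ne {z : ℂ} (h : TotPos z) : z ≠ 0 := (h (RingHom.id ℂ)).ne'

theorem TotPos.mul {z w : ℂ} (h : TotPos z) (h' : TotPos w) : TotPos (z * w) := fun σ => by
  rw [map_mul]; exact mul_pos (h σ) (h' σ)

theorem TotPos.inv {z : ℂ} (h : TotPos z) : TotPos z⁻¹ := fun σ => by
  rw [map_inv₀]; exact inv_pos_of_pos' (h σ)

variable {I : Type} [Fintype I] [DecidableEq I]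

theorem perm_of_inv (A B : Matrix I I ℕ) (h1 : A * B = 1) (h2 : B * A = 1) :
    ∃ π : I ≃ I, ∀ k m, A k m = if m = π k then 1 else 0 := by
  have key : ∀ k, ∃ m0, ∀ m, A k m = if m = m0 then 1 else 0 := by
    intro k
    have e := congrFun (congrFun h1 k) k
    rw [Matrix.mul_apply, Matrix.one_apply_eq] at e
    obtain ⟨m0, -, hm0⟩ := Finset.exists_ne_zero_of_sum_ne_zero (e ▸ one_ne_zero)
    have hle : A k m0 * B m0 k ≤ 1 :=
      e ▸ Finset.single_le_sum (f := fun j => A k j * B j k) (fun _ _ => Nat.zero_le _)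
        (Finset.mem_univ m0)
    have h3 : A k m0 * B m0 k = 1 := by omega
    refine ⟨m0, fun m => ?_⟩
    split_ifs with hm
    · rw [hm]; exact Nat.eq_one_of_mul_eq_one_right h3
    · have e2 := congrFun (congrFun h2 m0) m
      rw [Matrix.mul_apply, Matrix.one_apply_ne (Ne.symm hm), Finset.sum_eq_zero_iff] at e2
      have := e2 k (Finset.mem_univ _)
      rw [Nat.eq_one_of_mul_eq_one_left h3, one_mul] at this
      exact this
  choose π hπ using key
  have hi : Function.Injective π := by
    intro k k' h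
    by_contra hne
    have e := congrFun (congrFun h1 k) k
    have e' := congrFun (congrFun h1 k') k
    rw [Matrix.mul_apply, Matrix.one_apply_eq] at e
    rw [Matrix.mul_apply, Matrix.one_apply_ne (Ne.symm hne)] at e'
    simp only [hπ, h] at e e'
    omega
  exact ⟨Equiv.ofBijective π (Finite.injective_iff_bijective.1 hi), hπ⟩

theorem shift (S : Matrix I I ℂ) (T : I → ℂ) (g o : I) (N N' : I → I → I → ℕ)
    (hsym : ∀ i j, S i j = S j i) (hdet : S.det ≠ 0)
    (ho : ∀ j, S o j ≠ 0) (hg : ∀ j, S g j ≠ 0)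
    (hor : ∀ j, (starRingEnd ℂ) (S o j) = S o j) (hgr : ∀ j, (starRingEnd ℂ) (S g j) = S g j)
    (hgg : S g g = 1) (hoo1 : S o o = 1) (hTg : T g = 1)
    (hV : ∀ k l j, S k j * S l j = S o j * ∑ m, (N k l m : ℂ) * S m j)
    (hV' : ∀ k l j, S k j * S l j = S g j * ∑ m, (N' k l m : ℂ) * S m j)
    (hB : ∀ k l, S k l * T k * T l = ∑ m, (N k l m : ℂ) * (T m * S m o))
    (w : I → ℕ) (hw : LagVec S T g w) : ∃ w', LagVec S T o w' := by
  set χ : I → ℂ := fun j => S g j / S o j with hχ
  have hχ0 : ∀ j, χ j ≠ 0 := fun j => div_ne_zero (hg j) (ho j)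
  let A : Matrix I I ℕ := Matrix.of fun k m => N g k m
  let B : Matrix I I ℕ := Matrix.of fun k m => ∑ r, N' o o r * N r k m
  let c : Matrix I I ℕ →+* Matrix I I ℂ := (Nat.castRingHom ℂ).mapMatrix
  have hc : Function.Injective c := by
    intro M M' h
    ext k m
    exact Nat.cast_injective (R := ℂ) (congrFun (congrFun h k) m)
  have hA : c A * S = S * Matrix.diagonal χ := by
    ext k j
    rw [Matrix.mul_diagonal, Matrix.mul_apply]
    have := hV g k j
    have h0 := ho j
    change ∑ m, (N g k m : ℂ) * S m j = S k j * (S g j / S o j)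
    field_simp
    linear_combination -this
  have hBm : c B * S = S * Matrix.diagonal fun j => (χ j)⁻¹ := by
    ext k j
    rw [Matrix.mul_diagonal, Matrix.mul_apply]
    have h0 := ho j
    have h0' := hg j
    change ∑ m, ((∑ r, N' o o r * N r k m : ℕ) : ℂ) * S m j = S k j * (S g j / S o j)⁻¹
    have e : S o j * ∑ m, ((∑ r, N' o o r * N r k m : ℕ) : ℂ) * S m j =
        (∑ r, (N' o o r : ℂ) * S r j) * S k j := by
      push_cast
      simp only [Finset.sum_mul, Finset.mul_sum]
      rw [Finset.sum_comm]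
      refine Finset.sum_congr rfl fun r _ => ?_
      rw [mul_assoc, hV, Finset.mul_sum, Finset.mul_sum]
      exact Finset.sum_congr rfl fun m _ => by ring
    have e2 := hV' o o j
    apply mul_left_cancel₀ h0
    rw [e]
    field_simp
    linear_combination -(S k j) * e2
  have hu : IsUnit S := (Matrix.isUnit_iff_isUnit_det S).2 (Ne.isUnit hdet)
  have hAB : A * B = 1 := by
    apply hc
    apply hu.mul_right_cancel
    rw [map_mul, map_one, mul_assoc, hBm, ← mul_assoc, hA, mul_assoc, Matrix.diagonal_mul_diagonal]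
    simp [hχ0]
  have hBA : B * A = 1 := by
    apply hc
    apply hu.mul_right_cancel
    rw [map_mul, map_one, mul_assoc, hA, ← mul_assoc, hBm, mul_assoc, Matrix.diagonal_mul_diagonal]
    simp [hχ0]
  obtain ⟨π, hπ⟩ := perm_of_inv A B hAB hBA
  have hN : ∀ k m, N g k m = if m = π k then 1 else 0 := hπ
  have hS : ∀ k j, S (π k) j = χ j * S k j := by
    intro k j
    have := congrFun (congrFun hA k) j
    rw [Matrix.mul_diagonal, Matrix.mul_apply] at this
    rw [mul_comm, ← this]
    change _ = ∑ m, (N g k m : ℂ) * S m j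
    simp [hN]
  have hχ2 : ∀ j, χ j * χ j = 1 := by
    intro j
    have e : ∑ k, Complex.normSq (S k j) = Complex.normSq (χ j) * ∑ k, Complex.normSq (S k j) := by
      conv_lhs => rw [← Equiv.sum_comp π]
      simp only [hS, map_mul, Finset.mul_sum]
    have hpos : 0 < ∑ k, Complex.normSq (S k j) :=
      Finset.sum_pos' (fun _ _ => Complex.normSq_nonneg _)
        ⟨o, Finset.mem_univ _, Complex.normSq_pos.2 (ho j)⟩
    have e1 : Complex.normSq (χ j) = 1 := by
      have := mul_right_cancel₀ hpos.ne' ((one_mul _).trans e)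
      exact this.symm
    have e2 : (starRingEnd ℂ) (χ j) = χ j := by rw [hχ]; simp only [map_div₀, hor, hgr]
    have := Complex.normSq_eq_conj_mul_self (z := χ j)
    rw [e1, e2] at this
    exact_mod_cast this.symm
  have hgS : ∀ j, S g j = χ j * S o j := fun j => by rw [hχ]; field_simp [ho j]
  have hπo : π o = g := by
    by_contra hne
    apply hdet
    exact Matrix.det_zero_of_row_eq hne (funext fun j => by rw [hS, hgS])
  have hoo : χ g * χ o * S o o = 1 := by
    rw [← hgg, hgS g, hsym o g, hgS o]; ring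
  have hT : ∀ k, T (π k) = χ k * χ o * T k := by
    intro k
    have := hB g k
    simp only [hN, Nat.cast_ite, Nat.cast_one, Nat.cast_zero, ite_mul, one_mul, zero_mul,
      Finset.sum_ite_eq', Finset.mem_univ, if_true] at this
    rw [hTg, hS, hgS, hsym k o] at this
    apply mul_left_cancel₀ (ho k)
    linear_combination -(χ o) * this - (S o k * T (π k)) * hχ2 o
  have hχπ : ∀ k, χ (π k) * χ o = χ g * χ k := by
    intro k
    have e1 : S g (π k) = χ (π k) * (χ o * S o k) := by rw [hgS, hsym, hS, hsym]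
    have e2 : S g (π k) = χ g * (χ k * S o k) := by rw [hsym, hS, hsym, hgS]
    apply mul_right_cancel₀ (ho k)
    linear_combination e2 - e1
  obtain ⟨w0, wg, lam, hlam, heq⟩ := hw
  by_cases hsign : χ g = χ o
  · have hχπ' : ∀ k, χ (π k) = χ k := fun k =>
      mul_right_cancel₀ (hχ0 o) (by rw [hχπ, hsign, mul_comm])
    have hSS : ∀ j k, S (π j) (π k) = χ j * χ k * S j k := by
      intro j k
      rw [hS, hχπ', hsym, hS, hsym]; ring
    refine ⟨fun k => w (π k), by simpa only [hπo] using w0, fun k hk => ?_, lam, hlam, fun j => ?_⟩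
    · obtain ⟨a1, a2⟩ := wg _ hk
      refine ⟨?_, ?_⟩
      · rw [hT] at a1
        linear_combination a1 - (T k ^ 2 * χ o * χ o) * hχ2 k - T k ^ 2 * hχ2 o
      · have : T (π k) * S (π k) g = T k * S k o := by
          rw [← hπo, hSS, hT]
          linear_combination (T k * S k o * χ o * χ o) * hχ2 k + (T k * S k o) * hχ2 o
        rwa [this] at a2
    · have := heq (π j)
      rw [← Equiv.sum_comp π] at this
      simp only [hSS, hT] at this
      have e : ∑ k, χ j * χ k * S j k * (χ k * χ o * T k * (w (π k) : ℂ)) =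
          χ j * χ o * ∑ k, S j k * (T k * (w (π k) : ℂ)) := by
        rw [Finset.mul_sum]
        exact Finset.sum_congr rfl fun k _ => by
          linear_combination (χ j * χ o * S j k * T k * (w (π k) : ℂ)) * hχ2 k
      rw [e] at this
      apply mul_left_cancel₀ (mul_ne_zero (hχ0 j) (hχ0 o))
      linear_combination this
  · rw [hoo1, mul_one] at hoo
    exact absurd (mul_right_cancel₀ (hχ0 o) (hoo.trans (hχ2 o).symm)) hsign

theorem pairing {J : Type} [Fintype J] (S : I → I → ℂ) (T : I → ℂ) (o : I) (SB : J → J → ℂ)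
    (TB : J → ℂ) (oB : J) (hsym : ∀ i j, S i j = S j i) {v : I → ℕ} (hv : LagVec S T o v)
    {Z : I × J → ℕ}
    (hZ : LagVec (fun a b : I × J => S a.1 b.1 * SB a.2 b.2) (fun a => T a.1 * TB a.2) (o, oB) Z) :
    LagVec SB TB oB fun y => ∑ k, v k * Z (k, y) := by
  obtain ⟨v0, vg, c, hc, ev⟩ := hv
  obtain ⟨Z0, Zg, c', hc', eZ⟩ := hZ
  have key : ∀ y, TB y * ((∑ k, v k * Z (k, y) : ℕ) : ℂ) =
      ∑ k, (T k * v k) * (T k * TB y * Z (k, y)) := by
    intro y
    push_cast
    rw [Finset.mul_sum]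
    refine Finset.sum_congr rfl fun k _ => ?_
    by_cases h : v k = 0
    · simp [h]
    · linear_combination -(TB y * v k * Z (k, y)) * (vg k h).1
  refine ⟨?_, fun y hy => ?_, c' * c⁻¹, hc'.mul hc.inv, fun y => ?_⟩
  · intro h
    rw [Finset.sum_eq_zero_iff] at h
    exact mul_ne_zero v0 Z0 (h o (Finset.mem_univ _))
  · obtain ⟨k, -, hk⟩ := Finset.exists_ne_zero_of_sum_ne_zero hy
    obtain ⟨a1, a2⟩ := vg k (left_ne_zero_of_mul hk)
    obtain ⟨b1, b2⟩ := Zg (k, y) (right_ne_zero_of_mul hk)
    simp only at b1 b2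
    refine ⟨by linear_combination b1 - TB y ^ 2 * a1, ?_⟩
    have := b2.mul a2.inv
    have h0 := a2.ne
    rwa [show T k * TB y * (S k o * SB y oB) * (T k * S k o)⁻¹ = TB y * SB y oB by
      rw [mul_inv_eq_iff_eq_mul₀ h0]; ring] at this
  · apply mul_left_cancel₀ hc.ne
    simp only [key]
    have e1 : c * ∑ y', SB y y' * ∑ k, (T k * v k) * (T k * TB y' * Z (k, y')) =
        ∑ j, (T j * v j) * ∑ b : I × J, S j b.1 * SB y b.2 * (T b.1 * TB b.2 * Z b) := by
      simp only [Fintype.sum_prod_type, Finset.mul_sum]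
      have : ∀ y' k, c * (SB y y' * ((T k * v k) * (T k * TB y' * Z (k, y')))) =
          ∑ j, (T j * v j) * (S j k * SB y y' * (T k * TB y' * Z (k, y'))) := by
        intro y' k
        rw [show c * (SB y y' * ((T k * v k) * (T k * TB y' * Z (k, y')))) =
          (c * (T k * v k)) * (SB y y' * (T k * TB y' * Z (k, y'))) by ring, ← ev, Finset.sum_mul]
        exact Finset.sum_congr rfl fun j _ => by rw [hsym k j]; ring
      simp only [this]
      rw [Finset.sum_comm]
      conv_rhs => rw [Finset.sum_comm]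
      refine Finset.sum_congr rfl fun k _ => ?_
      rw [Finset.sum_comm]
    rw [e1]
    have e2 : ∀ j, ∑ b : I × J, S j b.1 * SB y b.2 * (T b.1 * TB b.2 * Z b) =
        c' * (T j * TB y * Z (j, y)) := fun j => eZ (j, y)
    simp only [e2]
    rw [← mul_assoc, mul_comm c', mul_inv_cancel_left₀ hc.ne, Finset.mul_sum]
    exact Finset.sum_congr rfl fun j _ => by ring

theorem LagVec.equiv {I' : Type} [Fintype I'] {S : I → I → ℂ} {T : I → ℂ} {o : I} {w : I → ℕ}
    (h : LagVec S T o w) (e : I ≃ I') {S' : I' → I' → ℂ} {T' : I' → ℂ}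
    (hS : ∀ i j, S' (e i) (e j) = S i j) (hT : ∀ i, T' (e i) = T i) :
    LagVec S' T' (e o) (w ∘ e.symm) := by
  obtain ⟨w0, wg, c, hc, ew⟩ := h
  refine ⟨by simpa using w0, fun k hk => ?_, c, hc, fun k => ?_⟩
  · obtain ⟨k, rfl⟩ := e.surjective k
    have := wg k (by simpa using hk)
    unfold Good at this ⊢
    rwa [hS, hT]
  · obtain ⟨k, rfl⟩ := e.surjective k
    rw [← e.sum_comp]
    simpa [hS, hT] using ew k

end Pool.Agent.Lib.MP_edb142_al
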