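import Mathlib

open CategoryTheory MonoidalCategory Limits
open scoped ComplexOrder

namespace Pool.Agent.Lib.MP_edb142_al

universe v u v' u'

/-- Simple objects of a fusion category: `X i` (for `i : I`) are pairwise non-isomorphic simple
objects with one-dimensional endomorphism algebra, every object is a finite direct sum of them, and
the unit object is one of them.  Rigidity and bilinearity of the tensor product are carried by
instance arguments wherever this structure is used. -/
structure Fusion (C : Type u) [Category.{v} C] [Preadditive C] [Linear ℂ C] [MonoidalCategory C]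
    [HasFiniteBiproducts C] (I : Type) where
  X : I → C
  o : I
  unit_iso : Nonempty (𝟙_ C ≅ X o)
  end_one : ∀ i, Module.finrank ℂ (X i ⟶ X i) = 1
  hom_zero : ∀ i j, i ≠ j → ∀ f : X i ⟶ X j, f = 0
  decomp : ∀ Y : C, ∃ (n : ℕ) (t : Fin n → I), Nonempty (Y ≅ ⨁ fun a => X (t a))

/-- The quantum trace of an endomorphism `f` of `V` attached to a twist `θ`. -/
noncomputable def qtrace {C : Type u} [Category.{v} C] [MonoidalCategory C] [BraidedCategory C]
    [RigidCategory C] (θ : 𝟭 C ≅ 𝟭 C) {V : C} (f : V ⟶ V) : 𝟙_ C ⟶ 𝟙_ C :=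
  η_ V (Vᘁ) ≫ ((f ≫ θ.hom.app V : V ⟶ V) ▷ (Vᘁ)) ≫ (β_ V (Vᘁ)).hom ≫ ε_ V (Vᘁ)

/-- A modular tensor category structure on a braided rigid linear category: simple objects, a ribbon
twist `θ`, and its modular data `S`, `T`, with `S` invertible. -/
structure Modular (C : Type u) [Category.{v} C] [Preadditive C] [Linear ℂ C] [MonoidalCategory C]
    [HasFiniteBiproducts C] [BraidedCategory C] [RigidCategory C] (I : Type) [Fintype I]
    [DecidableEq I] extends Fusion C I where
  θ : 𝟭 C ≅ 𝟭 C
  θ_tensor : ∀ V U : C, θ.hom.app (V ⊗ U) =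
    (β_ V U).hom ≫ (β_ U V).hom ≫ ((θ.hom.app V : V ⟶ V) ⊗ₘ (θ.hom.app U : U ⟶ U))
  θ_dual : ∀ V : C, rightAdjointMate (θ.hom.app V : V ⟶ V) = θ.hom.app (Vᘁ)
  S : Matrix I I ℂ
  T : I → ℂ
  S_eq : ∀ i j, qtrace θ ((β_ (X i) (X j)).hom ≫ (β_ (X j) (X i)).hom) = S i j • 𝟙 (𝟙_ C)
  T_eq : ∀ i, (θ.hom.app (X i) : X i ⟶ X i) = T i • 𝟙 (X i)
  S_det : S.det ≠ 0

/-- A linear braided equivalence from `C` to the Drinfeld centre of `A`. -/
structure CentreEquiv (C : Type u) [Category.{v} C] [Preadditive C] [Linear ℂ C]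
    [MonoidalCategory C] [BraidedCategory C]
    (A : Type u') [Category.{v'} A] [Preadditive A] [Linear ℂ A] [MonoidalCategory A] where
  E : C ⥤ Center A
  braided : E.Braided
  isEquiv : E.IsEquivalence
  map_add : ∀ {V U : C} (f g : V ⟶ U), (E.map (f + g)).f = (E.map f).f + (E.map g).f
  map_smul : ∀ {V U : C} (c : ℂ) (f : V ⟶ U), (E.map (c • f)).f = c • (E.map f).f

/-- A complex number is totally positive if all its images under ring endomorphisms of `ℂ` are
positive real numbers. -/
def TotPos (z : ℂ) : Prop := ∀ σ : ℂ →+* ℂ, 0 < σ z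

/-- The label `k` is good for the data `(S, T)` with unit label `o`: its twist squares to one and
twist times dimension is totally positive. -/
def Good {I : Type} (S : I → I → ℂ) (T : I → ℂ) (o k : I) : Prop :=
  T k ^ 2 = 1 ∧ TotPos (T k * S k o)

/-- `w` is a Lagrangian-type vector for the data `(S, T)` with unit label `o`: a vector of natural
numbers, nonzero at the unit, supported on good labels, such that `T w` is an eigenvector of `S`
with a totally positive eigenvalue. -/
def LagVec {I : Type} [Fintype I] (S : I → I → ℂ) (T : I → ℂ) (o : I) (w : I → ℕ) : Prop :=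
  w o ≠ 0 ∧ (∀ k, w k ≠ 0 → Good S T o k) ∧
    ∃ c : ℂ, TotPos c ∧ ∀ k, ∑ j, S k j * (T j * w j) = c * (T k * w k)

/-- The `S`-matrix entry of the integer spins `m`, `n` for the quantum group of `sl₂` at `q`: the
quantum integer `[(2m+1)(2n+1)]_q`. -/
noncomputable def slS (q : ℂ) (m n : ℕ) : ℂ :=
  (q ^ ((2 * m + 1) * (2 * n + 1)) - q⁻¹ ^ ((2 * m + 1) * (2 * n + 1))) / (q - q⁻¹)

/-- The twist `q ^ (2m(m+1))` of the integer spin `m` for the quantum group of `sl₂` at `q`. -/
noncomputable def slT (q : ℂ) (m : ℕ) : ℂ := q ^ (2 * m * (m + 1))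

end Pool.Agent.Lib.MP_edb142_al
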