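import Pool.Agent.Lib.MP_edb142_al.Defs

namespace Pool.Agent.Lib.MP_edb142_al

/-- The data `(S, T)` with unit label `o` are those of the integer spins `0 ≤ m < (n-1)/2` of the
quantum group of `sl₂` at `q`. -/
def IsSl {I : Type} (S : I → I → ℂ) (T : I → ℂ) (o : I) (n : ℕ) (q : ℂ) : Prop :=
  ∃ e : I ≃ Fin (n / 2), (e o).val = 0 ∧ (∀ x y, S x y = slS q (e x) (e y)) ∧
    ∀ x, T x = slT q (e x)

/-- A twist `t` and a dimension `d` form a good pair: `t` squares to one and `t d` is totally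
positive. -/
def GoodNum (t d : ℂ) : Prop := t ^ 2 = 1 ∧ TotPos (t * d)

end Pool.Agent.Lib.MP_edb142_al
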