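import Pool.Agent.Lib.MP_edb142_al.Lag

open CategoryTheory MonoidalCategory Limits Functor.LaxMonoidal Functor.OplaxMonoidal

set_option linter.unusedSectionVars false

namespace Pool.Agent.Lib.MP_edb142_al

universe v u v' u'

structure CF (C : Type u) [Category.{v} C] [Preadditive C] [Linear ℂ C]
    [MonoidalCategory C] [BraidedCategory C]
    (A : Type u') [Category.{v'} A] [Preadditive A] [Linear ℂ A] [MonoidalCategory A] where
  F : C ⥤ A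
  mon : F.Monoidal
  add : F.Additive
  lin : F.Linear ℂ
  faith : F.Faithful
  b : ∀ V : C, HalfBraiding (F.obj V)
  comm : ∀ {V U : C} (f : V ⟶ U) (Y : A),
    F.map f ▷ Y ≫ ((b U).β Y).hom = ((b V).β Y).hom ≫ Y ◁ F.map f
  full : ∀ {V U : C} (g : F.obj V ⟶ F.obj U),
    (∀ Y, g ▷ Y ≫ ((b U).β Y).hom = ((b V).β Y).hom ≫ Y ◁ g) → ∃ f, F.map f = g
  surj : ∀ (Z : A) (c : HalfBraiding Z), ∃ (V : C) (i : F.obj V ≅ Z),
    ∀ Y, i.hom ▷ Y ≫ (c.β Y).hom = ((b V).β Y).hom ≫ Y ◁ i.hom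
  br : ∀ V U : C, μ F V U ≫ F.map (β_ V U).hom = ((b V).β (F.obj U)).hom ≫ μ F U V

attribute [instance] CF.mon CF.add CF.lin CF.faith

variable {C : Type u} [Category.{v} C] [Preadditive C] [Linear ℂ C]
    [MonoidalCategory C] [BraidedCategory C]
    {A : Type u'} [Category.{v'} A] [Preadditive A] [Linear ℂ A] [MonoidalCategory A]

noncomputable def CentreEquiv.cf (K : CentreEquiv C A) : CF C A :=
  letI := K.braided
  letI := K.isEquiv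
  { F := K.E ⋙ Center.forget A
    mon := inferInstance
    add := ⟨fun {_ _ f g} => K.map_add f g⟩
    lin := ⟨fun f c => K.map_smul c f⟩
    faith := ⟨fun {_ _ f g} h => K.E.map_injective (Center.ext _ _ h)⟩
    b := fun V => (K.E.obj V).2
    comm := fun f Y => (K.E.map f).comm Y
    full := fun {V U} g hg => by
      obtain ⟨f, hf⟩ := K.E.map_surjective (⟨g, hg⟩ : K.E.obj V ⟶ K.E.obj U)
      exact ⟨f, congrArg Center.Hom.f hf⟩
    surj := fun Z c => ⟨K.E.objPreimage ⟨Z, c⟩, (Center.forget A).mapIso (K.E.objObjPreimageIso ⟨Z, c⟩),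
      fun Y => (K.E.objObjPreimageIso ⟨Z, c⟩).hom.comm Y⟩
    br := fun V U => by
      have h := congrArg Center.Hom.f (Functor.LaxBraided.braided (F := K.E) V U)
      have e : ∀ V U : C, μ (K.E ⋙ Center.forget A) V U = (μ K.E V U).f := fun V U => by
        rw [Functor.LaxMonoidal.comp_μ, Center.forget_μ]
        exact Category.id_comp _
      rw [e, e]
      exact h }

namespace CF
variable (K : CF C A)

theorem br_inv (V U : C) :
    K.F.map (β_ V U).inv ≫ δ K.F V U = δ K.F U V ≫ ((K.b V).β (K.F.obj U)).inv := by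
  rw [Iso.eq_comp_inv, ← cancel_mono (μ K.F U V), Category.assoc, Category.assoc, ← K.br]
  simp only [Functor.Monoidal.δ_μ_assoc, Functor.Monoidal.δ_μ]
  rw [← Functor.map_comp, Iso.inv_hom_id, K.F.map_id]

theorem br' (V U : C) :
    μ K.F V U ≫ K.F.map (β_ V U).hom ≫ δ K.F U V = ((K.b V).β (K.F.obj U)).hom := by
  rw [reassoc_of% (K.br V U)]; simp

/-- image of the twisted coevaluation -/
def coF (θ : Tw C) {V d : C} (P : Du V d) : 𝟙_ A ⟶ K.F.obj d ⊗ K.F.obj V :=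
  ε K.F ≫ K.F.map (θ.co P) ≫ δ K.F d V

theorem coF_eq (θ : Tw C) {V d : C} (P : Du V d) : K.coF θ P =
    (P.map K.F).η ≫ K.F.map (θ.t V).inv ▷ K.F.obj d ≫ ((K.b d).β (K.F.obj V)).inv := by
  unfold coF Tw.co
  rw [Du.map_η]
  simp only [Functor.map_comp, Category.assoc]
  rw [br_inv, Functor.OplaxMonoidal.δ_natural_left_assoc]

theorem trc_unit (θ : Tw C) {V d : C} (P : Du V d) (f : K.F.obj V ⟶ 𝟙_ A) (e : 𝟙_ A ⟶ K.F.obj V) :
    trc (K.coF θ P) (P.map K.F).ε (f ≫ e) = e ≫ K.F.map (θ.t V).inv ≫ f := by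
  unfold trc
  have hn : ((K.b d).β (K.F.obj V)).inv ≫ K.F.obj d ◁ f =
      f ▷ K.F.obj d ≫ (λ_ _).hom ≫ (ρ_ _).inv := by
    rw [Iso.inv_comp_eq, ← (K.b d).naturality_assoc, half_unit]; simp
  rw [coF_eq, MonoidalCategory.whiskerLeft_comp]
  simp only [Category.assoc]
  rw [reassoc_of% hn]
  calc _ = (P.map K.F).η ⊗≫ ((K.F.map (θ.t V).inv ≫ f) ▷ (K.F.obj d ⊗ 𝟙_ A) ≫
        𝟙_ A ◁ (K.F.obj d ◁ e ≫ (P.map K.F).ε)) ⊗≫ 𝟙 _ := by monoidal
    _ = 𝟙 _ ⊗≫ ((P.map K.F).η ▷ 𝟙_ A ≫ (K.F.obj V ⊗ K.F.obj d) ◁ e) ⊗≫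
        K.F.obj V ◁ (P.map K.F).ε ⊗≫ (K.F.map (θ.t V).inv ≫ f) := by
      rw [← whisker_exchange]; monoidal
    _ = e ⊗≫ ((P.map K.F).η ▷ K.F.obj V ⊗≫ K.F.obj V ◁ (P.map K.F).ε) ⊗≫
        (K.F.map (θ.t V).inv ≫ f) := by
      rw [← whisker_exchange]; monoidal
    _ = _ := by rw [Du.z2]; monoidal

theorem map_pt_bb (θ : Tw C) {V d : C} (P : Du V d) (U : C) :
    K.F.map (θ.pt P (Tw.bb V U)) = ptr (K.coF θ P) (P.map K.F).ε
      (((K.b V).β (K.F.obj U)).hom ≫ ((K.b U).β (K.F.obj V)).hom) := by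
  unfold Tw.pt
  rw [map_ptr, Du.map_ε]
  congr 1
  unfold Tw.bb
  rw [← K.br', ← K.br']; simp

theorem trc_loop (θ : Tw C) {V d : C} (P : Du V d) (U : C) (x : 𝟙_ A ⟶ K.F.obj U)
    (y : K.F.obj U ⟶ 𝟙_ A) :
    trc (K.coF θ P) (P.map K.F).ε ((λ_ _).inv ≫ x ▷ K.F.obj V ≫ ((K.b U).β (K.F.obj V)).hom ≫
      K.F.obj V ◁ y ≫ (ρ_ _).hom) = x ≫ K.F.map (θ.pt P (Tw.bb V U)) ≫ y := by
  rw [map_pt_bb, ← ptr_right, ← ptr_left, ← ptr_unit]
  congr 1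
  simp only [Category.assoc]
  rw [(K.b V).naturality_assoc, half_unit]; monoidal

theorem map_loop {V d : C} (P : Du V d) (f : V ⟶ V) :
    (P.map K.F).η ≫ K.F.map f ▷ K.F.obj d ≫ ((K.b V).β (K.F.obj d)).hom ≫ (P.map K.F).ε =
      ε K.F ≫ K.F.map (P.η ≫ f ▷ d ≫ (β_ V d).hom ≫ P.ε) ≫ η K.F := by
  rw [Du.map_η, Du.map_ε, ← K.br']
  simp only [Category.assoc, Functor.map_comp, Functor.OplaxMonoidal.δ_natural_left_assoc,
    Functor.Monoidal.δ_μ_assoc]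

end CF

/-- cyclicity of the loop functional -/
theorem loop_cyc {X W d e : A} (P : Du X d) (Q : Du W e) (gX : ∀ U, X ⊗ U ⟶ U ⊗ X)
    (gW : ∀ U, W ⊗ U ⟶ U ⊗ W) (nat : ∀ {U U' : A} (f : U ⟶ U'), X ◁ f ≫ gX U' = gX U ≫ f ▷ X)
    (g : X ⟶ W) (h : W ⟶ X) (hg : ∀ U, g ▷ U ≫ gW U = gX U ≫ U ◁ g) :
    P.η ≫ (g ≫ h) ▷ d ≫ gX d ≫ P.ε = Q.η ≫ (h ≫ g) ▷ e ≫ gW e ≫ Q.ε := by
  rw [comp_whiskerRight, comp_whiskerRight, Category.assoc, Category.assoc,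
    ← P.mate_η_assoc Q g, whisker_exchange_assoc, reassoc_of% (nat (P.mate Q g)), P.mate_ε Q g,
    reassoc_of% (hg e)]

end Pool.Agent.Lib.MP_edb142_al
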