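import Pool.Agent.Lib.MP_edb142_al.Defs

open CategoryTheory MonoidalCategory Limits

namespace Pool.Agent.Lib.MP_edb142_al

universe v u v' u'

variable {C : Type u} [Category.{v} C] [MonoidalCategory C]

/-- duality data between `V` and `d` -/
structure Du (V d : C) where
  η : 𝟙_ C ⟶ V ⊗ d
  ε : d ⊗ V ⟶ 𝟙_ C
  z1 : d ◁ η ⊗≫ ε ▷ d = (ρ_ d).hom ≫ (λ_ d).inv
  z2 : η ▷ V ⊗≫ V ◁ ε = (λ_ V).hom ≫ (ρ_ V).inv

namespace Du

noncomputable def ofEP (V d : C) [ExactPairing V d] : Du V d where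
  η := η_ V d
  ε := ε_ V d
  z1 := by rw [ExactPairing.coevaluation_evaluation'']; monoidal
  z2 := by rw [ExactPairing.evaluation_coevaluation'']; monoidal

@[instance_reducible] def toEP {V d : C} (P : Du V d) : ExactPairing V d where
  coevaluation' := P.η
  evaluation' := P.ε
  coevaluation_evaluation' := by rw [← P.z1]; monoidal
  evaluation_coevaluation' := by rw [← P.z2]; monoidal

variable {V d U e : C}

/-- from `x : Z ⟶ V ⊗ Y` to `d ⊗ Z ⟶ Y` -/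
def unL (P : Du V d) {Z Y : C} (x : Z ⟶ V ⊗ Y) : d ⊗ Z ⟶ Y :=
  d ◁ x ≫ (α_ _ _ _).inv ≫ P.ε ▷ Y ≫ (λ_ Y).hom

/-- from `h : d ⊗ Z ⟶ Y` to `Z ⟶ V ⊗ Y` -/
def toL (P : Du V d) {Z Y : C} (h : d ⊗ Z ⟶ Y) : Z ⟶ V ⊗ Y :=
  (λ_ Z).inv ≫ P.η ▷ Z ≫ (α_ _ _ _).hom ≫ V ◁ h

/-- from `x : Z ⟶ Y ⊗ d` to `Z ⊗ V ⟶ Y` -/
def unR (P : Du V d) {Z Y : C} (x : Z ⟶ Y ⊗ d) : Z ⊗ V ⟶ Y :=
  x ▷ V ≫ (α_ _ _ _).hom ≫ Y ◁ P.ε ≫ (ρ_ Y).hom

/-- from `h : Z ⊗ V ⟶ Y` to `Z ⟶ Y ⊗ d` -/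
def toR (P : Du V d) {Z Y : C} (h : Z ⊗ V ⟶ Y) : Z ⟶ Y ⊗ d :=
  (ρ_ Z).inv ≫ Z ◁ P.η ≫ (α_ _ _ _).inv ≫ h ▷ d

theorem toL_unL (P : Du V d) {Z Y : C} (x : Z ⟶ V ⊗ Y) : P.toL (P.unL x) = x :=
  (@tensorLeftHomEquiv C _ _ Z V d Y P.toEP).right_inv x

theorem unL_toL (P : Du V d) {Z Y : C} (h : d ⊗ Z ⟶ Y) : P.unL (P.toL h) = h :=
  (@tensorLeftHomEquiv C _ _ Z V d Y P.toEP).left_inv h

theorem toR_unR (P : Du V d) {Z Y : C} (x : Z ⟶ Y ⊗ d) : P.toR (P.unR x) = x :=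
  (@tensorRightHomEquiv C _ _ Z V d Y P.toEP).right_inv x

theorem unR_toR (P : Du V d) {Z Y : C} (h : Z ⊗ V ⟶ Y) : P.unR (P.toR h) = h :=
  (@tensorRightHomEquiv C _ _ Z V d Y P.toEP).left_inv h

/-- the mate of a morphism -/
noncomputable def mate (P : Du V d) (Q : Du U e) (f : V ⟶ U) : e ⟶ d :=
  @rightAdjointMate C _ _ V U (@HasRightDual.mk C _ _ V d P.toEP) (@HasRightDual.mk C _ _ U e Q.toEP) f

@[reassoc] theorem mate_η (P : Du V d) (Q : Du U e) (f : V ⟶ U) :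
    Q.η ≫ U ◁ P.mate Q f = P.η ≫ f ▷ d :=
  @coevaluation_comp_rightAdjointMate C _ _ V U (@HasRightDual.mk C _ _ V d P.toEP) (@HasRightDual.mk C _ _ U e Q.toEP) f

@[reassoc] theorem mate_ε (P : Du V d) (Q : Du U e) (f : V ⟶ U) :
    P.mate Q f ▷ V ≫ P.ε = e ◁ f ≫ Q.ε :=
  @rightAdjointMate_comp_evaluation C _ _ V U (@HasRightDual.mk C _ _ V d P.toEP) (@HasRightDual.mk C _ _ U e Q.toEP) f

/-- `x : 1 ⟶ V ⊗ Y` comes from a map `d ⟶ Y` -/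
def capL (P : Du V d) {Y : C} (x : 𝟙_ C ⟶ V ⊗ Y) : d ⟶ Y := (ρ_ d).inv ≫ P.unL x

@[reassoc] theorem η_capL (P : Du V d) {Y : C} (x : 𝟙_ C ⟶ V ⊗ Y) : P.η ≫ V ◁ P.capL x = x := by
  conv_rhs => rw [← P.toL_unL x]
  unfold capL toL
  monoidal

theorem capL_η (P : Du V d) {Y : C} (h : d ⟶ Y) : P.capL (P.η ≫ V ◁ h) = h := by
  have : P.η ≫ V ◁ h = P.toL ((ρ_ d).hom ≫ h) := by unfold toL; monoidal
  rw [this, capL, unL_toL]; simp

theorem η_left_inj (P : Du V d) {Y : C} {h h' : d ⟶ Y} (H : P.η ≫ V ◁ h = P.η ≫ V ◁ h') :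
    h = h' := by
  rw [← P.capL_η h, H, capL_η]

/-- `x : 1 ⟶ Y ⊗ d` comes from a map `V ⟶ Y` -/
def capR (P : Du V d) {Y : C} (x : 𝟙_ C ⟶ Y ⊗ d) : V ⟶ Y := (λ_ V).inv ≫ P.unR x

@[reassoc] theorem η_capR (P : Du V d) {Y : C} (x : 𝟙_ C ⟶ Y ⊗ d) : P.η ≫ P.capR x ▷ d = x := by
  conv_rhs => rw [← P.toR_unR x]
  unfold capR toR
  monoidal

theorem capR_η (P : Du V d) {Y : C} (h : V ⟶ Y) : P.capR (P.η ≫ h ▷ d) = h := by
  have : P.η ≫ h ▷ d = P.toR ((λ_ V).hom ≫ h) := by unfold toR; monoidal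
  rw [this, capR, unR_toR]; simp

theorem η_right_inj (P : Du V d) {Y : C} {h h' : V ⟶ Y} (H : P.η ≫ h ▷ d = P.η ≫ h' ▷ d) :
    h = h' := by
  rw [← P.capR_η h, H, capR_η]

theorem ε_left_inj (P : Du V d) {Y : C} {h h' : Y ⟶ V} (H : d ◁ h ≫ P.ε = d ◁ h' ≫ P.ε) :
    h = h' := by
  have key : ∀ g : Y ⟶ V, d ◁ g ≫ P.ε = P.unL (g ≫ (ρ_ V).inv) := by
    intro g; unfold unL; monoidal
  rw [key, key] at H
  have := congrArg P.toL H
  rw [toL_unL, toL_unL] at this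
  simpa using this

theorem ε_right_inj (P : Du V d) {Y : C} {h h' : Y ⟶ d} (H : h ▷ V ≫ P.ε = h' ▷ V ≫ P.ε) :
    h = h' := by
  have key : ∀ g : Y ⟶ d, g ▷ V ≫ P.ε = P.unR (g ≫ (λ_ d).inv) := by
    intro g; unfold unR; monoidal
  rw [key, key] at H
  have := congrArg P.toR H
  rw [toR_unR, toR_unR] at this
  simpa using this

/-- tensor product of duality data -/
noncomputable def tensor (P : Du V d) (Q : Du U e) : Du (V ⊗ U) (e ⊗ d) :=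
  letI := P.toEP
  letI := Q.toEP
  ofEP (V ⊗ U) (e ⊗ d)

theorem tensor_η (P : Du V d) (Q : Du U e) :
    (P.tensor Q).η = P.η ⊗≫ (V ◁ Q.η) ▷ d ⊗≫ 𝟙 _ := rfl

theorem tensor_ε (P : Du V d) (Q : Du U e) :
    (P.tensor Q).ε = 𝟙 _ ⊗≫ e ◁ (P.ε ▷ U) ⊗≫ Q.ε := rfl

/-- the unit duality -/
noncomputable def unit : Du (𝟙_ C) (𝟙_ C) := ofEP _ _

theorem unit_η : (unit : Du (𝟙_ C) (𝟙_ C)).η = (ρ_ _).inv := rfl
theorem unit_ε : (unit : Du (𝟙_ C) (𝟙_ C)).ε = (ρ_ _).hom := rfl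

/-- swapped duality in a braided category -/
noncomputable def swap [BraidedCategory C] (P : Du V d) : Du d V :=
  letI := P.toEP
  letI := BraidedCategory.exactPairing_swap V d
  ofEP d V

theorem swap_η [BraidedCategory C] (P : Du V d) : P.swap.η = P.η ≫ (β_ d V).inv := rfl
theorem swap_ε [BraidedCategory C] (P : Du V d) : P.swap.ε = (β_ V d).hom ≫ P.ε := rfl

section Map
variable {A : Type u'} [Category.{v'} A] [MonoidalCategory A] (F : C ⥤ A) [F.Monoidal]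
open Functor.LaxMonoidal Functor.OplaxMonoidal

/-- image of duality data under a monoidal functor -/
def map (P : Du V d) : Du (F.obj V) (F.obj d) where
  η := Functor.LaxMonoidal.ε F ≫ F.map P.η ≫ δ F V d
  ε := μ F d V ≫ F.map P.ε ≫ Functor.OplaxMonoidal.η F
  z1 := by
    have h : d ◁ P.η ≫ (α_ _ _ _).inv ≫ P.ε ▷ d = (ρ_ d).hom ≫ (λ_ d).inv := by
      rw [← P.z1]; monoidal
    have h2 := congrArg F.map h
    simp only [Functor.map_comp, Functor.Monoidal.map_whiskerLeft, Functor.Monoidal.map_whiskerRight,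
      Functor.Monoidal.map_associator_inv, Functor.Monoidal.map_rightUnitor,
      Functor.Monoidal.map_leftUnitor_inv, Category.assoc, Functor.Monoidal.μ_δ_assoc] at h2
    rw [cancel_epi] at h2
    have h3 : F.obj d ◁ F.map P.η ≫ F.obj d ◁ δ F V d ≫ (α_ _ _ _).inv ≫ μ F d V ▷ F.obj d ≫
        F.map P.ε ▷ F.obj d = F.obj d ◁ Functor.OplaxMonoidal.η F ≫ (ρ_ _).hom ≫ (λ_ _).inv ≫
          Functor.LaxMonoidal.ε F ▷ F.obj d := by
      rw [← cancel_mono (μ F (𝟙_ C) d)]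
      simpa using h2
    calc _ = F.obj d ◁ Functor.LaxMonoidal.ε F ≫ (F.obj d ◁ F.map P.η ≫ F.obj d ◁ δ F V d ≫
          (α_ _ _ _).inv ≫ μ F d V ▷ F.obj d ≫ F.map P.ε ▷ F.obj d) ≫
          Functor.OplaxMonoidal.η F ▷ F.obj d := by monoidal
      _ = _ := by rw [h3]; simp
  z2 := by
    have h : P.η ▷ V ≫ (α_ _ _ _).hom ≫ V ◁ P.ε = (λ_ V).hom ≫ (ρ_ V).inv := by
      rw [← P.z2]; monoidal
    have h2 := congrArg F.map h
    simp only [Functor.map_comp, Functor.Monoidal.map_whiskerLeft, Functor.Monoidal.map_whiskerRight,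
      Functor.Monoidal.map_associator, Functor.Monoidal.map_rightUnitor_inv,
      Functor.Monoidal.map_leftUnitor, Category.assoc, Functor.Monoidal.μ_δ_assoc] at h2
    rw [cancel_epi] at h2
    have h3 : F.map P.η ▷ F.obj V ≫ δ F V d ▷ F.obj V ≫ (α_ _ _ _).hom ≫ F.obj V ◁ μ F d V ≫
        F.obj V ◁ F.map P.ε = Functor.OplaxMonoidal.η F ▷ F.obj V ≫ (λ_ _).hom ≫ (ρ_ _).inv ≫
          F.obj V ◁ Functor.LaxMonoidal.ε F := by
      rw [← cancel_mono (μ F V (𝟙_ C))]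
      simpa using h2
    calc _ = Functor.LaxMonoidal.ε F ▷ F.obj V ≫ (F.map P.η ▷ F.obj V ≫ δ F V d ▷ F.obj V ≫
          (α_ _ _ _).hom ≫ F.obj V ◁ μ F d V ≫ F.obj V ◁ F.map P.ε) ≫
          F.obj V ◁ Functor.OplaxMonoidal.η F := by monoidal
      _ = _ := by rw [h3]; simp

theorem map_η (P : Du V d) :
    (P.map F).η = Functor.LaxMonoidal.ε F ≫ F.map P.η ≫ δ F V d := rfl
theorem map_ε (P : Du V d) :
    (P.map F).ε = μ F d V ≫ F.map P.ε ≫ Functor.OplaxMonoidal.η F := rfl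

end Map

end Du

end Pool.Agent.Lib.MP_edb142_al
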