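import Pool.Agent.Lib.MP_edb142_al.Kill

open Matrix

set_option linter.unusedSectionVars false

namespace Pool.Agent.Lib.MP_edb142_al

theorem vand {n : Type} [Fintype n] {f w : n → ℂ} (hf : Function.Injective f)
    (h : ∀ k : ℕ, ∑ j, w j * f j ^ k = 0) : w = 0 := by
  let e := (Fintype.equivFin n).symm
  have := eq_zero_of_forall_pow_sum_mul_pow_eq_zero (f := f ∘ e) (v := w ∘ e)
    (hf.comp e.injective) (fun i => by
      rw [← h i]
      exact Equiv.sum_comp e (fun j => w j * f j ^ (i : ℕ)))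
  funext j
  simpa using congrFun this (e.symm j)

theorem exists_inf {n : Type} [Fintype n] [DecidableEq n] (g : Matrix n n ℂ) (Λ : Finset ℂ)
    (P : ℂ → Matrix n n ℂ) (h1 : ∑ l ∈ Λ, P l = 1) (h2 : ∀ l, g * P l = l • P l)
    (hinf : ∀ N : ℕ, 0 < N → g ^ N ≠ 1) :
    ∃ l, P l ≠ 0 ∧ ∀ N : ℕ, 0 < N → l ^ N ≠ 1 := by
  classical
  by_contra hh
  push Not at hh
  have : ∀ l, ∃ N : ℕ, 0 < N ∧ (P l ≠ 0 → l ^ N = 1) := by
    intro l
    by_cases h : P l = 0
    · exact ⟨1, one_pos, fun h' => absurd h h'⟩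
    · obtain ⟨N, hN, hl⟩ := hh l h
      exact ⟨N, hN, fun _ => hl⟩
  choose N hN hl using this
  have hp : ∀ l (k : ℕ), g ^ k * P l = l ^ k • P l := by
    intro l k
    induction k with
    | zero => simp
    | succ k ih => rw [pow_succ', mul_assoc, ih, mul_smul_comm, h2, smul_smul, pow_succ]
  apply hinf (∏ l ∈ Λ, N l) (Finset.prod_pos fun l _ => hN l)
  rw [← mul_one (g ^ _), ← h1, Finset.mul_sum]
  refine Finset.sum_congr rfl fun l hlΛ => ?_
  rw [hp]
  by_cases h : P l = 0
  · simp [h]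
  · obtain ⟨k, hk⟩ := Finset.dvd_prod_of_mem N hlΛ
    rw [hk, pow_mul, hl l h]; simp

variable {ι : Type} [Fintype ι] [DecidableEq ι] {I : ι → Type} [∀ i, Fintype (I i)]
  [∀ i, DecidableEq (I i)] {J : Type} [Fintype J]

theorem kill (S0 : J → J → ℂ) (S : ∀ i, Matrix (I i) (I i) ℂ) (t0 : J → ℂ) (t u : ∀ i, I i → ℂ)
    (D : ι → ℂ) (o0 : J) (o : ∀ i, I i) (x : J → (∀ i, I i) → ℂ) (lam : ℂ) (hlam : lam ≠ 0)
    (hS : ∀ a, ∑ b, S0 a b • (kron S *ᵥ x b) = lam • x a)
    (hT : ∀ a y, x a y ≠ 0 → t0 a * ∏ i, t i (y i) = 1)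
    (hu : ∀ i j, u i j = 1 ∨ u i j = -1) (hU : ∀ a y, x a y ≠ 0 → ∏ i, u i (y i) = 1)
    (hH : ∀ i, (S i)ᴴ = S i) (hD : ∀ i, S i * S i = D i • 1) (hD0 : ∀ i, D i ≠ 0)
    (ht : ∀ i j, t i j ≠ 0) (hx0 : x o0 o ≠ 0)
    (h1 : ∀ i b, b ≠ o i → x o0 (Function.update o i b) = 0)
    (h2 : ∀ i i' m b, i ≠ i' → m ≠ o i → b ≠ o i' →
      x o0 (Function.update (Function.update o i m) i' b) = 0)
    (i0 : ι) (hinj : Function.Injective (t i0)) (hd : ∀ j, S i0 j (o i0) ≠ 0)
    (hinf : ∀ N : ℕ, 0 < N →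
      ((D i0)⁻¹ • (diagonal (u i0) * S i0 * diagonal (u i0) * S i0)) ^ N ≠ 1) : False := by
  classical
  set U : ∀ i, Matrix (I i) (I i) ℂ := fun i => diagonal (u i) with hUdef
  have hUU : ∀ i, U i * U i = 1 := by
    intro i
    rw [hUdef]
    simp only
    rw [diagonal_mul_diagonal, ← diagonal_one]
    congr 1
    funext j
    rcases hu i j with h | h <;> simp [h]
  have hUH : ∀ i, (U i)ᴴ = U i := by
    intro i
    rw [hUdef]
    simp only
    rw [diagonal_conjTranspose]
    congr 1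
    funext j
    rcases hu i j with h | h <;> simp [h]
  set g : ∀ i, Matrix (I i) (I i) ℂ := fun i => (D i)⁻¹ • (U i * S i * U i * S i) with hgdef
  have hUx : ∀ a, kron U *ᵥ x a = x a := by
    intro a
    funext y
    rw [hUdef, kron_diag, mulVec_diagonal]
    by_cases h : x a y = 0
    · simp [h]
    · rw [hU a y h, one_mul]
  have hx : ∀ a, x a = ∑ b, (lam⁻¹ * S0 a b) • (kron S *ᵥ x b) := by
    intro a
    simp only [mul_smul]
    rw [← Finset.smul_sum, hS, smul_smul, inv_mul_cancel₀ hlam, one_smul]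
  have hSS : kron S * kron S = (∏ i, D i) • 1 := by
    rw [kron_mul]; simp only [hD]; rw [kron_smul, kron_one]
  have hSx : ∀ a, kron S *ᵥ x a = ∑ b, ((∏ i, D i) * (lam⁻¹ * S0 a b)) • x b := by
    intro a
    conv_lhs => rw [hx a, mulVec_sum]
    refine Finset.sum_congr rfl fun b _ => ?_
    rw [mulVec_smul, mulVec_mulVec, hSS, smul_mulVec, one_mulVec, smul_smul, mul_comm]
  have hg : ∀ a, kron g *ᵥ x a = x a := by
    intro a
    have e1 : kron U *ᵥ (kron S *ᵥ x a) = kron S *ᵥ x a := by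
      rw [hSx, mulVec_sum]
      exact Finset.sum_congr rfl fun b _ => by rw [mulVec_smul, hUx]
    rw [hgdef, kron_smul, ← kron_mul, ← kron_mul, ← kron_mul, smul_mulVec, ← mulVec_mulVec,
      ← mulVec_mulVec, ← mulVec_mulVec, e1, mulVec_mulVec _ (kron S), hSS, smul_mulVec, one_mulVec,
      mulVec_smul, hUx, smul_smul, ← Finset.prod_mul_distrib]
    simp [hD0]
  have hnorm : ∀ i, IsStarNormal (g i) := by
    intro i
    refine ⟨?_⟩
    have a1 : (S i * U i * S i * U i) * (U i * S i * U i * S i) = (D i * D i) • 1 := by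
      calc _ = S i * U i * S i * (U i * U i) * S i * U i * S i := by simp only [mul_assoc]
        _ = S i * U i * (S i * S i) * U i * S i := by rw [hUU]; simp only [mul_assoc, one_mul]
        _ = D i • (S i * (U i * U i) * S i) := by rw [hD]; simp [mul_assoc]
        _ = _ := by rw [hUU, mul_one, hD, smul_smul]
    have a2 : (U i * S i * U i * S i) * (S i * U i * S i * U i) = (D i * D i) • 1 := by
      calc _ = U i * S i * U i * (S i * S i) * U i * S i * U i := by simp only [mul_assoc]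
        _ = D i • (U i * S i * (U i * U i) * S i * U i) := by rw [hD]; simp [mul_assoc]
        _ = D i • (U i * (S i * S i) * U i) := by rw [hUU]; simp only [mul_assoc, one_mul]
        _ = _ := by rw [hD]; simp [hUU, smul_smul]
    have a3 : star (g i) = star (D i)⁻¹ • (S i * U i * S i * U i) := by
      rw [hgdef]
      simp only [star_smul, star_eq_conjTranspose, conjTranspose_mul, hH, hUH, mul_assoc]
    rw [Commute, SemiconjBy, a3, hgdef]
    simp only [smul_mul_smul_comm, a1, a2, mul_comm (star (D i)⁻¹)]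
  choose Λ P hP1 hP2 hP3 hP4 using fun i => spec_res (g i) (hnorm i)
  obtain ⟨l0, hl0, hl0'⟩ := exists_inf (g i0) (Λ i0) (P i0) (hP1 i0) (hP2 i0) hinf
  have hginv : (U i0 * g i0 * U i0) * g i0 = 1 := by
    rw [hgdef]
    simp only [mul_smul_comm, smul_mul_assoc, smul_smul]
    calc _ = ((D i0)⁻¹ * (D i0)⁻¹) • ((U i0 * U i0) * S i0 * U i0 * S i0 * (U i0 * U i0) * S i0 *
          U i0 * S i0) := by simp only [mul_assoc]
      _ = ((D i0)⁻¹ * (D i0)⁻¹) • (S i0 * U i0 * (S i0 * S i0) * U i0 * S i0) := by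
          rw [hUU]; simp only [mul_assoc, one_mul]
      _ = ((D i0)⁻¹ * (D i0)⁻¹) • (D i0 • (S i0 * (U i0 * U i0) * S i0)) := by
          rw [hD]; simp [mul_assoc]
      _ = _ := by
          rw [hUU, mul_one, hD, smul_smul, smul_smul]
          have := hD0 i0
          field_simp
          simp
  have hl00 : l0 ≠ 0 := by
    rintro rfl
    apply hl0
    rw [← one_mul (P i0 0), ← hginv, mul_assoc, hP2]; simp
  obtain ⟨v, hv, hv0⟩ := exists_val l0 hl00 hl0'
  set X : ∀ i, Matrix (I i) (I i) ℂ := fun i => ∑ l ∈ Λ i, (v l : ℂ) • P i l with hXdef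
  have hK : Kill x X := kill_spec x g hg Λ P hP1 hP3 v hv
  have hXH : (X i0)ᴴ = X i0 := by
    rw [hXdef]
    simp [conjTranspose_sum, hP4]
  have hXQ : ∀ (Q : Matrix (I i0) (I i0) ℂ) (m : ℂ), g i0 * Q = m • Q → X i0 * Q = (v m : ℂ) • Q := by
    intro Q m hQ
    rw [hXdef]
    simp only
    conv_rhs => rw [← one_mul Q, ← hP1 i0]
    rw [Finset.sum_mul, Finset.sum_mul, Finset.smul_sum]
    refine Finset.sum_congr rfl fun l _ => ?_
    rw [smul_mul_assoc]
    by_cases hl : l = m
    · rw [hl]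
    · have : (l - m) • (P i0 l * Q) = 0 := by
        rw [sub_smul, ← smul_mul_assoc, ← hP3, mul_assoc, hQ, mul_smul_comm, sub_self]
      rw [(smul_eq_zero.1 this).resolve_left (sub_ne_zero.2 hl)]; simp
  have hev := fun (Y : ∀ i, Matrix (I i) (I i) ℂ) (hY : Kill x Y) => hY.eval o0 o hx0 h1 h2 i0
  set c := star (X i0 (o i0) (o i0)) with hc
  have hrow : ∀ w : I i0 → ℂ, (X i0 *ᵥ w) (o i0) = c * w (o i0) := by
    intro w
    rw [mulVec, dotProduct, Finset.sum_eq_single (o i0)]
    · congr 1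
      conv_lhs => rw [← hXH]
      rfl
    · intro j _ hj
      rw [← hXH, conjTranspose_apply, hev X hK j hj]; simp
    · simp
  have hk : ∀ k : ℕ, X i0 *ᵥ (fun j => t i0 j ^ k * S i0 j (o i0)) =
      c • fun j => t i0 j ^ k * S i0 j (o i0) := by
    intro k
    let Tk : ∀ i, Matrix (I i) (I i) ℂ := fun i => diagonal fun j => t i j ^ k
    let Tk' : ∀ i, Matrix (I i) (I i) ℂ := fun i => diagonal fun j => (t i j ^ k)⁻¹
    have hTT : ∀ i, Tk i * Tk' i = 1 := by
      intro i
      simp only [Tk, Tk']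
      rw [diagonal_mul_diagonal, ← diagonal_one]
      congr 1
      funext j
      exact mul_inv_cancel₀ (pow_ne_zero _ (ht i j))
    have K1 : Kill x fun i => Tk' i * X i * Tk i := by
      refine hK.conj Tk' _ (fun a b => if a = b then (t0 a ^ k)⁻¹ else 0) (fun a => ?_)
        (fun i => by rw [mul_assoc, hTT, mul_one])
      rw [Finset.sum_eq_single a]
      · funext y
        simp only [Tk', if_true, Pi.smul_apply, smul_eq_mul]
        rw [kron_diag, mulVec_diagonal]
        by_cases h : x a y = 0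
        · simp [h]
        · rw [Finset.prod_inv_distrib, Finset.prod_pow, ← mul_assoc, ← mul_inv, ← mul_pow,
            hT a y h]; simp
      · intro b _ hb; simp [Ne.symm hb]
      · simp
    have K2 : Kill x fun i => (D i)⁻¹ • (S i * (Tk' i * X i * Tk i) * S i) := by
      refine K1.conj S _ _ hx (fun i => ?_)
      rw [smul_mul_assoc, mul_assoc _ (S i) (S i), hD, mul_smul_comm, smul_smul,
        inv_mul_cancel₀ (hD0 i), one_smul, mul_one]
    set Y := (D i0)⁻¹ • (S i0 * (Tk' i0 * X i0 * Tk i0) * S i0) with hY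
    have e1 : Tk i0 * S i0 * Y = X i0 * (Tk i0 * S i0) := by
      rw [hY, mul_smul_comm]
      calc _ = (D i0)⁻¹ • (Tk i0 * (S i0 * S i0) * Tk' i0 * X i0 * (Tk i0 * S i0)) := by
            simp only [mul_assoc]
        _ = _ := by
            rw [hD, mul_smul_comm, smul_mul_assoc, smul_mul_assoc, smul_mul_assoc, smul_smul,
              inv_mul_cancel₀ (hD0 i0), one_smul, mul_one, hTT, one_mul]
    have e2 : X i0 *ᵥ (fun j => t i0 j ^ k * S i0 j (o i0)) =
        Y (o i0) (o i0) • fun j => t i0 j ^ k * S i0 j (o i0) := by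
      funext r
      have := congrFun (congrFun e1 r) (o i0)
      rw [Matrix.mul_apply, Finset.sum_eq_single (o i0), Matrix.mul_apply (M := X i0)] at this
      · simp only [Tk, diagonal_mul] at this
        rw [mulVec, dotProduct, ← this, Pi.smul_apply, smul_eq_mul, mul_comm]
      · intro j _ hj
        have h0 : Y j (o i0) = 0 := hev _ K2 j hj
        rw [h0, mul_zero]
      · simp
    have e3 := congrFun e2 (o i0)
    rw [hrow, Pi.smul_apply, smul_eq_mul] at e3
    rw [e2, ← mul_right_cancel₀ (mul_ne_zero (pow_ne_zero _ (ht _ _)) (hd _)) e3]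
  have hXc : X i0 = c • 1 := by
    ext r j
    have := vand (w := fun j => (X i0 - c • (1 : Matrix (I i0) (I i0) ℂ)) r j * S i0 j (o i0)) hinj
      (fun k => by
        have h := congrFun (hk k) r
        have h' : ((X i0 - c • (1 : Matrix (I i0) (I i0) ℂ)) *ᵥ
            fun j => t i0 j ^ k * S i0 j (o i0)) r = 0 := by
          rw [sub_mulVec, Pi.sub_apply, h, smul_mulVec, one_mulVec, sub_self]
        rw [← h', mulVec, dotProduct]
        exact Finset.sum_congr rfl fun j _ => by ring)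
    have := (mul_eq_zero.1 (congrFun this j)).resolve_right (hd j)
    exact sub_eq_zero.1 this
  have f1 := hXQ (P i0 l0) l0 (hP2 i0 l0)
  have f2 := hXQ (U i0 * P i0 l0) l0⁻¹ (by
    have : l0 • (g i0 * (U i0 * P i0 l0)) = U i0 * P i0 l0 := by
      rw [← mul_smul_comm, ← mul_smul_comm, ← hP2]
      calc _ = U i0 * ((U i0 * g i0 * U i0) * g i0) * P i0 l0 := by
            simp only [← mul_assoc, hUU, one_mul]
        _ = _ := by rw [hginv, mul_one]
    conv_rhs => rw [← this, smul_smul, inv_mul_cancel₀ hl00, one_smul])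
  have hv1 : v 1 = 0 := by have := hv 1 1 one_ne_zero one_ne_zero; simp at this; exact this
  have hvi : v l0⁻¹ = -1 := by
    have := hv l0 l0⁻¹ hl00 (inv_ne_zero hl00)
    rw [mul_inv_cancel₀ hl00, hv1, hv0] at this
    linarith
  have hUP : U i0 * P i0 l0 ≠ 0 := by
    intro h
    apply hl0
    rw [← one_mul (P i0 l0), ← hUU i0, mul_assoc, h, mul_zero]
  rw [hXc, smul_mul_assoc, one_mul] at f1 f2
  have g1 := smul_left_injective ℂ hl0 f1
  have g2 := smul_left_injective ℂ hUP f2
  rw [g1, hv0, hvi] at g2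
  norm_num at g2

end Pool.Agent.Lib.MP_edb142_al
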