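import Pool.Agent.Lib.MP_edb142_al.Sl2
import Pool.Agent.Lib.MP_edb142_al.Kill2

open Matrix
open scoped ComplexOrder

set_option linter.unusedSectionVars false

namespace Pool.Agent.Lib.MP_edb142_al

theorem prod_upd {ι : Type} [Fintype ι] [DecidableEq ι] {I : ι → Type} (f : ∀ i, I i → ℂ)
    (y : ∀ i, I i) (i : ι) (b : I i) (h : f i (y i) = 1) :
    ∏ j, f j (Function.update y i b j) = f i b * ∏ j, f j (y j) := by
  rw [← Finset.mul_prod_erase _ _ (Finset.mem_univ i), ← Finset.mul_prod_erase _ _ (Finset.mem_univ i),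
    h, one_mul, Function.update_self]
  congr 1
  exact Finset.prod_congr rfl fun j hj => by rw [Function.update_of_ne (Finset.ne_of_mem_erase hj)]

theorem no_sl2 {J0 ι : Type} [Fintype J0] [Fintype ι] [DecidableEq ι] (p : ι → ℕ) (q : ι → ℂ)
    (hp : ∀ i, (p i).Prime) (h5 : ∀ i, 5 ≤ p i) (hq : ∀ i, IsPrimitiveRoot (q i) (p i))
    (S0 : J0 → J0 → ℂ) (T0 : J0 → ℂ) (o0 : J0) (hS0 : S0 o0 o0 = 1) (hT0 : T0 o0 = 1)
    (hpair : ∀ i i', i ≠ i' → p i ≠ p i' ∨ q i = q i' ∨ (p i = 5 ∧ q i * q i' ≠ 1))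
    (i0 : ι) (σ : ℂ →+* ℂ) (hσ0 : ∀ a, 0 < S0 a o0 * σ (S0 a o0)) (h1 : σ (q i0) ≠ q i0)
    (h2 : σ (q i0) ≠ (q i0)⁻¹) (o : ∀ i, Fin (p i / 2)) (ho : ∀ i, (o i).val = 0)
    (w : J0 × (∀ i, Fin (p i / 2)) → ℕ)
    (hw : LagVec (fun a b : J0 × (∀ i, Fin (p i / 2)) => S0 a.1 b.1 * ∏ i, slS (q i) (a.2 i) (b.2 i))
      (fun a => T0 a.1 * ∏ i, slT (q i) (a.2 i)) (o0, o) w) : False := by
  have hf : ∀ i, Fact (p i).Prime := fun i => ⟨hp i⟩
  obtain ⟨w0, wg, c, hc, ew⟩ := hw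
  have hq' : ∀ i, IsPrimitiveRoot (σ (q i)) (p i) := fun i => (hq i).map_of_injective σ.injective
  set x : J0 → (∀ i, Fin (p i / 2)) → ℂ :=
    fun a y => (T0 a * ∏ i, slT (q i) (y i)) * w (a, y) with hx
  have hg : ∀ a y, x a y ≠ 0 → (T0 a * ∏ i, slT (q i) (y i)) ^ 2 = 1 ∧
      TotPos ((T0 a * ∏ i, slT (q i) (y i)) * (S0 a o0 * ∏ i, slS (q i) (y i) 0)) := by
    intro a y h
    have := wg (a, y) (fun h0 => h (by simp [hx, h0]))
    simpa only [Good, ho] using this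
  have hTo : ∀ i, slT (q i) (o i) = 1 := fun i => by rw [ho, slT_zero]
  have hSo : ∀ i, slS (q i) (o i) 0 = 1 := fun i => by rw [ho, slS_zero (h5 i) (hq i)]
  refine kill S0 (fun i => SM (p i) (q i)) (fun a => T0 a ^ 2) (fun i j => slT (q i) j ^ 2)
    (fun i j => sg (slS (q i) j 0 * slS (σ (q i)) j 0)) (fun i => -(p i : ℂ) / (sn (hq i) 1) ^ 2)
    o0 o x c (hc (RingHom.id ℂ)).ne' (fun a => ?_) (fun a y h => ?_) (fun i j => ?_) (fun a y h => ?_)
    (fun i => SM_herm (hq i)) (fun i => SM_sq (h5 i) (hq i)) (fun i => ?_)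
    (fun i j => pow_ne_zero _ (slT_ne (hq i) _)) ?_ (fun i b hb => ?_) (fun i i' m b hi hm hb => ?_)
    i0 (fun m n h => Fin.ext (T_sq_inj (h5 i0) (hq i0) m.2 n.2 h)) (fun j => ?_)
    (inf_order' (h5 i0) (hq i0) (hq' i0) h1 h2)
  · funext y
    have := ew (a, y)
    rw [Fintype.sum_prod_type] at this
    simp only [Finset.sum_apply, Pi.smul_apply, smul_eq_mul, mulVec, dotProduct, kron, of_apply, SM,
      Finset.mul_sum]
    rw [hx]
    simp only
    rw [← this]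
    exact Finset.sum_congr rfl fun b _ => Finset.sum_congr rfl fun z _ => by ring
  · rw [Finset.prod_pow, ← mul_pow]; exact (hg a y h).1
  · exact sg_pm (by rw [map_mul, slS_real (hq i), slS_real (hq' i)])
      (mul_ne_zero (slS_ne (h5 i) (hq i) j.2 (by have := h5 i; omega))
        (slS_ne (h5 i) (hq' i) j.2 (by have := h5 i; omega)))
  · obtain ⟨a1, a2⟩ := hg a y h
    apply sg_prod _ (fun i => by rw [map_mul, slS_real (hq i), slS_real (hq' i)])
    generalize T0 a * ∏ i, slT (q i) (y i) = τ at a1 a2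
    have b1 := mul_pos (a2 (RingHom.id ℂ)) (a2 σ)
    have b2 : σ τ = τ := by
      rcases sq_eq_one_iff.1 a1 with h | h <;> simp [h]
    simp only [RingHom.id_apply, map_mul, map_prod, map_slS, b2] at b1
    have b3 : τ * (S0 a o0 * ∏ i, slS (q i) (y i) 0) * (τ * (σ (S0 a o0) *
        ∏ i, slS (σ (q i)) (y i) 0)) = (S0 a o0 * σ (S0 a o0)) *
          ∏ i, slS (q i) (y i) 0 * slS (σ (q i)) (y i) 0 := by
      rw [Finset.prod_mul_distrib]
      linear_combination (S0 a o0 * σ (S0 a o0) * (∏ i, slS (q i) (y i) 0) *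
        ∏ i, slS (σ (q i)) (y i) 0) * a1
    rw [b3] at b1
    exact (mul_pos_iff_of_pos_left (hσ0 a)).1 b1
  · exact div_ne_zero (neg_ne_zero.2 (Nat.cast_ne_zero.2 (hp i).ne_zero))
      (pow_ne_zero _ (sn_ne (h5 i) (hq i) one_ne_zero))
  · simp [hx, hT0, hTo, w0]
  · by_contra h
    have := (hg _ _ h).1
    rw [prod_upd (fun i (j : Fin (p i / 2)) => slT (q i) j) o i b (hTo i), hT0] at this
    simp only [hTo, Finset.prod_const_one, one_mul, mul_one] at this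
    exact hb (Fin.ext ((single (h5 i) (hq i) b.2 this).trans (ho i).symm))
  · by_contra h
    obtain ⟨a1, a2⟩ := hg _ _ h
    have hi' : Function.update o i m i' = o i' := Function.update_of_ne (Ne.symm hi) _ _
    rw [prod_upd (fun i (j : Fin (p i / 2)) => slT (q i) j) _ i' b (by rw [hi']; exact hTo i'),
      prod_upd (fun i (j : Fin (p i / 2)) => slT (q i) j) o i m (hTo i), hT0] at a1 a2
    rw [prod_upd (fun i (j : Fin (p i / 2)) => slS (q i) j 0) _ i' b (by rw [hi']; exact hSo i'),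
      prod_upd (fun i (j : Fin (p i / 2)) => slS (q i) j 0) o i m (hSo i), hS0] at a2
    simp only [hTo, hSo, Finset.prod_const_one, one_mul, mul_one] at a1 a2
    have hb0 : b.val ≠ 0 := fun h => hb (Fin.ext (h.trans (ho i').symm))
    have hm0 : m.val ≠ 0 := fun h => hm (Fin.ext (h.trans (ho i).symm))
    by_cases hpp : p i = p i'
    · rcases hpair i i' hi with h3 | h3 | ⟨h3, h4⟩
      · exact h3 hpp
      · rw [h3] at a1 a2
        exact hb0 (pair_same (h5 i') (hq i') b.2 (hpp ▸ m.2) a1 a2)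
      · have e1 : m.val = 1 := by have := m.2; omega
        have e2 : b.val = 1 := by have := b.2; omega
        rw [e1, e2, mul_comm] at a1
        exact h4 (pair_five (h3 ▸ hq i) ((hpp ▸ h3 : p i' = 5) ▸ hq i') a1)
    · exact hb0 (pair_diff (h5 i') (hq i') (hq i) (Ne.symm hpp) b.2 a1)
  · exact slS_ne (h5 i0) (hq i0) j.2 (o i0).2

theorem exists_sigma_int {J0 : Type} {p : ℕ} (hp : p.Prime) (h7 : 7 ≤ p) {q : ℂ}
    (hq : IsPrimitiveRoot q p) (d : J0 → ℂ) (hd : ∀ a, ∃ r : ℚ, 0 < r ∧ d a ^ 2 = r) :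
    ∃ σ : ℂ →+* ℂ, (∀ a, 0 < d a * σ (d a)) ∧ σ q ≠ q ∧ σ q ≠ q⁻¹ := by
  have : Fact p.Prime := ⟨hp⟩
  have hq0 : q ≠ 0 := hq.ne_zero hp.ne_zero
  obtain ⟨τ, hτ⟩ := exists_sigma hq (hq.pow_of_coprime 2 (cop2 (by omega)))
  have e : (τ.comp τ) q = q ^ 4 := by rw [RingHom.comp_apply, hτ, map_pow, hτ]; ring
  refine ⟨τ.comp τ, fun a => ?_, fun h => ?_, fun h => ?_⟩
  · obtain ⟨r, hr, h⟩ := hd a
    have h1 : τ (d a) ^ 2 = d a ^ 2 := by rw [← map_pow, h, map_ratCast]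
    have h2 : (τ.comp τ) (d a) = d a := by
      rcases sq_eq_sq_iff_eq_or_eq_neg.1 h1 with h3 | h3 <;> simp [h3]
    rw [h2, ← pow_two, h, ← Complex.ofReal_ratCast, Complex.zero_lt_real]
    exact_mod_cast hr
  · rw [e] at h
    have h3 : q ^ 3 = 1 := mul_right_cancel₀ hq0 (by rw [← pow_succ, h, one_mul])
    have := Nat.le_of_dvd (by norm_num) ((hq.pow_eq_one_iff_dvd 3).1 h3)
    omega
  · rw [e] at h
    have h3 : q ^ 5 = 1 := by rw [pow_succ, h, inv_mul_cancel₀ hq0]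
    have := Nat.le_of_dvd (by norm_num) ((hq.pow_eq_one_iff_dvd 5).1 h3)
    omega

end Pool.Agent.Lib.MP_edb142_al
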