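import Pool.Agent.Lib.MP_edb142_al.Data
import Pool.Agent.Lib.MP_edb142_al.No

open CategoryTheory MonoidalCategory Limits
open scoped ComplexOrder

set_option linter.unusedSectionVars false

namespace Pool.Agent.Lib.MP_edb142_al

universe v u

variable {C : Type u} [Category.{v} C] [Preadditive C] [Linear ℂ C] [MonoidalCategory C]
  [MonoidalPreadditive C] [MonoidalLinear ℂ C] [HasFiniteBiproducts C] [BraidedCategory C]
  [RigidCategory C] {I : Type} [Fintype I] [DecidableEq I]
  {D : Type u} [Category.{v} D] [Preadditive D] [Linear ℂ D] [MonoidalCategory D]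
  [MonoidalPreadditive D] [MonoidalLinear ℂ D] [HasFiniteBiproducts D] [BraidedCategory D]
  [RigidCategory D] {I' : Type} [Fintype I'] [DecidableEq I']
  {A : Type u} [Category.{v} A] [Preadditive A] [Linear ℂ A] [MonoidalCategory A]
  [MonoidalPreadditive A] [MonoidalLinear ℂ A] [HasFiniteBiproducts A] [RigidCategory A]
  {J : Type} [Fintype J]

theorem lagVec_centre (M : Modular C I) (Φ : Fusion A J) (K : CentreEquiv C A) :
    ∃ w, LagVec M.S M.T M.o w := by
  obtain ⟨w, c, h1, h2, h3, h4⟩ := K.cf.lagr M Φ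
  exact ⟨w, by rw [h1]; exact one_ne_zero, h3, c, h2, h4⟩

theorem lagVec_same (M : Modular C I) (N : Modular D I') (e : I ≃ I')
    (hS : ∀ i j, N.S (e i) (e j) = M.S i j) (hT : ∀ i, N.T (e i) = M.T i) {w : I → ℕ}
    (hw : LagVec M.S M.T M.o w) : ∃ w', LagVec N.S N.T N.o w' := by
  refine shift N.S N.T (e M.o) N.o N.N (fun k l m => M.N (e.symm k) (e.symm l) (e.symm m))
    N.S_symm N.S_det (fun j => by rw [N.S_o]; exact N.dim_ne j) (fun j => ?_)
    (fun j => by rw [N.S_o]; exact N.dim_real j) (fun j => ?_) (by rw [hS, M.S_o, M.dim_o])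
    (by rw [N.S_o, N.dim_o]) (by rw [hT, M.T_o]) N.verlinde (fun k l j => ?_) N.balance _
    (hw.equiv e hS hT)
  · obtain ⟨j, rfl⟩ := e.surjective j
    rw [hS, M.S_o]; exact M.dim_ne j
  · obtain ⟨j, rfl⟩ := e.surjective j
    rw [hS, M.S_o]; exact M.dim_real j
  · obtain ⟨j, rfl⟩ := e.surjective j
    obtain ⟨k, rfl⟩ := e.surjective k
    obtain ⟨l, rfl⟩ := e.surjective l
    rw [← e.sum_comp]
    simp only [hS, Equiv.symm_apply_apply]
    exact M.verlinde k l j

theorem Modular.eq_of_iso (M : Modular C I) {i j : I} (φ : M.X i ≅ M.X j) : i = j := by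
  by_contra h
  apply (M.ss.sim i).ne
  rw [← φ.hom_inv_id, M.ss.zero i j h φ.hom, zero_comp]

theorem centre_of_surj (M : Modular C I) (N : Modular D I') (G : C ⥤ D) [G.Braided] [G.Additive]
    [G.Linear ℂ] [G.Full] [G.Faithful] (hG : ∀ j, ∃ k, Nonempty (G.obj (M.X k) ≅ N.X j))
    (K : CentreEquiv D A) : Nonempty (CentreEquiv C A) := by
  choose k hk using hG
  have hs : G.EssSurj := ⟨fun V => by
    obtain ⟨n, t, ⟨φ⟩⟩ := N.decomp V
    exact ⟨⨁ fun a => M.X (k (t a)), ⟨G.mapBiproduct _ ≪≫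
      biproduct.mapIso (fun a => (hk (t a)).some) ≪≫ φ.symm⟩⟩⟩
  have he : G.IsEquivalence := {}
  have := K.isEquiv
  let _ := K.braided
  exact ⟨⟨G ⋙ K.E, inferInstance, inferInstance,
    fun f g => by simp only [Functor.comp_map, Functor.map_add, K.map_add],
    fun c f => by simp only [Functor.comp_map, Functor.map_smul, K.map_smul]⟩⟩

end Pool.Agent.Lib.MP_edb142_al
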