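import Pool.Agent.Lib.MP_edb142_al.Defs

open CategoryTheory MonoidalCategory Limits

set_option linter.unusedSectionVars false

namespace Pool.Agent.Lib.MP_edb142_al

universe v u v' u'

theorem trace_frame {M : Type*} [AddCommGroup M] [Module ℂ M] [Module.Finite ℂ M] {T : Type*}
    [Fintype T] (w : T → M) (φ : T → M →ₗ[ℂ] ℂ) (h : ∀ x, ∑ a, φ a x • w a = x)
    (J : M →ₗ[ℂ] M) : LinearMap.trace ℂ M J = ∑ a, φ a (J (w a)) := by
  have : J = ∑ a, (φ a).smulRight (J (w a)) := by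
    ext x
    conv_lhs => rw [← h x]
    simp [map_sum]
  conv_lhs => rw [this]
  rw [map_sum]
  refine Finset.sum_congr rfl fun a _ => ?_
  rw [LinearMap.trace_smulRight]

variable {C : Type u} [Category.{v} C] [Preadditive C] [Linear ℂ C]

noncomputable def sc {Y : C} (f : Y ⟶ Y) : ℂ := Classical.epsilon fun c : ℂ => f = c • 𝟙 Y

structure Sim (Y : C) : Prop where
  ne : 𝟙 Y ≠ 0
  ex : ∀ f : Y ⟶ Y, ∃ c : ℂ, f = c • 𝟙 Y

namespace Sim
variable {Y : C}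

theorem of_finrank (h : Module.finrank ℂ (Y ⟶ Y) = 1) : Sim Y := by
  have hne : 𝟙 Y ≠ 0 := by
    intro h0
    have : Subsingleton (Y ⟶ Y) := ⟨fun a b => by
      rw [← Category.comp_id a, ← Category.comp_id b, h0]; simp⟩
    rw [Module.finrank_zero_of_subsingleton] at h
    exact absurd h (by norm_num)
  refine ⟨hne, fun f => ?_⟩
  obtain ⟨c, hc⟩ := (finrank_eq_one_iff_of_nonzero' (𝟙 Y) hne).1 h f
  exact ⟨c, hc.symm⟩

theorem spec (h : Sim Y) (f : Y ⟶ Y) : f = sc f • 𝟙 Y :=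
  Classical.epsilon_spec (p := fun c : ℂ => f = c • 𝟙 Y) (h.ex f)

theorem inj (h : Sim Y) {a b : ℂ} (H : a • 𝟙 Y = b • 𝟙 Y) : a = b :=
  smul_left_injective ℂ h.ne H

theorem sc_smul_id (h : Sim Y) (c : ℂ) : sc (c • 𝟙 Y) = c := (h.inj (h.spec _)).symm

theorem sc_eq (h : Sim Y) {f : Y ⟶ Y} {c : ℂ} (H : f = c • 𝟙 Y) : sc f = c := by
  rw [H, h.sc_smul_id]

theorem sc_id (h : Sim Y) : sc (𝟙 Y) = 1 := h.sc_eq (by simp)
theorem sc_zero (h : Sim Y) : sc (0 : Y ⟶ Y) = 0 := h.sc_eq (by simp)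

theorem sc_add (h : Sim Y) (f g : Y ⟶ Y) : sc (f + g) = sc f + sc g :=
  h.sc_eq (by rw [add_smul, ← h.spec, ← h.spec])

theorem sc_smul (h : Sim Y) (c : ℂ) (f : Y ⟶ Y) : sc (c • f) = c * sc f :=
  h.sc_eq (by rw [mul_smul, ← h.spec])

theorem sc_comp (h : Sim Y) (f g : Y ⟶ Y) : sc (f ≫ g) = sc f * sc g := by
  refine h.sc_eq ?_
  conv_lhs => rw [h.spec f, h.spec g]
  simp [mul_smul]
  rw [smul_comm]

noncomputable def scL (h : Sim Y) : (Y ⟶ Y) →ₗ[ℂ] ℂ where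
  toFun := sc
  map_add' := h.sc_add
  map_smul' := h.sc_smul

theorem sc_sum (h : Sim Y) {T : Type*} (s : Finset T) (f : T → (Y ⟶ Y)) :
    sc (∑ a ∈ s, f a) = ∑ a ∈ s, sc (f a) := map_sum h.scL f s

theorem eq_zero (h : Sim Y) {f : Y ⟶ Y} (H : sc f = 0) : f = 0 := by
  rw [h.spec f, H, zero_smul]

theorem of_iso {Z : C} (h : Sim Y) (i : Z ≅ Y) : Sim Z := by
  refine ⟨fun h0 => h.ne ?_, fun f => ⟨sc (i.inv ≫ f ≫ i.hom), ?_⟩⟩
  · rw [← i.inv_hom_id, ← Category.id_comp i.hom, h0]; simp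
  · have := h.spec (i.inv ≫ f ≫ i.hom)
    rw [← cancel_epi i.inv, ← cancel_mono i.hom]
    simpa using this

theorem sc_conj {Z : C} (h : Sim Y) (i : Z ≅ Y) (f : Y ⟶ Y) :
    sc (i.hom ≫ f ≫ i.inv) = sc f := by
  refine (h.of_iso i).sc_eq ?_
  conv_lhs => rw [h.spec f]
  simp

end Sim

structure Frame {I : Type} [Fintype I] (X : I → C) (Y : C) where
  T : I → Type
  fin : ∀ i, Fintype (T i)
  dec : ∀ i, DecidableEq (T i)
  e : ∀ i, T i → (X i ⟶ Y)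
  f : ∀ i, T i → (Y ⟶ X i)
  orth : ∀ i a b, e i a ≫ f i b = if a = b then 𝟙 _ else 0
  tot : ∑ i, ∑ a, f i a ≫ e i a = 𝟙 Y

attribute [instance] Frame.fin Frame.dec

structure SS {I : Type} [Fintype I] (X : I → C) : Prop where
  sim : ∀ i, Sim (X i)
  zero : ∀ i j, i ≠ j → ∀ f : X i ⟶ X j, f = 0
  frame : ∀ Y, Nonempty (Frame X Y)

theorem Fusion.ss [MonoidalCategory C] [HasFiniteBiproducts C] {I : Type} [Fintype I]
    (Φ : Fusion C I) : SS Φ.X := by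
  classical
  refine ⟨fun i => Sim.of_finrank (Φ.end_one i), Φ.hom_zero, fun Y => ?_⟩
  obtain ⟨n, t, ⟨φ⟩⟩ := Φ.decomp Y
  refine ⟨⟨fun i => {a : Fin n // t a = i}, inferInstance, inferInstance,
    fun i a => eqToHom (by rw [a.2]) ≫ biproduct.ι (fun a => Φ.X (t a)) a.1 ≫ φ.inv,
    fun i a => φ.hom ≫ biproduct.π (fun a => Φ.X (t a)) a.1 ≫ eqToHom (by rw [a.2]), ?_, ?_⟩⟩
  · rintro i ⟨a, ha⟩ ⟨b, hb⟩
    by_cases hab : a = b
    · subst hab; simp
    · simp [biproduct.ι_π_ne_assoc _ hab, hab]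
  · have h1 : ∀ i, ∑ a : {a : Fin n // t a = i},
        (φ.hom ≫ biproduct.π (fun a => Φ.X (t a)) a.1 ≫ eqToHom (by rw [a.2] : Φ.X (t a.1) = Φ.X i)) ≫
          (eqToHom (by rw [a.2]) ≫ biproduct.ι (fun a => Φ.X (t a)) a.1 ≫ φ.inv) =
        ∑ a : {a : Fin n // t a = i}, φ.hom ≫ (biproduct.π (fun a => Φ.X (t a)) a.1 ≫
          biproduct.ι (fun a => Φ.X (t a)) a.1) ≫ φ.inv := by
      intro i; simp
    simp only [h1]
    rw [Fintype.sum_fiberwise t (fun a => φ.hom ≫ (biproduct.π (fun a => Φ.X (t a)) a ≫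
          biproduct.ι (fun a => Φ.X (t a)) a) ≫ φ.inv)]
    rw [← Preadditive.comp_sum, ← Preadditive.sum_comp, biproduct.total]
    simp

variable {I : Type} [Fintype I] {X : I → C}

namespace Frame
variable {Y Z : C}

theorem exp_to (h : SS X) (φ : Frame X Y) {i : I} (g : X i ⟶ Y) :
    ∑ a, sc (g ≫ φ.f i a) • φ.e i a = g := by
  classical
  conv_rhs => rw [← Category.comp_id g, ← φ.tot, Preadditive.comp_sum]
  rw [Finset.sum_eq_single i]
  · rw [Preadditive.comp_sum]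
    refine Finset.sum_congr rfl fun a _ => ?_
    rw [← Category.assoc]
    conv_rhs => rw [(h.sim i).spec (g ≫ φ.f i a)]
    simp
  · intro j _ hj
    rw [Preadditive.comp_sum]
    refine Finset.sum_eq_zero fun a _ => ?_
    rw [← Category.assoc, h.zero i j (Ne.symm hj) (g ≫ φ.f j a)]; simp
  · simp

theorem exp_from (h : SS X) (φ : Frame X Y) {i : I} (g : Y ⟶ X i) :
    ∑ a, sc (φ.e i a ≫ g) • φ.f i a = g := by
  classical
  conv_rhs => rw [← Category.id_comp g, ← φ.tot, Preadditive.sum_comp]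
  rw [Finset.sum_eq_single i]
  · rw [Preadditive.sum_comp]
    refine Finset.sum_congr rfl fun a _ => ?_
    rw [Category.assoc]
    conv_rhs => rw [(h.sim i).spec (φ.e i a ≫ g)]
    simp
  · intro j _ hj
    rw [Preadditive.sum_comp]
    refine Finset.sum_eq_zero fun a _ => ?_
    rw [Category.assoc, h.zero j i hj (φ.e j a ≫ g)]; simp
  · simp

theorem sc_orth (h : SS X) (φ : Frame X Y) (i : I) (a b : φ.T i) :
    sc (φ.e i a ≫ φ.f i b) = if a = b then 1 else 0 := by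
  rw [φ.orth]
  split_ifs
  · exact (h.sim i).sc_id
  · exact (h.sim i).sc_zero

theorem ef (φ : Frame X Y) (i : I) (a : φ.T i) : φ.e i a ≫ φ.f i a = 𝟙 _ := by
  rw [φ.orth]; simp

/-- coordinates on `X i ⟶ Y` -/
noncomputable def eqvTo (h : SS X) (φ : Frame X Y) (i : I) : (X i ⟶ Y) ≃ₗ[ℂ] (φ.T i → ℂ) where
  toFun g a := sc (g ≫ φ.f i a)
  map_add' g g' := by ext a; simp [(h.sim i).sc_add]
  map_smul' c g := by ext a; simp [(h.sim i).sc_smul]
  invFun c := ∑ a, c a • φ.e i a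
  left_inv g := φ.exp_to h g
  right_inv c := by
    ext b
    simp [Preadditive.sum_comp, (h.sim i).sc_sum, (h.sim i).sc_smul, φ.sc_orth h]

/-- coordinates on `Y ⟶ X i` -/
noncomputable def eqvFrom (h : SS X) (φ : Frame X Y) (i : I) : (Y ⟶ X i) ≃ₗ[ℂ] (φ.T i → ℂ) where
  toFun g a := sc (φ.e i a ≫ g)
  map_add' g g' := by ext a; simp [(h.sim i).sc_add]
  map_smul' c g := by ext a; simp [(h.sim i).sc_smul]
  invFun c := ∑ a, c a • φ.f i a
  left_inv g := φ.exp_from h g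
  right_inv c := by
    ext b
    simp [Preadditive.comp_sum, (h.sim i).sc_sum, (h.sim i).sc_smul, φ.sc_orth h]

theorem finrank_to (h : SS X) (φ : Frame X Y) (i : I) :
    Module.finrank ℂ (X i ⟶ Y) = Fintype.card (φ.T i) := by
  rw [(φ.eqvTo h i).finrank_eq]; simp

theorem finrank_from (h : SS X) (φ : Frame X Y) (i : I) :
    Module.finrank ℂ (Y ⟶ X i) = Fintype.card (φ.T i) := by
  rw [(φ.eqvFrom h i).finrank_eq]; simp

theorem exp_hom (h : SS X) (φ : Frame X Y) (ψ : Frame X Z) (g : Y ⟶ Z) :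
    ∑ i, ∑ a, ∑ b, sc (φ.e i a ≫ g ≫ ψ.f i b) • (φ.f i a ≫ ψ.e i b) = g := by
  conv_rhs => rw [← Category.id_comp g, ← φ.tot, Preadditive.sum_comp]
  refine Finset.sum_congr rfl fun i _ => ?_
  rw [Preadditive.sum_comp]
  refine Finset.sum_congr rfl fun a _ => ?_
  rw [Category.assoc]
  conv_rhs => rw [← ψ.exp_to h (φ.e i a ≫ g), Preadditive.comp_sum]
  simp

/-- the extension lemma -/
theorem ext_bilin (h : SS X) (φ : Frame X Y) (ψ : Frame X Z) (g : Y ⟶ Z) {M : Type*}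
    [AddCommGroup M] [Module ℂ M] (i : I) (B : (Y ⟶ X i) →ₗ[ℂ] (X i ⟶ Z) →ₗ[ℂ] M) :
    ∑ b, B (g ≫ ψ.f i b) (ψ.e i b) = ∑ a, B (φ.f i a) (φ.e i a ≫ g) := by
  have h1 : ∀ b, B (g ≫ ψ.f i b) (ψ.e i b) =
      ∑ a, sc (φ.e i a ≫ g ≫ ψ.f i b) • B (φ.f i a) (ψ.e i b) := by
    intro b
    conv_lhs => rw [← φ.exp_from h (g ≫ ψ.f i b)]
    simp [map_sum, LinearMap.sum_apply]
  have h2 : ∀ a, B (φ.f i a) (φ.e i a ≫ g) =
      ∑ b, sc (φ.e i a ≫ g ≫ ψ.f i b) • B (φ.f i a) (ψ.e i b) := by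
    intro a
    conv_lhs => rw [← ψ.exp_to h (φ.e i a ≫ g)]
    simp [map_sum]
  simp only [h1, h2]
  exact Finset.sum_comm

end Frame

namespace SS

noncomputable def fr (h : SS X) (Y : C) : Frame X Y := (h.frame Y).some

theorem finite (h : SS X) (Y Z : C) : Module.Finite ℂ (Y ⟶ Z) := by
  let φ := h.fr Y
  let ψ := h.fr Z
  refine Module.Finite.of_surjective
    (Fintype.linearCombination ℂ (fun p : (Σ i, φ.T i × ψ.T i) => φ.f p.1 p.2.1 ≫ ψ.e p.1 p.2.2)) ?_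
  intro g
  refine ⟨fun p => sc (φ.e p.1 p.2.1 ≫ g ≫ ψ.f p.1 p.2.2), ?_⟩
  rw [Fintype.linearCombination_apply, Fintype.sum_sigma]
  simp only [Fintype.sum_prod_type]
  exact φ.exp_hom h ψ g

theorem finrank_symm (h : SS X) (Y : C) (i : I) :
    Module.finrank ℂ (X i ⟶ Y) = Module.finrank ℂ (Y ⟶ X i) := by
  rw [(h.fr Y).finrank_to h, (h.fr Y).finrank_from h]

theorem sep (h : SS X) {Y : C} {i : I} {g : Y ⟶ X i} (H : ∀ u : X i ⟶ Y, u ≫ g = 0) : g = 0 := by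
  rw [← (h.fr Y).exp_from h g]
  simp [H, (h.sim i).sc_zero]

theorem sep' (h : SS X) {Y : C} {i : I} {g : X i ⟶ Y} (H : ∀ u : Y ⟶ X i, g ≫ u = 0) : g = 0 := by
  rw [← (h.fr Y).exp_to h g]
  simp [H, (h.sim i).sc_zero]

/-- maps out of an object are determined by their restrictions to simple objects -/
theorem hom_ext (h : SS X) {Y Z : C} {g g' : Y ⟶ Z} (H : ∀ i (u : X i ⟶ Y), u ≫ g = u ≫ g') :
    g = g' := by
  rw [← Category.id_comp g, ← Category.id_comp g', ← (h.fr Y).tot]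
  simp [Preadditive.sum_comp, H]

/-- the trace function lemma -/
theorem tr_fun (h : SS X) (t : ∀ V : C, (V ⟶ V) →ₗ[ℂ] ℂ)
    (cyc : ∀ {V U : C} (f : V ⟶ U) (g : U ⟶ V), t V (f ≫ g) = t U (g ≫ f))
    (ϑ : ∀ V : C, V ⟶ V) (nat : ∀ {V U : C} (f : V ⟶ U), f ≫ ϑ U = ϑ V ≫ f) (V : C) :
    t V (ϑ V) = ∑ r, (Module.finrank ℂ (X r ⟶ V) : ℂ) * t (X r) (ϑ (X r)) := by
  let φ := h.fr V
  conv_lhs => rw [← Category.id_comp (ϑ V), ← φ.tot]
  rw [Preadditive.sum_comp, map_sum]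
  refine Finset.sum_congr rfl fun r _ => ?_
  rw [Preadditive.sum_comp, map_sum, φ.finrank_to h]
  have : ∀ a : φ.T r, t V ((φ.f r a ≫ φ.e r a) ≫ ϑ V) = t (X r) (ϑ (X r)) := by
    intro a
    rw [Category.assoc, cyc, nat, Category.assoc, φ.ef, Category.comp_id]
  simp only [this]
  simp

end SS

end Pool.Agent.Lib.MP_edb142_al
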