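import Pool.Agent.Lib.MP_edb142_al.Frame

open CategoryTheory Limits

set_option linter.unusedSectionVars false

namespace Pool.Agent.Lib.MP_edb142_al

universe v u

theorem trace_invol {M : Type*} [AddCommGroup M] [Module ℂ M] [Module.Finite ℂ M]
    (h : M →ₗ[ℂ] M) (hh : ∀ x, h (h x) = x) : ∃ n : ℤ, LinearMap.trace ℂ M h = n := by
  set p : M →ₗ[ℂ] M := (1 / 2 : ℂ) • (1 + h) with hp
  have hi : IsIdempotentElem p := by
    ext x
    simp only [hp, Module.End.mul_apply, LinearMap.smul_apply, LinearMap.add_apply,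
      Module.End.one_apply, map_smul, map_add, hh]
    module
  have ht := (LinearMap.IsIdempotentElem.isProj_range _ hi).trace
  refine ⟨2 * (Module.finrank ℂ (LinearMap.range p) : ℤ) - (Module.finrank ℂ M : ℤ), ?_⟩
  push_cast
  rw [← ht, hp, map_smul, map_add, LinearMap.trace_one, smul_eq_mul]
  ring

variable {A : Type u} [Category.{v} A] [Preadditive A] [Linear ℂ A]
  {J : Type} [Fintype J] {Y : J → A}

theorem trace_to (h : SS Y) {Z : A} (φ : Frame Y Z) (x : J) (g : (Y x ⟶ Z) →ₗ[ℂ] (Y x ⟶ Z)) :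
    LinearMap.trace ℂ _ g = ∑ b, sc (g (φ.e x b) ≫ φ.f x b) := by
  have := h.finite (Y x) Z
  exact trace_frame (φ.e x) (fun b => (h.sim x).scL ∘ₗ Linear.rightComp ℂ _ (φ.f x b))
    (fun e => φ.exp_to h e) g

theorem gram (h : SS Y) {K : Type} (G : K → A) (Jm : ∀ k l, (G k ⟶ G l) →ₗ[ℂ] (G k ⟶ G l))
    (g : ∀ x l, (Y x ⟶ G l) →ₗ[ℂ] (Y x ⟶ G l)) (g' : ∀ x k, (G k ⟶ Y x) →ₗ[ℂ] (G k ⟶ Y x))
    (hJ : ∀ x k l (f : G k ⟶ Y x) (e : Y x ⟶ G l), Jm k l (f ≫ e) = g' x k f ≫ g x l e)
    (h1 : ∀ k, Jm k k (𝟙 _) = 𝟙 _) (h2 : ∀ k l t, Jm k l (Jm k l t) = t) :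
    ∃ n : J → K → ℤ, ∀ k l, LinearMap.trace ℂ _ (Jm k l) = ∑ x, (n x k : ℂ) * n x l := by
  classical
  let φ : ∀ k, Frame Y (G k) := fun k => h.fr (G k)
  let t : J → K → ℂ := fun x l => ∑ b, sc (g x l ((φ l).e x b) ≫ (φ l).f x b)
  let t' : J → K → ℂ := fun x k => ∑ a, sc ((φ k).e x a ≫ g' x k ((φ k).f x a))
  have htr : ∀ k l, LinearMap.trace ℂ _ (Jm k l) = ∑ x, t' x k * t x l := by
    intro k l
    have := h.finite (G k) (G l)
    rw [trace_frame (T := Σ x, (φ k).T x × (φ l).T x)
      (fun p => (φ k).f p.1 p.2.1 ≫ (φ l).e p.1 p.2.2)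
      (fun p => (h.sim p.1).scL ∘ₗ Linear.leftComp ℂ _ ((φ k).e p.1 p.2.1) ∘ₗ
        Linear.rightComp ℂ _ ((φ l).f p.1 p.2.2))
      (fun s => by
        rw [Fintype.sum_sigma]
        simp only [Fintype.sum_prod_type]
        exact (φ k).exp_hom h (φ l) s) (Jm k l), Fintype.sum_sigma]
    refine Finset.sum_congr rfl fun x _ => ?_
    rw [Fintype.sum_prod_type, Finset.sum_mul_sum]
    refine Finset.sum_congr rfl fun a _ => Finset.sum_congr rfl fun b _ => ?_
    rw [hJ, ← (h.sim x).sc_comp]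
    simp [Sim.scL]
  have hx : ∀ x, ∃ n : K → ℤ, ∀ k l, t' x k * t x l = (n k : ℂ) * n l := by
    intro x
    by_cases hne : ∃ k0, Nonempty ((φ k0).T x)
    · obtain ⟨k0, ⟨a0⟩⟩ := hne
      set c := sc ((φ k0).e x a0 ≫ g' x k0 (g' x k0 ((φ k0).f x a0))) with hc
      have hcc : ∀ l (e : Y x ⟶ G l), c • g x l (g x l e) = e := by
        intro l e
        have := h2 k0 l ((φ k0).f x a0 ≫ e)
        rw [hJ, hJ] at this
        have h3 := congrArg (fun s => (φ k0).e x a0 ≫ s) this
        rw [← Category.assoc, ← Category.assoc, (φ k0).ef, Category.id_comp,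
          (h.sim x).spec ((φ k0).e x a0 ≫ _), ← hc] at h3
        simpa using h3
      have hc0 : c ≠ 0 := by
        intro h0
        have := hcc k0 ((φ k0).e x a0)
        rw [h0, zero_smul] at this
        apply (h.sim x).ne
        rw [← (φ k0).ef x a0, ← this, zero_comp]
      obtain ⟨r, hr⟩ := IsAlgClosed.exists_pow_nat_eq c (n := 2) (by norm_num)
      have hr0 : r ≠ 0 := by rintro rfl; exact hc0 (by rw [← hr]; ring)
      have hn : ∀ l, ∃ n : ℤ, r * t x l = n := by
        intro l
        have := h.finite (Y x) (G l)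
        obtain ⟨n, hn⟩ := trace_invol (r • g x l) (fun e => by
          simp only [LinearMap.smul_apply, map_smul, smul_smul]
          rw [← pow_two, hr, hcc])
        refine ⟨n, ?_⟩
        rw [← hn, map_smul, trace_to h (φ l), smul_eq_mul]
      choose n hn using hn
      have ht' : ∀ k, t' x k = c * t x k := by
        intro k
        have hinv : ∀ e : Y x ⟶ G k,
            ∑ a, sc (e ≫ g' x k ((φ k).f x a)) • (φ k).e x a = c • g x k e := by
          intro e
          have e1 : g x k (∑ a, sc (e ≫ g' x k ((φ k).f x a)) • (φ k).e x a) = e := by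
            conv_rhs => rw [← Category.comp_id e, ← h1 k, ← (φ k).tot, map_sum,
              Preadditive.comp_sum]
            rw [Finset.sum_eq_single x]
            · rw [map_sum, map_sum, Preadditive.comp_sum]
              refine Finset.sum_congr rfl fun a _ => ?_
              rw [hJ, ← Category.assoc, map_smul]
              conv_rhs => rw [(h.sim x).spec (e ≫ g' x k ((φ k).f x a))]
              simp
            · intro y _ hy
              rw [map_sum, Preadditive.comp_sum]
              refine Finset.sum_eq_zero fun a _ => ?_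
              rw [hJ, ← Category.assoc, h.zero x y (Ne.symm hy) (e ≫ _), zero_comp]
            · simp
          rw [← hcc k (∑ a, _), e1]
        simp only [t, t', Finset.mul_sum]
        refine Finset.sum_congr rfl fun b _ => ?_
        rw [← (h.sim x).sc_smul, ← Linear.smul_comp, ← hinv, Preadditive.sum_comp,
          (h.sim x).sc_sum]
        simp [(h.sim x).sc_smul, (φ k).sc_orth h]
      refine ⟨n, fun k l => ?_⟩
      rw [ht', ← hn, ← hn, ← hr]; ring
    · refine ⟨0, fun k l => ?_⟩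
      have : IsEmpty ((φ l).T x) := not_nonempty_iff.1 fun hh => hne ⟨l, hh⟩
      simp [t]
  choose n hn using hx
  exact ⟨n, fun k l => by rw [htr]; exact Finset.sum_congr rfl fun x _ => hn x k l⟩

end Pool.Agent.Lib.MP_edb142_al
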