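import Pool.Agent.Lib.MP_edb142_al.Cen

open CategoryTheory MonoidalCategory Limits

set_option linter.unusedSectionVars false

namespace Pool.Agent.Lib.MP_edb142_al

universe v u v' u'

variable {A : Type u} [Category.{v} A] [Preadditive A] [Linear ℂ A] [MonoidalCategory A]
  [MonoidalPreadditive A] [MonoidalLinear ℂ A] [HasFiniteBiproducts A] [RigidCategory A]
  {J : Type} [Fintype J]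

namespace Fusion
variable (Φ : Fusion A J)

include Φ in
theorem sep1 {Y : A} {g : Y ⟶ 𝟙_ A} (H : ∀ w : 𝟙_ A ⟶ Y, w ≫ g = 0) : g = 0 := by
  obtain ⟨u⟩ := Φ.unit_iso
  rw [← cancel_mono u.hom, zero_comp]
  apply Φ.ss.sep
  intro w
  rw [← cancel_epi u.hom, ← Category.assoc, ← Category.assoc, H]; simp

theorem to_unit_zero {i : J} (h : i ≠ Φ.o) (g : Φ.X i ⟶ 𝟙_ A) : g = 0 := by
  obtain ⟨u⟩ := Φ.unit_iso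
  rw [← cancel_mono u.hom, zero_comp]
  exact Φ.ss.zero _ _ h _

theorem uniq1 {Z : A} {x y : Z ⟶ Φ.W} (h : ∀ V, x ▷ V ≫ Φ.π V = y ▷ V ≫ Φ.π V) : x = y := by
  rw [← cancel_mono (λ_ Φ.W).inv]
  apply Φ.uniq
  intro V
  calc _ = (x ▷ V ≫ Φ.π V) ≫ (λ_ V).inv := by monoidal
    _ = _ := by rw [h]; monoidal

noncomputable def lift {z : A} (b : HalfBraiding z) (φ : z ⟶ 𝟙_ A) : z ⟶ Φ.W :=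
  Φ.ex (fun V => (b.β V).hom ≫ V ◁ φ ≫ (ρ_ V).hom ≫ (λ_ V).inv) ≫ (λ_ _).hom

theorem lift_spec {z : A} (b : HalfBraiding z) (φ : z ⟶ 𝟙_ A) (V : A) :
    Φ.lift b φ ▷ V ≫ Φ.π V = (b.β V).hom ≫ V ◁ φ ≫ (ρ_ V).hom := by
  have h := Φ.ex_spec (fun V => (b.β V).hom ≫ V ◁ φ ≫ (ρ_ V).hom ≫ (λ_ V).inv) (fun {V V'} h => by
    rw [b.naturality_assoc, ← whisker_exchange_assoc]; monoidal) V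
  unfold lift
  calc _ = (Φ.ex (fun V => (b.β V).hom ≫ V ◁ φ ≫ (ρ_ V).hom ≫ (λ_ V).inv) ▷ V ≫
        (α_ _ _ _).hom ≫ 𝟙_ A ◁ Φ.π V) ≫ (λ_ V).hom := by monoidal
    _ = _ := by rw [h]; monoidal

theorem lift_comm {z : A} (b : HalfBraiding z) (φ : z ⟶ 𝟙_ A) (U : A) :
    Φ.lift b φ ▷ U ≫ Φ.γ U = (b.β U).hom ≫ U ◁ Φ.lift b φ := by
  apply Φ.uniq
  intro V
  rw [comp_whiskerRight, Category.assoc, γ_spec, associator_naturality_left_assoc, lift_spec,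
    b.monoidal]
  symm
  calc _ = (b.β U).hom ▷ V ≫ (α_ _ _ _).hom ≫ U ◁ (Φ.lift b φ ▷ V ≫ Φ.π V) := by monoidal
    _ = _ := by rw [lift_spec]; monoidal

theorem lift_ε {z : A} (b : HalfBraiding z) (φ : z ⟶ 𝟙_ A) : Φ.lift b φ ≫ Φ.εW = φ := by
  unfold εW
  rw [rightUnitor_inv_naturality_assoc, lift_spec, half_unit]; monoidal

theorem cen_π {z : A} (g : ∀ U, z ⊗ U ⟶ U ⊗ z) (α : z ⟶ Φ.W)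
    (h : ∀ U, α ▷ U ≫ Φ.γ U = g U ≫ U ◁ α) (V : A) :
    α ▷ V ≫ Φ.π V = g V ≫ V ◁ (α ≫ Φ.εW) ≫ (ρ_ V).hom := by
  rw [π_eq, reassoc_of% (h V), MonoidalCategory.whiskerLeft_comp, Category.assoc]

theorem cen_inj {z : A} (g : ∀ U, z ⊗ U ⟶ U ⊗ z) (α α' : z ⟶ Φ.W)
    (h1 : ∀ U, α ▷ U ≫ Φ.γ U = g U ≫ U ◁ α) (h2 : ∀ U, α' ▷ U ≫ Φ.γ U = g U ≫ U ◁ α')
    (h : α ≫ Φ.εW = α' ≫ Φ.εW) : α = α' := by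
  apply Φ.uniq1
  intro V
  rw [Φ.cen_π g α h1, Φ.cen_π g α' h2, h]

noncomputable def ψ : 𝟙_ A ⟶ Φ.W := (du (Φ.X Φ.o)).η ≫ Φ.iW Φ.o

theorem iW_q (i : J) :
    Φ.iW i ▷ Φ.X i ≫ Φ.q i = (α_ _ _ _).hom ≫ Φ.X i ◁ (du (Φ.X i)).ε ≫ (ρ_ _).hom := by
  unfold q Du.unR
  rw [← comp_whiskerRight_assoc, iW_pW]; simp

theorem iW_q_ne {i j : J} (h : i ≠ j) : Φ.iW i ▷ Φ.X j ≫ Φ.q j = 0 := by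
  unfold q Du.unR
  rw [← comp_whiskerRight_assoc, Φ.iW_pW_ne h]; simp

theorem iW_π (i : J) {V : A} (φ : Frame Φ.X V) : Φ.iW i ▷ V ≫ Φ.π V =
    ∑ a, (α_ _ _ _).hom ≫ Φ.X i ◁ (((Φ.X i)ᘁ : A) ◁ φ.f i a ≫ (du (Φ.X i)).ε) ≫ (ρ_ _).hom ≫ φ.e i a := by
  rw [Φ.π_frame φ, Preadditive.comp_sum, Finset.sum_eq_single i]
  · rw [Preadditive.comp_sum]
    refine Finset.sum_congr rfl fun a _ => ?_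
    rw [← whisker_exchange_assoc, reassoc_of% (Φ.iW_q i)]; monoidal
  · intro j _ hj
    rw [Preadditive.comp_sum]
    refine Finset.sum_eq_zero fun a _ => ?_
    rw [← whisker_exchange_assoc, reassoc_of% (Φ.iW_q_ne (Ne.symm hj))]; simp
  · simp

theorem delta {V : A} (φ : Frame Φ.X V) :
    (λ_ V).inv ≫ Φ.ψ ▷ V ≫ Φ.π V = ∑ a, φ.f Φ.o a ≫ φ.e Φ.o a := by
  unfold ψ
  rw [comp_whiskerRight, Category.assoc, Φ.iW_π Φ.o φ, Preadditive.comp_sum, Preadditive.comp_sum]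
  refine Finset.sum_congr rfl fun a _ => ?_
  calc _ = 𝟙 _ ⊗≫ ((du (Φ.X Φ.o)).η ▷ V ≫ (Φ.X Φ.o ⊗ (Φ.X Φ.o)ᘁ) ◁ φ.f Φ.o a) ⊗≫
        Φ.X Φ.o ◁ (du (Φ.X Φ.o)).ε ⊗≫ φ.e Φ.o a := by monoidal
    _ = φ.f Φ.o a ⊗≫ ((du (Φ.X Φ.o)).η ▷ Φ.X Φ.o ⊗≫ Φ.X Φ.o ◁ (du (Φ.X Φ.o)).ε) ⊗≫ φ.e Φ.o a := by
      rw [← whisker_exchange]; monoidal
    _ = _ := by rw [Du.z2]; monoidal

theorem tad0 (i : J) {i' : J} (h : i' ≠ Φ.o) (V : A) (w : Φ.X i' ⟶ (Φ.X i)ᘁ ⊗ V) :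
    Φ.X i ◁ w ≫ (α_ _ _ _).inv ≫ Φ.iW i ▷ V ≫ Φ.π V = 0 := by
  rw [Φ.iW_π i (Φ.ss.fr V), Preadditive.comp_sum, Preadditive.comp_sum]
  refine Finset.sum_eq_zero fun a _ => ?_
  rw [Iso.inv_hom_id_assoc, ← MonoidalCategory.whiskerLeft_comp_assoc, Φ.to_unit_zero h (w ≫ _)]
  simp

theorem tad1 (f : Φ.W ⟶ Φ.W) (hf : ∀ U, f ▷ U ≫ Φ.γ U = Φ.γ U ≫ U ◁ f)
    (h0 : Φ.ψ ≫ f ≫ Φ.εW = 0) (i : J) (V : A) (w : 𝟙_ A ⟶ (Φ.X i)ᘁ ⊗ V) :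
    Φ.X i ◁ w ≫ (α_ _ _ _).inv ≫ Φ.iW i ▷ V ≫ f ▷ V ≫ Φ.π V = 0 := by
  have ho : Φ.iW Φ.o ≫ f ≫ Φ.εW = 0 := by
    apply Φ.sep1
    intro w
    rw [← (du (Φ.X Φ.o)).η_capR w, (Φ.ss.sim Φ.o).spec ((du (Φ.X Φ.o)).capR w)]
    unfold ψ at h0
    simp only [Category.assoc] at h0
    simp [h0]
  have hπ : f ▷ V ≫ Φ.π V = ∑ i', (du (Φ.X i')).toR ((α_ _ _ _).hom ≫ Φ.π (V ⊗ Φ.X i')) ≫
      (α_ _ _ _).hom ≫ V ◁ (Φ.iW i' ≫ f ≫ Φ.εW) ≫ (ρ_ V).hom := by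
    rw [Φ.cen_π Φ.γ f hf]
    unfold γ ex
    rw [Preadditive.sum_comp]
    simp
  rw [hπ, Preadditive.comp_sum, Preadditive.comp_sum, Preadditive.comp_sum]
  refine Finset.sum_eq_zero fun i' _ => ?_
  by_cases hi : i' = Φ.o
  · subst hi; rw [ho]; simp
  · have h1 := Φ.tad0 i hi (V ⊗ Φ.X i') ((λ_ _).inv ≫ w ▷ Φ.X i' ≫ (α_ _ _ _).hom)
    calc _ = 𝟙 _ ⊗≫ ((Φ.X i ◁ w ≫ (α_ _ _ _).inv ≫ Φ.iW i ▷ V) ▷ 𝟙_ A ≫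
          (Φ.W ⊗ V) ◁ (du (Φ.X i')).η) ⊗≫ Φ.π (V ⊗ Φ.X i') ▷ (Φ.X i')ᘁ ⊗≫
          V ◁ (Φ.iW i' ≫ f ≫ Φ.εW) ⊗≫ 𝟙 _ := by
          unfold Du.toR; monoidal
      _ = 𝟙 _ ⊗≫ Φ.X i ◁ (du (Φ.X i')).η ⊗≫ (Φ.X i ◁ ((λ_ _).inv ≫ w ▷ Φ.X i' ≫
          (α_ _ _ _).hom) ≫ (α_ _ _ _).inv ≫ Φ.iW i ▷ (V ⊗ Φ.X i') ≫
          Φ.π (V ⊗ Φ.X i')) ▷ (Φ.X i')ᘁ ⊗≫
          V ◁ (Φ.iW i' ≫ f ≫ Φ.εW) ⊗≫ 𝟙 _ := by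
          rw [← whisker_exchange]; monoidal
      _ = 0 := by rw [h1]; simp [monoidalComp]

theorem tad (f : Φ.W ⟶ Φ.W) (hf : ∀ U, f ▷ U ≫ Φ.γ U = Φ.γ U ≫ U ◁ f)
    (h0 : Φ.ψ ≫ f ≫ Φ.εW = 0) {d : A} (P : Du Φ.W d) : P.η ≫ f ▷ d ≫ Φ.γ d ≫ P.ε = 0 := by
  conv_lhs => unfold γ ex
  rw [Preadditive.sum_comp, Preadditive.comp_sum, Preadditive.comp_sum]
  refine Finset.sum_eq_zero fun i _ => ?_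
  obtain ⟨e, ⟨R⟩⟩ : ∃ e, Nonempty (Du ((Φ.X i)ᘁ : A) e) := ⟨_, ⟨du _⟩⟩
  have hε := ((du (Φ.X i)).tensor R).mate_ε P (Φ.iW i)
  have hη := ((du (Φ.X i)).tensor R).mate_η P (Φ.iW i)
  generalize ((du (Φ.X i)).tensor R).mate P (Φ.iW i) = m at hε hη
  have hr : (du (Φ.X i)).toR ((du (Φ.X i)).unR m) = m := (du (Φ.X i)).toR_unR m
  calc _ = P.η ⊗≫ f ▷ d ⊗≫ (Φ.W ⊗ d) ◁ (du (Φ.X i)).η ⊗≫ Φ.π (d ⊗ Φ.X i) ▷ (Φ.X i)ᘁ ⊗≫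
          (d ◁ Φ.iW i ≫ P.ε) := by
        unfold Du.toR; monoidal
    _ = P.η ⊗≫ f ▷ d ⊗≫ (Φ.W ⊗ d) ◁ (du (Φ.X i)).η ⊗≫
          (Φ.π (d ⊗ Φ.X i) ≫ (du (Φ.X i)).unR m) ▷ (Φ.X i)ᘁ ⊗≫ R.ε := by
        rw [← hε, Du.tensor_ε]; unfold Du.unR; monoidal
    _ = P.η ⊗≫ (f ▷ d ≫ Φ.W ◁ (du (Φ.X i)).toR ((du (Φ.X i)).unR m)) ⊗≫ Φ.π e ▷ (Φ.X i)ᘁ ⊗≫
          R.ε := by
        rw [← π_nat]; unfold Du.toR; monoidal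
    _ = (P.η ≫ Φ.W ◁ m) ⊗≫ (f ▷ e ≫ Φ.π e) ▷ (Φ.X i)ᘁ ⊗≫ R.ε := by
        rw [hr, ← whisker_exchange]; monoidal
    _ = (du (Φ.X i)).η ⊗≫ (Φ.X i ◁ R.η ≫ (α_ _ _ _).inv ≫ Φ.iW i ▷ e ≫ f ▷ e ≫
          Φ.π e) ▷ (Φ.X i)ᘁ ⊗≫ R.ε := by
        rw [hη, Du.tensor_η]; monoidal
    _ = 0 := by rw [Φ.tad1 f hf h0]; simp [monoidalComp]

theorem ψ_ε : Φ.ψ ≫ Φ.εW = 𝟙 _ := by
  have h := Φ.delta (Φ.ss.fr (𝟙_ A))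
  have h2 := (Φ.ss.fr (𝟙_ A)).tot
  rw [Finset.sum_eq_single Φ.o] at h2
  · rw [h2] at h
    rw [← h]; unfold εW; monoidal
  · intro j _ hj
    exact Finset.sum_eq_zero fun a _ => by rw [Φ.to_unit_zero hj ((Φ.ss.fr (𝟙_ A)).e j a)]; simp
  · simp

end Fusion

end Pool.Agent.Lib.MP_edb142_al
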