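import Pool.Agent.Lib.MP_edb142_al.Mod

open CategoryTheory MonoidalCategory Limits Matrix
open scoped Kronecker

set_option linter.unusedSectionVars false

namespace Pool.Agent.Lib.MP_edb142_al

universe v u

structure Site {I : Type} [Fintype I] [DecidableEq I] (S : Matrix I I ℂ) (T : I → ℂ) (o : I) :
    Prop where
  sym : Sᵀ = S
  unit : IsUnit S.det
  one : S o o = 1
  Tone : T o = 1
  Tne : ∀ x, T x ≠ 0
  dne : ∀ x, S x o ≠ 0
  real : ∀ (σ : ℂ →+* ℂ) x, (starRingEnd ℂ) (σ (S x o)) = σ (S x o)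
  two : ∀ y, y ≠ o → (S * S) o y = 0
  four : S * S * (S * S) = (S * S) o o ^ 2 • (1 : Matrix I I ℂ)
  gal : ∀ (σ : ℂ →+* ℂ) x, ∃ x', ∀ y, σ (S y x) * S x' o = σ (S x o) * S y x'

variable {I : Type} [Fintype I] [DecidableEq I]

theorem Site.sy {S : Matrix I I ℂ} {T : I → ℂ} {o : I} (h : Site S T o) (x y : I) : S x y = S y x :=
  (congrFun (congrFun h.sym x) y).symm

theorem Site.D_ne {S : Matrix I I ℂ} {T : I → ℂ} {o : I} (h : Site S T o) : (S * S) o o ≠ 0 := by
  intro h0
  have e := congrArg det h.four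
  have : Nonempty I := ⟨o⟩
  rw [h0, zero_pow two_ne_zero, zero_smul, det_zero, det_mul, det_mul] at e
  have := h.unit.ne_zero
  exact mul_ne_zero (mul_ne_zero this this) (mul_ne_zero this this) e

theorem Site.factor {K A : Type} [Fintype K] [DecidableEq K] [Fintype A] [DecidableEq A]
    {SE : Matrix K K ℂ} {TE : K → ℂ} {oA : A} {o : I} (e : A × I ≃ K) (h : Site SE TE (e (oA, o)))
    (SA : Matrix A A ℂ) (TA : A → ℂ) (S : Matrix I I ℂ) (T : I → ℂ)
    (hS : ∀ a b, SE (e a) (e b) = SA a.1 b.1 * S a.2 b.2) (hT : ∀ a, TE (e a) = TA a.1 * T a.2)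
    (h1 : S o o = 1) (h2 : T o = 1) : Site S T o := by
  have a1 : SA oA oA = 1 := by have := h.one; rwa [hS, h1, mul_one] at this
  have em : ∀ x y, S x y = SE (e (oA, x)) (e (oA, y)) := fun x y => by rw [hS, a1, one_mul]
  have k : SE.submatrix e e = SA ⊗ₖ S := by ext a b; exact hS a b
  have k2 : (SE * SE).submatrix e e = (SA * SA) ⊗ₖ (S * S) := by
    rw [mul_kronecker_mul, ← k, submatrix_mul_equiv]
  have k4 : (SE * SE * (SE * SE)).submatrix e e = (SA * SA * (SA * SA)) ⊗ₖ (S * S * (S * S)) := by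
    rw [mul_kronecker_mul, ← k2, submatrix_mul_equiv]
  have q2 : ∀ y, (SE * SE) (e (oA, o)) (e (oA, y)) = (SA * SA) oA oA * (S * S) o y :=
    fun y => congrFun (congrFun k2 (oA, o)) (oA, y)
  have q4 : ∀ x y, (SE * SE * (SE * SE)) (e (oA, x)) (e (oA, y)) =
      (SA * SA * (SA * SA)) oA oA * (S * S * (S * S)) x y :=
    fun x y => congrFun (congrFun k4 (oA, x)) (oA, y)
  have hD := h.D_ne
  have two : ∀ y, y ≠ o → (S * S) o y = 0 := fun y hy => by
    have := h.two (e (oA, y)) (by simp [hy])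
    rw [q2] at this hD
    exact (mul_eq_zero.1 this).resolve_left (left_ne_zero_of_mul hD)
  refine ⟨?_, ?_, h1, h2, fun x => ?_, fun x => em x o ▸ h.dne _, fun σ x => em x o ▸ h.real σ _,
    two, ?_, fun σ x => ?_⟩
  · ext x y; rw [transpose_apply, em, em, h.sy]
  · have : Nonempty A := ⟨oA⟩
    have u := h.unit.ne_zero
    rw [← det_submatrix_equiv_self e, k, det_kronecker] at u
    exact (ne_zero_pow Fintype.card_ne_zero (right_ne_zero_of_mul u)).isUnit
  · exact right_ne_zero_of_mul (hT (oA, x) ▸ h.Tne _)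
  · rw [h.four] at q4
    simp only [Matrix.smul_apply, smul_eq_mul] at q4
    have q := q4 o o
    rw [one_apply_eq, mul_one] at q
    have a4 : (SA * SA * (SA * SA)) oA oA ≠ 0 := left_ne_zero_of_mul (q ▸ pow_ne_zero 2 hD)
    have q' : (S * S * (S * S)) o o = (S * S) o o ^ 2 := by
      rw [Matrix.mul_apply, Finset.sum_eq_single o (fun y _ hy => by rw [two y hy, zero_mul])
        (by simp), pow_two]
    ext x y
    apply mul_left_cancel₀ a4
    rw [← q4, q, q', Matrix.smul_apply, smul_eq_mul, mul_assoc]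
    simp [one_apply]
  · obtain ⟨x', hx⟩ := h.gal σ (e (oA, x))
    obtain ⟨⟨a, x'⟩, rfl⟩ := e.surjective x'
    refine ⟨x', fun y => ?_⟩
    have h3 := hx (e (oA, y))
    have h4 := h.dne (e (a, x'))
    have h5 : SA oA a = SA a oA := by
      have := h.sy (e (oA, o)) (e (a, o))
      rwa [hS, hS, h1, mul_one, mul_one] at this
    rw [← em, ← em, hS, hS] at h3
    rw [hS] at h4
    apply mul_left_cancel₀ (left_ne_zero_of_mul h4)
    simp only [h5] at h3 ⊢
    linear_combination h3

variable {C : Type u} [Category.{v} C] [Preadditive C] [Linear ℂ C] [MonoidalCategory C]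
  [MonoidalPreadditive C] [MonoidalLinear ℂ C] [HasFiniteBiproducts C] [BraidedCategory C]
  [RigidCategory C]

namespace Modular
variable (M : Modular C I)

theorem col_ne {i j : I} (h : ∀ k, M.s i (M.X k) = M.s j (M.X k)) : i = j := by
  by_contra hne
  apply M.S_det
  rw [← exists_mulVec_eq_zero_iff]
  refine ⟨Pi.single i (M.dim j) - Pi.single j (M.dim i), fun h0 => M.dim_ne j ?_, ?_⟩
  · simpa [hne] using congrFun h0 i
  · funext k
    simp only [mulVec_sub, mulVec_single, Pi.sub_apply, Pi.smul_apply, col_apply, S_s, h,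
      MulOpposite.smul_eq_mul_unop, MulOpposite.unop_op, Pi.zero_apply]
    ring

theorem orth {i j : I} (h : i ≠ j) : ∑ m, (starRingEnd ℂ) (M.S m i) * M.S m j = 0 := by
  have key : ∀ (l : I) (W : C) (m : I), M.s l W * M.s l (M.X m) =
      ∑ r, (Module.finrank ℂ (M.X r ⟶ W ⊗ M.X m) : ℂ) * M.s l (M.X r) := by
    intro l W m
    rw [← s_tensor, s_dec]
  obtain ⟨k, hk⟩ : ∃ k, M.s i (M.X k) ≠ M.s j (M.X k) := by
    by_contra hk
    push Not at hk
    exact h (M.col_ne hk)
  have tr : ∀ m r, Module.finrank ℂ (M.X m ⟶ (M.X k)ᘁ ⊗ M.X r) =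
      Module.finrank ℂ (M.X r ⟶ M.X k ⊗ M.X m) := by
    intro m r
    rw [M.ss.finrank_symm, ((du (M.X k)).eqvL _ _).finrank_eq]
  have e1 : M.s j (M.X k) * ∑ m, (starRingEnd ℂ) (M.s i (M.X m)) * M.s j (M.X m) =
      ∑ m, ∑ r, (Module.finrank ℂ (M.X r ⟶ M.X k ⊗ M.X m) : ℂ) *
        ((starRingEnd ℂ) (M.s i (M.X m)) * M.s j (M.X r)) := by
    rw [Finset.mul_sum]
    refine Finset.sum_congr rfl fun m _ => ?_
    rw [mul_left_comm, key, Finset.mul_sum]
    exact Finset.sum_congr rfl fun r _ => by ring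
  have e2 : (starRingEnd ℂ) (M.s i ((M.X k)ᘁ)) *
      ∑ m, (starRingEnd ℂ) (M.s i (M.X m)) * M.s j (M.X m) =
      ∑ r, ∑ m, (Module.finrank ℂ (M.X r ⟶ M.X k ⊗ M.X m) : ℂ) *
        ((starRingEnd ℂ) (M.s i (M.X m)) * M.s j (M.X r)) := by
    rw [Finset.mul_sum]
    refine Finset.sum_congr rfl fun r _ => ?_
    rw [← mul_assoc, ← map_mul, key, map_sum, Finset.sum_mul]
    refine Finset.sum_congr rfl fun m _ => ?_
    rw [tr, map_mul, map_natCast]; ring
  have e3 := M.s_conj (RingHom.id ℂ) i (du (M.X k))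
  simp only [RingHom.id_apply] at e3
  rw [Finset.sum_comm, ← e1, e3, Complex.conj_conj, ← sub_eq_zero, ← sub_mul, mul_eq_zero,
    or_iff_right (sub_ne_zero.2 hk)] at e2
  simp only [S_s, map_mul]
  rw [← mul_zero ((starRingEnd ℂ) (M.dim i) * M.dim j), ← e2, Finset.mul_sum]
  exact Finset.sum_congr rfl fun m _ => by ring

theorem site : Site M.S M.T M.o := by
  have hu : IsUnit M.S := (isUnit_iff_isUnit_det _).2 M.S_det.isUnit
  let B : Matrix I I ℂ := M.S.map (starRingEnd ℂ)
  let N : Matrix I I ℂ := of fun k r => (Module.finrank ℂ (M.X r ⟶ (M.X k)ᘁ) : ℂ)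
  have hB : B = N * M.S := by
    ext k j
    have e3 := M.s_conj (RingHom.id ℂ) j (du (M.X k))
    simp only [RingHom.id_apply] at e3
    simp only [B, N, map_apply, Matrix.mul_apply, of_apply, S_s, map_mul, dim_real, ← e3,
      M.s_dec j ((M.X k)ᘁ), Finset.sum_mul, mul_assoc]
  have hN : N * N = 1 := by
    apply hu.mul_right_cancel
    rw [mul_assoc, ← hB, one_mul]
    ext k j
    have := congrArg (starRingEnd ℂ) (congrFun (congrFun hB k) j)
    simp only [B, N, map_apply, Matrix.mul_apply, of_apply, map_sum, map_mul, map_natCast,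
      Complex.conj_conj] at this ⊢
    exact this.symm
  have d1 : ∀ i j, i ≠ j → (B * M.S) i j = 0 := fun i j h => by
    rw [← M.orth h, Matrix.mul_apply]
    exact Finset.sum_congr rfl fun m _ => by rw [M.S_symm m i]; rfl
  have d2 : M.S * B = B * M.S := by
    ext i j
    by_cases h : i = j
    · subst h
      simp only [Matrix.mul_apply, B, map_apply]
      exact Finset.sum_congr rfl fun m _ => by rw [M.S_symm m i, mul_comm]
    · rw [d1 i j h, ← M.orth (Ne.symm h), Matrix.mul_apply]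
      exact Finset.sum_congr rfl fun m _ => by rw [M.S_symm m i, mul_comm]; rfl
  have d3 : B * M.S = (B * M.S) M.o M.o • (1 : Matrix I I ℂ) := by
    ext i j
    by_cases h : i = j
    · subst h
      have e : M.S * (B * M.S) = B * M.S * M.S := by rw [← mul_assoc, d2]
      have := congrFun (congrFun e i) M.o
      rw [Matrix.mul_apply, Finset.sum_eq_single M.o (fun x _ hx => by rw [d1 x _ hx, mul_zero])
        (by simp), Matrix.mul_apply (M := B * M.S), Finset.sum_eq_single i
        (fun x _ hx => by rw [d1 _ x hx.symm, zero_mul]) (by simp), mul_comm, S_o',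
        mul_left_inj' (M.dim_ne i)] at this
      simp [this]
    · simp [d1 i j h, h]
  have d4 : ∀ y, (M.S * M.S) M.o y = (B * M.S) M.o y := fun y => by
    simp only [Matrix.mul_apply, B, map_apply, S_o, dim_real]
  refine ⟨?_, M.S_det.isUnit, by rw [S_o, dim_o], M.T_o, M.T_ne, fun x => M.S_o' x ▸ M.dim_ne x,
    fun σ x => ?_, fun y hy => by rw [d4, d1 _ _ hy.symm], ?_, fun σ x => ?_⟩
  · ext i j; exact M.S_symm j i
  · have e1 := M.s_conj (RingHom.id ℂ) M.o (du (M.X x))
    have e2 := M.s_conj σ M.o (du (M.X x))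
    simp only [RingHom.id_apply, s_o_X, dim_real] at e1
    rw [e1, s_o_X] at e2
    rw [S_o', ← e2]
  · have e : M.S * M.S = (B * M.S) M.o M.o • N := by
      have := congrArg (N * ·) d3
      simp only [Matrix.mul_smul, mul_one] at this
      rw [← this, hB, ← mul_assoc, ← mul_assoc, hN, one_mul]
    rw [d4]
    conv_lhs => rw [e]
    rw [Matrix.mul_smul, Matrix.smul_mul, hN, smul_smul, pow_two]
  · obtain ⟨a, ha⟩ := (mulVec_surjective_iff_isUnit.2 hu) fun m => σ (M.s x (M.X m))
    obtain ⟨j, hj⟩ : ∃ j, a j ≠ 0 := by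
      by_contra h0
      push Not at h0
      have := congrFun ha M.o
      simp [mulVec, dotProduct, h0, s_o] at this
    refine ⟨j, fun y => ?_⟩
    have k : M.S *ᵥ (fun i => a i * M.s i (M.X y)) = M.S *ᵥ (fun i => a i * σ (M.s x (M.X y))) := by
      funext m
      have e1 := congrArg σ ((M.s_tensor x (M.X y) (M.X m)).symm.trans (M.s_dec x _))
      simp only [map_mul, map_sum, map_natCast, ← congrFun ha] at e1
      have e2 : ∀ i, M.S m i * (a i * M.s i (M.X y)) = ∑ r,
          (Module.finrank ℂ (M.X r ⟶ M.X y ⊗ M.X m) : ℂ) * (M.S r i * a i) := fun i => by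
        have := (M.s_tensor i (M.X y) (M.X m)).symm.trans (M.s_dec i _)
        simp only [S_s]
        rw [show M.s i (M.X m) * M.dim i * (a i * M.s i (M.X y)) =
          M.s i (M.X y) * M.s i (M.X m) * (M.dim i * a i) by ring, this, Finset.sum_mul]
        exact Finset.sum_congr rfl fun r _ => by ring
      simp only [mulVec, dotProduct, ← congrFun ha] at e1 ⊢
      simp only [e2]
      rw [Finset.sum_comm]
      simp only [← Finset.mul_sum]
      rw [← e1, mul_comm, Finset.sum_mul]
      exact Finset.sum_congr rfl fun r _ => by ring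
    have := mul_left_cancel₀ hj (congrFun (mulVec_injective_iff_isUnit.2 hu k) j)
    rw [S_o', S_o', S_s, S_s, map_mul, this]
    ring

end Modular

end Pool.Agent.Lib.MP_edb142_al
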