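import Mathlib

open Matrix

set_option linter.unusedSectionVars false

namespace Pool.Agent.Lib.MP_edb142_al

section Spec
open scoped Matrix.Norms.L2Operator

theorem spec_res {n : Type} [Fintype n] [DecidableEq n] (g : Matrix n n ℂ) (hg : IsStarNormal g) :
    ∃ (Λ : Finset ℂ) (P : ℂ → Matrix n n ℂ), ∑ l ∈ Λ, P l = 1 ∧ (∀ l, g * P l = l • P l) ∧
      (∀ l, P l * g = l • P l) ∧ ∀ l, (P l)ᴴ = P l := by
  classical
  have hf : (spectrum ℂ g).Finite := Matrix.finite_spectrum g
  have hc : ∀ f : ℂ → ℂ, ContinuousOn f (spectrum ℂ g) := fun f => hf.continuousOn f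
  refine ⟨hf.toFinset, fun l => cfc (fun z : ℂ => if z = l then (1 : ℂ) else 0) g, ?_, ?_, ?_, ?_⟩
  · rw [← cfc_sum _ _ _ (fun _ _ => hc _), ← cfc_one ℂ g]
    apply cfc_congr
    intro z hz
    simp [Finset.sum_apply, hz]
  · intro l
    conv_lhs => lhs; rw [← cfc_id ℂ g]
    rw [← cfc_mul _ _ _ (hc _) (hc _), ← cfc_smul _ _ _ (hc _)]
    apply cfc_congr
    intro z hz
    by_cases h : z = l <;> simp [h]
  · intro l
    conv_lhs => rhs; rw [← cfc_id ℂ g]
    rw [← cfc_mul _ _ _ (hc _) (hc _), ← cfc_smul _ _ _ (hc _)]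
    apply cfc_congr
    intro z hz
    by_cases h : z = l <;> simp [h]
  · intro l
    rw [← Matrix.star_eq_conjTranspose, ← cfc_star]
    apply cfc_congr
    intro z hz
    by_cases h : z = l <;> simp [h]

end Spec

theorem exists_val (l : ℂ) (h0 : l ≠ 0) (h : ∀ N : ℕ, 0 < N → l ^ N ≠ 1) :
    ∃ v : ℂ → ℝ, (∀ a b, a ≠ 0 → b ≠ 0 → v (a * b) = v a + v b) ∧ v l = 1 := by
  classical
  have hi : Function.Injective (zmultiplesHom (Additive ℂˣ) (Additive.ofMul (Units.mk0 l h0))) := by
    rw [injective_iff_map_eq_zero]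
    intro k hk
    have h1 : (Units.mk0 l h0) ^ k = 1 := hk
    have h2 : l ^ k = 1 := by simpa using congrArg Units.val h1
    by_contra hk0
    apply h k.natAbs (Int.natAbs_pos.2 hk0)
    rcases Int.natAbs_eq k with e | e
    · rw [e, zpow_natCast] at h2; exact h2
    · rw [e, _root_.zpow_neg, zpow_natCast, inv_eq_one] at h2; exact h2
  obtain ⟨φ, hφ⟩ := (Module.Baer.of_divisible ℝ).extension_property_addMonoidHom _ hi
    (Int.castAddHom ℝ)
  refine ⟨fun a => if ha : a = 0 then 0 else φ (Additive.ofMul (Units.mk0 a ha)), ?_, ?_⟩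
  · intro a b ha hb
    simp only [ha, hb, mul_ne_zero ha hb, dite_false]
    rw [← map_add, ← ofMul_mul, Units.mk0_mul]
  · have := DFunLike.congr_fun hφ 1
    simpa [h0] using this

variable {ι : Type} [Fintype ι] [DecidableEq ι] {I : ι → Type} [∀ i, Fintype (I i)]
  [∀ i, DecidableEq (I i)]

noncomputable def kron (g : ∀ i, Matrix (I i) (I i) ℂ) : Matrix (∀ i, I i) (∀ i, I i) ℂ :=
  Matrix.of fun y z => ∏ i, g i (y i) (z i)

theorem kron_mul (g h : ∀ i, Matrix (I i) (I i) ℂ) : kron g * kron h = kron fun i => g i * h i := by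
  ext y z
  simp only [kron, Matrix.mul_apply, Matrix.of_apply]
  rw [Finset.prod_univ_sum, Fintype.piFinset_univ]
  exact Finset.sum_congr rfl fun w _ => by rw [Finset.prod_mul_distrib]

theorem kron_smul (c : ι → ℂ) (g : ∀ i, Matrix (I i) (I i) ℂ) :
    (kron fun i => c i • g i) = (∏ i, c i) • kron g := by
  ext y z
  simp [kron, Finset.prod_mul_distrib]

theorem kron_diag (r : ∀ i, I i → ℂ) :
    (kron fun i => diagonal (r i)) = diagonal fun y => ∏ i, r i (y i) := by
  ext y z
  simp only [kron, Matrix.of_apply, diagonal_apply]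
  by_cases h : y = z
  · subst h; simp
  · rw [if_neg h]
    obtain ⟨i, hi⟩ := Function.ne_iff.1 h
    exact Finset.prod_eq_zero (Finset.mem_univ i) (by rw [if_neg hi])

theorem kron_one : (kron fun i => (1 : Matrix (I i) (I i) ℂ)) = 1 := by
  have := kron_diag (I := I) fun _ _ => 1
  simpa using this

theorem kron_sum (Λ : ι → Finset ℂ) (Q : ∀ i, ℂ → Matrix (I i) (I i) ℂ) :
    (kron fun i => ∑ l ∈ Λ i, Q i l) = ∑ l ∈ Fintype.piFinset Λ, kron fun i => Q i (l i) := by
  ext y z
  simp only [kron, Matrix.of_apply, Matrix.sum_apply]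
  rw [Finset.prod_univ_sum]

noncomputable def der (X : ∀ i, Matrix (I i) (I i) ℂ) : Matrix (∀ i, I i) (∀ i, I i) ℂ :=
  ∑ i, kron (Function.update (fun j => (1 : Matrix (I j) (I j) ℂ)) i (X i))

theorem kron_der (G X X' : ∀ i, Matrix (I i) (I i) ℂ) (h : ∀ i, G i * X i = X' i * G i) :
    kron G * der X = der X' * kron G := by
  unfold der
  rw [Finset.mul_sum, Finset.sum_mul]
  refine Finset.sum_congr rfl fun i _ => ?_
  rw [kron_mul, kron_mul]
  congr 1
  funext j
  by_cases hj : j = i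
  · subst hj; simp [h]
  · simp [Function.update_of_ne hj]

theorem kron_update_mulVec (i : ι) (X : Matrix (I i) (I i) ℂ) (x : (∀ i, I i) → ℂ) (y : ∀ i, I i) :
    (kron (Function.update (fun j => (1 : Matrix (I j) (I j) ℂ)) i X) *ᵥ x) y =
      ∑ b, X (y i) b * x (Function.update y i b) := by
  simp only [mulVec, dotProduct, kron, Matrix.of_apply]
  symm
  refine Finset.sum_of_injOn (fun b => Function.update y i b) ?_ (by simp) ?_ ?_
  · intro b _ b' _ h
    simpa using congrFun h i
  · intro z _ hz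
    have : ∃ j, j ≠ i ∧ y j ≠ z j := by
      by_contra hh
      push Not at hh
      apply hz
      refine Finset.mem_image.2 ⟨z i, Finset.mem_univ _, ?_⟩ |> fun h => by simpa using h
      funext j
      by_cases hj : j = i
      · subst hj; simp
      · simp [Function.update_of_ne hj, hh j hj]
    obtain ⟨j, hj, hyz⟩ := this
    rw [Finset.prod_eq_zero (Finset.mem_univ j), zero_mul]
    simp [Function.update_of_ne hj, hyz]
  · intro b _
    congr 1
    rw [Finset.prod_eq_single i]
    · simp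
    · intro j _ hj
      simp [Function.update_of_ne hj]
    · simp

variable {J : Type} [Fintype J]

def Kill (x : J → (∀ i, I i) → ℂ) (X : ∀ i, Matrix (I i) (I i) ℂ) : Prop := ∀ a, der X *ᵥ x a = 0

theorem Kill.conj {x : J → (∀ i, I i) → ℂ} {X : ∀ i, Matrix (I i) (I i) ℂ} (hX : Kill x X)
    (G X' : ∀ i, Matrix (I i) (I i) ℂ) (M : J → J → ℂ)
    (hG : ∀ a, x a = ∑ b, M a b • (kron G *ᵥ x b)) (h : ∀ i, G i * X i = X' i * G i) :
    Kill x X' := by
  intro a
  rw [hG a, mulVec_sum]
  refine Finset.sum_eq_zero fun b _ => ?_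
  rw [mulVec_smul, mulVec_mulVec, ← kron_der G X X' h, ← mulVec_mulVec, hX b]; simp

theorem Kill.eval {x : J → (∀ i, I i) → ℂ} {X : ∀ i, Matrix (I i) (I i) ℂ} (hX : Kill x X)
    (a : J) (o : ∀ i, I i) (hx0 : x a o ≠ 0)
    (h1 : ∀ i b, b ≠ o i → x a (Function.update o i b) = 0)
    (h2 : ∀ i i' m b, i ≠ i' → m ≠ o i → b ≠ o i' →
      x a (Function.update (Function.update o i m) i' b) = 0)
    (i0 : ι) (m : I i0) (hm : m ≠ o i0) : X i0 m (o i0) = 0 := by
  have h := congrFun (hX a) (Function.update o i0 m)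
  unfold der at h
  rw [sum_mulVec, Finset.sum_apply, Finset.sum_eq_single i0, kron_update_mulVec,
    Finset.sum_eq_single (o i0)] at h
  · simpa [hx0] using h
  · intro b _ hb
    rw [Function.update_idem, h1 i0 b hb, mul_zero]
  · simp
  · intro i _ hi
    rw [kron_update_mulVec]
    refine Finset.sum_eq_zero fun b _ => ?_
    by_cases hb : b = o i
    · have : Function.update (Function.update o i0 m) i b = Function.update o i0 m := by
        rw [Function.update_eq_self_iff, Function.update_of_ne hi, hb]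
      rw [this, h1 i0 m hm, mul_zero]
    · rw [h2 i0 i m b (Ne.symm hi) hm hb, mul_zero]
  · simp

theorem kill_spec (x : J → (∀ i, I i) → ℂ) (g : ∀ i, Matrix (I i) (I i) ℂ)
    (hg : ∀ a, kron g *ᵥ x a = x a) (Λ : ι → Finset ℂ) (P : ∀ i, ℂ → Matrix (I i) (I i) ℂ)
    (hP1 : ∀ i, ∑ l ∈ Λ i, P i l = 1) (hP2 : ∀ i l, P i l * g i = l • P i l)
    (v : ℂ → ℝ) (hv : ∀ a b, a ≠ 0 → b ≠ 0 → v (a * b) = v a + v b) :
    Kill x fun i => ∑ l ∈ Λ i, (v l : ℂ) • P i l := by
  intro a
  have hv1 : v 1 = 0 := by have := hv 1 1 one_ne_zero one_ne_zero; simp at this; exact this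
  have hvp : ∀ (s : Finset ι) (l : ι → ℂ), ∏ i ∈ s, l i ≠ 0 → v (∏ i ∈ s, l i) = ∑ i ∈ s, v (l i) := by
    intro s l
    induction s using Finset.induction_on with
    | empty => simp [hv1]
    | insert i s hi ih =>
      rw [Finset.prod_insert hi, Finset.sum_insert hi]
      intro h
      rw [hv _ _ (left_ne_zero_of_mul h) (right_ne_zero_of_mul h), ih (right_ne_zero_of_mul h)]
  have e1 : ∀ i, kron (Function.update (fun j => (1 : Matrix (I j) (I j) ℂ)) i
      (∑ l ∈ Λ i, (v l : ℂ) • P i l)) =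
      ∑ l ∈ Fintype.piFinset Λ, (v (l i) : ℂ) • kron fun j => P j (l j) := by
    intro i
    have : Function.update (fun j => (1 : Matrix (I j) (I j) ℂ)) i (∑ l ∈ Λ i, (v l : ℂ) • P i l) =
        fun j => ∑ l ∈ Λ j, (if j = i then (v l : ℂ) else 1) • P j l := by
      funext j
      by_cases hj : j = i
      · subst hj; simp
      · simp [hj, hP1]
    rw [this, kron_sum]
    refine Finset.sum_congr rfl fun l _ => ?_
    rw [kron_smul]; simp
  unfold der
  simp only [e1]
  rw [Finset.sum_comm, sum_mulVec]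
  refine Finset.sum_eq_zero fun l _ => ?_
  rw [← Finset.sum_smul, smul_mulVec]
  by_cases h0 : (kron fun j => P j (l j)) *ᵥ x a = 0
  · rw [h0, smul_zero]
  · have e2 : (kron fun j => P j (l j)) *ᵥ x a = (∏ j, l j) • (kron fun j => P j (l j)) *ᵥ x a := by
      conv_lhs => rw [← hg a, mulVec_mulVec, kron_mul]
      simp only [hP2]
      rw [kron_smul, smul_mulVec]
    have e3 : ∏ j, l j = 1 := by
      apply smul_left_injective ℂ h0
      simpa using e2.symm
    have := hvp Finset.univ l (by rw [e3]; exact one_ne_zero)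
    rw [e3, hv1] at this
    rw [← Complex.ofReal_sum, ← this]; simp

end Pool.Agent.Lib.MP_edb142_al
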