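import Pool.Agent.Lib.MP_edb142_al.Rib
import Pool.Agent.Lib.MP_edb142_al.Frame

open CategoryTheory MonoidalCategory Limits BraidedCategory

set_option linter.unusedSectionVars false

namespace Pool.Agent.Lib.MP_edb142_al

universe v u v' u'

section
variable {C : Type u} [Category.{v} C] [Preadditive C] [Linear ℂ C] [MonoidalCategory C]
  [MonoidalPreadditive C] [MonoidalLinear ℂ C]

/-- the linear equivalence given by a duality -/
noncomputable def Du.eqvL {V d : C} (P : Du V d) (Z Y : C) : (d ⊗ Z ⟶ Y) ≃ₗ[ℂ] (Z ⟶ V ⊗ Y) where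
  toFun := P.toL
  map_add' g g' := by simp [Du.toL]
  map_smul' c g := by simp [Du.toL]
  invFun := P.unL
  left_inv := P.unL_toL
  right_inv := P.toL_unL

theorem Fusion.sim1 [HasFiniteBiproducts C] {I : Type} [Fintype I] (Φ : Fusion C I) :
    Sim (𝟙_ C) := (Φ.ss.sim Φ.o).of_iso Φ.unit_iso.some

end

variable {C : Type u} [Category.{v} C] [Preadditive C] [Linear ℂ C] [MonoidalCategory C]
  [MonoidalPreadditive C] [MonoidalLinear ℂ C] [HasFiniteBiproducts C] [BraidedCategory C]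
  [RigidCategory C] {I : Type} [Fintype I] [DecidableEq I]

noncomputable def du {A : Type u'} [Category.{v'} A] [MonoidalCategory A] [RigidCategory A] (V : A) :
    Du V (Vᘁ) := Du.ofEP V (Vᘁ)

namespace Modular
variable (M : Modular C I)

theorem ss : SS M.X := M.toFusion.ss
include M in
theorem s1 : Sim (𝟙_ C) := M.toFusion.sim1

noncomputable def tw : Tw C where
  t V := M.θ.app V
  nat f := M.θ.hom.naturality f
  tens := M.θ_tensor
  dual {V d} P := by
    have h1 := (du V).mate_ε P (𝟙 V)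
    have h2 : (M.θ.app (Vᘁ)).hom ▷ V ≫ (du V).ε = (Vᘁ) ◁ (M.θ.app V).hom ≫ (du V).ε := by
      have := rightAdjointMate_comp_evaluation (M.θ.hom.app V : V ⟶ V)
      rw [M.θ_dual] at this
      exact this
    have h3 := M.θ.hom.naturality ((du V).mate P (𝟙 V))
    simp only [MonoidalCategory.whiskerLeft_id, Category.id_comp, Functor.id_obj, Functor.id_map,
      Iso.app_hom] at h1 h2 h3 ⊢
    rw [← h1, ← comp_whiskerRight_assoc, ← h3, comp_whiskerRight_assoc, h2,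
      whisker_exchange_assoc]

theorem tw_X (i : I) : (M.tw.t (M.X i)).hom = M.T i • 𝟙 _ := M.T_eq i

theorem T_ne (i : I) : M.T i ≠ 0 := by
  intro h
  apply (M.ss.sim i).ne
  rw [← (M.tw.t (M.X i)).hom_inv_id, tw_X, h]; simp

theorem tw_X_inv (i : I) : (M.tw.t (M.X i)).inv = (M.T i)⁻¹ • 𝟙 _ := by
  rw [← cancel_epi (M.tw.t (M.X i)).hom, Iso.hom_inv_id, tw_X]
  simp [smul_smul, M.T_ne i]

theorem T_o : M.T M.o = 1 := by
  obtain ⟨u⟩ := M.unit_iso
  have h := M.tw.nat u.hom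
  rw [M.tw.unit, tw_X, Category.id_comp] at h
  apply (M.ss.sim M.o).inj
  rw [← cancel_epi u.hom, h]; simp

noncomputable def trL (V : C) : (V ⟶ V) →ₗ[ℂ] ℂ where
  toFun f := sc (M.tw.tr (du V) f)
  map_add' f g := by unfold Tw.tr; rw [trc_add, M.s1.sc_add]
  map_smul' c f := by unfold Tw.tr; rw [trc_smul, M.s1.sc_smul]; rfl

theorem tr_eq {V d : C} (P : Du V d) (f : V ⟶ V) : M.tw.tr P f = M.trL V f • 𝟙 _ := by
  rw [M.tw.tr_indep P (du V)]; exact M.s1.spec _

theorem trL_cyc {V U : C} (f : V ⟶ U) (g : U ⟶ V) : M.trL V (f ≫ g) = M.trL U (g ≫ f) := by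
  apply M.s1.inj
  rw [← M.tr_eq (du V), ← M.tr_eq (du U), M.tw.tr_cyc]

theorem S_tr (i j : I) : M.S i j = M.trL _ (Tw.bb (M.X i) (M.X j)) := by
  apply M.s1.inj
  rw [← M.S_eq, ← M.tr_eq (du _), Tw.tr_plus]; rfl

theorem S_symm (i j : I) : M.S i j = M.S j i := by
  rw [S_tr, S_tr]; exact M.trL_cyc _ _

noncomputable def sL (j : I) (V : C) : (V ⟶ V) →ₗ[ℂ] ℂ where
  toFun f := sc (M.tw.pt (du V) (f ▷ M.X j ≫ Tw.bb V (M.X j)))
  map_add' f g := by
    unfold Tw.pt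
    rw [MonoidalPreadditive.add_whiskerRight, Preadditive.add_comp, ptr_add, (M.ss.sim j).sc_add]
  map_smul' c f := by
    unfold Tw.pt
    rw [MonoidalLinear.smul_whiskerRight, Linear.smul_comp, ptr_smul, (M.ss.sim j).sc_smul]; rfl

theorem sL_cyc (j : I) {V U : C} (f : V ⟶ U) (g : U ⟶ V) :
    M.sL j V (f ≫ g) = M.sL j U (g ≫ f) := by
  change sc _ = sc _
  congr 1
  rw [comp_whiskerRight, Category.assoc, M.tw.pt_cyc (du V) (du U), comp_whiskerRight,
    Category.assoc, Category.assoc, Tw.bb_nat]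

noncomputable def s (j : I) (V : C) : ℂ := M.sL j V (𝟙 V)

theorem pt_bb {V d : C} (P : Du V d) (j : I) :
    M.tw.pt P (Tw.bb V (M.X j)) = M.s j V • 𝟙 _ := by
  rw [M.tw.pt_indep P (du V)]
  have := (M.ss.sim j).spec (M.tw.pt (du V) (𝟙 V ▷ M.X j ≫ Tw.bb V (M.X j)))
  rw [id_whiskerRight, Category.id_comp] at this
  rw [this]
  congr 1
  change _ = sc _
  rw [id_whiskerRight, Category.id_comp]

theorem s_iso (j : I) {V U : C} (φ : V ≅ U) : M.s j V = M.s j U := by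
  unfold s
  rw [← φ.hom_inv_id, sL_cyc, φ.inv_hom_id]

theorem s_unit (j : I) : M.s j (𝟙_ C) = 1 := by
  apply (M.ss.sim j).inj
  rw [← M.pt_bb Du.unit, one_smul, ← M.tw.pt_unit_obj (𝟙 (M.X j))]
  congr 1
  unfold Tw.bb
  rw [braiding_tensorUnit_left, braiding_tensorUnit_right]; simp

theorem s_o (j : I) : M.s j (M.X M.o) = 1 := by
  rw [← M.s_iso j M.unit_iso.some, s_unit]

theorem s_tensor (j : I) (V U : C) : M.s j (V ⊗ U) = M.s j V * M.s j U := by
  apply (M.ss.sim j).inj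
  rw [← M.pt_bb ((du V).tensor (du U)), Tw.pt_bb_tensor, pt_bb, MonoidalLinear.smul_whiskerRight,
    id_whiskerRight, Linear.smul_comp, Linear.comp_smul, Category.id_comp]
  unfold Tw.pt
  rw [ptr_smul, mul_smul]
  congr 1
  exact M.pt_bb (du U) j

theorem s_dec (j : I) (V : C) :
    M.s j V = ∑ r, (Module.finrank ℂ (M.X r ⟶ V) : ℂ) * M.s j (M.X r) :=
  M.ss.tr_fun (M.sL j) (M.sL_cyc j) (fun V => 𝟙 V) (by simp) V

noncomputable def dim (j : I) : ℂ := M.trL (M.X j) (𝟙 _)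

theorem S_s (k j : I) : M.S k j = M.s j (M.X k) * M.dim j := by
  apply M.s1.inj
  rw [S_tr, ← M.tr_eq ((du (M.X k)).tensor (du (M.X j))), Tw.tr_tensor, pt_bb, tr_eq, map_smul]
  rfl

theorem dim_ne (j : I) : M.dim j ≠ 0 := by
  intro h
  apply M.S_det
  apply Matrix.det_eq_zero_of_column_eq_zero j
  intro k
  rw [S_s, h, mul_zero]

theorem S_o (j : I) : M.S M.o j = M.dim j := by rw [S_s, s_o, one_mul]

theorem S_o' (j : I) : M.S j M.o = M.dim j := by rw [S_symm, S_o]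

theorem dim_o : M.dim M.o = 1 := by
  obtain ⟨u⟩ := M.unit_iso
  unfold dim
  rw [← u.inv_hom_id, trL_cyc, u.hom_inv_id]
  apply M.s1.inj
  rw [← M.tr_eq Du.unit, Tw.tr_unit, one_smul]

theorem s_o_X (k : I) : M.s M.o (M.X k) = M.dim k := by
  rw [← S_o', S_s, dim_o, mul_one]

theorem tr_id (V : C) : M.trL V (𝟙 V) = M.s M.o V := by
  rw [s_dec, M.ss.tr_fun M.trL M.trL_cyc (fun V => 𝟙 V) (by simp) V]
  simp only [s_o_X]; rfl

/-- fusion coefficients -/
noncomputable def N (k l m : I) : ℕ := Module.finrank ℂ (M.X m ⟶ M.X k ⊗ M.X l)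

theorem verlinde (k l j : I) : M.S k j * M.S l j = M.S M.o j * ∑ m, (M.N k l m : ℂ) * M.S m j := by
  have h := M.s_dec j (M.X k ⊗ M.X l)
  rw [s_tensor] at h
  simp only [S_s, s_o]
  have : ∑ m, (M.N k l m : ℂ) * (M.s j (M.X m) * M.dim j) =
      (M.s j (M.X k) * M.s j (M.X l)) * M.dim j := by
    rw [h, Finset.sum_mul]
    exact Finset.sum_congr rfl fun m _ => by unfold N; ring
  rw [this]; ring

theorem balance (k l : I) :
    M.S k l * M.T k * M.T l = ∑ m, (M.N k l m : ℂ) * (M.T m * M.S m M.o) := by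
  have h := M.ss.tr_fun M.trL M.trL_cyc (fun V => (M.tw.t V).hom) M.tw.nat (M.X k ⊗ M.X l)
  simp only [tw_X, map_smul, M.tw.tens, smul_eq_mul] at h
  simp only [S_o']
  refine Eq.trans ?_ h
  rw [S_tr, MonoidalCategory.tensorHom_def]
  simp only [MonoidalLinear.smul_whiskerRight, MonoidalLinear.whiskerLeft_smul, id_whiskerRight,
    MonoidalCategory.whiskerLeft_id, Linear.comp_smul, Category.comp_id, map_smul,
    smul_eq_mul, Tw.bb]
  ring

theorem s_conj (σ : ℂ →+* ℂ) (j : I) {V d : C} (P : Du V d) :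
    σ (M.s j d) = (starRingEnd ℂ) (σ (M.s j V)) := by
  set χ : I → ℂ := fun m => σ (M.s j (M.X m)) with hχ
  have key : ∀ (W : C) (m : I), σ (M.s j W) * χ m =
      ∑ r, (Module.finrank ℂ (M.X r ⟶ W ⊗ M.X m) : ℂ) * χ r := by
    intro W m
    rw [hχ]
    simp only
    rw [← map_mul, ← s_tensor, s_dec, map_sum]
    simp
  have tr : ∀ m r, Module.finrank ℂ (M.X m ⟶ d ⊗ M.X r) = Module.finrank ℂ (M.X r ⟶ V ⊗ M.X m) := by
    intro m r
    rw [M.ss.finrank_symm, (P.eqvL _ _).finrank_eq]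
  have hn : ∑ m, (starRingEnd ℂ) (χ m) * χ m ≠ 0 := by
    have : ∑ m, (starRingEnd ℂ) (χ m) * χ m = ((∑ m, Complex.normSq (χ m) : ℝ) : ℂ) := by
      push_cast
      exact Finset.sum_congr rfl fun m _ => (Complex.normSq_eq_conj_mul_self).symm
    rw [this, Complex.ofReal_ne_zero]
    apply ne_of_gt
    apply Finset.sum_pos' (fun m _ => Complex.normSq_nonneg _)
    refine ⟨M.o, Finset.mem_univ _, ?_⟩
    simp [hχ, s_o]
  have e1 : σ (M.s j V) * ∑ m, (starRingEnd ℂ) (χ m) * χ m =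
      ∑ m, ∑ r, (Module.finrank ℂ (M.X r ⟶ V ⊗ M.X m) : ℂ) * ((starRingEnd ℂ) (χ m) * χ r) := by
    rw [Finset.mul_sum]
    refine Finset.sum_congr rfl fun m _ => ?_
    rw [mul_left_comm, key, Finset.mul_sum]
    exact Finset.sum_congr rfl fun r _ => by ring
  have e2 : (starRingEnd ℂ) (σ (M.s j d)) * ∑ m, (starRingEnd ℂ) (χ m) * χ m =
      ∑ r, ∑ m, (Module.finrank ℂ (M.X r ⟶ V ⊗ M.X m) : ℂ) * ((starRingEnd ℂ) (χ m) * χ r) := by
    rw [Finset.mul_sum]
    refine Finset.sum_congr rfl fun r _ => ?_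
    rw [← mul_assoc, ← map_mul, key, map_sum, Finset.sum_mul]
    refine Finset.sum_congr rfl fun m _ => ?_
    rw [tr, map_mul, map_natCast]; ring
  rw [Finset.sum_comm, ← e1] at e2
  rw [← mul_right_cancel₀ hn e2, Complex.conj_conj]

theorem dim_real (k : I) : (starRingEnd ℂ) (M.dim k) = M.dim k := by
  have h := M.s_conj (RingHom.id ℂ) M.o (du (M.X k))
  simp only [RingHom.id_apply] at h
  rw [← s_o_X, ← h, ← tr_id, ← tr_id]
  apply M.s1.inj
  rw [← M.tr_eq (du (M.X k)).swap, ← M.tr_eq (du (M.X k)), Tw.tr_dual]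

end Modular

end Pool.Agent.Lib.MP_edb142_al
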