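import Pool.Agent.Lib.MP_edb142_al.Dict
import Pool.Agent.Lib.MP_edb142_al.Gram

open CategoryTheory MonoidalCategory Limits Functor.LaxMonoidal Functor.OplaxMonoidal

set_option linter.unusedSectionVars false

namespace Pool.Agent.Lib.MP_edb142_al

universe v u v' u'

variable {C : Type u} [Category.{v} C] [Preadditive C] [Linear ℂ C] [MonoidalCategory C]
  [MonoidalPreadditive C] [MonoidalLinear ℂ C] [HasFiniteBiproducts C] [BraidedCategory C]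
  [RigidCategory C] {I : Type} [Fintype I] [DecidableEq I]
  {A : Type u'} [Category.{v'} A] [Preadditive A] [Linear ℂ A] [MonoidalCategory A]
  [MonoidalPreadditive A] [MonoidalLinear ℂ A] [HasFiniteBiproducts A] [RigidCategory A]
  {J : Type} [Fintype J]

structure Lg (K : CF C A) (Φ : Fusion A J) where
  a : C
  x : 𝟙_ A ⟶ K.F.obj a
  y : K.F.obj a ⟶ 𝟙_ A
  lift : ∀ (z : C) (φ : K.F.obj z ⟶ 𝟙_ A), ∃ α : z ⟶ a, K.F.map α ≫ y = φ
  inj : ∀ (z : C) (α α' : z ⟶ a), K.F.map α ≫ y = K.F.map α' ≫ y → α = α'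
  delta : ∀ (V : A) (φ : Frame Φ.X V), (λ_ V).inv ≫ x ▷ V ≫ ((K.b a).β V).hom ≫ V ◁ y ≫
    (ρ_ V).hom = ∑ t, φ.f Φ.o t ≫ φ.e Φ.o t
  tad : ∀ (f : a ⟶ a), x ≫ K.F.map f ≫ y = 0 → ∀ {d : A} (P : Du (K.F.obj a) d),
    P.η ≫ K.F.map f ▷ d ≫ ((K.b a).β d).hom ≫ P.ε = 0
  one : x ≫ y = 𝟙 _

theorem exists_lg (K : CF C A) (Φ : Fusion A J) : Nonempty (Lg K Φ) := by
  obtain ⟨a, i, hi⟩ := K.surj Φ.W Φ.Z.2
  replace hi : ∀ Y, i.hom ▷ Y ≫ Φ.γ Y = ((K.b a).β Y).hom ≫ Y ◁ i.hom := hi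
  have hi' : ∀ Y, i.inv ▷ Y ≫ ((K.b a).β Y).hom = Φ.γ Y ≫ Y ◁ i.inv := by
    intro Y
    rw [← cancel_mono (Y ◁ i.hom), Category.assoc, ← hi]; simp
  refine ⟨⟨a, Φ.ψ ≫ i.inv, i.hom ≫ Φ.εW, fun z φ => ?_, fun z α α' h => ?_, fun V φ => ?_,
    fun f hf d P => ?_, by simp [Φ.ψ_ε]⟩⟩
  · obtain ⟨α, hα⟩ := K.full (V := z) (U := a) (Φ.lift (K.b z) φ ≫ i.inv) (fun Y => by
      rw [comp_whiskerRight, Category.assoc, hi', reassoc_of% (Φ.lift_comm (K.b z) φ Y)]; simp)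
    exact ⟨α, by rw [hα]; simp [Φ.lift_ε]⟩
  · apply K.F.map_injective
    rw [← cancel_mono i.hom]
    refine Φ.cen_inj (fun U => ((K.b z).β U).hom) _ _ (fun U => ?_) (fun U => ?_) (by simpa using h)
    · rw [comp_whiskerRight, Category.assoc, hi, reassoc_of% (K.comm α U)]; simp
    · rw [comp_whiskerRight, Category.assoc, hi, reassoc_of% (K.comm α' U)]; simp
  · rw [← Φ.delta φ, Φ.π_eq, comp_whiskerRight, Category.assoc, reassoc_of% (hi' V)]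
    simp
  · have h1 := loop_cyc P (du Φ.W) (fun U => ((K.b a).β U).hom) Φ.γ (K.b a).naturality i.hom
      (i.inv ≫ K.F.map f) hi
    rw [Iso.hom_inv_id_assoc] at h1
    rw [h1]
    refine Φ.tad _ (fun U => ?_) (by simpa using hf) _
    rw [comp_whiskerRight, comp_whiskerRight, Category.assoc, Category.assoc, hi,
      reassoc_of% (K.comm f U), reassoc_of% (hi' U)]
    simp

namespace CF
variable (K : CF C A) (M : Modular C I) (Φ : Fusion A J)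

noncomputable def τ (V : C) : ℂ :=
  LinearMap.trace ℂ _ (Linear.rightComp ℂ (𝟙_ A) (K.F.map (M.tw.t V).inv))

include Φ in
theorem fin1 (Z : A) : Module.Finite ℂ (𝟙_ A ⟶ Z) := Φ.ss.finite _ _

theorem τ_frame (V : C) (u : 𝟙_ A ≅ Φ.X Φ.o) (φ : Frame Φ.X (K.F.obj V)) :
    K.τ M V = ∑ t, sc ((u.hom ≫ φ.e Φ.o t) ≫ K.F.map (M.tw.t V).inv ≫ (φ.f Φ.o t ≫ u.inv)) := by
  have := fin1 Φ (K.F.obj V)
  unfold τ
  rw [trace_frame (fun t => u.hom ≫ φ.e Φ.o t)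
    (fun t => Φ.sim1.scL ∘ₗ Linear.rightComp ℂ _ (φ.f Φ.o t ≫ u.inv))]
  · simp [Sim.scL]
  · intro w
    have h := φ.exp_to Φ.ss (u.inv ≫ w)
    rw [← cancel_epi u.inv]
    conv_rhs => rw [← h]
    rw [Preadditive.comp_sum]
    refine Finset.sum_congr rfl fun t _ => ?_
    rw [← (Φ.ss.sim Φ.o).sc_conj u]
    simp [Sim.scL]

noncomputable def m (L : Lg K Φ) (j : I) : ℂ :=
  ∑ t, sc (L.x ≫ K.F.map ((M.ss.fr L.a).f j t ≫ (M.ss.fr L.a).e j t) ≫ L.y)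

theorem τ_eq (L : Lg K Φ) (V : C) : K.τ M V = ∑ j, K.m M Φ L j * M.s j V := by
  obtain ⟨u⟩ := Φ.unit_iso
  let φ := Φ.ss.fr (K.F.obj V)
  let χ := M.ss.fr L.a
  have h := congrArg (fun g => sc (trc (K.coF M.tw (du V)) ((du V).map K.F).ε g))
    (L.delta (K.F.obj V) φ)
  rw [K.τ_frame M Φ V u φ]
  have e1 : sc (trc (K.coF M.tw (du V)) ((du V).map K.F).ε (∑ t, φ.f Φ.o t ≫ φ.e Φ.o t)) =
      ∑ t, sc ((u.hom ≫ φ.e Φ.o t) ≫ K.F.map (M.tw.t V).inv ≫ (φ.f Φ.o t ≫ u.inv)) := by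
    rw [trc_sum, Φ.sim1.sc_sum]
    refine Finset.sum_congr rfl fun t _ => ?_
    rw [← K.trc_unit M.tw (du V)]; simp
  rw [← e1, ← h]
  have e2 : (λ_ (K.F.obj V)).inv ≫ L.x ▷ K.F.obj V ≫ ((K.b L.a).β (K.F.obj V)).hom ≫
      K.F.obj V ◁ L.y ≫ (ρ_ _).hom = ∑ j, ∑ t, (λ_ _).inv ≫ (L.x ≫ K.F.map (χ.f j t)) ▷ K.F.obj V ≫
        ((K.b (M.X j)).β (K.F.obj V)).hom ≫ K.F.obj V ◁ (K.F.map (χ.e j t) ≫ L.y) ≫ (ρ_ _).hom := by
    conv_lhs => rw [← Category.comp_id L.x, ← K.F.map_id, ← χ.tot]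
    simp only [Functor.map_sum, Preadditive.comp_sum, Preadditive.sum_comp, sum_whiskerRight,
      Functor.map_comp, comp_whiskerRight, Category.assoc, MonoidalCategory.whiskerLeft_comp]
    refine Finset.sum_congr rfl fun j _ => Finset.sum_congr rfl fun t _ => ?_
    rw [reassoc_of% (K.comm (χ.e j t) (K.F.obj V))]
  rw [e2, trc_sum, Φ.sim1.sc_sum]
  refine Finset.sum_congr rfl fun j _ => ?_
  rw [trc_sum, Φ.sim1.sc_sum, m, Finset.sum_mul]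
  refine Finset.sum_congr rfl fun t _ => ?_
  rw [K.trc_loop, M.pt_bb, mul_comm, ← Φ.sim1.sc_smul]
  simp [χ]

include Φ in
theorem theta_sq {V : C} (e : 𝟙_ A ⟶ K.F.obj V) :
    e ≫ K.F.map (M.tw.t V).hom ≫ K.F.map (M.tw.t V).hom = e := by
  obtain ⟨d, ⟨P⟩⟩ : ∃ d, Nonempty (Du V d) := ⟨_, ⟨du V⟩⟩
  have h := congrArg (fun g => μ K.F V d ≫ K.F.map g ≫ η K.F) (M.tw.rib P)
  have h1 : ((K.b d).β (K.F.obj V)).inv ≫ (P.map K.F).ε =
      (K.F.map (M.tw.t V).hom ≫ K.F.map (M.tw.t V).hom) ▷ K.F.obj d ≫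
        ((K.b V).β (K.F.obj d)).hom ≫ (P.map K.F).ε := by
    have hb : ((K.b d).β (K.F.obj V)).inv = μ K.F V d ≫ K.F.map (β_ d V).inv ≫ δ K.F d V := by
      rw [K.br_inv]; simp
    rw [Du.map_ε, hb, ← K.br', ← Functor.map_comp]
    simp only [Category.assoc, Functor.LaxMonoidal.μ_natural_left_assoc,
      Functor.Monoidal.δ_μ_assoc]
    simpa only [Functor.map_comp, Category.assoc] using h
  have h2 : ∀ e' : 𝟙_ A ⟶ K.F.obj V, (λ_ _).inv ≫ e' ▷ K.F.obj d ≫ ((K.b V).β (K.F.obj d)).hom ≫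
      (P.map K.F).ε = (ρ_ _).inv ≫ K.F.obj d ◁ e' ≫ (P.map K.F).ε := by
    intro e'
    rw [← sub_eq_zero]
    apply Φ.sep1
    intro w
    rw [Preadditive.comp_sub, sub_eq_zero, leftUnitor_inv_naturality_assoc, whisker_exchange_assoc,
      (K.b V).naturality_assoc, half_unit, rightUnitor_inv_naturality_assoc,
      ← whisker_exchange_assoc]
    monoidal
  have h3 : (λ_ _).inv ≫ e ▷ K.F.obj d ≫ ((K.b d).β (K.F.obj V)).inv =
      (ρ_ _).inv ≫ K.F.obj d ◁ e := by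
    rw [← Category.assoc, Iso.comp_inv_eq, Category.assoc, (K.b d).naturality, half_unit]; simp
  apply (P.map K.F).ε_left_inj
  rw [← cancel_epi (ρ_ _).inv, ← h2, comp_whiskerRight, Category.assoc, ← h1, reassoc_of% h3]

end CF

end Pool.Agent.Lib.MP_edb142_al
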