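import Pool.Agent.Lib.MP_edb142_al.Pos

open CategoryTheory MonoidalCategory Limits Functor.LaxMonoidal Functor.OplaxMonoidal
open scoped ComplexOrder

set_option linter.unusedSectionVars false

namespace Pool.Agent.Lib.MP_edb142_al

universe v u v' u'

variable {C : Type u} [Category.{v} C] [Preadditive C] [Linear ℂ C] [MonoidalCategory C]
  [MonoidalPreadditive C] [MonoidalLinear ℂ C] [HasFiniteBiproducts C] [BraidedCategory C]
  [RigidCategory C] {I : Type} [Fintype I] [DecidableEq I]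
  {A : Type u'} [Category.{v'} A] [Preadditive A] [Linear ℂ A] [MonoidalCategory A]
  [MonoidalPreadditive A] [MonoidalLinear ℂ A] [HasFiniteBiproducts A] [RigidCategory A]
  {J : Type} [Fintype J]

noncomputable def Du.capLL {V d : A} (P : Du V d) (Y : A) : (𝟙_ A ⟶ V ⊗ Y) →ₗ[ℂ] (d ⟶ Y) where
  toFun := P.capL
  map_add' f g := by simp [Du.capL, Du.unL]
  map_smul' c f := by simp [Du.capL, Du.unL]

noncomputable def Du.capRL {V d : A} (P : Du V d) (Y : A) : (𝟙_ A ⟶ Y ⊗ d) →ₗ[ℂ] (V ⟶ Y) where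
  toFun := P.capR
  map_add' f g := by simp [Du.capR, Du.unR]
  map_smul' c f := by simp [Du.capR, Du.unR]

theorem Du.scal {V d : A} (P : Du V d) (h : ∀ f : V ⟶ V, ∃ c : ℂ, f = c • 𝟙 V) (f : d ⟶ d) :
    ∃ c : ℂ, f = c • 𝟙 d := by
  obtain ⟨c, hc⟩ := h (P.capR (P.η ≫ V ◁ f))
  refine ⟨c, P.η_left_inj ?_⟩
  rw [← P.η_capR (P.η ≫ V ◁ f), hc]; simp

theorem Fusion.double_dual (Φ : Fusion A J) (i : J) {d e : A} (R : Du (Φ.X i) d) (Q : Du d e) :
    Nonempty (e ≅ Φ.X i) := by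
  have hs := Q.scal (R.scal (Φ.ss.sim i).ex)
  have hε : R.ε ≠ 0 := by
    intro h0
    apply (Φ.ss.sim i).ne
    apply R.ε_left_inj
    rw [h0]; simp
  obtain ⟨w, hw⟩ : ∃ w : 𝟙_ A ⟶ d ⊗ Φ.X i, w ≫ R.ε ≠ 0 := by
    by_contra hh
    push Not at hh
    exact hε (Φ.sep1 hh)
  have hc : Q.capL w ≠ 0 := by
    intro h0
    apply hw
    rw [← Q.η_capL w, h0]; simp
  obtain ⟨s, hs'⟩ : ∃ s : Φ.X i ⟶ e, s ≫ Q.capL w ≠ 0 := by
    by_contra hh
    push Not at hh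
    exact hc (Φ.ss.sep hh)
  have hl : sc (s ≫ Q.capL w) ≠ 0 := fun h0 => hs' ((Φ.ss.sim i).eq_zero h0)
  have h1 : ((sc (s ≫ Q.capL w))⁻¹ • s) ≫ Q.capL w = 𝟙 _ := by
    rw [Linear.smul_comp]
    conv_lhs => rw [(Φ.ss.sim i).spec (s ≫ Q.capL w), (Φ.ss.sim i).sc_smul_id]
    rw [smul_smul, inv_mul_cancel₀ hl, one_smul]
  generalize (sc (s ≫ Q.capL w))⁻¹ • s = s' at h1
  refine ⟨⟨Q.capL w, s', ?_, h1⟩⟩
  obtain ⟨c, hc'⟩ := hs (Q.capL w ≫ s')
  have h2 : c • Q.capL w = (1 : ℂ) • Q.capL w := by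
    rw [one_smul]
    conv_rhs => rw [← Category.comp_id (Q.capL w), ← h1, ← Category.assoc, hc']
    simp
  rw [hc', smul_left_injective ℂ hc h2, one_smul]

theorem jcalc {Gk Dk Gl Y d e : A} (p : 𝟙_ A ⟶ Gk ⊗ Dk) (bl : HalfBraiding Gl)
    (bk : HalfBraiding Dk) (R : Du Y d) (Q : Du d e) (c : e ≅ Y) (f : Gk ⟶ Y) (s : Y ⟶ Gl)
    (tl : Gl ⟶ Gl) (tk : Dk ⟶ Dk) :
    p ≫ f ▷ Dk ≫ s ▷ Dk ≫ (bl.β Dk).hom ≫ (bk.β Gl).hom ≫ (tl ⊗ₘ tk) =
      (Q.η ≫ d ◁ c.hom ≫ R.capL (p ≫ f ▷ Dk) ▷ Y ≫ (bk.β Y).hom ≫ Y ◁ tk) ≫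
        (c.inv ≫ Q.capL (R.η ≫ s ▷ d ≫ (bl.β d).hom) ≫ tl) ▷ Dk := by
  have h1 := R.η_capL (p ≫ f ▷ Dk)
  have h2 := Q.η_capL (R.η ≫ s ▷ d ≫ (bl.β d).hom)
  generalize R.capL (p ≫ f ▷ Dk) = mt at h1
  generalize Q.capL (R.η ≫ s ▷ d ≫ (bl.β d).hom) = z at h2
  rw [← reassoc_of% h1, whisker_exchange_assoc, bl.naturality_assoc, ← reassoc_of% h2,
    whisker_exchange_assoc, bk.naturality_assoc]
  simp only [Category.assoc]
  rw [whisker_exchange_assoc, bk.naturality_assoc, whisker_exchange,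
    MonoidalCategory.tensorHom_def]
  simp

theorem inv_pos_of_pos' {z : ℂ} (h : 0 < z) : 0 < z⁻¹ := by
  obtain ⟨h1, h2⟩ := Complex.pos_iff.1 h
  have : z = (z.re : ℂ) := by apply Complex.ext <;> simp [h2]
  rw [this, ← Complex.ofReal_inv]
  exact_mod_cast inv_pos.2 h1

theorem pos_of_gram (s : Matrix I I ℂ) (hs : s.det ≠ 0) (m : I → ℂ) (n : J → I → ℤ)
    (h : ∀ k l, ∑ j, m j * (s l j * (starRingEnd ℂ) (s k j)) = ∑ x, (n x k : ℂ) * n x l) (j0 : I) :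
    0 ≤ m j0 := by
  set c : I → ℂ := fun l => s⁻¹ j0 l with hc
  have h1 : ∀ j, ∑ l, c l * s l j = if j0 = j then 1 else 0 := by
    intro j
    have := congrFun (congrFun (Matrix.nonsing_inv_mul s (Ne.isUnit hs)) j0) j
    rw [Matrix.mul_apply, Matrix.one_apply] at this
    exact this
  have e1 : ∑ k, ∑ l, (starRingEnd ℂ) (c k) * c l * ∑ j, m j * (s l j * (starRingEnd ℂ) (s k j)) =
      ∑ j, m j * ((∑ l, c l * s l j) * (starRingEnd ℂ) (∑ k, c k * s k j)) := by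
    simp only [map_sum, map_mul, Finset.mul_sum, Finset.sum_mul]
    rw [Finset.sum_comm]
    conv_rhs => rw [Finset.sum_comm]
    conv_lhs => rw [Finset.sum_comm]
    refine Finset.sum_congr rfl fun k _ => ?_
    rw [Finset.sum_comm]
    exact Finset.sum_congr rfl fun j _ => Finset.sum_congr rfl fun l _ => by ring
  have e2 : ∑ k, ∑ l, (starRingEnd ℂ) (c k) * c l * ∑ x, (n x k : ℂ) * n x l =
      ∑ x, (starRingEnd ℂ) (∑ k, c k * n x k) * (∑ l, c l * n x l) := by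
    simp only [map_sum, map_mul, Finset.mul_sum, Finset.sum_mul, map_intCast]
    rw [Finset.sum_comm]
    conv_rhs => rw [Finset.sum_comm]
    refine Finset.sum_congr rfl fun l _ => ?_
    rw [Finset.sum_comm]
    exact Finset.sum_congr rfl fun x _ => Finset.sum_congr rfl fun k _ => by ring
  simp only [h] at e1
  rw [e2] at e1
  simp only [h1] at e1
  have e3 : ∑ j, m j * ((if j0 = j then (1 : ℂ) else 0) *
      (starRingEnd ℂ) (if j0 = j then 1 else 0)) = m j0 := by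
    rw [Finset.sum_eq_single j0]
    · simp
    · intro j _ hj; simp [Ne.symm hj]
    · simp
  rw [← e3, ← e1]
  exact Finset.sum_nonneg fun x _ => star_mul_self_nonneg _

namespace CF
variable (K : CF C A) (M : Modular C I) (Φ : Fusion A J)

noncomputable def Ψ {V d : C} (P : Du V d) (U : C) :
    (K.F.obj V ⟶ K.F.obj U) ≃ₗ[ℂ] (𝟙_ A ⟶ K.F.obj (U ⊗ d)) where
  toFun h := (P.map K.F).η ≫ h ▷ K.F.obj d ≫ μ K.F U d
  map_add' f g := by simp
  map_smul' c f := by simp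
  invFun x := (P.map K.F).capR (x ≫ δ K.F U d)
  left_inv h := by simp [Du.capR_η]
  right_inv x := by simp [Du.η_capR_assoc]

include Φ in
theorem gram_τ : ∃ n : J → I → ℤ, ∀ k l,
    K.τ M (M.X l ⊗ (M.X k)ᘁ) = ∑ x, (n x k : ℂ) * n x l := by
  obtain ⟨d, R, e, Q, c, -⟩ : ∃ (d : J → A) (R : ∀ x, Du (Φ.X x) (d x)) (e : J → A)
      (Q : ∀ x, Du (d x) (e x)) (c : ∀ x, e x ≅ Φ.X x), True :=
    ⟨_, fun x => du _, _, fun x => du _, fun x => (Φ.double_dual x (du _) (du _)).some, trivial⟩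
  let P : ∀ k, Du (K.F.obj (M.X k)) (K.F.obj ((M.X k)ᘁ)) := fun k => (du (M.X k)).map K.F
  let Jm : ∀ k l, (K.F.obj (M.X k) ⟶ K.F.obj (M.X l)) →ₗ[ℂ] (K.F.obj (M.X k) ⟶ K.F.obj (M.X l)) :=
    fun k l => (K.Ψ (du (M.X k)) (M.X l)).symm.conj
      (Linear.rightComp ℂ (𝟙_ A) (K.F.map (M.tw.t (M.X l ⊗ (M.X k)ᘁ)).hom))
  have hJm : ∀ k l h, K.Ψ (du (M.X k)) (M.X l) (Jm k l h) =
      K.Ψ (du (M.X k)) (M.X l) h ≫ K.F.map (M.tw.t (M.X l ⊗ (M.X k)ᘁ)).hom := by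
    intro k l h
    simp [Jm, LinearEquiv.conj_apply]
  let g : ∀ x l, (Φ.X x ⟶ K.F.obj (M.X l)) →ₗ[ℂ] (Φ.X x ⟶ K.F.obj (M.X l)) := fun x l =>
    { toFun := fun s => (c x).inv ≫ (Q x).capLL _ ((R x).η ≫ s ▷ d x ≫
        ((K.b (M.X l)).β (d x)).hom) ≫ K.F.map (M.tw.t (M.X l)).hom
      map_add' := by simp
      map_smul' := by simp }
  let g' : ∀ x k, (K.F.obj (M.X k) ⟶ Φ.X x) →ₗ[ℂ] (K.F.obj (M.X k) ⟶ Φ.X x) := fun x k =>
    { toFun := fun f => (P k).capRL _ ((Q x).η ≫ d x ◁ (c x).hom ≫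
        (R x).capLL _ ((P k).η ≫ f ▷ _) ▷ Φ.X x ≫ ((K.b ((M.X k)ᘁ)).β (Φ.X x)).hom ≫
          Φ.X x ◁ K.F.map (M.tw.t ((M.X k)ᘁ)).hom)
      map_add' := by simp
      map_smul' := by simp }
  obtain ⟨n, hn⟩ := gram Φ.ss (fun k => K.F.obj (M.X k)) Jm g g' (fun x k l f s => by
    apply (K.Ψ (du (M.X k)) (M.X l)).injective
    rw [hJm]
    change ((P k).η ≫ (f ≫ s) ▷ _ ≫ μ K.F _ _) ≫ _ = (P k).η ≫
      ((P k).capR _ ≫ (c x).inv ≫ (Q x).capL _ ≫ _) ▷ _ ≫ μ K.F _ _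
    rw [comp_whiskerRight ((P k).capR _), Category.assoc, Category.assoc, Category.assoc,
      Du.η_capR_assoc, M.tw.tens, Functor.map_comp, Functor.map_comp, reassoc_of% (K.br _ _),
      reassoc_of% (K.br _ _), ← Functor.LaxMonoidal.μ_natural, comp_whiskerRight,
      Category.assoc]
    simpa only [Category.assoc, Du.capLL, LinearMap.coe_mk, AddHom.coe_mk] using jcalc (P k).η (K.b (M.X l)) (K.b ((M.X k)ᘁ)) (R x) (Q x)
      (c x) f s _ _ =≫ μ K.F (M.X l) ((M.X k)ᘁ)) (fun k => by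
    apply (K.Ψ (du (M.X k)) (M.X k)).injective
    rw [hJm]
    change ((P k).η ≫ 𝟙 _ ▷ _ ≫ μ K.F _ _) ≫ _ = (P k).η ≫ 𝟙 _ ▷ _ ≫ μ K.F _ _
    simp only [P, Du.map_η, id_whiskerRight, Category.id_comp, Category.assoc,
      Functor.Monoidal.δ_μ, Category.comp_id]
    rw [← Functor.map_comp, M.tw.nat, M.tw.unit, Category.id_comp]) (fun k l t => by
    apply (K.Ψ (du (M.X k)) (M.X l)).injective
    rw [hJm, hJm, Category.assoc, K.theta_sq M Φ])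
  refine ⟨n, fun k l => ?_⟩
  rw [← hn, LinearMap.trace_conj']
  unfold τ
  congr 1
  ext w
  simp only [Linear.rightComp_apply]
  conv_lhs => rw [← K.theta_sq M Φ w]
  simp only [Category.assoc]
  rw [← Functor.map_comp, Iso.hom_inv_id, K.F.map_id, Category.comp_id]

theorem m_nonneg (L : Lg K Φ) (σ : ℂ →+* ℂ) (j0 : I) : 0 ≤ σ (K.m M Φ L j0) := by
  obtain ⟨n, hn⟩ := K.gram_τ M Φ
  let s : Matrix I I ℂ := fun k j => M.s j (M.X k)
  have hs : s.det ≠ 0 := by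
    intro h0
    apply M.S_det
    have : M.S = s * Matrix.diagonal M.dim := by
      ext k j; rw [Matrix.mul_diagonal, M.S_s]
    rw [this, Matrix.det_mul, h0, zero_mul]
  have hs' : (σ.mapMatrix s).det ≠ 0 := by
    rw [← RingHom.map_det]; exact (map_ne_zero σ).2 hs
  refine pos_of_gram (σ.mapMatrix s) hs' (fun j => σ (K.m M Φ L j)) n (fun k l => ?_) j0
  have h := congrArg σ (hn k l)
  rw [K.τ_eq M Φ L] at h
  simp only [map_sum, map_mul, map_intCast, M.s_tensor, M.s_conj σ _ (du (M.X k))] at h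
  rw [← h]
  rfl

theorem loop_eq (L : Lg K Φ) (f : L.a ⟶ L.a) :
    M.trL L.a (f ≫ (M.tw.t L.a).inv) =
      sc (L.x ≫ K.F.map f ≫ L.y) * M.trL L.a (M.tw.t L.a).inv := by
  set r := sc (L.x ≫ K.F.map f ≫ L.y) with hr
  have h0 : L.x ≫ K.F.map (f - r • 𝟙 _) ≫ L.y = 0 := by
    rw [Functor.map_sub, Preadditive.sub_comp, Preadditive.comp_sub, Φ.sim1.spec (L.x ≫ _), ← hr]
    simp [L.one]
  have h1 := L.tad _ h0 ((du L.a).map K.F)
  rw [K.map_loop] at h1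
  have h2 : (du L.a).η ≫ (f - r • 𝟙 _) ▷ _ ≫ (β_ _ _).hom ≫ (du L.a).ε = 0 := by
    apply K.F.map_injective
    rw [← cancel_epi (ε K.F), ← cancel_mono (η K.F), Category.assoc, h1]; simp
  have h3 : M.trL L.a ((f - r • 𝟙 _) ≫ (M.tw.t L.a).inv) = 0 := by
    apply M.s1.inj
    rw [← M.tr_eq (du _), Tw.tr_plus, Category.assoc, Iso.inv_hom_id, Category.comp_id, h2,
      zero_smul]
  rw [Preadditive.sub_comp, map_sub, sub_eq_zero] at h3
  rw [h3]; simp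

noncomputable def v (k : I) : ℕ := Module.finrank ℂ (𝟙_ A ⟶ K.F.obj (M.X k))

theorem card_eq (L : Lg K Φ) (j : I) : Fintype.card ((M.ss.fr L.a).T j) = K.v M j := by
  obtain ⟨u⟩ := Φ.unit_iso
  let l : (M.X j ⟶ L.a) →ₗ[ℂ] (K.F.obj (M.X j) ⟶ 𝟙_ A) :=
    { toFun := fun α => K.F.map α ≫ L.y
      map_add' := by simp
      map_smul' := by simp }
  have hl : Function.Bijective l := ⟨fun α α' h => L.inj _ α α' h, fun φ => L.lift _ φ⟩
  rw [← (M.ss.fr L.a).finrank_to M.ss, (LinearEquiv.ofBijective l hl).finrank_eq,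
    (Linear.homCongr ℂ (Iso.refl _) u).finrank_eq, ← Φ.ss.finrank_symm, v,
    (Linear.homCongr ℂ u (Iso.refl _)).finrank_eq]

theorem m_eq (L : Lg K Φ) (j : I) :
    K.m M Φ L j * M.trL L.a (M.tw.t L.a).inv = K.v M j * ((M.T j)⁻¹ * M.dim j) := by
  rw [m, Finset.sum_mul, ← K.card_eq M Φ L]
  have : ∀ t, sc (L.x ≫ K.F.map ((M.ss.fr L.a).f j t ≫ (M.ss.fr L.a).e j t) ≫ L.y) *
      M.trL L.a (M.tw.t L.a).inv = (M.T j)⁻¹ * M.dim j := by
    intro t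
    rw [← K.loop_eq M Φ L, Category.assoc, M.trL_cyc, M.tw.nat_inv, Category.assoc, Frame.ef,
      Category.comp_id, M.tw_X_inv, map_smul]
    rfl
  simp only [this]
  simp

include Φ in
theorem τ_X (k : I) : K.τ M (M.X k) = (M.T k)⁻¹ * K.v M k := by
  have := fin1 Φ (K.F.obj (M.X k))
  unfold τ v
  rw [← LinearMap.trace_id, ← smul_eq_mul, ← map_smul]
  congr 1
  ext w
  simp [M.tw_X_inv]

include Φ in
theorem v_o : K.v M M.o = 1 := by
  obtain ⟨u⟩ := Φ.unit_iso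
  obtain ⟨w⟩ := M.unit_iso
  unfold v
  rw [(Linear.homCongr ℂ u ((K.F.mapIso w).symm ≪≫ (Functor.Monoidal.εIso K.F).symm ≪≫ u)).finrank_eq,
    Φ.end_one]

include Φ in
theorem T_sq {k : I} (h : K.v M k ≠ 0) : M.T k ^ 2 = 1 := by
  have := fin1 Φ (K.F.obj (M.X k))
  obtain ⟨e, he⟩ := Module.finrank_pos_iff_exists_ne_zero.1 (Nat.pos_of_ne_zero h)
  have h1 := K.theta_sq M Φ e
  rw [M.tw_X] at h1
  apply smul_left_injective ℂ he
  simpa [smul_smul, pow_two] using h1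

include K Φ in
/-- the Lagrangian vector -/
theorem lagr : ∃ (w : I → ℕ) (c : ℂ), w M.o = 1 ∧ TotPos c ∧
    (∀ k, w k ≠ 0 → M.T k ^ 2 = 1 ∧ TotPos (M.T k * M.S k M.o)) ∧
    ∀ k, ∑ j, M.S k j * (M.T j * w j) = c * (M.T k * w k) := by
  obtain ⟨L⟩ := exists_lg K Φ
  set c := M.trL L.a (M.tw.t L.a).inv with hc
  have hT : ∀ k, (M.T k)⁻¹ * (K.v M k : ℂ) = M.T k * K.v M k := by
    intro k
    by_cases h : K.v M k = 0
    · simp [h]
    · have := K.T_sq M Φ h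
      congr 1
      exact inv_eq_of_mul_eq_one_right (by rw [← this]; ring)
  have hcp : TotPos c := by
    intro σ
    have h := congrArg σ (K.m_eq M Φ L M.o)
    rw [K.v_o M Φ, M.T_o, M.dim_o, map_mul, ← hc] at h
    simp only [Nat.cast_one, inv_one, mul_one, map_one] at h
    have h0 := K.m_nonneg M Φ L σ M.o
    have h1 : σ (K.m M Φ L M.o) ≠ 0 := by rintro h2; rw [h2] at h; simp at h
    rw [eq_inv_of_mul_eq_one_right h]
    exact inv_pos_of_pos' (lt_of_le_of_ne h0 (Ne.symm h1))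
  refine ⟨K.v M, c, K.v_o M Φ, hcp, fun k hk => ⟨K.T_sq M Φ hk, fun σ => ?_⟩, fun k => ?_⟩
  · have h := K.m_eq M Φ L k
    rw [← mul_assoc, mul_comm (K.v M k : ℂ), hT, ← hc] at h
    have h' := congrArg σ h
    have hv : (0 : ℂ) < K.v M k := by exact_mod_cast Nat.pos_of_ne_zero hk
    have e : σ (M.T k * M.S k M.o) = σ (K.m M Φ L k) * σ c * (K.v M k : ℂ)⁻¹ := by
      rw [← map_mul, h', M.S_o']
      simp only [map_mul, map_natCast]
      field_simp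
    refine lt_of_le_of_ne ?_ (Ne.symm ?_)
    · rw [e]
      exact mul_nonneg (mul_nonneg (K.m_nonneg M Φ L σ k) (hcp σ).le) (inv_pos_of_pos' hv).le
    · rw [map_ne_zero, M.S_o']
      exact mul_ne_zero (M.T_ne k) (M.dim_ne k)
  · rw [← hT k, ← K.τ_X M Φ, K.τ_eq M Φ L, Finset.mul_sum]
    refine Finset.sum_congr rfl fun j _ => ?_
    rw [← mul_assoc c, mul_comm c, hc, K.m_eq M Φ L, M.S_s, ← hT j]; ring

end CF

end Pool.Agent.Lib.MP_edb142_al
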