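import Pool.Agent.Lib.MP_edb142_al.Dual

open CategoryTheory MonoidalCategory Limits

set_option linter.unusedSectionVars false

namespace Pool.Agent.Lib.MP_edb142_al

universe v u v' u'

variable {C : Type u} [Category.{v} C] [MonoidalCategory C]

/-- left partial trace -/
def ptr {V d U U' : C} (co : 𝟙_ C ⟶ d ⊗ V) (ev : d ⊗ V ⟶ 𝟙_ C) (g : V ⊗ U ⟶ V ⊗ U') : U ⟶ U' :=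
  (λ_ U).inv ≫ co ▷ U ≫ (α_ d V U).hom ≫ d ◁ g ≫ (α_ d V U').inv ≫ ev ▷ U' ≫ (λ_ U').hom

def trc {V d : C} (co : 𝟙_ C ⟶ d ⊗ V) (ev : d ⊗ V ⟶ 𝟙_ C) (f : V ⟶ V) : 𝟙_ C ⟶ 𝟙_ C :=
  co ≫ d ◁ f ≫ ev

variable {V d U U' U'' e : C}

theorem ptr_unit (co : 𝟙_ C ⟶ d ⊗ V) (ev : d ⊗ V ⟶ 𝟙_ C) (f : V ⟶ V) :
    ptr co ev (f ▷ 𝟙_ C) = trc co ev f := by
  unfold ptr trc; monoidal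

theorem ptr_left (co : 𝟙_ C ⟶ d ⊗ V) (ev : d ⊗ V ⟶ 𝟙_ C) (a : U ⟶ U') (g : V ⊗ U' ⟶ V ⊗ U'') :
    ptr co ev (V ◁ a ≫ g) = a ≫ ptr co ev g := by
  unfold ptr
  calc _ = 𝟙 _ ⊗≫ (co ▷ U ≫ (d ⊗ V) ◁ a) ⊗≫ d ◁ g ⊗≫ ev ▷ U'' ⊗≫ 𝟙 _ := by monoidal
    _ = _ := by rw [← whisker_exchange]; monoidal

theorem ptr_right (co : 𝟙_ C ⟶ d ⊗ V) (ev : d ⊗ V ⟶ 𝟙_ C) (g : V ⊗ U ⟶ V ⊗ U') (b : U' ⟶ U'') :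
    ptr co ev (g ≫ V ◁ b) = ptr co ev g ≫ b := by
  unfold ptr
  calc _ = 𝟙 _ ⊗≫ co ▷ U ⊗≫ d ◁ g ⊗≫ ((d ⊗ V) ◁ b ≫ ev ▷ U'') ⊗≫ 𝟙 _ := by monoidal
    _ = _ := by rw [whisker_exchange]; monoidal

theorem ptr_whisk (co : 𝟙_ C ⟶ d ⊗ V) (ev : d ⊗ V ⟶ 𝟙_ C) (g : V ⊗ U ⟶ V ⊗ U') (W : C) :
    ptr co ev ((α_ V U W).inv ≫ g ▷ W ≫ (α_ V U' W).hom) = ptr co ev g ▷ W := by
  unfold ptr; monoidal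

theorem ptr_cyc {P P' : C} (coV : 𝟙_ C ⟶ d ⊗ V) (evV : d ⊗ V ⟶ 𝟙_ C) (coU : 𝟙_ C ⟶ e ⊗ U)
    (evU : e ⊗ U ⟶ 𝟙_ C) (f : V ⟶ U) (m : e ⟶ d) (h1 : coV ≫ d ◁ f = coU ≫ m ▷ U)
    (h2 : m ▷ V ≫ evV = e ◁ f ≫ evU) (g : U ⊗ P ⟶ V ⊗ P') :
    ptr coV evV (f ▷ P ≫ g) = ptr coU evU (g ≫ f ▷ P') := by
  unfold ptr
  calc _ = 𝟙 _ ⊗≫ (coV ≫ d ◁ f) ▷ P ⊗≫ d ◁ g ⊗≫ evV ▷ P' ⊗≫ 𝟙 _ := by monoidal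
    _ = 𝟙 _ ⊗≫ coU ▷ P ⊗≫ (m ▷ (U ⊗ P) ≫ d ◁ g) ⊗≫ evV ▷ P' ⊗≫ 𝟙 _ := by rw [h1]; monoidal
    _ = 𝟙 _ ⊗≫ coU ▷ P ⊗≫ e ◁ g ⊗≫ (m ▷ V ≫ evV) ▷ P' ⊗≫ 𝟙 _ := by
      rw [← whisker_exchange]; monoidal
    _ = _ := by rw [h2]; monoidal

theorem ptr_nest {P P' : C} (coV : 𝟙_ C ⟶ d ⊗ V) (evV : d ⊗ V ⟶ 𝟙_ C) (coU : 𝟙_ C ⟶ e ⊗ U)
    (evU : e ⊗ U ⟶ 𝟙_ C) (g : (V ⊗ U) ⊗ P ⟶ (V ⊗ U) ⊗ P') :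
    ptr (coU ⊗≫ e ◁ coV ▷ U ⊗≫ 𝟙 ((e ⊗ d) ⊗ (V ⊗ U)))
      (𝟙 ((e ⊗ d) ⊗ (V ⊗ U)) ⊗≫ e ◁ (evV ▷ U) ⊗≫ evU) g =
      ptr coU evU (ptr coV evV ((α_ V U P).inv ≫ g ≫ (α_ V U P').hom)) := by
  unfold ptr; monoidal

section Lin
variable [Preadditive C] [Linear ℂ C] [MonoidalPreadditive C] [MonoidalLinear ℂ C]

theorem ptr_add (co : 𝟙_ C ⟶ d ⊗ V) (ev : d ⊗ V ⟶ 𝟙_ C) (g g' : V ⊗ U ⟶ V ⊗ U') :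
    ptr co ev (g + g') = ptr co ev g + ptr co ev g' := by
  unfold ptr; simp

theorem ptr_smul (co : 𝟙_ C ⟶ d ⊗ V) (ev : d ⊗ V ⟶ 𝟙_ C) (c : ℂ) (g : V ⊗ U ⟶ V ⊗ U') :
    ptr co ev (c • g) = c • ptr co ev g := by
  unfold ptr; simp

theorem ptr_sum (co : 𝟙_ C ⟶ d ⊗ V) (ev : d ⊗ V ⟶ 𝟙_ C) {T : Type*} (s : Finset T)
    (g : T → (V ⊗ U ⟶ V ⊗ U')) :
    ptr co ev (∑ a ∈ s, g a) = ∑ a ∈ s, ptr co ev (g a) := by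
  unfold ptr; simp [whiskerLeft_sum, Preadditive.sum_comp, Preadditive.comp_sum]

theorem trc_add (co : 𝟙_ C ⟶ d ⊗ V) (ev : d ⊗ V ⟶ 𝟙_ C) (g g' : V ⟶ V) :
    trc co ev (g + g') = trc co ev g + trc co ev g' := by
  unfold trc; simp

theorem trc_smul (co : 𝟙_ C ⟶ d ⊗ V) (ev : d ⊗ V ⟶ 𝟙_ C) (c : ℂ) (g : V ⟶ V) :
    trc co ev (c • g) = c • trc co ev g := by
  unfold trc; simp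

theorem trc_sum (co : 𝟙_ C ⟶ d ⊗ V) (ev : d ⊗ V ⟶ 𝟙_ C) {T : Type*} (s : Finset T)
    (g : T → (V ⟶ V)) :
    trc co ev (∑ a ∈ s, g a) = ∑ a ∈ s, trc co ev (g a) := by
  unfold trc; simp [whiskerLeft_sum, Preadditive.sum_comp, Preadditive.comp_sum]

end Lin

section Map
variable {A : Type u'} [Category.{v'} A] [MonoidalCategory A] (F : C ⥤ A) [F.Monoidal]
open Functor.LaxMonoidal Functor.OplaxMonoidal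

theorem map_ptr (co : 𝟙_ C ⟶ d ⊗ V) (ev : d ⊗ V ⟶ 𝟙_ C) (g : V ⊗ U ⟶ V ⊗ U') :
    F.map (ptr co ev g) = ptr (ε F ≫ F.map co ≫ δ F d V) (μ F d V ≫ F.map ev ≫ η F)
      (μ F V U ≫ F.map g ≫ δ F V U') := by
  unfold ptr
  simp only [Functor.map_comp, Functor.Monoidal.map_whiskerLeft, Functor.Monoidal.map_whiskerRight,
      Functor.Monoidal.map_associator_inv, Functor.Monoidal.map_associator,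
      Functor.Monoidal.map_leftUnitor,
      Functor.Monoidal.map_leftUnitor_inv, Category.assoc, Functor.Monoidal.μ_δ_assoc,
      comp_whiskerRight, MonoidalCategory.whiskerLeft_comp]

end Map

section Br
variable [BraidedCategory C]
open BraidedCategory

theorem nest_braid (a : 𝟙_ C ⟶ V ⊗ d) (b : 𝟙_ C ⟶ U ⊗ e) :
    (a ⊗≫ (V ◁ b) ▷ d ⊗≫ 𝟙 ((V ⊗ U) ⊗ (e ⊗ d))) ≫ ((β_ U V).inv ≫ (β_ V U).inv) ▷ (e ⊗ d) ≫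
      (β_ (e ⊗ d) (V ⊗ U)).inv =
    (b ≫ (β_ e U).inv) ⊗≫ e ◁ (a ≫ (β_ d V).inv) ▷ U ⊗≫ 𝟙 ((e ⊗ d) ⊗ (V ⊗ U)) := by
  have n1 : V ◁ b ⊗≫ (β_ U V).inv ▷ e ⊗≫ U ◁ (β_ e V).inv = 𝟙 _ ⊗≫ b ▷ V ⊗≫ 𝟙 _ := by
    calc _ = (V ◁ b ≫ (β_ (U ⊗ e) V).inv) ⊗≫ 𝟙 _ := by
          rw [braiding_tensor_left_inv]; monoidal
      _ = _ := by rw [braiding_inv_naturality_right, braiding_inv_tensorUnit_left]; monoidal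
  calc _ = (a ⊗≫ (V ◁ b) ▷ d ⊗≫ 𝟙 ((V ⊗ U) ⊗ (e ⊗ d))) ≫ (β_ U V).inv ▷ (e ⊗ d) ≫
        ((β_ V U).inv ▷ (e ⊗ d) ≫ (β_ (e ⊗ d) (V ⊗ U)).inv) := by monoidal
    _ = a ⊗≫ (V ◁ b ⊗≫ (β_ U V).inv ▷ e ⊗≫ U ◁ (β_ e V).inv) ▷ d ⊗≫ (U ⊗ e) ◁ (β_ d V).inv ⊗≫
        (β_ e U).inv ▷ (d ⊗ V) ⊗≫ e ◁ (β_ (d ⊗ V) U).inv ⊗≫ 𝟙 _ := by
      rw [braiding_inv_naturality_left, braiding_tensor_right_inv, braiding_tensor_left_inv,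
        braiding_tensor_left_inv, braiding_tensor_left_inv]
      monoidal
    _ = 𝟙 _ ⊗≫ (𝟙_ C ◁ (a) ≫ b ▷ (V ⊗ d)) ⊗≫ (U ⊗ e) ◁ (β_ d V).inv ⊗≫
        (β_ e U).inv ▷ (d ⊗ V) ⊗≫ e ◁ (β_ (d ⊗ V) U).inv ⊗≫ 𝟙 _ := by
      rw [n1]; monoidal
    _ = b ⊗≫ ((U ⊗ e) ◁ (a ≫ (β_ d V).inv) ≫ (β_ e U).inv ▷ (d ⊗ V)) ⊗≫
        e ◁ (β_ (d ⊗ V) U).inv ⊗≫ 𝟙 _ := by
      rw [whisker_exchange]; monoidal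
    _ = (b ≫ (β_ e U).inv) ⊗≫ e ◁ (U ◁ (a ≫ (β_ d V).inv) ≫ (β_ (d ⊗ V) U).inv) ⊗≫ 𝟙 _ := by
      rw [whisker_exchange]; monoidal
    _ = _ := by
      rw [braiding_inv_naturality_right, braiding_inv_tensorUnit_left]; monoidal

end Br

end Pool.Agent.Lib.MP_edb142_al
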