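import Pool.Agent.Lib.MP_edb142_al.Ptr

open CategoryTheory MonoidalCategory Limits BraidedCategory

set_option linter.unusedSectionVars false

namespace Pool.Agent.Lib.MP_edb142_al

universe v u v' u'

structure Tw (C : Type u) [Category.{v} C] [MonoidalCategory C] [BraidedCategory C] where
  t : ∀ V : C, V ≅ V
  nat : ∀ {V U : C} (f : V ⟶ U), f ≫ (t U).hom = (t V).hom ≫ f
  tens : ∀ V U : C, (t (V ⊗ U)).hom = (β_ V U).hom ≫ (β_ U V).hom ≫ ((t V).hom ⊗ₘ (t U).hom)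
  dual : ∀ {V d : C} (P : Du V d), (t d).hom ▷ V ≫ P.ε = d ◁ (t V).hom ≫ P.ε

variable {C : Type u} [Category.{v} C] [MonoidalCategory C] [BraidedCategory C]

namespace Tw
variable (θ : Tw C) {V d U e U' : C}

@[reassoc] theorem nat_inv (f : V ⟶ U) : f ≫ (θ.t U).inv = (θ.t V).inv ≫ f := by
  rw [Iso.comp_inv_eq, Category.assoc, θ.nat, Iso.inv_hom_id_assoc]

theorem unit : (θ.t (𝟙_ C)).hom = 𝟙 _ := by
  have h := θ.nat (λ_ (𝟙_ C)).hom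
  rw [θ.tens, braiding_tensorUnit_left, MonoidalCategory.tensorHom_def] at h
  simp only [Category.assoc, ← unitors_inv_equal, Iso.hom_inv_id_assoc,
    leftUnitor_naturality] at h
  rw [unitors_equal, rightUnitor_naturality_assoc, cancel_epi] at h
  rw [← cancel_epi (θ.t (𝟙_ C)).hom, ← h]; simp

theorem unit_inv : (θ.t (𝟙_ C)).inv = 𝟙 _ := by
  rw [← cancel_epi (θ.t (𝟙_ C)).hom, Iso.hom_inv_id, θ.unit, Category.comp_id]

theorem rib (P : Du V d) :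
    (β_ d V).inv ≫ P.ε = ((θ.t V).hom ≫ (θ.t V).hom) ▷ d ≫ (β_ V d).hom ≫ P.ε := by
  have h := θ.nat P.ε
  rw [θ.unit, Category.comp_id, θ.tens, tensorHom_def'] at h
  simp only [Category.assoc] at h
  rw [θ.dual P] at h
  rw [braiding_naturality_left_assoc, Iso.inv_comp_eq, MonoidalCategory.whiskerLeft_comp,
    Category.assoc]
  exact h

def co (P : Du V d) : 𝟙_ C ⟶ d ⊗ V := P.η ≫ (θ.t V).inv ▷ d ≫ (β_ d V).inv

theorem co_mate (P : Du V d) (Q : Du U e) (f : V ⟶ U) :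
    θ.co P ≫ d ◁ f = θ.co Q ≫ P.mate Q f ▷ U := by
  unfold co
  simp only [Category.assoc]
  rw [← braiding_inv_naturality_left, ← braiding_inv_naturality_right,
    ← whisker_exchange_assoc, P.mate_η_assoc, ← comp_whiskerRight_assoc,
    ← comp_whiskerRight_assoc, θ.nat_inv]

theorem tens_inv (V U : C) : (θ.t (V ⊗ U)).inv =
    ((θ.t V).inv ⊗ₘ (θ.t U).inv) ≫ (β_ U V).inv ≫ (β_ V U).inv := by
  rw [← cancel_epi (θ.t (V ⊗ U)).hom, Iso.hom_inv_id, θ.tens]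
  simp

theorem co_tensor (P : Du V d) (Q : Du U e) :
    θ.co (P.tensor Q) = θ.co Q ⊗≫ e ◁ θ.co P ▷ U ⊗≫ 𝟙 ((e ⊗ d) ⊗ (V ⊗ U)) := by
  have h := nest_braid (P.η ≫ (θ.t V).inv ▷ d) (Q.η ≫ (θ.t U).inv ▷ e)
  unfold co
  simp only [Category.assoc] at h
  rw [← h, Du.tensor_η, θ.tens_inv, MonoidalCategory.tensorHom_def]
  calc _ = P.η ⊗≫ (V ◁ Q.η ≫ (θ.t V).inv ▷ (U ⊗ e)) ▷ d ⊗≫ V ◁ (θ.t U).inv ▷ (e ⊗ d) ⊗≫
        ((β_ U V).inv ≫ (β_ V U).inv) ▷ (e ⊗ d) ≫ (β_ (e ⊗ d) (V ⊗ U)).inv := by monoidal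
    _ = _ := by rw [whisker_exchange]; monoidal

theorem co_unit : θ.co (Du.unit : Du (𝟙_ C) (𝟙_ C)) = (ρ_ _).inv := by
  unfold co
  rw [θ.unit_inv, Du.unit_η, braiding_inv_tensorUnit_left]; monoidal

def pt (P : Du V d) (g : V ⊗ U ⟶ V ⊗ U') : U ⟶ U' := ptr (θ.co P) P.ε g

def tr (P : Du V d) (f : V ⟶ V) : 𝟙_ C ⟶ 𝟙_ C := trc (θ.co P) P.ε f

theorem pt_unit (P : Du V d) (f : V ⟶ V) : θ.pt P (f ▷ 𝟙_ C) = θ.tr P f := ptr_unit _ _ _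

theorem pt_cyc {W W' : C} (P : Du V d) (Q : Du U e) (f : V ⟶ U) (g : U ⊗ W ⟶ V ⊗ W') :
    θ.pt P (f ▷ W ≫ g) = θ.pt Q (g ≫ f ▷ W') :=
  ptr_cyc _ _ _ _ f (P.mate Q f) (θ.co_mate P Q f) (P.mate_ε Q f) g

theorem pt_indep {d' W W' : C} (P : Du V d) (Q : Du V d') (g : V ⊗ W ⟶ V ⊗ W') :
    θ.pt P g = θ.pt Q g := by
  simpa using θ.pt_cyc P Q (𝟙 V) g

theorem tr_cyc (P : Du V d) (Q : Du U e) (f : V ⟶ U) (g : U ⟶ V) :
    θ.tr P (f ≫ g) = θ.tr Q (g ≫ f) := by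
  rw [← pt_unit, ← pt_unit, comp_whiskerRight, comp_whiskerRight, θ.pt_cyc P Q]

theorem tr_indep {d' : C} (P : Du V d) (Q : Du V d') (f : V ⟶ V) : θ.tr P f = θ.tr Q f := by
  simpa using θ.tr_cyc P Q (𝟙 V) f

theorem pt_tensor {W W' : C} (P : Du V d) (Q : Du U e) (g : (V ⊗ U) ⊗ W ⟶ (V ⊗ U) ⊗ W') :
    θ.pt (P.tensor Q) g = θ.pt Q (θ.pt P ((α_ V U W).inv ≫ g ≫ (α_ V U W').hom)) := by
  unfold pt
  rw [θ.co_tensor, Du.tensor_ε, ptr_nest]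

theorem tr_tensor (P : Du V d) (Q : Du U e) (g : V ⊗ U ⟶ V ⊗ U) :
    θ.tr (P.tensor Q) g = θ.tr Q (θ.pt P g) := by
  rw [← pt_unit, θ.pt_tensor, ← pt_unit]
  congr 1
  exact ptr_whisk _ _ g _

theorem tr_plus (P : Du V d) (f : V ⟶ V) :
    θ.tr P f = P.η ≫ (f ≫ (θ.t V).hom) ▷ d ≫ (β_ V d).hom ≫ P.ε := by
  unfold tr trc co
  simp only [Category.assoc]
  rw [← braiding_inv_naturality_left_assoc, θ.rib, ← comp_whiskerRight_assoc,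
    ← comp_whiskerRight_assoc, ← θ.nat_inv]
  simp

theorem tr_unit (f : 𝟙_ C ⟶ 𝟙_ C) : θ.tr Du.unit f = f := by
  unfold tr trc
  rw [θ.co_unit, Du.unit_ε]; monoidal

theorem pt_unit_obj {W W' : C} (f : W ⟶ W') : θ.pt Du.unit (𝟙_ C ◁ f) = f := by
  unfold pt ptr
  rw [θ.co_unit, Du.unit_ε]; monoidal

theorem tr_dual (P : Du V d) : θ.tr P.swap (𝟙 d) = θ.tr P (𝟙 V) := by
  rw [tr_plus, tr_plus, Du.swap_η, Du.swap_ε]
  simp only [Category.id_comp, Category.assoc]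
  rw [braiding_naturality_left_assoc, Iso.inv_hom_id_assoc, braiding_naturality_right_assoc,
    θ.dual P, braiding_naturality_left_assoc]

/-- double braiding -/
def bb (V U : C) : V ⊗ U ⟶ V ⊗ U := (β_ V U).hom ≫ (β_ U V).hom

theorem bb_nat (f : V ⟶ U) (W : C) : f ▷ W ≫ bb U W = bb V W ≫ f ▷ W := by
  unfold bb
  rw [braiding_naturality_left_assoc, braiding_naturality_right, Category.assoc]

theorem pt_bb_tensor (P : Du V d) (Q : Du U e) (W : C) :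
    θ.pt (P.tensor Q) (bb (V ⊗ U) W) =
      θ.pt Q ((β_ U W).hom ≫ θ.pt P (bb V W) ▷ U ≫ (β_ W U).hom) := by
  rw [θ.pt_tensor]
  congr 1
  have : (α_ V U W).inv ≫ bb (V ⊗ U) W ≫ (α_ V U W).hom =
      V ◁ (β_ U W).hom ≫ ((α_ V W U).inv ≫ bb V W ▷ U ≫ (α_ V W U).hom) ≫ V ◁ (β_ W U).hom := by
    unfold bb
    rw [braiding_tensor_left_hom, braiding_tensor_right_hom]; monoidal
  unfold pt
  rw [this, ptr_left, ptr_right, ptr_whisk]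

end Tw

end Pool.Agent.Lib.MP_edb142_al
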