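import Pool.Agent.Lib.MP_edb142_al.Defs
import Pool.Agent.Lib.MP_edb142_al.Cyc

open Matrix

set_option linter.unusedSectionVars false
set_option linter.unusedVariables false

namespace Pool.Agent.Lib.MP_edb142_al

variable {p : ℕ} [hp : Fact p.Prime]

def jj (p : ℕ) (m : ℕ) : ZMod p := ((2 * m + 1 : ℕ) : ZMod p)

theorem odd_p (h5 : 5 ≤ p) : p % 2 = 1 := hp.out.eq_two_or_odd.resolve_left (by omega)

theorem jj_val (h5 : 5 ≤ p) {m : ℕ} (hm : m < p / 2) : (jj p m).val = 2 * m + 1 := by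
  unfold jj; rw [ZMod.val_natCast, Nat.mod_eq_of_lt (by omega)]

theorem jj_ne (h5 : 5 ≤ p) {m : ℕ} (hm : m < p / 2) : jj p m ≠ 0 := by
  intro h
  have := jj_val h5 hm
  rw [h, ZMod.val_zero] at this; omega

theorem jj_inj (h5 : 5 ≤ p) {m n : ℕ} (hm : m < p / 2) (hn : n < p / 2) (h : jj p m = jj p n) :
    m = n := by
  have h1 := jj_val h5 hm
  rw [h, jj_val h5 hn] at h1; omega

theorem jj_add (h5 : 5 ≤ p) {m n : ℕ} (hm : m < p / 2) (hn : n < p / 2) : jj p m + jj p n ≠ 0 := by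
  intro h
  unfold jj at h
  rw [← Nat.cast_add, ZMod.natCast_eq_zero_iff] at h
  obtain ⟨k, hk⟩ := h
  have := odd_p h5
  have : k = 0 ∨ k = 1 ∨ 2 ≤ k := by omega
  rcases this with rfl | rfl | h2
  · omega
  · omega
  · have : p * 2 ≤ p * k := Nat.mul_le_mul_left _ h2
    omega

theorem jj_zero : jj p 0 = 1 := by simp [jj]

def hs (p : ℕ) : Option (Fin (p / 2) ⊕ Fin (p / 2)) → ZMod p
  | none => 0
  | some (Sum.inl m) => jj p m
  | some (Sum.inr m) => -jj p m

theorem hs_bij (h5 : 5 ≤ p) : Function.Bijective (hs p) := by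
  rw [Fintype.bijective_iff_injective_and_card]
  refine ⟨?_, by have := odd_p h5; simp [ZMod.card]; omega⟩
  rintro (_ | m | m) (_ | n | n) h <;> simp only [hs] at h
  · rfl
  · exact absurd h.symm (jj_ne h5 n.2)
  · exact absurd (neg_eq_zero.1 h.symm) (jj_ne h5 n.2)
  · exact absurd h (jj_ne h5 m.2)
  · rw [Fin.ext (jj_inj h5 m.2 n.2 h)]
  · exact absurd (by rw [h]; ring) (jj_add h5 m.2 n.2)
  · exact absurd (neg_eq_zero.1 h) (jj_ne h5 m.2)
  · exact absurd (by rw [← h]; ring) (jj_add h5 m.2 n.2)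
  · rw [Fin.ext (jj_inj h5 m.2 n.2 (neg_injective h))]

theorem sum_half (h5 : 5 ≤ p) {M : Type*} [AddCommMonoid M] (f : ZMod p → M) :
    ∑ x, f x = f 0 + ∑ m : Fin (p / 2), (f (jj p m) + f (-jj p m)) := by
  rw [← (Equiv.ofBijective _ (hs_bij h5)).sum_comp, Fintype.sum_option, Fintype.sum_sum_type,
    Finset.sum_add_distrib]
  rfl

theorem exists_jj (h5 : 5 ≤ p) {x : ZMod p} (hx : x ≠ 0) :
    ∃ m : Fin (p / 2), x = jj p m ∨ x = -jj p m := by
  obtain ⟨_ | m | m, h⟩ := (hs_bij h5).2 x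
  · exact absurd h.symm hx
  · exact ⟨m, Or.inl h.symm⟩
  · exact ⟨m, Or.inr h.symm⟩

variable {q : ℂ}

noncomputable def ch (hq : IsPrimitiveRoot q p) : AddChar (ZMod p) ℂ :=
  AddChar.zmodChar p hq.pow_eq_one

noncomputable def sn (hq : IsPrimitiveRoot q p) (x : ZMod p) : ℂ := ch hq x - ch hq (-x)

theorem ch_sum (hq : IsPrimitiveRoot q p) (b : ZMod p) :
    ∑ x, ch hq (x * b) = if b = 0 then (p : ℂ) else 0 := by
  rw [ch, AddChar.sum_mulShift b (AddChar.zmodChar_primitive_of_primitive_root p hq)]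
  split_ifs <;> simp [ZMod.card]

theorem sn_nat (hq : IsPrimitiveRoot q p) (n : ℕ) : sn hq n = q ^ n - q⁻¹ ^ n := by
  rw [sn, AddChar.map_neg_eq_inv, ch, AddChar.zmodChar_apply', inv_pow]

theorem sn_one (hq : IsPrimitiveRoot q p) : sn hq 1 = q - q⁻¹ := by
  simpa using sn_nat hq 1

theorem sn_neg (hq : IsPrimitiveRoot q p) (x : ZMod p) : sn hq (-x) = -sn hq x := by
  simp [sn]

theorem sn_ne (h5 : 5 ≤ p) (hq : IsPrimitiveRoot q p) {x : ZMod p} (hx : x ≠ 0) : sn hq x ≠ 0 := by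
  intro h
  rw [sn, sub_eq_zero] at h
  have h2 : ch hq (x + x) = 1 := by
    rw [AddChar.map_add_eq_mul]
    conv_lhs => rhs; rw [h]
    rw [← AddChar.map_add_eq_mul]; simp
  rw [ch, AddChar.zmodChar_apply, hq.pow_eq_one_iff_dvd] at h2
  have h3 : x + x = 0 := by
    rw [← ZMod.val_eq_zero]
    exact Nat.eq_zero_of_dvd_of_lt h2 (ZMod.val_lt _)
  have h4 : (2 : ZMod p) ≠ 0 := by
    intro h
    have := (ZMod.natCast_eq_zero_iff 2 p).1 (by exact_mod_cast h)
    have := Nat.le_of_dvd (by norm_num) this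
    omega
  exact hx ((mul_eq_zero.1 (by rw [two_mul, h3])).resolve_left h4)

theorem sn_conj (hq : IsPrimitiveRoot q p) (x : ZMod p) :
    (starRingEnd ℂ) (sn hq x) = -sn hq x := by
  rw [sn, map_sub, ← AddChar.map_neg_eq_conj, ← AddChar.map_neg_eq_conj]; simp

theorem slS_eq (hq : IsPrimitiveRoot q p) (m n : ℕ) :
    slS q m n = sn hq (jj p m * jj p n) / sn hq 1 := by
  rw [slS, sn_one, ← sn_nat hq, jj, jj, Nat.cast_mul]

theorem slS_real (hq : IsPrimitiveRoot q p) (m n : ℕ) :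
    (starRingEnd ℂ) (slS q m n) = slS q m n := by
  rw [slS_eq hq, map_div₀, sn_conj, sn_conj, neg_div_neg_eq]

theorem slS_zero (h5 : 5 ≤ p) (hq : IsPrimitiveRoot q p) : slS q 0 0 = 1 := by
  rw [slS_eq hq, jj_zero, one_mul, div_self (sn_ne h5 hq one_ne_zero)]

theorem slS_ne (h5 : 5 ≤ p) (hq : IsPrimitiveRoot q p) {m n : ℕ} (hm : m < p / 2) (hn : n < p / 2) :
    slS q m n ≠ 0 := by
  rw [slS_eq hq]
  exact div_ne_zero (sn_ne h5 hq (mul_ne_zero (jj_ne h5 hm) (jj_ne h5 hn))) (sn_ne h5 hq one_ne_zero)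

theorem map_slS (σ : ℂ →+* ℂ) (q : ℂ) (m n : ℕ) : σ (slS q m n) = slS (σ q) m n := by
  simp [slS]

noncomputable def SM (p : ℕ) (q : ℂ) : Matrix (Fin (p / 2)) (Fin (p / 2)) ℂ :=
  Matrix.of fun m n => slS q m n

theorem SM_herm (hq : IsPrimitiveRoot q p) : (SM p q)ᴴ = SM p q := by
  ext m n
  rw [conjTranspose_apply, SM, of_apply, of_apply, ← slS_real hq m n, slS_eq hq, slS_eq hq,
    mul_comm]
  rfl

theorem SM_sq (h5 : 5 ≤ p) (hq : IsPrimitiveRoot q p) :
    SM p q * SM p q = (-(p : ℂ) / (sn hq 1) ^ 2) • (1 : Matrix _ _ ℂ) := by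
  ext m l
  have h := sum_half h5 (fun x => sn hq (jj p m * x) * sn hq (x * jj p l))
  have e1 : ∀ x : ZMod p, sn hq (jj p m * x) * sn hq (x * jj p l) =
      ch hq (x * (jj p m + jj p l)) - ch hq (x * (jj p m - jj p l)) - ch hq (x * (jj p l - jj p m)) +
        ch hq (x * (-(jj p m + jj p l))) := by
    intro x
    simp only [sn, sub_mul, mul_sub, ← AddChar.map_add_eq_mul]
    ring_nf
  have h2 : (∑ x, sn hq (jj p m * x) * sn hq (x * jj p l)) = if m = l then -2 * (p : ℂ) else 0 := by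
    simp only [e1, Finset.sum_add_distrib, Finset.sum_sub_distrib, ch_sum, neg_eq_zero,
      jj_add h5 m.2 l.2, if_false, sub_eq_zero]
    by_cases hml : m = l
    · subst hml; simp; ring
    · have : jj p m ≠ jj p l := fun h => hml (Fin.ext (jj_inj h5 m.2 l.2 h))
      simp [hml, this, this.symm]
  rw [h2] at h
  simp only [mul_zero, zero_mul, mul_neg, neg_mul, sn_neg, neg_neg, ← two_mul, ← Finset.mul_sum] at h
  have h0 : sn hq 0 = 0 := by simp [sn]
  rw [h0, zero_mul, zero_add] at h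
  have h1 := sn_ne h5 hq one_ne_zero
  simp only [Matrix.mul_apply, SM, of_apply, slS_eq hq, Matrix.smul_apply, one_apply, smul_eq_mul,
    div_mul_div_comm, ← Finset.sum_div]
  have h3 : ∑ k : Fin (p / 2), sn hq (jj p m * jj p k) * sn hq (jj p k * jj p l) =
      if m = l then -(p : ℂ) else 0 := by
    split_ifs at h ⊢
    · linear_combination (-1 / 2 : ℂ) * h
    · linear_combination (-1 / 2 : ℂ) * h
  rw [h3]
  split_ifs
  · rw [mul_one, pow_two]
  · simp

theorem trace_integral {n : Type} [Fintype n] [DecidableEq n] [Nonempty n] (g : Matrix n n ℂ)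
    {N : ℕ} (hN : 0 < N) (h : g ^ N = 1) : IsIntegral ℤ g.trace := by
  rw [trace_eq_sum_roots_charpoly]
  refine IsIntegral.multiset_sum fun x hx => IsIntegral.of_pow hN ?_
  have h1 : x ∈ spectrum ℂ g :=
    mem_spectrum_iff_isRoot_charpoly.2 (Polynomial.isRoot_of_mem_roots hx)
  have h2 := spectrum.pow_mem_pow g N h1
  rw [h, spectrum.one_eq, Set.mem_singleton_iff] at h2
  rw [h2]; exact isIntegral_one

theorem inf_order (h5 : 5 ≤ p) (hq : IsPrimitiveRoot q p) (ε : ZMod p → ℤ) (h0 : ε 0 = 0)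
    (h1 : ∀ x, |ε x| ≤ 1) (hev : ∀ x, ε (-x) = ε x) {N : ℕ} (hN : 0 < N)
    (h : ((-(p : ℂ) / (sn hq 1) ^ 2)⁻¹ • (diagonal (fun m : Fin (p / 2) => (ε (jj p m) : ℂ)) *
      SM p q * diagonal (fun m : Fin (p / 2) => (ε (jj p m) : ℂ)) * SM p q)) ^ N = 1)
    {a : ZMod p} (ha : a ≠ 0) : ε a = ε 1 := by
  have : Nonempty (Fin (p / 2)) := ⟨⟨0, by omega⟩⟩
  have hi := trace_integral _ hN h
  have hp0 : (p : ℂ) ≠ 0 := Nat.cast_ne_zero.2 hp.out.ne_zero
  have hs1 := sn_ne h5 hq one_ne_zero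
  have h2 : (2 : ZMod p) ≠ 0 := by
    intro h
    have := (ZMod.natCast_eq_zero_iff 2 p).1 (by exact_mod_cast h)
    have := Nat.le_of_dvd (by norm_num) this
    omega
  set c : ZMod p → ℤ := fun z => ∑ m : Fin (p / 2), ε (jj p m) * ε (z * (2 * jj p m)⁻¹) with hc
  set E : ℤ := ∑ m : Fin (p / 2), ε (jj p m) with hE
  have e1 : ∀ y : ZMod p, y ≠ 0 → ∑ k : Fin (p / 2), (ε (jj p k) : ℂ) *
      (ch hq (y * jj p k) + ch hq (-(y * jj p k))) = ∑ z, (ε (z * y⁻¹) : ℂ) * ch hq z := by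
    intro y hy
    rw [← Equiv.sum_comp (Equiv.mulRight₀ y hy), sum_half h5]
    simp only [Equiv.mulRight₀_apply, zero_mul, h0, Int.cast_zero, zero_add,
      mul_inv_cancel_right₀ hy, hev]
    refine Finset.sum_congr rfl fun k _ => ?_
    rw [mul_add, mul_comm y, neg_mul]
  have e2 : (p : ℂ) * -((-(p : ℂ) / (sn hq 1) ^ 2)⁻¹ • (diagonal (fun m : Fin (p / 2) =>
      (ε (jj p m) : ℂ)) * SM p q * diagonal (fun m : Fin (p / 2) => (ε (jj p m) : ℂ)) *
      SM p q)).trace = ∑ z, ((if z = 0 then -2 * E ^ 2 else c z : ℤ) : ℂ) * q ^ z.val := by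
    have a1 : ∀ x : ZMod p, sn hq x * sn hq x = ch hq (2 * x) + ch hq (-(2 * x)) - 2 := by
      intro x
      simp only [sn, sub_mul, mul_sub, ← AddChar.map_add_eq_mul]
      simp only [add_neg_cancel, neg_add_cancel, AddChar.map_zero_eq_one]
      ring_nf
    have a2 : ∑ z, ((if z = 0 then -2 * E ^ 2 else c z : ℤ) : ℂ) * q ^ z.val =
        ∑ z, (c z : ℂ) * ch hq z - 2 * (E : ℂ) ^ 2 := by
      have : ∀ z : ZMod p, ((if z = 0 then -2 * E ^ 2 else c z : ℤ) : ℂ) * q ^ z.val =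
          (c z : ℂ) * ch hq z - if z = 0 then 2 * (E : ℂ) ^ 2 else 0 := by
        intro z
        by_cases hz : z = 0
        · simp [hz, hc, h0]
        · simp [hz, ch, AddChar.zmodChar_apply]
      simp only [this, Finset.sum_sub_distrib]
      simp
    rw [a2, trace_smul, smul_eq_mul]
    have a3 : (diagonal (fun m : Fin (p / 2) => (ε (jj p m) : ℂ)) * SM p q *
        diagonal (fun m : Fin (p / 2) => (ε (jj p m) : ℂ)) * SM p q).trace =
        (∑ z, (c z : ℂ) * ch hq z - 2 * (E : ℂ) ^ 2) / (sn hq 1) ^ 2 := by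
      have b0 : ∀ (U : Fin (p / 2) → ℂ), (diagonal U * SM p q * diagonal U * SM p q).trace =
          ∑ m, ∑ k, U m * SM p q m k * U k * SM p q k m := by
        intro U
        refine Finset.sum_congr rfl fun m _ => ?_
        rw [diag_apply, Matrix.mul_apply]
        simp only [mul_diagonal, diagonal_mul]
      rw [b0, eq_div_iff (pow_ne_zero 2 hs1), Finset.sum_mul]
      have b1 : ∀ m : Fin (p / 2), (∑ k, (ε (jj p m) : ℂ) * SM p q m k * (ε (jj p k) : ℂ) *
          SM p q k m) * sn hq 1 ^ 2 = (ε (jj p m) : ℂ) *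
            (∑ z, (ε (z * (2 * jj p m)⁻¹) : ℂ) * ch hq z - 2 * E) := by
        intro m
        rw [← e1 _ (mul_ne_zero h2 (jj_ne h5 m.2)), hE, Finset.sum_mul]
        push_cast
        rw [Finset.mul_sum, ← Finset.sum_sub_distrib, Finset.mul_sum]
        refine Finset.sum_congr rfl fun k _ => ?_
        have := a1 (jj p m * jj p k)
        simp only [SM, of_apply, slS_eq hq, mul_comm (jj p k) (jj p m), mul_assoc (2 : ZMod p)]
        generalize ch hq (2 * (jj p m * jj p k)) = y1 at this ⊢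
        generalize ch hq (-(2 * (jj p m * jj p k))) = y2 at this ⊢
        generalize sn hq (jj p m * jj p k) = y3 at this ⊢
        field_simp
        linear_combination (ε (jj p m) : ℂ) * (ε (jj p k) : ℂ) * this
      simp only [b1, mul_sub, Finset.sum_sub_distrib, hc, Finset.mul_sum]
      push_cast
      congr 1
      · rw [Finset.sum_comm]
        refine Finset.sum_congr rfl fun z _ => ?_
        rw [Finset.sum_mul]
        exact Finset.sum_congr rfl fun m _ => by ring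
      · rw [← Finset.sum_mul, hE]; push_cast; ring
    rw [a3]
    field_simp
  have hco := integral_coeff hq _ _ hi.neg e2
  have hcb : ∀ z, |c z| ≤ (p / 2 : ℕ) := by
    intro z
    refine (Finset.abs_sum_le_sum_abs _ _).trans ?_
    refine (Finset.sum_le_card_nsmul _ _ 1 fun m _ => ?_).trans (by simp)
    rw [abs_mul]
    exact mul_le_one₀ (h1 _) (abs_nonneg _) (h1 _)
  have hcc : ∀ z, z ≠ 0 → c z = c 1 := by
    intro z hz
    have b1 := hco z
    have b2 := hco 1
    rw [if_neg hz] at b1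
    rw [if_neg one_ne_zero, ← b1, ZMod.intCast_eq_intCast_iff_dvd_sub] at b2
    have b3 := abs_le.1 (hcb z)
    have b4 := abs_le.1 (hcb 1)
    have := odd_p h5
    have := Int.eq_zero_of_abs_lt_dvd b2 (by rw [abs_lt]; omega)
    omega
  have := conv_const (fun x => (ε x : ℂ)) (by simp [h0]) (2 * c 1) (fun z hz => by
    rw [← hcc (2 * z) (mul_ne_zero h2 hz), sum_half h5, hc]
    simp only [h0, Int.cast_zero, zero_mul, zero_add, inv_neg, mul_neg, hev]
    push_cast
    rw [Finset.mul_sum]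
    refine Finset.sum_congr rfl fun m _ => ?_
    rw [mul_inv, show 2 * z * ((2 : ZMod p)⁻¹ * (jj p m)⁻¹) = z * (jj p m)⁻¹ by field_simp]
    ring) ha
  exact_mod_cast this

end Pool.Agent.Lib.MP_edb142_al
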