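import Pool.Agent.Lib.MP_edb142_al.Sl

open Matrix
open scoped ComplexOrder

set_option linter.unusedSectionVars false
set_option linter.unusedVariables false

namespace Pool.Agent.Lib.MP_edb142_al

variable {p : ℕ} [hp : Fact p.Prime] {q : ℂ}

noncomputable def om (p : ℕ) : ℂ := Complex.exp (2 * Real.pi * Complex.I / p)

theorem om_prim : IsPrimitiveRoot (om p) p := Complex.isPrimitiveRoot_exp p hp.out.ne_zero

noncomputable def sr (y : ZMod p) : ℝ := Real.sin (2 * Real.pi * y.val / p)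

theorem sn_om (y : ZMod p) : sn om_prim y = (2 * sr y : ℝ) * Complex.I := by
  rw [sn, AddChar.map_neg_eq_conj, Complex.sub_conj, ch, AddChar.zmodChar_apply, om,
    ← Complex.exp_nat_mul, sr, ← Complex.exp_ofReal_mul_I_im]
  congr 5
  push_cast; ring

theorem sr_pos {y : ZMod p} (hy : y ≠ 0) (h : 2 * y.val < p) : 0 < sr y := by
  have hp0 : (0 : ℝ) < p := Nat.cast_pos.2 hp.out.pos
  have h1 : (0 : ℝ) < y.val := Nat.cast_pos.2 (Nat.pos_of_ne_zero (by rwa [Ne, ZMod.val_eq_zero]))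
  have h2 : (2 * y.val : ℝ) < p := by exact_mod_cast h
  apply Real.sin_pos_of_pos_of_lt_pi
  · positivity
  · rw [div_lt_iff₀ hp0]; nlinarith [Real.pi_pos]

theorem sr_neg' (y : ZMod p) : sr (-y) = -sr y := by
  have h := sn_neg om_prim y
  rw [sn_om, sn_om, ← neg_mul] at h
  have := mul_right_cancel₀ Complex.I_ne_zero h
  have : 2 * sr (-y) = -(2 * sr y) := by exact_mod_cast this
  linarith

theorem sr_neg {y : ZMod p} (h : p < 2 * y.val) : sr y < 0 := by
  have hy : y ≠ 0 := by rintro rfl; simp at h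
  have := sr_pos (neg_ne_zero.2 hy) (by
    rw [ZMod.neg_val, if_neg hy]
    have := ZMod.val_lt y
    omega)
  rw [sr_neg'] at this
  linarith

theorem two_term (h5 : 5 ≤ p) (s : ZMod p) (h : ∀ x, x ≠ 0 → 0 < sr x * sr (s * x)) : s = 1 := by
  have hodd := odd_p h5
  have h1 : (1 : ZMod p).val = 1 := ZMod.val_one p
  have hs1 : 0 < sr s := by
    have := h 1 one_ne_zero
    rw [mul_one] at this
    exact (mul_pos_iff_of_pos_left (sr_pos one_ne_zero (by omega))).1 this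
  have hs0 : s ≠ 0 := by rintro rfl; simp [sr] at hs1
  have ht : 2 * s.val < p := by
    by_contra hh
    have := sr_neg (y := s) (by omega)
    linarith
  have ht0 : s.val ≠ 0 := by rwa [Ne, ZMod.val_eq_zero]
  by_contra hne
  have ht1 : s.val ≠ 1 := fun h => hne (ZMod.val_injective p (h.trans h1.symm))
  set t := s.val with htdef
  set k := p / (2 * t) + 1 with hk
  have a1 : p < 2 * t * k := by rw [hk]; exact Nat.lt_mul_div_succ p (by omega)
  have a2 : 2 * t * k ≤ p + 2 * t := by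
    rw [hk, mul_add, mul_one]; exact Nat.add_le_add_right (Nat.mul_div_le p _) _
  have a3 : 2 * k < p := by
    have : p / (2 * t) ≤ p / 4 := Nat.div_le_div_left (by omega) (by norm_num)
    omega
  have a4 : t * k < p := by nlinarith
  have b1 : (k : ZMod p).val = k := by rw [ZMod.val_natCast, Nat.mod_eq_of_lt (by omega)]
  have b2 : (k : ZMod p) ≠ 0 := by
    intro h0; rw [h0, ZMod.val_zero, hk] at b1; exact absurd b1 (Nat.succ_ne_zero _).symm
  have b3 : (s * k).val = t * k := by rw [ZMod.val_mul, b1, Nat.mod_eq_of_lt a4]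
  have c1 := sr_pos b2 (by omega)
  have c2 := sr_neg (y := s * (k : ZMod p)) (by rw [b3]; nlinarith)
  have := h k b2
  nlinarith

theorem two_term' (h5 : 5 ≤ p) {a b : ZMod p} (ha : a ≠ 0)
    (h : ∀ x, x ≠ 0 → 0 < sr (a * x) * sr (b * x)) : a = b := by
  have := two_term h5 (b * a⁻¹) (fun x hx => by
    have := h (a⁻¹ * x) (mul_ne_zero (inv_ne_zero ha) hx)
    rwa [mul_inv_cancel_left₀ ha, ← mul_assoc] at this)
  field_simp at this
  exact this.symm

theorem sn_pow (hq : IsPrimitiveRoot q p) {a : ℕ} (ha : om p ^ a = q) (x : ZMod p) :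
    sn hq x = (2 * sr ((a : ZMod p) * x) : ℝ) * Complex.I := by
  have e : ∀ y : ZMod p, ch hq y = ch om_prim ((a : ZMod p) * y) := by
    intro y
    conv_rhs => rw [← ZMod.natCast_zmod_val y, ← Nat.cast_mul, ch, AddChar.zmodChar_apply', pow_mul,
      ha]
    rfl
  rw [← sn_om, sn, sn, e, e, mul_neg]

theorem sn_div (hq : IsPrimitiveRoot q p) {a : ℕ} (ha : om p ^ a = q) (x : ZMod p) :
    sn hq x / sn hq 1 = (sr ((a : ZMod p) * x) / sr (a : ZMod p) : ℝ) := by
  rw [sn_pow hq ha, sn_pow hq ha, mul_one, mul_div_mul_right _ _ Complex.I_ne_zero]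
  push_cast
  rw [mul_div_mul_left _ _ two_ne_zero]

theorem exists_exp (hq : IsPrimitiveRoot q p) : ∃ a : ℕ, om p ^ a = q ∧ (a : ZMod p) ≠ 0 := by
  obtain ⟨a, ha, h⟩ := om_prim.eq_pow_of_pow_eq_one hq.pow_eq_one
  refine ⟨a, h, fun h0 => ?_⟩
  rw [ZMod.natCast_eq_zero_iff] at h0
  rw [Nat.eq_zero_of_dvd_of_lt h0 ha, pow_zero] at h
  exact hq.ne_one hp.out.one_lt h.symm

theorem sr_ne (h5 : 5 ≤ p) {x : ZMod p} (hx : x ≠ 0) : sr x ≠ 0 := by
  intro h
  apply sn_ne h5 om_prim hx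
  rw [sn_om, h]; simp

theorem T_sq_inj (h5 : 5 ≤ p) (hq : IsPrimitiveRoot q p) {m n : ℕ} (hm : m < p / 2)
    (hn : n < p / 2) (h : slT q m ^ 2 = slT q n ^ 2) : m = n := by
  have e : ∀ k : ℕ, q * slT q k ^ 2 = q ^ (jj p k * jj p k).val := by
    intro k
    rw [← AddChar.zmodChar_apply hq.pow_eq_one, jj, ← Nat.cast_mul, AddChar.zmodChar_apply', slT,
      ← pow_mul, ← pow_succ']
    congr 1; ring
  have h1 := hq.pow_inj (ZMod.val_lt _) (ZMod.val_lt _) ((e m).symm.trans (h ▸ e n))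
  rcases mul_self_eq_mul_self_iff.1 (ZMod.val_injective p h1) with h2 | h2
  · exact jj_inj h5 hm hn h2
  · exact absurd (by rw [h2]; ring) (jj_add h5 hm hn)

theorem slT_zero (q : ℂ) : slT q 0 = 1 := by simp [slT]

theorem slT_pow (hq : IsPrimitiveRoot q p) (m : ℕ) : slT q m ^ p = 1 := by
  rw [slT, ← pow_mul, mul_comm, pow_mul, hq.pow_eq_one, one_pow]

theorem slT_ne (hq : IsPrimitiveRoot q p) (m : ℕ) : slT q m ≠ 0 :=
  pow_ne_zero _ (hq.ne_zero hp.out.ne_zero)

theorem eq_one_of_coprime {z : ℂ} {a b : ℕ} (h : a.Coprime b) (ha : z ^ a = 1) (hb : z ^ b = 1) :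
    z = 1 := by
  have := pow_gcd_eq_one.2 ⟨ha, hb⟩
  rwa [h, pow_one] at this

theorem cop2 (h5 : 5 ≤ p) : Nat.Coprime 2 p :=
  (Nat.coprime_primes Nat.prime_two hp.out).2 (by omega)

theorem single (h5 : 5 ≤ p) (hq : IsPrimitiveRoot q p) {m : ℕ} (hm : m < p / 2)
    (h : slT q m ^ 2 = 1) : m = 0 :=
  T_sq_inj h5 hq hm (by omega) (by rw [h, slT_zero, one_pow])

theorem pair_same (h5 : 5 ≤ p) (hq : IsPrimitiveRoot q p) {m b : ℕ} (hm : m < p / 2)
    (hb : b < p / 2) (h1 : (slT q m * slT q b) ^ 2 = 1)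
    (h2 : TotPos (slT q m * slT q b * (slS q m 0 * slS q b 0))) : m = 0 := by
  have e1 : slT q m * slT q b = 1 := eq_one_of_coprime (cop2 h5) h1 (by
    rw [mul_pow, slT_pow hq, slT_pow hq, one_mul])
  rw [e1, one_mul] at h2
  have e2 : jj p m = jj p b := by
    refine two_term' h5 (jj_ne h5 hm) fun x hx => ?_
    have hr : IsPrimitiveRoot (om p ^ x.val) p :=
      om_prim.pow_of_coprime _ (ZMod.val_coe_unit_coprime (Units.mk0 x hx))
    obtain ⟨σ, hσ⟩ := exists_sigma hq hr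
    have h3 := h2 σ
    rw [map_mul, map_slS, map_slS, hσ, slS_eq hr, slS_eq hr, sn_div hr rfl, sn_div hr rfl,
      jj_zero, mul_one, mul_one, ZMod.natCast_zmod_val, ← Complex.ofReal_mul,
      Complex.zero_lt_real, div_mul_div_comm] at h3
    rw [mul_comm (jj p m), mul_comm (jj p b)]
    exact (div_pos_iff_of_pos_right (mul_self_pos.2 (sr_ne h5 hx))).1 h3
  have e3 := jj_inj h5 hm hb e2
  subst e3
  exact single h5 hq hm (by rw [pow_two, e1])

theorem pair_diff {p' : ℕ} [hp' : Fact p'.Prime] {q' : ℂ} (h5 : 5 ≤ p) (hq : IsPrimitiveRoot q p)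
    (hq' : IsPrimitiveRoot q' p') (hne : p ≠ p') {m b : ℕ} (hm : m < p / 2)
    (h1 : (slT q m * slT q' b) ^ 2 = 1) : m = 0 := by
  apply single h5 hq hm
  refine eq_one_of_coprime ((Nat.coprime_primes hp.out hp'.out).2 hne) ?_ ?_
  · rw [← pow_mul, mul_comm, pow_mul, slT_pow hq, one_pow]
  · have : ((slT q m * slT q' b) ^ 2) ^ p' = 1 := by rw [h1, one_pow]
    rw [mul_pow, mul_pow, ← pow_mul (slT q' b), mul_comm 2 p', pow_mul, slT_pow hq', one_pow,
      mul_one] at this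
    exact this

theorem pair_five {q' : ℂ} (hq : IsPrimitiveRoot q 5) (hq' : IsPrimitiveRoot q' 5)
    (h1 : (slT q 1 * slT q' 1) ^ 2 = 1) : q * q' = 1 := by
  refine eq_one_of_coprime (a := 8) (b := 5) (by norm_num) ?_ ?_
  · rw [← h1, slT, slT]; ring
  · rw [mul_pow, hq.pow_eq_one, hq'.pow_eq_one, one_mul]

noncomputable def sg (z : ℂ) : ℤ := SignType.sign z.re

theorem sg_abs (z : ℂ) : |sg z| ≤ 1 := by
  unfold sg
  rcases SignType.sign z.re with _ | _ | _ <;> simp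

theorem sg_pm {z : ℂ} (h : (starRingEnd ℂ) z = z) (h0 : z ≠ 0) : (sg z : ℂ) = 1 ∨ (sg z : ℂ) = -1 := by
  have : z.re ≠ 0 := fun h1 => h0 (by rw [← Complex.conj_eq_iff_re.1 h, h1]; simp)
  unfold sg
  rcases lt_or_gt_of_ne this with h1 | h1
  · right; simp [sign_neg h1]
  · left; simp [sign_pos h1]

theorem sg_prod {ι : Type} [Fintype ι] (z : ι → ℂ) (h : ∀ i, (starRingEnd ℂ) (z i) = z i)
    (hp : 0 < ∏ i, z i) : ∏ i, (sg (z i) : ℂ) = 1 := by
  have e : ∏ i, z i = ((∏ i, (z i).re : ℝ) : ℂ) := by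
    push_cast
    exact Finset.prod_congr rfl fun i _ => (Complex.conj_eq_iff_re.1 (h i)).symm
  rw [e, Complex.zero_lt_real] at hp
  have h1 : ∏ i, SignType.sign (z i).re = 1 := by
    rw [← sign_pos hp]
    exact (map_prod signHom (fun i => (z i).re) Finset.univ).symm
  have h2 := congrArg (SignType.castHom : SignType →*₀ ℤ) h1
  rw [map_prod, map_one] at h2
  unfold sg
  exact_mod_cast h2

theorem inf_order' (h5 : 5 ≤ p) (hq : IsPrimitiveRoot q p) {q' : ℂ} (hq' : IsPrimitiveRoot q' p)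
    (h1 : q' ≠ q) (h2 : q' ≠ q⁻¹) (N : ℕ) (hN : 0 < N) :
    ((-(p : ℂ) / (sn hq 1) ^ 2)⁻¹ •
      (diagonal (fun m : Fin (p / 2) => (sg (slS q m 0 * slS q' m 0) : ℂ)) * SM p q *
      diagonal (fun m : Fin (p / 2) => (sg (slS q m 0 * slS q' m 0) : ℂ)) * SM p q)) ^ N ≠ 1 := by
  intro h
  set ε : ZMod p → ℤ := fun x => sg (sn hq x / sn hq 1 * (sn hq' x / sn hq' 1)) with hε
  have e : ∀ m : ℕ, sg (slS q m 0 * slS q' m 0) = ε (jj p m) := by
    intro m
    rw [slS_eq hq, slS_eq hq', jj_zero, mul_one]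
  simp only [e] at h
  have key := fun a ha => inf_order h5 hq ε (by simp [hε, sn, sg]) (fun x => sg_abs _)
    (fun x => by simp only [hε, sn_neg, neg_div, neg_mul_neg]) hN h (a := a) ha
  obtain ⟨a, ha, ha0⟩ := exists_exp hq
  obtain ⟨a', ha', ha0'⟩ := exists_exp hq'
  have k2 : ∀ x, x ≠ 0 → 0 < sr ((a : ZMod p) * x) * sr ((a' : ZMod p) * x) /
      (sr (a : ZMod p) * sr (a' : ZMod p)) := by
    intro x hx
    have := key x hx
    simp only [hε, sn_div hq ha, sn_div hq' ha', ← Complex.ofReal_mul, sg, Complex.ofReal_re,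
      mul_one, div_self (sr_ne h5 ha0), div_self (sr_ne h5 ha0'), sign_one] at this
    rw [← div_mul_div_comm, ← sign_eq_one_iff]
    revert this
    rcases SignType.sign (sr ((a : ZMod p) * x) / sr (a : ZMod p) *
      (sr ((a' : ZMod p) * x) / sr (a' : ZMod p))) with _ | _ | _ <;> simp
  have e2 : ∀ b : ℕ, om p ^ b = ch om_prim (b : ZMod p) := fun b => by
    rw [ch, AddChar.zmodChar_apply']
  rcases lt_or_gt_of_ne (mul_ne_zero (sr_ne h5 ha0) (sr_ne h5 ha0')) with h3 | h3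
  · have := two_term' h5 ha0 (b := -(a' : ZMod p)) (fun x hx => by
      have := k2 x hx
      rw [neg_mul, sr_neg', mul_neg]
      rcases div_pos_iff.1 this with h4 | h4
      · linarith [h4.2]
      · linarith [h4.1])
    apply h2
    rw [← ha, ← ha', e2, e2, this, AddChar.map_neg_eq_inv, inv_inv]
  · have := two_term' h5 ha0 (b := (a' : ZMod p)) (fun x hx =>
      (div_pos_iff_of_pos_right h3).1 (k2 x hx))
    apply h1
    rw [← ha, ← ha', e2, e2, this]

end Pool.Agent.Lib.MP_edb142_al
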