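import Mathlib

open Polynomial Matrix

namespace Pool.Agent.Lib.MP_edb142_al

theorem crt_poly (Λ : Finset ℂ) (m : ℕ) (ψ : ℂ → ℂ) :
    ∃ p : ℂ[X], ∀ l ∈ Λ, (X - C l) ^ m ∣ p - C (ψ l) := by
  obtain ⟨p, hp⟩ := Ideal.exists_forall_sub_mem_ideal (ι := Λ)
    (I := fun l => Ideal.span {(X - C (l : ℂ)) ^ m}) (fun a b hab => by
      rw [Function.onFun, Ideal.isCoprime_span_singleton_iff]
      exact (isCoprime_X_sub_C_of_isUnit_sub (sub_ne_zero.2
        (fun h => hab (Subtype.ext h))).isUnit).pow) (fun l => C (ψ l))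
  exact ⟨p, fun l hl => Ideal.mem_span_singleton.1 (hp ⟨l, hl⟩)⟩

theorem aeval_zero_of_dvd {J : Type} [Fintype J] [DecidableEq J] (g : Matrix J J ℂ) (r : ℂ[X])
    (h : ∀ l ∈ g.charpoly.roots.toFinset, (X - C l) ^ (Fintype.card J + 1) ∣ r) :
    aeval g r = 0 := by
  have h1 : g.charpoly ∣ r := by
    have hs : g.charpoly = (g.charpoly.roots.map fun a => X - C a).prod :=
      (IsAlgClosed.splits g.charpoly).eq_prod_roots_of_monic g.charpoly_monic
    rw [hs, Finset.prod_multiset_map_count]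
    refine Finset.prod_dvd_of_coprime (fun a _ b _ hab => ?_) (fun l hl => ?_)
    · exact (isCoprime_X_sub_C_of_isUnit_sub (sub_ne_zero.2 hab).isUnit).pow
    · refine (pow_dvd_pow _ ?_).trans (h l hl)
      have := Multiset.count_le_card l g.charpoly.roots
      have h2 := g.charpoly.card_roots'
      rw [Matrix.charpoly_natDegree_eq_dim] at h2
      omega
  obtain ⟨s, rfl⟩ := h1
  rw [map_mul, Matrix.aeval_self_charpoly, zero_mul]

theorem add_key {ι A V : Type} [DecidableEq ι] [CommRing A] [Algebra ℂ A] [AddCommGroup V]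
    [Module ℂ V] [Module A V] [IsScalarTower ℂ A V] (G : ι → A) (Λ : ι → Finset ℂ) (m : ι → ℕ)
    (h0 : ∀ i, ∀ l ∈ Λ i, l ≠ 0)
    (hz : ∀ i (r : ℂ[X]), (∀ l ∈ Λ i, (X - C l) ^ m i ∣ r) → aeval (G i) r = 0)
    (φ : ℂ → ℂ) (hφ : ∀ a b, a ≠ 0 → b ≠ 0 → φ (a * b) = φ a + φ b)
    (p : ι → ℂ[X]) (hp : ∀ i, ∀ l ∈ Λ i, (X - C l) ^ m i ∣ p i - C (φ l)) (s : Finset ι) :
    ∀ (c : ℂ) (v : V), c ≠ 0 → (∏ i ∈ s, G i - algebraMap ℂ A c) ∈ (Ideal.torsionOf A V v).radical →
      (∑ i ∈ s, aeval (G i) (p i)) • v = φ c • v := by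
  have hφ1 : φ 1 = 0 := by
    have := hφ 1 1 one_ne_zero one_ne_zero
    rw [one_mul] at this
    linear_combination -this
  induction s using Finset.induction_on with
  | empty =>
    rintro c v hc ⟨k, hk⟩
    rw [Ideal.mem_torsionOf_iff, Finset.prod_empty, ← map_one (algebraMap ℂ A), ← map_sub,
      ← map_pow, algebraMap_smul, smul_eq_zero] at hk
    rcases hk with hk | hk
    · rw [← sub_eq_zero.1 (pow_eq_zero_iff'.1 hk).1, hφ1]; simp
    · rw [hk]; simp
  | insert i s hi ih =>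
    intro c v hc hv
    choose e he using fun l : ℂ => crt_poly (Λ i) (m i) (fun x => if x = l then 1 else 0)
    have h1 : ∑ l ∈ Λ i, aeval (G i) (e l) = 1 := by
      rw [← map_sum, ← sub_eq_zero, ← map_one (aeval (R := ℂ) (G i)), ← map_sub]
      refine hz i _ fun x hx => ?_
      have : ∑ l ∈ Λ i, e l - 1 = ∑ l ∈ Λ i, (e l - C (if x = l then 1 else 0)) := by
        rw [Finset.sum_sub_distrib, ← map_sum, Finset.sum_ite_eq, if_pos hx, map_one]
      rw [this]
      exact Finset.dvd_sum fun l _ => he l x hx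
    have h2 : ∀ (l : ℂ) (r : ℂ[X]), (X - C l) ^ m i ∣ r → aeval (G i) (r * e l) = 0 := by
      intro l r hr
      refine hz i _ fun x hx => ?_
      by_cases hxl : x = l
      · rw [hxl]; exact hr.mul_right _
      · have := he l x hx
        rw [if_neg hxl, map_zero, sub_zero] at this
        exact this.mul_left _
    rw [← one_smul A v, ← h1, Finset.sum_smul (s := Λ i), Finset.smul_sum, Finset.smul_sum]
    refine Finset.sum_congr rfl fun l hl => ?_
    set u := aeval (G i) (e l) • v with hu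
    have hl0 := h0 i l hl
    have a1 : G i - algebraMap ℂ A l ∈ (Ideal.torsionOf A V u).radical := by
      refine ⟨m i, ?_⟩
      have := h2 l _ dvd_rfl
      rw [map_mul, map_pow, map_sub, aeval_X, aeval_C] at this
      rw [Ideal.mem_torsionOf_iff, hu, smul_smul, this, zero_smul]
    have a2 : G i * ∏ j ∈ s, G j - algebraMap ℂ A c ∈ (Ideal.torsionOf A V u).radical := by
      obtain ⟨k, hk⟩ := hv
      refine ⟨k, ?_⟩
      rw [Finset.prod_insert hi, Ideal.mem_torsionOf_iff] at hk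
      rw [Ideal.mem_torsionOf_iff, hu, smul_comm, hk, smul_zero]
    have a3 : ∏ j ∈ s, G j - algebraMap ℂ A (c / l) ∈ (Ideal.torsionOf A V u).radical := by
      have e1 : algebraMap ℂ A l⁻¹ * algebraMap ℂ A l = 1 := by
        rw [← map_mul, inv_mul_cancel₀ hl0, map_one]
      have : ∏ j ∈ s, G j - algebraMap ℂ A (c / l) = algebraMap ℂ A l⁻¹ *
          ((G i * ∏ j ∈ s, G j - algebraMap ℂ A c) - (G i - algebraMap ℂ A l) * ∏ j ∈ s, G j) := by
        rw [div_eq_inv_mul, map_mul]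
        linear_combination (-∏ j ∈ s, G j) * e1
      rw [this]
      exact Ideal.mul_mem_left _ _ (Ideal.sub_mem _ a2 (Ideal.mul_mem_right _ _ a1))
    have a4 : aeval (G i) (p i) • u = φ l • u := by
      have := h2 l _ (hp i l hl)
      rw [map_mul, map_sub, aeval_C] at this
      rw [← sub_eq_zero, ← algebraMap_smul A (φ l), ← sub_smul, hu, smul_smul, this, zero_smul]
    rw [Finset.sum_insert hi, add_smul, a4, ih _ u (div_ne_zero hc hl0) a3, ← add_smul,
      ← hφ _ _ hl0 (div_ne_zero hc hl0), mul_div_cancel₀ _ hl0]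

theorem exists_hom {x : ℂ} (hx : x ≠ 0) (h : ∀ n, 0 < n → x ^ n ≠ 1) :
    ∃ φ : ℂ → ℂ, (∀ a b, a ≠ 0 → b ≠ 0 → φ (a * b) = φ a + φ b) ∧ φ x = 1 := by
  let f : ℤ →+ Additive ℂˣ := zmultiplesHom _ (Additive.ofMul (Units.mk0 x hx))
  have hf : Function.Injective f := by
    rw [injective_iff_map_eq_zero]
    intro n hn
    by_contra h0
    have h1 : (Units.mk0 x hx) ^ n = 1 := hn
    have h2 : x ^ n = 1 := by
      have := congrArg (Units.val) h1
      simpa using this
    refine h n.natAbs (Int.natAbs_pos.2 h0) ?_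
    rcases Int.natAbs_eq n with e | e
    · rw [e, zpow_natCast] at h2; exact h2
    · rw [e, _root_.zpow_neg, zpow_natCast, inv_eq_one] at h2; exact h2
  obtain ⟨g, hg⟩ := (Module.Baer.of_divisible ℚ).extension_property_addMonoidHom f hf
    (Int.castAddHom ℚ)
  classical
  refine ⟨fun a => if ha : a = 0 then 0 else (g (Additive.ofMul (Units.mk0 a ha)) : ℂ),
    fun a b ha hb => ?_, ?_⟩
  · simp only [dif_neg ha, dif_neg hb, dif_neg (mul_ne_zero ha hb)]
    rw [← Rat.cast_add, ← map_add, ← ofMul_mul, Units.mk0_mul]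
  · simp only [dif_neg hx]
    have := DFunLike.congr_fun hg 1
    simp only [AddMonoidHom.comp_apply, f, zmultiplesHom_apply, one_smul] at this
    rw [this]; simp

end Pool.Agent.Lib.MP_edb142_al
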