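import Pool.Agent.Lib.MP_edb142_al.W9
import Pool.Agent.Lib.MP_edb142_al.Fin

open CategoryTheory MonoidalCategory Limits
open scoped ComplexOrder

set_option linter.unusedSectionVars false

namespace Pool.Agent.Lib.MP_edb142_al

universe v u

theorem core
    {C : Type u} [Category.{v} C] [Preadditive C] [Linear ℂ C] [MonoidalCategory C]
    [MonoidalPreadditive C] [MonoidalLinear ℂ C] [HasFiniteBiproducts C] [BraidedCategory C]
    [RigidCategory C]
    {D : Type u} [Category.{v} D] [Preadditive D] [Linear ℂ D] [MonoidalCategory D]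
    [MonoidalPreadditive D] [MonoidalLinear ℂ D] [HasFiniteBiproducts D] [BraidedCategory D]
    [RigidCategory D]
    {E : Type u} [Category.{v} E] [Preadditive E] [Linear ℂ E] [MonoidalCategory E]
    [MonoidalPreadditive E] [MonoidalLinear ℂ E] [HasFiniteBiproducts E] [BraidedCategory E]
    [RigidCategory E]
    {A : Type u} [Category.{v} A] [Preadditive A] [Linear ℂ A] [MonoidalCategory A]
    [MonoidalPreadditive A] [MonoidalLinear ℂ A] [HasFiniteBiproducts A] [RigidCategory A]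
    {A' : Type u} [Category.{v} A'] [Preadditive A'] [Linear ℂ A'] [MonoidalCategory A']
    [MonoidalPreadditive A'] [MonoidalLinear ℂ A'] [HasFiniteBiproducts A'] [RigidCategory A']
    {IC ID IE J J' : Type} [Fintype IC] [DecidableEq IC] [Fintype ID] [DecidableEq ID]
    [Fintype IE] [DecidableEq IE] [Fintype J] [Fintype J']
    (MC : Modular C IC) (MD : Modular D ID) (ME : Modular E IE)
    (ΦA : Fusion A J) (ΦA' : Fusion A' J')
    (e : IC ≃ ID) (hS : ∀ i j, MD.S (e i) (e j) = MC.S i j) (hT : ∀ i, MD.T (e i) = MC.T i)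
    (KC : CentreEquiv C A) (KE : CentreEquiv E A')
    {ι : Type} [Fintype ι] [DecidableEq ι] {I : ι → Type} [∀ i, Fintype (I i)]
    [∀ i, DecidableEq (I i)] (S : ∀ i, I i → I i → ℂ) (T : ∀ i, I i → ℂ) (o : ∀ i, I i)
    (hSo : ∀ i, S i (o i) (o i) = 1) (hTo : ∀ i, T i (o i) = 1)
    (lab : ID × (∀ i, I i) ≃ IE)
    (hSE : ∀ a b, ME.S (lab a) (lab b) = MD.S a.1 b.1 * ∏ i, S i (a.2 i) (b.2 i))
    (hTE : ∀ a, ME.T (lab a) = MD.T a.1 * ∏ i, T i (a.2 i))
    (G : D ⥤ E) [G.Braided] [G.Additive] [G.Linear ℂ] [G.Full] [G.Faithful]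
    (hG : ∀ k, Nonempty (G.obj (MD.X k) ≅ ME.X (lab (k, o))))
    (hB : ∀ w, LV (I := I) S T o w → ∀ a, w a ≠ 0 → a = o) :
    Nonempty (CentreEquiv D A') := by
  have ho : lab (MD.o, o) = ME.o := by
    obtain ⟨φ⟩ := hG MD.o
    obtain ⟨u⟩ := MD.unit_iso
    obtain ⟨u'⟩ := ME.unit_iso
    exact ME.eq_of_iso (φ.symm ≪≫ (G.mapIso u).symm ≪≫ (Functor.Monoidal.εIso G).symm ≪≫ u')
  obtain ⟨w1, hw1⟩ := lagVec_centre MC ΦA KC
  obtain ⟨w2, hw2⟩ := lagVec_same MC MD e hS hT hw1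
  obtain ⟨w3, hw3⟩ := lagVec_centre ME ΦA' KE
  have hw4 := hw3.equiv lab.symm
    (S' := fun a b => MD.S a.1 b.1 * ∏ i, S i (a.2 i) (b.2 i))
    (T' := fun a => MD.T a.1 * ∏ i, T i (a.2 i))
    (fun i j => by rw [← hSE]; simp) (fun i => by rw [← hTE]; simp)
  rw [← ho, Equiv.symm_apply_apply] at hw4
  have hw := pairing MD.S MD.T MD.o (fun a b : ∀ i, I i => ∏ i, S i (a i) (b i))
    (fun a => ∏ i, T i (a i)) o MD.S_symm hw2 hw4
  have hs : ∀ j, Site (I := I j) (S j) (T j) (o j) := by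
    intro j
    let f : (ID × ∀ i : {i // i ≠ j}, I i) × I j ≃ ID × ∀ i, I i :=
      (Equiv.prodAssoc _ _ _).trans (Equiv.prodCongr (Equiv.refl _)
        ((Equiv.prodComm _ _).trans (Equiv.piSplitAt j I).symm))
    have f1 : ∀ a, (f a).1 = a.1.1 := fun a => rfl
    have f2 : ∀ a, (f a).2 j = a.2 := fun a => by simp [f]
    have f3 : ∀ a (i : {i // i ≠ j}), (f a).2 i = a.1.2 i := fun a i => by simp [f, i.2]
    have f0 : f ((MD.o, fun i => o i), o j) = (MD.o, o) := by
      refine Prod.ext rfl (funext fun i => ?_)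
      by_cases hi : i = j
      · subst hi; exact f2 _
      · exact f3 _ ⟨i, hi⟩
    refine Site.factor (f.trans lab) (oA := (MD.o, fun i : {i // i ≠ j} => o i)) (SE := ME.S) (TE := ME.T)
      (by rw [Equiv.trans_apply, f0, ho]; exact ME.site)
      (Matrix.of fun a b => MD.S a.1 b.1 * ∏ i : {i // i ≠ j}, S i (a.2 i) (b.2 i))
      (fun a => MD.T a.1 * ∏ i : {i // i ≠ j}, T i (a.2 i)) _ _ (fun a b => ?_) (fun a => ?_)
      (hSo j) (hTo j)
    · rw [Equiv.trans_apply f lab, Equiv.trans_apply f lab, hSE, Fintype.prod_eq_mul_prod_subtype_ne _ j]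
      simp only [f1, f2, f3, Matrix.of_apply]
      ring
    · rw [Equiv.trans_apply, hTE, Fintype.prod_eq_mul_prod_subtype_ne _ j]
      simp only [f1, f2, f3]
      ring
  generalize (fun y : ∀ i, I i => ∑ k, w2 k * (w3 ∘ lab.symm.symm) (k, y)) = w at hw
  have hz := hB _ ⟨hs, hw⟩
  obtain ⟨w0, -, c, -, ew⟩ := hw
  have hall : ∀ a : ∀ i, I i, a = o := by
    intro a
    by_contra ha
    have h1 := ew a
    rw [Finset.sum_eq_single o, of_not_not (mt (hz a) ha)] at h1
    · simp only [Nat.cast_zero, mul_zero, hTo, Finset.prod_const_one, one_mul, mul_eq_zero,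
        Nat.cast_eq_zero, Finset.prod_eq_zero_iff] at h1
      rcases h1 with ⟨i, -, h1⟩ | h1
      · exact (hs i).dne _ h1
      · exact w0 h1
    · intro b _ hb
      rw [of_not_not (mt (hz b) hb)]; simp
    · simp
  refine centre_of_surj MD ME G (fun j => ?_) KE
  obtain ⟨⟨k, a⟩, rfl⟩ := lab.surjective j
  rw [hall a]
  exact ⟨k, hG k⟩

end Pool.Agent.Lib.MP_edb142_al
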