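import Pool.Agent.Lib.MP_edb142_al.W1

open Polynomial Matrix

set_option linter.unusedSectionVars false

namespace Pool.Agent.Lib.MP_edb142_al

def IsAdd (φ : ℂ → ℂ) : Prop := ∀ a b, a ≠ 0 → b ≠ 0 → φ (a * b) = φ a + φ b

structure Cl {J : Type} [Fintype J] [DecidableEq J] (m : Submodule ℂ (Matrix J J ℂ))
    (S : Matrix J J ℂ) (Δ : Set (J → ℂ)) : Prop where
  sym : Sᵀ = S
  unit : IsUnit S.det
  tr : ∀ M ∈ m, Mᵀ ∈ m
  br : ∀ M ∈ m, ∀ N ∈ m, M * N - N * M ∈ m
  cS : ∀ M ∈ m, S * M * S⁻¹ ∈ m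
  cS' : ∀ M ∈ m, S⁻¹ * M * S ∈ m
  ne : ∀ δ ∈ Δ, ∀ x, δ x ≠ 0
  one : 1 ∈ Δ
  mul : ∀ δ ∈ Δ, ∀ ε ∈ Δ, δ * ε ∈ Δ
  inv : ∀ δ ∈ Δ, δ⁻¹ ∈ Δ
  cD : ∀ δ ∈ Δ, ∀ M ∈ m, diagonal δ * M * diagonal δ⁻¹ ∈ m
  ph : ∀ δ ∈ Δ, ∀ φ, IsAdd φ → ∃ p : ℂ[X],
    (∀ l, IsRoot (diagonal δ * S).charpoly l → p.eval l = φ l) ∧ aeval (diagonal δ * S) p ∈ m

variable {ι : Type} [Fintype ι] [DecidableEq ι] {I : ι → Type} [∀ i, Fintype (I i)]
  [∀ i, DecidableEq (I i)]

def krn (g : ∀ i, Matrix (I i) (I i) ℂ) : Matrix (∀ i, I i) (∀ i, I i) ℂ :=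
  Matrix.of fun x y => ∏ i, g i (x i) (y i)

theorem krn_mul (g h : ∀ i, Matrix (I i) (I i) ℂ) : krn g * krn h = krn (g * h) := by
  ext x y
  simp only [krn, mul_apply, of_apply, Pi.mul_apply, ← Finset.prod_mul_distrib]
  rw [Finset.prod_univ_sum, Fintype.piFinset_univ]

theorem krn_one : krn (1 : ∀ i, Matrix (I i) (I i) ℂ) = 1 := by
  ext x y
  simp only [krn, of_apply, Pi.one_apply, one_apply, Finset.prod_ite_zero, Finset.mem_univ,
    forall_const, Finset.prod_const_one, ← funext_iff]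

theorem krn_single (i : ι) (M : Matrix (I i) (I i) ℂ) (x y : ∀ i, I i) :
    krn (Pi.mulSingle i M) x y =
      M (x i) (y i) * ∏ j ∈ Finset.univ.erase i, if x j = y j then 1 else 0 := by
  rw [krn, of_apply, ← Finset.mul_prod_erase _ _ (Finset.mem_univ i), Pi.mulSingle_eq_same]
  congr 1
  refine Finset.prod_congr rfl fun j hj => ?_
  rw [Pi.mulSingle_eq_of_ne (Finset.ne_of_mem_erase hj), one_apply]

noncomputable def lift (i : ι) : Matrix (I i) (I i) ℂ →ₐ[ℂ] Matrix (∀ i, I i) (∀ i, I i) ℂ :=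
  AlgHom.ofLinearMap
    { toFun := fun M => krn (Pi.mulSingle i M)
      map_add' := fun M N => by ext x y; simp only [krn_single, Matrix.add_apply]; ring
      map_smul' := fun c M => by
        ext x y; simp only [krn_single, Matrix.smul_apply, smul_eq_mul, RingHom.id_apply]; ring }
    (by simp [krn_one]) (fun M N => by simp [krn_mul, Pi.mulSingle_mul])

theorem lift_eq (i : ι) (M : Matrix (I i) (I i) ℂ) : lift i M = krn (Pi.mulSingle i M) := rfl

theorem lift_comm {i j : ι} (h : i ≠ j) (M : Matrix (I i) (I i) ℂ) (N : Matrix (I j) (I j) ℂ) :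
    lift i M * lift j N = lift j N * lift i M := by
  rw [lift_eq, lift_eq, krn_mul, krn_mul]
  exact congrArg krn (Pi.mulSingle_commute (f := fun i => Matrix (I i) (I i) ℂ) h M N).eq

theorem lift_mulVec (i : ι) (M : Matrix (I i) (I i) ℂ) (z : (∀ i, I i) → ℂ) (x : ∀ i, I i) :
    (lift i M *ᵥ z) x = ∑ b, M (x i) b * z (Function.update x i b) := by
  simp only [mulVec, dotProduct, lift_eq, krn_single]
  rw [← Finset.sum_fiberwise (s := Finset.univ) (g := fun y : ∀ i, I i => y i)]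
  refine Finset.sum_congr rfl fun b _ => ?_
  rw [Finset.sum_eq_single (Function.update x i b)]
  · rw [Finset.prod_eq_one, mul_one, Function.update_self]
    intro j hj
    rw [Function.update_of_ne (Finset.ne_of_mem_erase hj), if_pos rfl]
  · intro y hy hne
    have : ∃ j ∈ Finset.univ.erase i, x j ≠ y j := by
      by_contra h
      push Not at h
      apply hne
      funext j
      by_cases hj : j = i
      · subst hj; simpa using hy
      · rw [Function.update_of_ne hj, h j (by simp [hj])]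
    obtain ⟨j, hj, hj'⟩ := this
    rw [Finset.prod_eq_zero hj (if_neg hj')]; simp
  · simp

noncomputable def DD (A : ∀ i, Matrix (I i) (I i) ℂ) : Matrix (∀ i, I i) (∀ i, I i) ℂ :=
  ∑ i, lift i (A i)

def H1 (z : (∀ i, I i) → ℂ) (A : ∀ i, Matrix (I i) (I i) ℂ) : Prop := ∃ c : ℂ, DD A *ᵥ z = c • z

theorem H1.add {z : (∀ i, I i) → ℂ} {A B : ∀ i, Matrix (I i) (I i) ℂ} (hA : H1 z A) (hB : H1 z B) :
    H1 z fun i => A i + B i := by
  obtain ⟨a, ha⟩ := hA
  obtain ⟨b, hb⟩ := hB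
  refine ⟨a + b, ?_⟩
  rw [add_smul, ← ha, ← hb, ← add_mulVec]
  simp only [DD, map_add, Finset.sum_add_distrib]

theorem H1.smul {z : (∀ i, I i) → ℂ} {A : ∀ i, Matrix (I i) (I i) ℂ} (hA : H1 z A) (t : ℂ) :
    H1 z fun i => t • A i := by
  obtain ⟨a, ha⟩ := hA
  refine ⟨t * a, ?_⟩
  rw [mul_smul, ← ha, ← smul_mulVec]
  simp only [DD, map_smul, Finset.smul_sum]

theorem H1.br {z : (∀ i, I i) → ℂ} {A B : ∀ i, Matrix (I i) (I i) ℂ} (hA : H1 z A) (hB : H1 z B) :
    H1 z fun i => A i * B i - B i * A i := by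
  obtain ⟨a, ha⟩ := hA
  obtain ⟨b, hb⟩ := hB
  have : DD (fun i => A i * B i - B i * A i) = DD A * DD B - DD B * DD A := by
    simp only [DD, Finset.sum_mul_sum]
    rw [Finset.sum_comm (f := fun i j => lift i (B i) * lift j (A j)), ← Finset.sum_sub_distrib]
    refine Finset.sum_congr rfl fun i _ => ?_
    rw [← Finset.sum_sub_distrib, Finset.sum_eq_single i]
    · simp
    · intro j _ hj
      rw [lift_comm hj, sub_self]
    · simp
  refine ⟨0, ?_⟩
  rw [this, sub_mulVec, ← mulVec_mulVec, ← mulVec_mulVec, ha, hb, mulVec_smul, mulVec_smul, ha, hb,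
    smul_comm, sub_self, zero_smul]

theorem H1.conj {z : (∀ i, I i) → ℂ} {A g g' : ∀ i, Matrix (I i) (I i) ℂ} (hA : H1 z A)
    (h : ∀ i, g' i * g i = 1) {c : ℂ} (hc : c ≠ 0)
    (hz : krn g *ᵥ z = c • z) : H1 z fun i => g i * A i * g' i := by
  obtain ⟨a, ha⟩ := hA
  have : DD (fun i => g i * A i * g' i) * krn g = krn g * DD A := by
    simp only [DD, Finset.sum_mul, Finset.mul_sum, lift_eq, krn_mul]
    refine Finset.sum_congr rfl fun i _ => ?_
    congr 1
    funext j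
    by_cases hj : j = i
    · subst hj; simp [mul_assoc, h]
    · simp [hj]
  refine ⟨a, ?_⟩
  have e := congrArg (· *ᵥ z) this
  simp only [← mulVec_mulVec, hz, ha, mulVec_smul] at e
  rw [smul_comm] at e
  exact smul_right_injective _ hc e

theorem krn_inv {z : (∀ i, I i) → ℂ} {g g' : ∀ i, Matrix (I i) (I i) ℂ}
    (h : ∀ i, g' i * g i = 1) {c : ℂ} (hc : c ≠ 0) (hz : krn g *ᵥ z = c • z) :
    krn g' *ᵥ z = c⁻¹ • z := by
  have e := congrArg (krn g' *ᵥ ·) hz
  have : g' * g = 1 := funext h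
  simp only [mulVec_mulVec, krn_mul, this, krn_one, one_mulVec, mulVec_smul] at e
  conv_rhs => rw [e, smul_smul, inv_mul_cancel₀ hc, one_smul]

open scoped IsMulCommutative in
theorem H1.poly {z : (∀ i, I i) → ℂ} {g : ∀ i, Matrix (I i) (I i) ℂ} (hu : ∀ i, IsUnit (g i).det)
    {c : ℂ} (hc : c ≠ 0) (hz : krn g *ᵥ z = c • z) {φ : ℂ → ℂ} (hφ : IsAdd φ) (p : ι → ℂ[X])
    (hp : ∀ i, ∀ l ∈ (g i).charpoly.roots.toFinset,
      (X - C l) ^ (Fintype.card (I i) + 1) ∣ p i - C (φ l)) :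
    H1 z fun i => aeval (g i) (p i) := by
  let L : Matrix (∀ i, I i) (∀ i, I i) ℂ ≃ₐ[ℂ] Module.End ℂ ((∀ i, I i) → ℂ) := Matrix.toLinAlgEquiv'
  let G0 : ι → Module.End ℂ ((∀ i, I i) → ℂ) := fun i => L (lift i (g i))
  have hcomm : IsMulCommutative (Algebra.adjoin ℂ (Set.range G0)) :=
    Algebra.isMulCommutative_adjoin ℂ (by
      rintro _ ⟨i, rfl⟩ _ ⟨j, rfl⟩
      by_cases h : i = j
      · rw [h]
      · simp only [G0, ← map_mul, lift_comm h])
  let G : ι → Algebra.adjoin ℂ (Set.range G0) := fun i => ⟨G0 i, Algebra.subset_adjoin ⟨i, rfl⟩⟩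
  have hG : ∀ i (r : ℂ[X]), (aeval (G i) r : Algebra.adjoin ℂ (Set.range G0)).1 =
      L (lift i (aeval (g i) r)) := by
    intro i r
    rw [← aeval_algHom_apply, ← aeval_algHom_apply]
    exact (aeval_algHom_apply (Algebra.adjoin ℂ (Set.range G0)).val (G i) r).symm
  have hP : ∀ s : Finset ι, (∏ i ∈ s, G i).1 = L (krn fun i => if i ∈ s then g i else 1) := by
    intro s
    induction s using Finset.induction_on with
    | empty => simp only [Finset.prod_empty, Finset.notMem_empty, if_false]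
               rw [show (fun i => (1 : Matrix (I i) (I i) ℂ)) = 1 from rfl, krn_one, map_one]; rfl
    | insert i s hi ih =>
      rw [Finset.prod_insert hi, Subalgebra.coe_mul, ih]
      simp only [G, G0, lift_eq, ← map_mul, krn_mul]
      congr 2
      funext j
      by_cases hj : j = i
      · subst hj; simp [hi]
      · simp [hj]
  have key := add_key (V := (∀ i, I i) → ℂ) G (fun i => (g i).charpoly.roots.toFinset)
    (fun i => Fintype.card (I i) + 1) (fun i l hl h0 => by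
      rw [h0, Multiset.mem_toFinset] at hl
      have := hu i
      rw [det_eq_prod_roots_charpoly, Multiset.prod_eq_zero hl] at this
      exact not_isUnit_zero this)
    (fun i r hr => Subtype.ext (by rw [hG, aeval_zero_of_dvd _ _ hr]; simp)) φ hφ p hp
    Finset.univ c z hc ⟨1, by
      rw [pow_one, Ideal.mem_torsionOf_iff, sub_smul, algebraMap_smul, ← hz, sub_eq_zero]
      change (∏ i, G i).1 z = _
      rw [hP]; simp [L]⟩
  refine ⟨φ c, ?_⟩
  rw [← key]
  change _ = (∑ i, aeval (G i) (p i) : Algebra.adjoin ℂ (Set.range G0)).1 z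
  rw [AddSubmonoidClass.coe_finsetSum]
  simp only [hG, ← map_sum]
  simp [L, DD, sum_mulVec]

def mm (z : (∀ i, I i) → ℂ) (j : ι) : Submodule ℂ (Matrix (I j) (I j) ℂ) where
  carrier := {M | ∃ A : ∀ i, Matrix (I i) (I i) ℂ, H1 z A ∧ H1 z (fun i => (A i)ᵀ) ∧ A j = M}
  add_mem' := by
    rintro _ _ ⟨A, h1, h2, rfl⟩ ⟨B, h3, h4, rfl⟩
    exact ⟨_, h1.add h3, by simpa using h2.add h4, rfl⟩
  zero_mem' := ⟨0, ⟨0, by simp [DD]⟩, ⟨0, by simp [DD]⟩, rfl⟩
  smul_mem' := by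
    rintro t _ ⟨A, h1, h2, rfl⟩
    exact ⟨_, h1.smul t, by simpa using h2.smul t, rfl⟩

def Dg (z : (∀ i, I i) → ℂ) (j : ι) : Set (I j → ℂ) :=
  {δ | ∃ e : ∀ i, I i → ℂ, (∀ i x, e i x ≠ 0) ∧ e j = δ ∧ ∀ X, z X ≠ 0 → ∏ i, e i (X i) = 1}

theorem krn_diag {z : (∀ i, I i) → ℂ} {e : ∀ i, I i → ℂ} (h : ∀ X, z X ≠ 0 → ∏ i, e i (X i) = 1) :
    krn (fun i => diagonal (e i)) *ᵥ z = (1 : ℂ) • z := by
  have : krn (fun i => diagonal (e i)) = diagonal fun X => ∏ i, e i (X i) := by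
    ext x y
    simp only [krn, of_apply, diagonal_apply, Finset.prod_ite_zero, Finset.mem_univ,
      forall_const, ← funext_iff]
  funext X
  rw [this, mulVec_diagonal, one_smul]
  by_cases h0 : z X = 0
  · rw [h0, mul_zero]
  · rw [h X h0, one_mul]

theorem mm_conj {z : (∀ i, I i) → ℂ} {j : ι} {g g' : ∀ i, Matrix (I i) (I i) ℂ}
    (h : ∀ i, g' i * g i = 1) (hs : ∀ i, (g i)ᵀ = g i) (hs' : ∀ i, (g' i)ᵀ = g' i) {c : ℂ}
    (hc : c ≠ 0) (hz : krn g *ᵥ z = c • z) : ∀ M ∈ mm z j, g j * M * g' j ∈ mm z j := by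
  rintro _ ⟨A, h1, h2, rfl⟩
  have h' : ∀ i, g i * g' i = 1 := fun i => mul_eq_one_comm.1 (h i)
  refine ⟨_, h1.conj h hc hz, ?_, rfl⟩
  simpa only [transpose_mul, hs, hs', mul_assoc] using
    h2.conj h' (inv_ne_zero hc) (krn_inv h hc hz)

theorem cl_of {z : (∀ i, I i) → ℂ} (j : ι) {S : ∀ i, Matrix (I i) (I i) ℂ}
    (hs : ∀ i, (S i)ᵀ = S i) (hu : ∀ i, IsUnit (S i).det) {c : ℂ} (hc : c ≠ 0)
    (hz : krn S *ᵥ z = c • z) : Cl (mm z j) (S j) (Dg z j) := by
  have hi : ∀ i, (S i)⁻¹ * S i = 1 := fun i => nonsing_inv_mul _ (hu i)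
  have hs' : ∀ i, ((S i)⁻¹)ᵀ = (S i)⁻¹ := fun i => by rw [transpose_nonsing_inv, hs]
  refine ⟨hs j, hu j, ?_, ?_, mm_conj (g := S) (g' := fun i => (S i)⁻¹) hi hs hs' hc hz,
    mm_conj (g := fun i => (S i)⁻¹) (g' := S) (fun i => mul_nonsing_inv _ (hu i)) hs' hs
      (inv_ne_zero hc) (krn_inv hi hc hz),
    ?_, ⟨1, by simp, rfl, by simp⟩, ?_, ?_, ?_, ?_⟩
  · rintro _ ⟨A, h1, h2, rfl⟩
    exact ⟨_, h2, h1, rfl⟩
  · rintro _ ⟨A, h1, h2, rfl⟩ _ ⟨B, h3, h4, rfl⟩
    exact ⟨_, h1.br h3, by simpa using h4.br h2, rfl⟩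
  · rintro _ ⟨e, h1, rfl, -⟩
    exact h1 j
  · rintro _ ⟨e, h1, rfl, h2⟩ _ ⟨e', h3, rfl, h4⟩
    refine ⟨e * e', fun i x => mul_ne_zero (h1 i x) (h3 i x), rfl, fun X hX => ?_⟩
    simp only [Pi.mul_apply, Finset.prod_mul_distrib, h2 X hX, h4 X hX, one_mul]
  · rintro _ ⟨e, h1, rfl, h2⟩
    refine ⟨e⁻¹, fun i x => inv_ne_zero (h1 i x), rfl, fun X hX => ?_⟩
    simp only [Pi.inv_apply, Finset.prod_inv_distrib, h2 X hX, inv_one]
  · rintro _ ⟨e, h1, rfl, h2⟩
    exact mm_conj (g := fun i => diagonal (e i)) (g' := fun i => diagonal (e i)⁻¹)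
      (fun i => by simp [diagonal_mul_diagonal, h1]) (by simp) (by simp) one_ne_zero (krn_diag h2)
  · rintro _ ⟨e, h1, rfl, h2⟩ φ hφ
    choose p hp using fun i => crt_poly (diagonal (e i) * S i).charpoly.roots.toFinset
      (Fintype.card (I i) + 1) φ
    have hu' : ∀ i, IsUnit (diagonal (e i) * S i).det := fun i => by
      rw [det_mul, det_diagonal]
      exact (Finset.prod_ne_zero_iff.2 fun x _ => h1 i x).isUnit.mul (hu i)
    refine ⟨p j, fun l hl => ?_, fun i => aeval (diagonal (e i) * S i) (p i), ?_, ?_, rfl⟩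
    · have := (dvd_pow_self _ (Nat.succ_ne_zero _)).trans (hp j l (by
        rw [Multiset.mem_toFinset, mem_roots (charpoly_monic _).ne_zero]; exact hl))
      rw [dvd_iff_isRoot, IsRoot, eval_sub, eval_C] at this
      exact sub_eq_zero.1 this
    · refine H1.poly hu' hc ?_ hφ p hp
      rw [show (fun i => diagonal (e i) * S i) = (fun i => diagonal (e i)) * S from rfl, ← krn_mul,
        ← mulVec_mulVec, hz, mulVec_smul, krn_diag h2, one_smul]
    · have e1 : ∀ i, (aeval (diagonal (e i) * S i) (p i))ᵀ = aeval (diagonal (e i) * S i)ᵀ (p i) := by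
        intro i
        rw [aeval_eq_sum_range, aeval_eq_sum_range, transpose_sum]
        simp only [transpose_smul, transpose_pow]
      simp only [e1]
      refine H1.poly (fun i => by rw [det_transpose]; exact hu' i) hc ?_ hφ p
        (fun i => by rw [charpoly_transpose]; exact hp i)
      simp only [transpose_mul, hs, diagonal_transpose]
      rw [show (fun i => S i * diagonal (e i)) = S * (fun i => diagonal (e i)) from rfl, ← krn_mul,
        ← mulVec_mulVec, krn_diag h2, one_smul, hz]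

theorem col_zero {z : (∀ i, I i) → ℂ} {j : ι} {o : ∀ i, I i} (h0 : z o ≠ 0) {c : I j}
    (hc : c ≠ o j) (h1 : ∀ b, b ≠ o j → z (Function.update o j b) = 0)
    (h2 : ∀ i, i ≠ j → ∀ y, y ≠ o i → z (Function.update (Function.update o j c) i y) = 0) :
    ∀ M ∈ mm z j, M c (o j) = 0 := by
  rintro _ ⟨A, ⟨a, ha⟩, -, rfl⟩
  have e := congrFun ha (Function.update o j c)
  rw [DD, sum_mulVec, Finset.sum_apply, Finset.sum_eq_single j, lift_mulVec,
    Finset.sum_eq_single (o j)] at e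
  · simp only [Function.update_self, Function.update_idem, Function.update_eq_self, Pi.smul_apply,
      h1 c hc, smul_zero, mul_eq_zero, h0, or_false] at e
    exact e
  · intro b _ hb
    rw [Function.update_idem, h1 b hb, mul_zero]
  · simp
  · intro i _ hi
    rw [lift_mulVec]
    refine Finset.sum_eq_zero fun y _ => ?_
    by_cases hy : y = o i
    · have : Function.update (Function.update o j c) i y = Function.update o j c := by
        rw [Function.update_eq_self_iff, Function.update_of_ne hi, hy]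
      rw [this, h1 c hc, mul_zero]
    · rw [h2 i hi y hy, mul_zero]
  · simp

end Pool.Agent.Lib.MP_edb142_al
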