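import Pool.Agent.Lib.MP_edb142_al.W2

open Polynomial Matrix

set_option linter.unusedSectionVars false

namespace Pool.Agent.Lib.MP_edb142_al

variable {J : Type} [Fintype J] [DecidableEq J] {m : Submodule ℂ (Matrix J J ℂ)}
  {S : Matrix J J ℂ} {Δ : Set (J → ℂ)}

theorem IsAdd.one {φ : ℂ → ℂ} (h : IsAdd φ) : φ 1 = 0 := by
  have := h 1 1 one_ne_zero one_ne_zero
  rw [one_mul] at this
  linear_combination -this

theorem IsAdd.pow {φ : ℂ → ℂ} (h : IsAdd φ) {a : ℂ} (ha : a ≠ 0) (n : ℕ) : φ (a ^ n) = n * φ a := by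
  induction n with
  | zero => simp [h.one]
  | succ n ih => rw [pow_succ, h _ _ (pow_ne_zero _ ha) ha, ih]; push_cast; ring

theorem IsAdd.prod {φ : ℂ → ℂ} (h : IsAdd φ) (ν : ℂ) (s : Multiset ℂ) (hs : ∀ a ∈ s, a ≠ 0 ∧ φ a = ν) :
    φ s.prod = s.card * ν := by
  induction s using Multiset.induction_on with
  | empty => simp [h.one]
  | cons a s ih =>
    have h1 : ∀ b ∈ s, b ≠ 0 ∧ φ b = ν := fun b hb => hs b (Multiset.mem_cons_of_mem hb)
    have h2 := hs a (Multiset.mem_cons_self _ _)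
    rw [Multiset.prod_cons, h _ _ h2.1 (Multiset.prod_ne_zero fun h0 => (h1 0 h0).1 rfl), ih h1, h2.2,
      Multiset.card_cons]
    push_cast; ring

theorem Cl.fun_mem (h : Cl m S Δ) {δ : J → ℂ} (hδ : δ ∈ Δ) (ψ : ℂ → ℂ) {M : Matrix J J ℂ}
    (hM : M ∈ m) : (of fun a b => ψ (δ a / δ b) * M a b) ∈ m := by
  have h1 : ∀ k : ℕ, (of fun a b => (δ a / δ b) ^ k * M a b) ∈ m := by
    intro k
    induction k with
    | zero => simp only [pow_zero, one_mul]; exact hM
    | succ k ih =>
      convert h.cD δ hδ _ ih using 1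
      ext a b
      simp only [of_apply, mul_diagonal, diagonal_mul, Pi.inv_apply]
      ring
  obtain ⟨p, hp⟩ := crt_poly (Finset.univ.image fun x : J × J => δ x.1 / δ x.2) 1 ψ
  have h2 : (of fun a b => ψ (δ a / δ b) * M a b) =
      ∑ k ∈ Finset.range (p.natDegree + 1), p.coeff k • of fun a b => (δ a / δ b) ^ k * M a b := by
    ext a b
    have := hp _ (Finset.mem_image_of_mem _ (Finset.mem_univ (a, b)))
    rw [pow_one, dvd_iff_isRoot, IsRoot, eval_sub, eval_C, sub_eq_zero] at this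
    simp only [of_apply, Matrix.sum_apply, Matrix.smul_apply, smul_eq_mul, ← mul_assoc,
      ← Finset.sum_mul]
    rw [← eval_eq_sum_range, this]
  rw [h2]
  exact m.sum_mem fun k _ => m.smul_mem _ (h1 k)

theorem Cl.comp (h : Cl m S Δ) {Δ' : Set (J → ℂ)} (h' : Δ' ⊆ Δ) (a0 b0 : J) {M : Matrix J J ℂ}
    (hM : M ∈ m) : ∃ N ∈ m, ∀ a b, ((∀ δ ∈ Δ', δ a / δ b = δ a0 / δ b0) → N a b = M a b) ∧
      (N a b ≠ 0 → ∀ δ ∈ Δ', δ a / δ b = δ a0 / δ b0) := by
  classical
  have key : ∀ P : Finset (J × J), ∃ N ∈ m, ∀ a b,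
      ((∀ δ ∈ Δ', δ a / δ b = δ a0 / δ b0) → N a b = M a b) ∧
      ((a, b) ∈ P → N a b ≠ 0 → ∀ δ ∈ Δ', δ a / δ b = δ a0 / δ b0) := by
    intro P
    induction P using Finset.induction_on with
    | empty => exact ⟨M, hM, fun a b => ⟨fun _ => rfl, by simp⟩⟩
    | insert x P _ ih =>
      obtain ⟨N, hN, h1⟩ := ih
      by_cases hx : ∀ δ ∈ Δ', δ x.1 / δ x.2 = δ a0 / δ b0
      · refine ⟨N, hN, fun a b => ⟨(h1 a b).1, fun hab h0 => ?_⟩⟩
        rcases Finset.mem_insert.1 hab with e | e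
        · rw [← e] at hx; exact hx
        · exact (h1 a b).2 e h0
      · push Not at hx
        obtain ⟨δ, hδ, hx⟩ := hx
        refine ⟨_, h.fun_mem (h' hδ) (fun t => if t = δ a0 / δ b0 then 1 else 0) hN,
          fun a b => ⟨fun hab => ?_, fun hab h0 => ?_⟩⟩
        · rw [of_apply, if_pos (hab δ hδ), one_mul, (h1 a b).1 hab]
        · rw [of_apply] at h0
          rcases Finset.mem_insert.1 hab with e | e
          · rw [← e] at hx
            rw [if_neg hx, zero_mul] at h0
            exact absurd rfl h0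
          · exact (h1 a b).2 e (right_ne_zero_of_mul h0)
  obtain ⟨N, hN, h1⟩ := key Finset.univ
  exact ⟨N, hN, fun a b => ⟨(h1 a b).1, (h1 a b).2 (Finset.mem_univ _)⟩⟩

def St (U : Submodule ℂ (J → ℂ)) : Subalgebra ℂ (Matrix J J ℂ) where
  carrier := {g | ∀ v ∈ U, g *ᵥ v ∈ U}
  mul_mem' ha hb v hv := by rw [← mulVec_mulVec]; exact ha _ (hb v hv)
  add_mem' ha hb v hv := by rw [add_mulVec]; exact U.add_mem (ha v hv) (hb v hv)
  algebraMap_mem' c v hv := by
    rw [Algebra.algebraMap_eq_smul_one, smul_mulVec, one_mulVec]; exact U.smul_mem _ hv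

noncomputable def res (U : Submodule ℂ (J → ℂ)) : St U →ₐ[ℂ] Module.End ℂ U where
  toFun g := (toLin' g.1).restrict (p := U) (q := U) g.2
  map_one' := by ext v; simp
  map_mul' a b := by ext v; simp
  map_zero' := by ext v; simp
  map_add' a b := by ext v; simp
  commutes' c := by ext v; simp [Algebra.algebraMap_eq_smul_one]

theorem res_apply (U : Submodule ℂ (J → ℂ)) (g : St U) (v : U) : (res U g v).1 = g.1 *ᵥ v.1 := rfl

def UU (m : Submodule ℂ (Matrix J J ℂ)) (o : J) : Submodule ℂ (J → ℂ) where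
  carrier := {v | ∀ M ∈ m, M *ᵥ v = M o o • v}
  add_mem' ha hb M hM := by rw [mulVec_add, ha M hM, hb M hM, smul_add]
  zero_mem' M _ := by simp
  smul_mem' c v hv M hM := by rw [mulVec_smul, hv M hM, smul_comm]

theorem Cl.integral (h : Cl m S Δ) (o : J) (ho : S o o = 1) (hcol : ∀ M ∈ m, ∀ c, c ≠ o → M c o = 0)
    {D : ℂ} (hD : S ^ 4 = D ^ 2 • (1 : Matrix J J ℂ)) {L : ℂ}
    (hL : Pi.single o L ∈ AddSubmonoid.closure {δ | δ ∈ Δ ∧ ∃ k, 0 < k ∧ δ ^ k = 1}) :
    IsIntegral ℤ (L ^ 2 / D) := by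
  obtain ⟨r, hr⟩ := IsAlgClosed.exists_pow_nat_eq D two_pos
  have hne : Nonempty J := ⟨o⟩
  have hD0 : D ≠ 0 := by
    rintro rfl
    have := congrArg det hD
    rw [det_pow] at this
    simp only [ne_eq, OfNat.ofNat_ne_zero, not_false_eq_true, zero_pow, zero_smul, det_zero] at this
    exact h.unit.ne_zero (pow_eq_zero_iff'.1 this).1
  have hr0 : r ≠ 0 := by rintro rfl; exact hD0 (by rw [← hr]; simp)
  have he : Pi.single o (1 : ℂ) ∈ UU m o := by
    intro M hM
    funext c
    rw [mulVec_single_one]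
    by_cases hc : c = o
    · simp [hc]
    · simp [hc, hcol M hM c hc]
  have hS : S ∈ St (UU m o) := by
    intro v hv M hM
    have k : ∀ u ∈ UU m o, M *ᵥ (S *ᵥ u) = (S⁻¹ * M * S) o o • (S *ᵥ u) := by
      intro u hu
      rw [← mulVec_smul, ← hu _ (h.cS' M hM), mulVec_mulVec, mulVec_mulVec, mul_assoc,
        mul_nonsing_inv_cancel_left _ _ h.unit]
    have k1 := congrFun (k _ he) o
    rw [mulVec_single_one, mulVec, dotProduct, Finset.sum_eq_single o] at k1
    · simp only [col_apply, ho, mul_one, Pi.smul_apply, smul_eq_mul] at k1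
      rw [k v hv, k1]
    · intro b _ hb
      rw [show M o b = Mᵀ b o from rfl, hcol _ (h.tr M hM) b hb, zero_mul]
    · simp
  have hδ : ∀ δ ∈ Δ, diagonal δ ∈ St (UU m o) := by
    intro δ hδ v hv M hM
    have k := hv _ (h.cD _ (h.inv δ hδ) M hM)
    have h0 := h.ne δ hδ
    have k1 : diagonal δ * diagonal δ⁻¹ = 1 := by simp [diagonal_mul_diagonal, h0]
    have k2 : (diagonal δ⁻¹ * M * diagonal δ⁻¹⁻¹) o o = M o o := by
      simp only [mul_diagonal, diagonal_mul, Pi.inv_apply, inv_inv]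
      field_simp [h0 o]
    rw [k2, inv_inv] at k
    rw [← mulVec_smul, ← k, mulVec_mulVec, mulVec_mulVec, ← mul_assoc, ← mul_assoc, k1, one_mul]
  have key : ∀ f ∈ AddSubmonoid.closure {δ | δ ∈ Δ ∧ ∃ k, 0 < k ∧ δ ^ k = 1},
      ∃ hf : diagonal f * S ∈ St (UU m o),
        IsIntegral ℤ (LinearMap.trace ℂ _ (res _ ⟨_, hf⟩) / r) := by
    intro f hf
    induction hf using AddSubmonoid.closure_induction with
    | zero =>
      refine ⟨by simp, ?_⟩
      have : (⟨diagonal 0 * S, by simp⟩ : St (UU m o)) = 0 := Subtype.ext (by simp)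
      rw [this]; simpa using isIntegral_zero
    | add f g _ _ hf hg =>
      obtain ⟨f1, f2⟩ := hf
      obtain ⟨g1, g2⟩ := hg
      have e : diagonal (f + g) * S = diagonal f * S + diagonal g * S := by
        rw [← add_mul, diagonal_add]; rfl
      refine ⟨e ▸ add_mem f1 g1, ?_⟩
      have : (⟨diagonal (f + g) * S, e ▸ add_mem f1 g1⟩ : St (UU m o)) = ⟨_, f1⟩ + ⟨_, g1⟩ :=
        Subtype.ext e
      rw [this, map_add, map_add, add_div]
      exact f2.add g2
    | mem δ hm =>
      obtain ⟨hm, k, hk, hk1⟩ := hm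
      refine ⟨mul_mem (hδ δ hm) hS, ?_⟩
      set g := res _ ⟨_, mul_mem (hδ δ hm) hS⟩ with hg
      have sp := IsAlgClosed.splits g.charpoly
      have hdet : (LinearMap.det g) ^ (4 * k) = r ^ (4 * k * Module.finrank ℂ (UU m o)) := by
        have e : g = res _ ⟨_, hδ δ hm⟩ * res _ ⟨_, hS⟩ := by rw [← map_mul]; rfl
        have e1 : (⟨_, hδ δ hm⟩ : St (UU m o)) ^ k = 1 :=
          Subtype.ext (by simp [diagonal_pow, hk1])
        have e2 : (⟨_, hS⟩ : St (UU m o)) ^ 4 = D ^ 2 • 1 := Subtype.ext (by simp [hD])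
        have d1 : LinearMap.det (res _ ⟨_, hδ δ hm⟩) ^ k = 1 := by
          rw [← map_pow, ← map_pow, e1, map_one, map_one]
        have d2 : LinearMap.det (res _ ⟨_, hS⟩) ^ 4 = r ^ (4 * Module.finrank ℂ (UU m o)) := by
          rw [← map_pow, ← map_pow, e2, map_smul, map_one, LinearMap.det_smul, ← hr, map_one,
            mul_one, ← pow_mul, ← pow_mul]
          congr 1; ring
        rw [e, map_mul, mul_pow, pow_mul', d1, pow_mul, d2, one_pow, one_mul, ← pow_mul]
        congr 1; ring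
      have hc : g.charpoly.roots.card = Module.finrank ℂ (UU m o) := by
        rw [← sp.natDegree_eq_card_roots, LinearMap.charpoly_natDegree]
      have hd0 : LinearMap.det g ≠ 0 := by
        intro h0
        rw [h0, zero_pow (by omega)] at hdet
        exact pow_ne_zero _ hr0 hdet.symm
      have hl0 : ∀ l ∈ g.charpoly.roots, l ≠ 0 := by
        rintro l hl rfl
        rw [Module.End.det_eq_prod_roots_charpoly_of_splits sp] at hd0
        exact hd0 (Multiset.prod_eq_zero hl)
      rw [Module.End.trace_eq_sum_roots_charpoly_of_splits sp, div_eq_mul_inv,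
        ← Multiset.map_id g.charpoly.roots, ← Multiset.sum_map_mul_right]
      refine IsIntegral.multiset_sum fun x hx => ?_
      obtain ⟨l, hl, rfl⟩ := Multiset.mem_map.1 hx
      by_contra hni
      obtain ⟨φ, hφ, hφ1⟩ := exists_hom (x := l * r⁻¹) (mul_ne_zero (hl0 l hl) (inv_ne_zero hr0))
        fun n hn h1 => hni (IsIntegral.of_pow hn (by rw [id, h1]; exact isIntegral_one))
      obtain ⟨p, hp, hp'⟩ := h.ph δ hm φ hφ
      have hall : ∀ a ∈ g.charpoly.roots, a ≠ 0 ∧ φ a = aeval (diagonal δ * S) p o o := by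
        intro a ha
        refine ⟨hl0 a ha, ?_⟩
        obtain ⟨v, hv⟩ := ((Module.End.hasEigenvalue_iff_isRoot_charpoly g a).2
          (isRoot_of_mem_roots ha)).exists_hasEigenvector
        have hv0 : v.1 ≠ 0 := fun h0 => hv.2 (Subtype.ext h0)
        have hv' : Module.End.HasEigenvector (toLin' (diagonal δ * S)) a v.1 :=
          ⟨Module.End.mem_eigenspace_iff.2 (congrArg Subtype.val hv.apply_eq_smul), hv0⟩
        have e1 := Module.End.aeval_apply_of_hasEigenvector (p := p) hv'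
        have e2 : aeval (toLin' (diagonal δ * S)) p = toLin' (aeval (diagonal δ * S) p) :=
          aeval_algHom_apply (toLinAlgEquiv' (R := ℂ) (n := J)) _ p
        rw [e2, toLin'_apply, v.2 _ hp', hp a (by
          rw [← charpoly_toLin', ← Module.End.hasEigenvalue_iff_isRoot_charpoly]
          exact Module.End.hasEigenvalue_of_hasEigenvector hv')] at e1
        exact (smul_left_injective ℂ hv0 e1).symm
      have e1 := IsAdd.prod hφ _ _ hall
      rw [← Module.End.det_eq_prod_roots_charpoly_of_splits sp, ← (hall l hl).2, hc] at e1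
      have e2 := congrArg φ hdet
      rw [IsAdd.pow hφ hd0, IsAdd.pow hφ hr0, e1] at e2
      have e3 := hφ _ _ (mul_ne_zero (hl0 l hl) (inv_ne_zero hr0)) hr0
      rw [inv_mul_cancel_right₀ hr0, hφ1] at e3
      have e4 : Module.finrank ℂ (UU m o) ≠ 0 := by
        rw [← hc]; exact (Multiset.card_pos_iff_exists_mem.2 ⟨l, hl⟩).ne'
      rw [e3] at e2
      have : ((4 * k * Module.finrank ℂ (UU m o) : ℕ) : ℂ) = 0 := by
        push_cast at e2 ⊢; linear_combination e2
      exact absurd (Nat.cast_eq_zero.1 this) (by positivity)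
  obtain ⟨hf, hi⟩ := key _ hL
  have e : res _ ⟨_, hf⟩ = LinearMap.smulRight
      ((LinearMap.proj o : (J → ℂ) →ₗ[ℂ] ℂ) ∘ₗ toLin' (L • S) ∘ₗ (UU m o).subtype) ⟨_, he⟩ := by
    ext v c
    rw [res_apply, ← mulVec_mulVec, mulVec_diagonal]
    by_cases hc : c = o
    · simp [hc]
    · simp [hc]
  rw [e, LinearMap.trace_smulRight] at hi
  simp only [LinearMap.comp_apply, Submodule.subtype_apply, toLin'_apply, mulVec_single_one,
    LinearMap.proj_apply, col_apply, Matrix.smul_apply, ho, smul_eq_mul, mul_one] at hi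
  rw [← hr, ← div_pow]
  exact hi.pow 2

end Pool.Agent.Lib.MP_edb142_al
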