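import Pool.Agent.Lib.MP_edb142_al.Sl2
import Pool.Agent.Lib.MP_edb142_al.W3

open Matrix
open scoped ComplexOrder

set_option linter.unusedSectionVars false

namespace Pool.Agent.Lib.MP_edb142_al

variable {n : ℕ} [NeZero n] {q : ℂ}

theorem jo_val {m : ℕ} (hm : m < n / 2) : (jj n m).val = 2 * m + 1 := by
  unfold jj; rw [ZMod.val_natCast, Nat.mod_eq_of_lt (by omega)]

theorem jo_ne {m : ℕ} (hm : m < n / 2) : jj n m ≠ 0 := by
  intro h
  have := jo_val hm
  rw [h, ZMod.val_zero] at this; omega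

theorem jo_inj {m l : ℕ} (hm : m < n / 2) (hl : l < n / 2) (h : jj n m = jj n l) : m = l := by
  have h1 := jo_val hm
  rw [h, jo_val hl] at h1; omega

theorem cast_ne (hn : n % 2 = 1) {k : ℕ} (h0 : 0 < k) (h1 : k < n) : ((2 * k : ℕ) : ZMod n) ≠ 0 := by
  rw [Ne, ZMod.natCast_eq_zero_iff]
  intro h
  have := Nat.le_of_dvd h0 ((Nat.odd_iff.2 hn).coprime_two_right.dvd_of_dvd_mul_left h)
  omega

theorem jo_add (hn : n % 2 = 1) {m l : ℕ} (hm : m < n / 2) (hl : l < n / 2) :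
    jj n m + jj n l ≠ 0 := by
  have := cast_ne hn (k := m + l + 1) (by omega) (by omega)
  unfold jj
  convert this using 1
  push_cast; ring

theorem jo_zero : jj n 0 = 1 := by simp [jj]

theorem ho_bij (hn : n % 2 = 1) : Function.Bijective (hs n) := by
  rw [Fintype.bijective_iff_injective_and_card]
  refine ⟨?_, by simp [ZMod.card]; omega⟩
  rintro (_ | m | m) (_ | l | l) h <;> simp only [hs] at h
  · rfl
  · exact absurd h.symm (jo_ne l.2)
  · exact absurd (neg_eq_zero.1 h.symm) (jo_ne l.2)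
  · exact absurd h (jo_ne m.2)
  · rw [Fin.ext (jo_inj m.2 l.2 h)]
  · exact absurd (eq_neg_iff_add_eq_zero.1 h) (jo_add hn m.2 l.2)
  · exact absurd (neg_eq_zero.1 h) (jo_ne m.2)
  · exact absurd (eq_neg_iff_add_eq_zero.1 h.symm) (jo_add hn l.2 m.2)
  · rw [Fin.ext (jo_inj m.2 l.2 (neg_inj.1 h))]

theorem sum_ho (hn : n % 2 = 1) (f : ZMod n → ℂ) (h0 : f 0 = 0) (he : ∀ x, f (-x) = f x) :
    2 * ∑ m : Fin (n / 2), f (jj n m) = ∑ x, f x := by
  rw [← (Equiv.ofBijective _ (ho_bij hn)).sum_comp, Fintype.sum_option, Fintype.sum_sum_type]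
  simp only [Equiv.ofBijective_apply, hs, h0, he]
  ring

theorem exists_jo (hn : n % 2 = 1) {x : ZMod n} (hx : x ≠ 0) :
    ∃ m : Fin (n / 2), x = jj n m ∨ x = -jj n m := by
  obtain ⟨_ | m | m, h⟩ := (ho_bij hn).2 x
  · exact absurd h.symm hx
  · exact ⟨m, Or.inl h.symm⟩
  · exact ⟨m, Or.inr h.symm⟩

theorem two_unit (hn : n % 2 = 1) : ∃ h : ZMod n, 2 * h = 1 := by
  refine ⟨((n / 2 + 1 : ℕ) : ZMod n), ?_⟩
  have : ((2 * (n / 2 + 1) : ℕ) : ZMod n) = ((n + 1 : ℕ) : ZMod n) := by congr 1; omega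
  simpa using this

theorem two_mul_eq (hn : n % 2 = 1) {x : ZMod n} (h : 2 * x = 0) : x = 0 := by
  obtain ⟨u, hu⟩ := two_unit hn
  linear_combination u * h - x * hu

noncomputable def co (hq : IsPrimitiveRoot q n) : AddChar (ZMod n) ℂ :=
  AddChar.zmodChar n hq.pow_eq_one

noncomputable def so (hq : IsPrimitiveRoot q n) (x : ZMod n) : ℂ := co hq x - co hq (-x)

theorem co_sum (hq : IsPrimitiveRoot q n) (b : ZMod n) :
    ∑ x, co hq (x * b) = if b = 0 then (n : ℂ) else 0 := by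
  rw [co, AddChar.sum_mulShift b (AddChar.zmodChar_primitive_of_primitive_root n hq)]
  split_ifs <;> simp [ZMod.card]

theorem co_nat (hq : IsPrimitiveRoot q n) (k : ℕ) : co hq k = q ^ k :=
  AddChar.zmodChar_apply' _ _

theorem co_ne (hq : IsPrimitiveRoot q n) (x : ZMod n) : co hq x ≠ 0 := by
  rw [← ZMod.natCast_zmod_val x, co_nat]
  exact pow_ne_zero _ (hq.ne_zero (NeZero.ne n))

theorem co_inj (hq : IsPrimitiveRoot q n) {x y : ZMod n} (h : co hq x = co hq y) : x = y := by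
  rw [← sub_eq_zero, ← (AddChar.zmodChar_primitive_of_primitive_root n hq).zmod_char_eq_one_iff n]
  change co hq _ = 1
  rw [AddChar.map_sub_eq_div, h, div_self (co_ne hq y)]

theorem so_nat (hq : IsPrimitiveRoot q n) (k : ℕ) : so hq k = q ^ k - q⁻¹ ^ k := by
  rw [so, AddChar.map_neg_eq_inv, co_nat, inv_pow]

theorem so_one (hq : IsPrimitiveRoot q n) : so hq 1 = q - q⁻¹ := by simpa using so_nat hq 1

theorem so_neg (hq : IsPrimitiveRoot q n) (x : ZMod n) : so hq (-x) = -so hq x := by simp [so]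

theorem so_zero (hq : IsPrimitiveRoot q n) : so hq 0 = 0 := by simp [so]

theorem so_ne (hn : n % 2 = 1) (hq : IsPrimitiveRoot q n) {x : ZMod n} (hx : x ≠ 0) :
    so hq x ≠ 0 := by
  intro h
  have := co_inj hq (sub_eq_zero.1 h)
  exact hx (two_mul_eq hn (by linear_combination this))

theorem so_mul (hq : IsPrimitiveRoot q n) (x y : ZMod n) :
    so hq x * so hq y = co hq (x + y) + co hq (-(x + y)) - co hq (x - y) - co hq (-(x - y)) := by
  simp only [so, sub_mul, mul_sub, ← AddChar.map_add_eq_mul]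
  ring_nf

theorem so_sq (hn : n % 2 = 1) (hq : IsPrimitiveRoot q n) {x y : ZMod n}
    (h : so hq x ^ 2 = so hq y ^ 2) : x = y ∨ x = -y := by
  have : so hq (x + y) * so hq (x - y) = so hq x ^ 2 - so hq y ^ 2 := by
    simp only [pow_two, so_mul]
    ring_nf
  rw [h, sub_self, mul_eq_zero] at this
  rcases this with e | e
  · exact Or.inr (eq_neg_of_add_eq_zero_left (of_not_not (mt (so_ne hn hq) (not_not.2 e))))
  · exact Or.inl (sub_eq_zero.1 (of_not_not (mt (so_ne hn hq) (not_not.2 e))))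

theorem one_ne (h5 : 5 ≤ n) : (1 : ZMod n) ≠ 0 := jo_zero (n := n) ▸ jo_ne (by omega)

theorem slS_so (hq : IsPrimitiveRoot q n) (m l : ℕ) :
    slS q m l = so hq (jj n m * jj n l) / so hq 1 := by
  rw [slS, so_one, ← so_nat hq, jj, jj, Nat.cast_mul]

theorem SM_so (hq : IsPrimitiveRoot q n) (m l : Fin (n / 2)) :
    SM n q m l = so hq (jj n m * jj n l) / so hq 1 := slS_so hq m l

theorem slT_co (hq : IsPrimitiveRoot q n) (m : ℕ) : slT q m ^ 2 = co hq (jj n m ^ 2 - 1) := by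
  rw [slT, ← pow_mul, ← co_nat hq, jj]
  congr 1; push_cast; ring

theorem SM_sym : (SM n q)ᵀ = SM n q := by
  ext m l; simp [SM, slS, mul_comm]

theorem SM_two (hn : n % 2 = 1) (h5 : 5 ≤ n) (hq : IsPrimitiveRoot q n) :
    SM n q * SM n q = (-(n : ℂ) / (so hq 1) ^ 2) • (1 : Matrix _ _ ℂ) := by
  ext m l
  have h := sum_ho hn (fun x => so hq (jj n m * x) * so hq (x * jj n l)) (by simp [so_zero])
    (fun x => by simp [so_neg])
  have e1 : ∀ x : ZMod n, so hq (jj n m * x) * so hq (x * jj n l) =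
      co hq (x * (jj n m + jj n l)) + co hq (x * (-(jj n m + jj n l))) -
        co hq (x * (jj n m - jj n l)) - co hq (x * (-(jj n m - jj n l))) := by
    intro x
    rw [so_mul]; ring_nf
  simp only [e1, Finset.sum_add_distrib, Finset.sum_sub_distrib, co_sum, neg_eq_zero,
    jo_add hn m.2 l.2, if_false, sub_eq_zero] at h
  simp only [← Finset.sum_add_distrib, ← Finset.sum_sub_distrib, ← e1] at h
  have h1 := so_ne hn hq (one_ne h5)
  simp only [Matrix.mul_apply, SM_so hq, Matrix.smul_apply, one_apply, smul_eq_mul,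
    div_mul_div_comm, ← Finset.sum_div]
  by_cases hml : m = l
  · subst hml
    simp only [if_true] at h ⊢
    field_simp
    linear_combination (1 / 2 : ℂ) * h
  · have : jj n m ≠ jj n l := fun h => hml (Fin.ext (jo_inj m.2 l.2 h))
    simp only [if_neg hml, if_neg this] at h ⊢
    field_simp
    linear_combination (1 / 2 : ℂ) * h

theorem STS (hn : n % 2 = 1) (h5 : 5 ≤ n) (hq : IsPrimitiveRoot q n) {u : ZMod n} (hu : 2 * u = 1) :
    ∃ κ : ℂ, SM n q * diagonal (fun m : Fin (n / 2) => co hq (u * jj n m ^ 2)) * SM n q =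
      κ • (diagonal (fun m : Fin (n / 2) => co hq (-(u * jj n m ^ 2))) * SM n q *
        diagonal (fun m : Fin (n / 2) => co hq (-(u * jj n m ^ 2)))) := by
  have g : ∀ k : ZMod n, ∑ x, co hq (u * x ^ 2 + x * k) = (∑ x, co hq (u * x ^ 2)) * co hq (-(u * k ^ 2)) := by
    intro k
    rw [Finset.sum_mul, ← Equiv.sum_comp (Equiv.subRight k)]
    refine Finset.sum_congr rfl fun x _ => ?_
    rw [← AddChar.map_add_eq_mul, Equiv.subRight_apply]
    congr 1
    linear_combination (k ^ 2 - k * x) * hu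
  refine ⟨-(∑ x, co hq (u * x ^ 2)) / so hq 1, ?_⟩
  ext m l
  have h := sum_ho hn (fun x => so hq (jj n m * x) * co hq (u * x ^ 2) * so hq (x * jj n l))
    (by simp [so_zero]) (fun x => by simp [so_neg])
  have e1 : ∀ x : ZMod n, so hq (jj n m * x) * co hq (u * x ^ 2) * so hq (x * jj n l) =
      co hq (u * x ^ 2 + x * (jj n m + jj n l)) + co hq (u * x ^ 2 + x * (-(jj n m + jj n l))) -
        co hq (u * x ^ 2 + x * (jj n m - jj n l)) - co hq (u * x ^ 2 + x * (-(jj n m - jj n l))) := by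
    intro x
    rw [mul_right_comm, so_mul]
    simp only [sub_mul, add_mul, ← AddChar.map_add_eq_mul]
    ring_nf
  rw [Finset.sum_congr rfl fun x _ => e1 x] at h
  simp only [Finset.sum_add_distrib, Finset.sum_sub_distrib, g, neg_sq] at h
  have e2 : co hq (-(u * (jj n m + jj n l) ^ 2)) =
      co hq (-(u * jj n m ^ 2)) * co hq (-(u * jj n l ^ 2)) * co hq (-(jj n m * jj n l)) := by
    simp only [← AddChar.map_add_eq_mul]; congr 1; linear_combination (-(jj n m * jj n l)) * hu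
  have e3 : co hq (-(u * (jj n m - jj n l) ^ 2)) =
      co hq (-(u * jj n m ^ 2)) * co hq (-(u * jj n l ^ 2)) * co hq (jj n m * jj n l) := by
    simp only [← AddChar.map_add_eq_mul]; congr 1; linear_combination (jj n m * jj n l) * hu
  have h1 := so_ne hn hq (one_ne h5)
  rw [e2, e3] at h
  rw [Matrix.mul_apply, Matrix.smul_apply, mul_diagonal, diagonal_mul]
  simp only [mul_diagonal, SM_so hq, smul_eq_mul]
  have : ∀ x : Fin (n / 2), so hq (jj n m * jj n x) / so hq 1 * co hq (u * jj n x ^ 2) *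
      (so hq (jj n x * jj n l) / so hq 1) = so hq (jj n m * jj n x) * co hq (u * jj n x ^ 2) *
      so hq (jj n x * jj n l) / so hq 1 ^ 2 := fun x => by ring
  simp only [this, ← Finset.sum_div]
  rw [so.eq_1 hq (jj n m * jj n l)]
  field_simp
  linear_combination (1 / 2 : ℂ) * h

def eps (n l m : ℕ) : ℂ := (-1) ^ (l * (2 * m + 1) / n + l / n)

theorem eps_alt (hn : n % 2 = 1) {m : ℕ} (hm : m < n / 2) : eps n (n / 2) m = (-1) ^ m := by
  have h1 : n / 2 * (2 * m + 1) / n = m := by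
    obtain ⟨k, hk⟩ : ∃ k, n = 2 * k + 1 := ⟨n / 2, by omega⟩
    have e : n / 2 = k := by omega
    rw [e] at hm ⊢
    obtain ⟨d, rfl⟩ := Nat.exists_eq_add_of_lt hm
    refine Nat.div_eq_of_lt_le ?_ ?_ <;> rw [hk] <;> nlinarith
  rw [eps, h1, Nat.div_eq_of_lt (by omega), add_zero]

theorem sep {a b : ℕ} (hab : a < b) (hb : b < n) : ∃ j, 0 < j ∧ (2 ^ j * a / n + 2 ^ j * b / n) % 2 = 1 := by
  have hn := NeZero.pos n
  have ex : ∃ j, 2 ^ j * a / n ≠ 2 ^ j * b / n := by
    refine ⟨n, ne_of_lt ?_⟩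
    have h1 : n < 2 ^ n := Nat.lt_two_pow_self
    have h2 : 2 ^ n * a + n ≤ 2 ^ n * b := by nlinarith
    have := Nat.div_le_div_right (c := n) h2
    rw [Nat.add_div_right _ hn] at this
    omega
  classical
  have h1 := Nat.find_spec ex
  obtain h0 | ⟨j, hj⟩ : Nat.find ex = 0 ∨ ∃ j, Nat.find ex = j + 1 := by
    rcases Nat.find ex with _ | j
    · exact Or.inl rfl
    · exact Or.inr ⟨j, rfl⟩
  · rw [h0, pow_zero, one_mul, one_mul, Nat.div_eq_of_lt (by omega), Nat.div_eq_of_lt hb] at h1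
    exact absurd rfl h1
  · have h2 := not_not.1 (Nat.find_min ex (m := j) (by omega))
    rw [hj] at h1
    refine ⟨j + 1, by omega, ?_⟩
    have k : ∀ x, 2 * x / n / 2 = x / n := fun x => by
      rw [Nat.div_div_eq_div_mul, mul_comm n 2, Nat.mul_div_mul_left _ _ two_pos]
    have k1 := k (2 ^ j * a)
    have k2 := k (2 ^ j * b)
    rw [pow_succ', mul_assoc, mul_assoc] at h1 ⊢
    omega

theorem eps_sq (l m : ℕ) : eps n l m * eps n l m = 1 := by
  rw [eps, ← mul_pow]; simp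

theorem eps_ne (l m : ℕ) : eps n l m ≠ 0 := left_ne_zero_of_mul_eq_one (eps_sq l m)

theorem eps_zero (l : ℕ) : eps n l 0 = 1 := by
  rw [eps, mul_zero, zero_add, mul_one, ← two_mul, pow_mul]; simp

theorem eps_sep {a b : Fin (n / 2)} (h : ∀ j, 0 < j → eps n (2 ^ j) a = eps n (2 ^ j) b) : a = b := by
  have key : ∀ a b : Fin (n / 2), a < b → ∃ j, 0 < j ∧ eps n (2 ^ j) a ≠ eps n (2 ^ j) b := by
    intro a b hab
    have := b.2
    obtain ⟨j, h0, hj⟩ := sep (n := n) (a := 2 * a + 1) (b := 2 * b + 1)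
      (by have : a.1 < b.1 := hab; omega) (by omega)
    refine ⟨j, h0, fun e => ?_⟩
    have e2 := eps_sq (n := n) (2 ^ j) a
    conv_lhs at e2 => rhs; rw [e]
    rw [eps, eps, ← pow_add, Odd.neg_one_pow (Nat.odd_iff.2 (by omega))] at e2
    norm_num at e2
  rcases lt_trichotomy a b with h1 | h1 | h1
  · obtain ⟨j, h0, hj⟩ := key a b h1; exact absurd (h j h0) hj
  · exact h1
  · obtain ⟨j, h0, hj⟩ := key b a h1; exact absurd (h j h0).symm hj

theorem sin_sign {x : ℕ} (hx : ¬ n ∣ x) : 0 < (-1 : ℝ) ^ (x / n) * Real.sin (Real.pi * x / n) := by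
  have hn : (0 : ℝ) < n := Nat.cast_pos.2 (NeZero.pos n)
  have e : Real.pi * x / n = Real.pi * (x % n : ℕ) / n + (x / n : ℕ) * Real.pi := by
    conv_lhs => rw [← Nat.mod_add_div x n]
    push_cast; field_simp
  rw [e, Real.sin_add_nat_mul_pi, ← mul_assoc, ← mul_pow]
  have h1 : (0 : ℝ) < (x % n : ℕ) := Nat.cast_pos.2 (Nat.pos_of_ne_zero fun h => hx (Nat.dvd_of_mod_eq_zero h))
  have h2 : ((x % n : ℕ) : ℝ) < n := Nat.cast_lt.2 (Nat.mod_lt _ (NeZero.pos n))
  simp only [mul_neg, mul_one, neg_neg, one_pow, one_mul]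
  apply Real.sin_pos_of_pos_of_lt_pi
  · have := Real.pi_pos; positivity
  · rw [div_lt_iff₀ hn]; exact mul_lt_mul_of_pos_left h2 Real.pi_pos

noncomputable def qq (n l : ℕ) : ℂ := (-1) ^ l * Complex.exp (Real.pi * l / n * Complex.I)

theorem qq_prim (hn : n % 2 = 1) {l : ℕ} (hl : l.Coprime n) : IsPrimitiveRoot (qq n l) n := by
  have h := (Complex.isPrimitiveRoot_exp n (NeZero.ne n)).pow_of_coprime (l * (n / 2 + 1))
    (Nat.Coprime.mul_left hl (by
      have : 2 * (n / 2 + 1) = 1 + n := by omega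
      exact Nat.Coprime.coprime_mul_left (k := 2) (by rw [this]; simp)))
  convert h using 1
  rw [qq, ← Complex.exp_pi_mul_I, ← Complex.exp_nat_mul, ← Complex.exp_nat_mul, ← Complex.exp_add]
  congr 1
  have h0 : (n : ℂ) ≠ 0 := Nat.cast_ne_zero.2 (NeZero.ne n)
  have : (2 : ℂ) * ((n / 2 : ℕ) + 1) = 1 + n := by exact_mod_cast (by omega : 2 * (n / 2 + 1) = 1 + n)
  push_cast
  field_simp
  linear_combination (-(l : ℂ)) * this

theorem qq_sign (h5 : 5 ≤ n) {l : ℕ} (hl : l.Coprime n) {m : ℕ} (hm : m < n / 2) :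
    0 < eps n l m * slS (qq n l) m 0 := by
  have k : ∀ a : ℕ, qq n l ^ (2 * a + 1) - (qq n l)⁻¹ ^ (2 * a + 1) =
      (-1) ^ l * (2 * Complex.I) * (Real.sin (Real.pi * (l * (2 * a + 1) : ℕ) / n) : ℝ) := by
    intro a
    have e : ((-1 : ℂ) ^ l) ^ (2 * a + 1) = (-1) ^ l := by
      rw [pow_succ, pow_mul, ← pow_mul _ l 2, mul_comm l 2, pow_mul]; simp
    have e' : ((-1 : ℂ) ^ l)⁻¹ = (-1) ^ l := by rw [← inv_pow, inv_neg, inv_one]
    rw [qq, mul_inv, mul_pow, mul_pow, e', e, ← Complex.exp_neg, ← Complex.exp_nat_mul,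
      ← Complex.exp_nat_mul, Complex.ofReal_sin, Complex.sin]
    push_cast
    ring_nf
    simp only [Complex.I_sq]
    ring_nf
  have k0 := k 0
  simp only [mul_zero, zero_add, pow_one, mul_one] at k0
  have s1 := sin_sign (n := n) (x := l * (2 * m + 1)) fun h => by
    have := Nat.le_of_dvd (by omega) (hl.symm.dvd_of_dvd_mul_left h)
    omega
  have s0 := sin_sign (n := n) (x := l) fun h => by
    have := hl.symm.eq_one_of_dvd h
    omega
  have s2 := div_pos s1 s0
  have h2 : ((-1 : ℂ) ^ l * (2 * Complex.I)) ≠ 0 := by simp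
  have e : eps n l m * slS (qq n l) m 0 = (((-1 : ℝ) ^ (l * (2 * m + 1) / n) *
      Real.sin (Real.pi * (l * (2 * m + 1) : ℕ) / n) / ((-1) ^ (l / n) * Real.sin (Real.pi * l / n)) : ℝ) : ℂ) := by
    rw [slS, mul_zero, zero_add, mul_one, k, k0, mul_div_mul_left _ _ h2, eps, pow_add]
    have e' : ((-1 : ℂ) ^ (l / n))⁻¹ = (-1) ^ (l / n) := by rw [← inv_pow, inv_neg, inv_one]
    simp only [Complex.ofReal_div, Complex.ofReal_mul, Complex.ofReal_pow, Complex.ofReal_neg,
      Complex.ofReal_one]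
    rw [div_eq_mul_inv _ (_ * _), mul_inv, e']
    ring
  rw [e]
  exact Complex.zero_lt_real.2 s2

end Pool.Agent.Lib.MP_edb142_al
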