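import Pool.Agent.Lib.MP_edb142_al.W4

open Matrix

set_option linter.unusedSectionVars false

namespace Pool.Agent.Lib.MP_edb142_al

variable {n : ℕ} [NeZero n] {q : ℂ} {m : Submodule ℂ (Matrix (Fin (n / 2)) (Fin (n / 2)) ℂ)}
  {Δ : Set (Fin (n / 2) → ℂ)}

structure PS (n : ℕ) [NeZero n] (q : ℂ) (m : Submodule ℂ (Matrix (Fin (n / 2)) (Fin (n / 2)) ℂ))
    (Δ : Set (Fin (n / 2) → ℂ)) : Prop where
  hn : n % 2 = 1
  h5 : 5 ≤ n
  hq : IsPrimitiveRoot q n
  cl : Cl m (SM n q) Δ
  hT : (fun a : Fin (n / 2) => slT q a ^ 2) ∈ Δ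
  hE : ∀ l : ℕ, l.Coprime n → (fun a : Fin (n / 2) => eps n l a) ∈ Δ

def E2 (n : ℕ) : Set (Fin (n / 2) → ℂ) := {δ | ∃ j, 0 < j ∧ δ = fun a : Fin (n / 2) => eps n (2 ^ j) a}

theorem cop_two (hn : n % 2 = 1) (j : ℕ) : (2 ^ j).Coprime n :=
  (Nat.odd_iff.2 hn).coprime_two_left.pow_left j

theorem PS.E2_sub (h : PS n q m Δ) : E2 n ⊆ Δ := by
  rintro _ ⟨j, -, rfl⟩
  exact h.hE _ (cop_two h.hn j)

theorem eps_div (l a b : ℕ) : eps n l a / eps n l b = eps n l a * eps n l b := by
  rw [div_eq_mul_inv, ← eq_inv_of_mul_eq_one_left (eps_sq l b)]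

theorem E2_match {a b c d : Fin (n / 2)} : (∀ δ ∈ E2 n, δ a / δ b = δ c / δ d) ↔
    ∀ j, 0 < j → eps n (2 ^ j) a * eps n (2 ^ j) b = eps n (2 ^ j) c * eps n (2 ^ j) d := by
  constructor
  · intro h j hj
    simpa only [eps_div] using h _ ⟨j, hj, rfl⟩
  · rintro h _ ⟨j, hj, rfl⟩
    simpa only [eps_div] using h j hj

theorem match_uniq {a b b' c d : Fin (n / 2)}
    (h : ∀ j, 0 < j → eps n (2 ^ j) a * eps n (2 ^ j) b = eps n (2 ^ j) c * eps n (2 ^ j) d)
    (h' : ∀ j, 0 < j → eps n (2 ^ j) a * eps n (2 ^ j) b' = eps n (2 ^ j) c * eps n (2 ^ j) d) :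
    b = b' := eps_sep fun j hj => mul_left_cancel₀ (eps_ne _ _) ((h j hj).trans (h' j hj).symm)

theorem PS.diag (h : PS n q m Δ) {M : Matrix _ _ ℂ} (hM : M ∈ m) : diagonal (diag M) ∈ m := by
  by_cases h0 : Nonempty (Fin (n / 2))
  · obtain ⟨o⟩ := h0
    obtain ⟨N, hN, h1⟩ := h.cl.comp h.E2_sub o o hM
    convert hN using 1
    ext a b
    by_cases hab : a = b
    · subst hab
      rw [diagonal_apply_eq, (h1 a a).1 (E2_match.2 fun j _ => by rw [eps_sq, eps_sq])]; rfl
    · rw [diagonal_apply_ne _ hab]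
      by_contra h2
      exact hab (match_uniq (a := a) (c := o) (d := o) (fun j _ => by rw [eps_sq, eps_sq])
        (E2_match.1 ((h1 a b).2 (Ne.symm h2))))
  · have := h.h5
    exact (h0 ⟨⟨0, by omega⟩⟩).elim

theorem PS.D_ne (h : PS n q m Δ) : -(n : ℂ) / (so h.hq 1) ^ 2 ≠ 0 :=
  div_ne_zero (neg_ne_zero.2 (Nat.cast_ne_zero.2 (NeZero.ne n)))
    (pow_ne_zero _ (so_ne h.hn h.hq (one_ne h.h5)))

theorem PS.inv (h : PS n q m Δ) : (SM n q)⁻¹ = (-(n : ℂ) / (so h.hq 1) ^ 2)⁻¹ • SM n q := by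
  apply Matrix.inv_eq_right_inv
  rw [Matrix.mul_smul, SM_two h.hn h.h5 h.hq, smul_smul, inv_mul_cancel₀ h.D_ne, one_smul]

theorem PS.conj (h : PS n q m Δ) {M : Matrix _ _ ℂ} (hM : M ∈ m) : SM n q * M * SM n q ∈ m := by
  have := m.smul_mem (-(n : ℂ) / (so h.hq 1) ^ 2) (h.cl.cS M hM)
  rwa [h.inv, Matrix.mul_smul, smul_smul, mul_inv_cancel₀ h.D_ne, one_smul] at this

noncomputable def cc (hq : IsPrimitiveRoot q n) (x : ZMod n) : ℂ := co hq x + co hq (-x)

theorem so_cc (hq : IsPrimitiveRoot q n) (x y : ZMod n) :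
    so hq x * so hq y = cc hq (x + y) - cc hq (x - y) := by rw [so_mul, cc, cc]; ring

theorem cc_mul (hq : IsPrimitiveRoot q n) (x y : ZMod n) :
    cc hq x * cc hq y = cc hq (x + y) + cc hq (x - y) := by
  simp only [cc, add_mul, mul_add, ← AddChar.map_add_eq_mul]
  ring_nf

theorem cc_neg (hq : IsPrimitiveRoot q n) (x : ZMod n) : cc hq (-x) = cc hq x := by
  simp [cc, add_comm]

noncomputable def ind (x : ZMod n) : ℂ := if x = 0 then 1 else 0

theorem cc_sum (hq : IsPrimitiveRoot q n) (b : ZMod n) : ∑ x, cc hq (x * b) = 2 * n * ind b := by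
  simp only [cc, Finset.sum_add_distrib, ← mul_neg, co_sum, ind, neg_eq_zero]
  split_ifs <;> ring

theorem kap_eq (hn : n % 2 = 1) (hq : IsPrimitiveRoot q n) (a b : ZMod n) :
    ∑ x : Fin (n / 2), so hq (3 * jj n x) * so hq (jj n x * a) * so hq (b * jj n x) * so hq (jj n x) =
      n * (ind (4 + (a + b)) + ind (4 - (a + b)) - ind (4 + (a - b)) - ind (4 - (a - b)) -
        ind (2 + (a + b)) - ind (2 - (a + b)) + ind (2 + (a - b)) + ind (2 - (a - b))) := by
  have h := sum_ho hn (fun x => so hq (3 * x) * so hq (x * a) * so hq (b * x) * so hq x)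
    (by simp [so_zero]) (fun x => by simp [so_neg])
  have e : ∀ x : ZMod n, so hq (3 * x) * so hq (x * a) * so hq (b * x) * so hq x =
      cc hq (x * (4 + (a + b))) + cc hq (x * (4 - (a + b))) - cc hq (x * (4 + (a - b))) -
      cc hq (x * (4 - (a - b))) - cc hq (x * (2 + (a + b))) - cc hq (x * (2 - (a + b))) +
      cc hq (x * (2 + (a - b))) + cc hq (x * (2 - (a - b))) := by
    intro x
    have : so hq (3 * x) * so hq (x * a) * so hq (b * x) * so hq x =
      (so hq (3 * x) * so hq x) * (so hq (x * a) * so hq (b * x)) := by ring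
    rw [this, so_cc, so_cc]
    simp only [sub_mul, mul_sub (cc _ _), cc_mul]
    ring_nf
  rw [Finset.sum_congr rfl fun x (_ : x ∈ Finset.univ) => e x] at h
  simp only [Finset.sum_add_distrib, Finset.sum_sub_distrib, cc_sum] at h
  linear_combination (1 / 2 : ℂ) * h

theorem zc (hn : n % 2 = 1) {x : ZMod n} (t : ℤ) (hx : x = 2 * t) (h1 : -(n : ℤ) < t) (h2 : t < n)
    (h : t ≠ 0) : x ≠ 0 := by
  intro h0
  have := two_mul_eq hn (hx ▸ h0)
  rw [ZMod.intCast_zmod_eq_zero_iff_dvd] at this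
  exact h (Int.eq_zero_of_abs_lt_dvd this (abs_lt.2 ⟨h1, h2⟩))

theorem ind_ne {x : ZMod n} (h : x ≠ 0) : ind x = 0 := if_neg h

theorem PS.sub (h : PS n q m Δ) {o c : Fin (n / 2)} (ho : o.1 = 0) (hc : c.1 = 1)
    (h0 : ∀ M ∈ m, M c o = 0) {M : Matrix _ _ ℂ} (hM : M ∈ m) {a0 b0 : Fin (n / 2)}
    (hab : a0.1 = b0.1 + 1) : M a0 b0 = 0 := by
  have hn := h.hn
  have h5 := h.h5
  have hcop : (n / 2).Coprime n := by
    have : n = 1 + 2 * (n / 2) := by omega
    conv_rhs => rw [this]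
    simp
  obtain ⟨N, hN, h1⟩ := h.cl.comp (Δ' := {fun a : Fin (n / 2) => slT q a ^ 2,
    fun a : Fin (n / 2) => eps n (n / 2) a}) (by
      rintro _ (rfl | rfl)
      · exact h.hT
      · exact h.hE _ hcop) a0 b0 hM
  rw [← (h1 a0 b0).1 fun _ _ => rfl]
  have h2 := h0 _ (h.conj (h.diag (h.conj hN)))
  have s1 := so_ne hn h.hq (one_ne h5)
  have j3 : jj n c = 3 := by rw [jj, hc]; norm_num
  have j1 : jj n o = 1 := by rw [ho, jo_zero]
  have h3 : ∑ a, ∑ b, N a b * ∑ x : Fin (n / 2), so h.hq (3 * jj n x) * so h.hq (jj n x * jj n a) *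
      so h.hq (jj n b * jj n x) * so h.hq (jj n x) = 0 := by
    rw [← mul_zero (so h.hq 1 ^ 4), ← h2]
    simp only [Matrix.mul_apply, diagonal_apply, diag_apply, mul_ite, mul_zero,
      Finset.sum_ite_eq', Finset.mem_univ, if_true, SM_so h.hq, j3, j1, Finset.mul_sum,
      Finset.sum_mul, mul_one]
    symm
    rw [Finset.sum_comm]
    conv_rhs => rw [Finset.sum_comm]
    refine Finset.sum_congr rfl fun b _ => ?_
    rw [Finset.sum_comm]
    refine Finset.sum_congr rfl fun a _ => Finset.sum_congr rfl fun x _ => ?_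
    field_simp
  simp only [kap_eq hn] at h3
  have key : ∀ a b : Fin (n / 2), (a, b) ≠ (a0, b0) → N a b * (n * (ind (4 + (jj n a + jj n b)) +
      ind (4 - (jj n a + jj n b)) - ind (4 + (jj n a - jj n b)) - ind (4 - (jj n a - jj n b)) -
      ind (2 + (jj n a + jj n b)) - ind (2 - (jj n a + jj n b)) + ind (2 + (jj n a - jj n b)) +
      ind (2 - (jj n a - jj n b)))) = 0 := by
    intro a b hne
    by_contra hN0
    have h4 := (h1 a b).2 (left_ne_zero_of_mul hN0)
    have p1 := h4 _ (Or.inl rfl)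
    have p2 := h4 _ (Or.inr rfl)
    have ha := a.2
    have hb := b.2
    have ha0 := a0.2
    simp only [eps_div] at p2
    rw [eps_alt hn a.2, eps_alt hn b.2, eps_alt hn a0.2, eps_alt hn b0.2, ← pow_add, ← pow_add] at p2
    have p3 : (a.1 + b.1) % 2 = 1 := by
      by_contra p3
      rw [Even.neg_one_pow (n := a.1 + b.1) (Nat.even_iff.2 (by omega)),
        Odd.neg_one_pow (Nat.odd_iff.2 (by omega))] at p2
      norm_num at p2
    simp only [slT_co h.hq, ← AddChar.map_sub_eq_div] at p1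
    have p4 := co_inj h.hq p1
    have q1 : a.1 ≠ b.1 + 1 := by
      intro e
      refine zc hn (x := 2 * ((b.1 : ZMod n) - b0.1)) ((b.1 : ℤ) - b0.1) (by push_cast; ring)
        (by omega) (by omega) (fun e2 => hne (Prod.ext (Fin.ext ?_) (Fin.ext ?_))) ?_
      · simp only; omega
      · simp only; omega
      · apply two_mul_eq hn; apply two_mul_eq hn
        simp only [jj, e, hab] at p4
        push_cast at p4
        linear_combination p4
    have q2 : b.1 ≠ a.1 + 1 := by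
      intro e
      refine zc hn (x := 2 * ((a.1 : ZMod n) + b0.1 + 2)) ((a.1 : ℤ) + b0.1 + 2) (by push_cast; ring)
        (by omega) (by omega) (by omega) ?_
      apply two_mul_eq hn; apply two_mul_eq hn
      simp only [jj, e, hab] at p4
      push_cast at p4
      linear_combination -p4
    apply right_ne_zero_of_mul hN0
    rw [ind_ne (zc hn ((a.1 : ℤ) + b.1 + 3) (by simp only [jj]; push_cast; ring) (by omega) (by omega) (by omega)),
      ind_ne (zc hn (1 - (a.1 : ℤ) - b.1) (by simp only [jj]; push_cast; ring) (by omega) (by omega) (by omega)),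
      ind_ne (zc hn (2 + (a.1 : ℤ) - b.1) (by simp only [jj]; push_cast; ring) (by omega) (by omega) (by omega)),
      ind_ne (zc hn (2 - (a.1 : ℤ) + b.1) (by simp only [jj]; push_cast; ring) (by omega) (by omega) (by omega)),
      ind_ne (zc hn ((a.1 : ℤ) + b.1 + 2) (by simp only [jj]; push_cast; ring) (by omega) (by omega) (by omega)),
      ind_ne (zc hn (-(a.1 : ℤ) - b.1) (by simp only [jj]; push_cast; ring) (by omega) (by omega) (by omega)),
      ind_ne (zc hn (1 + (a.1 : ℤ) - b.1) (by simp only [jj]; push_cast; ring) (by omega) (by omega) (by omega)),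
      ind_ne (zc hn (1 - (a.1 : ℤ) + b.1) (by simp only [jj]; push_cast; ring) (by omega) (by omega) (by omega))]
    ring
  rw [Finset.sum_eq_single a0, Finset.sum_eq_single b0] at h3
  · have ha0 := a0.2
    rw [ind_ne (x := 4 + (jj n a0 + jj n b0)) (zc hn ((a0.1 : ℤ) + b0.1 + 3)
        (by simp only [jj]; push_cast; ring) (by omega) (by omega) (by omega)),
      ind_ne (x := 4 + (jj n a0 - jj n b0)) (zc hn (2 + (a0.1 : ℤ) - b0.1)
        (by simp only [jj]; push_cast; ring) (by omega) (by omega) (by omega)),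
      ind_ne (x := 4 - (jj n a0 - jj n b0)) (zc hn (2 - (a0.1 : ℤ) + b0.1)
        (by simp only [jj]; push_cast; ring) (by omega) (by omega) (by omega)),
      ind_ne (x := 2 + (jj n a0 + jj n b0)) (zc hn ((a0.1 : ℤ) + b0.1 + 2)
        (by simp only [jj]; push_cast; ring) (by omega) (by omega) (by omega)),
      ind_ne (x := 2 - (jj n a0 + jj n b0)) (zc hn (-(a0.1 : ℤ) - b0.1)
        (by simp only [jj]; push_cast; ring) (by omega) (by omega) (by omega)),
      ind_ne (x := 2 + (jj n a0 - jj n b0)) (zc hn (1 + (a0.1 : ℤ) - b0.1)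
        (by simp only [jj]; push_cast; ring) (by omega) (by omega) (by omega)),
      show 2 - (jj n a0 - jj n b0) = 0 by simp only [jj, hab]; push_cast; ring] at h3
    refine (mul_eq_zero.1 h3).resolve_right (mul_ne_zero (Nat.cast_ne_zero.2 (NeZero.ne n)) ?_)
    simp only [ind]
    split_ifs <;> norm_num at *
  · exact fun b _ hb => key _ _ (by simp [hb])
  · simp
  · exact fun a _ ha => Finset.sum_eq_zero fun b _ => key _ _ (by simp [ha])
  · simp

end Pool.Agent.Lib.MP_edb142_al
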