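import Pool.Agent.Lib.MP_edb142_al.W5

open Matrix

set_option linter.unusedSectionVars false

namespace Pool.Agent.Lib.MP_edb142_al

variable {n : ℕ} [NeZero n] {q : ℂ} {m : Submodule ℂ (Matrix (Fin (n / 2)) (Fin (n / 2)) ℂ)}
  {Δ : Set (Fin (n / 2) → ℂ)}

theorem PS.const (h : PS n q m Δ)
    (h0 : ∀ M ∈ m, ∀ a b : Fin (n / 2), a.1 = b.1 + 1 → M a b = 0) {M : Matrix _ _ ℂ} (hM : M ∈ m)
    (a b : Fin (n / 2)) : M a a = M b b := by
  have hn := h.hn
  have h5 := h.h5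
  have s1 := so_ne hn h.hq (one_ne h5)
  let G : ZMod n → ℂ := fun k => ∑ x : Fin (n / 2), M x x * cc h.hq (k * jj n x)
  have hG : ∀ a b : Fin (n / 2), (SM n q * diagonal (Matrix.diag M) * SM n q) a b =
      (G (jj n a + jj n b) - G (jj n a - jj n b)) / so h.hq 1 ^ 2 := by
    intro a b
    rw [Matrix.mul_apply, ← Finset.sum_sub_distrib, Finset.sum_div]
    refine Finset.sum_congr rfl fun x _ => ?_
    rw [mul_diagonal, SM_so h.hq, SM_so h.hq, diag_apply, ← mul_sub, add_mul, sub_mul, ← so_cc,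
      mul_comm (jj n x)]
    field_simp
  have hev : ∀ k, G (-k) = G k := fun k => by simp only [G, neg_mul, cc_neg]
  have h4 : ∀ t : ℕ, 0 < t → t ≤ n / 2 → G (4 * t) = G 2 := by
    intro t t0 t1
    rcases t1.lt_or_eq with t1 | t1
    · have e := h0 _ (h.conj (h.diag hM)) ⟨t, t1⟩ ⟨t - 1, by omega⟩ (by simp only; omega)
      rw [hG, div_eq_zero_iff, or_iff_left (pow_ne_zero _ s1), sub_eq_zero] at e
      obtain ⟨s, rfl⟩ : ∃ s, t = s + 1 := ⟨t - 1, by omega⟩
      convert e using 2 <;> simp only [jj, Nat.add_sub_cancel] <;> push_cast <;> ring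
    · rw [← hev]
      congr 1
      have : ((2 * t + 1 : ℕ) : ZMod n) = 0 := by rw [show 2 * t + 1 = n by omega]; simp
      push_cast at this
      linear_combination -2 * this
  have hc : ∀ k, k ≠ 0 → G k = G 2 := by
    intro k hk
    obtain ⟨u, hu⟩ := two_unit hn
    have e : k = 4 * ((k * u ^ 2).val : ℕ) := by
      rw [ZMod.natCast_zmod_val]; linear_combination (-k * (2 * u + 1)) * hu
    have h1 : (k * u ^ 2).val ≠ 0 := fun h1 => hk (by rw [e, h1]; simp)
    have h2 := ZMod.val_lt (k * u ^ 2)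
    by_cases h3 : (k * u ^ 2).val ≤ n / 2
    · rw [e, h4 _ (by omega) h3]
    · rw [← hev, ← h4 (n - (k * u ^ 2).val) (by omega) (by omega), Nat.cast_sub h2.le,
        ZMod.natCast_self]
      congr 1
      linear_combination -e
  have e : SM n q * diagonal (Matrix.diag M) * SM n q = ((G 2 - G 0) / so h.hq 1 ^ 2) • 1 := by
    ext x y
    rw [hG, hc _ (jo_add hn x.2 y.2), Matrix.smul_apply]
    by_cases hxy : x = y
    · subst hxy; simp
    · rw [hc _ (sub_ne_zero.2 fun e => hxy (Fin.ext (jo_inj x.2 y.2 e))), one_apply_ne hxy]; simp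
  have e2 : SM n q * (SM n q * diagonal (Matrix.diag M) * SM n q) * SM n q =
      (SM n q * SM n q) * diagonal (Matrix.diag M) * (SM n q * SM n q) := by simp only [mul_assoc]
  rw [e, Matrix.mul_smul, mul_one, Matrix.smul_mul, SM_two hn h5 h.hq] at e2
  have ea := congrFun (congrFun e2 a) a
  have eb := congrFun (congrFun e2 b) b
  simp only [Matrix.smul_apply, Matrix.mul_smul, Matrix.smul_mul, one_mul, mul_one, one_apply_eq,
    diagonal_apply_eq, diag_apply, smul_eq_mul] at ea eb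
  exact mul_left_cancel₀ h.D_ne (mul_left_cancel₀ h.D_ne (ea.symm.trans eb))

def Mt (c d a b : Fin (n / 2)) : Prop :=
  ∀ j, 0 < j → eps n (2 ^ j) a * eps n (2 ^ j) b = eps n (2 ^ j) c * eps n (2 ^ j) d

theorem Mt.symm {c d a b : Fin (n / 2)} (h : Mt c d a b) : Mt c d b a :=
  fun j hj => (mul_comm _ _).trans (h j hj)

theorem mono_row {c d a b : Fin (n / 2)} {X : Matrix (Fin (n / 2)) (Fin (n / 2)) ℂ}
    (hX : ∀ a b, X a b ≠ 0 → Mt c d a b) (hab : Mt c d a b) (v : Fin (n / 2) → ℂ) :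
    ∑ x, X a x * v x = X a b * v b := by
  refine Finset.sum_eq_single b (fun x _ hx => ?_) (by simp)
  rw [of_not_not (mt (fun h => match_uniq (hX a x h) hab) hx), zero_mul]

theorem PS.sq (h : PS n q m Δ) (h0 : ∀ M ∈ m, ∀ a b, M a a = M b b) {c d : Fin (n / 2)}
    {X : Matrix _ _ ℂ} (hm : X ∈ m) (hX : ∀ a b, X a b ≠ 0 → Mt c d a b) {a b : Fin (n / 2)}
    (hab : Mt c d a b) : X a b * X a b = X b a * X b a := by
  have hB := h.cl.br _ hm _ (h.cl.tr _ hm)
  have t : trace (X * Xᵀ - Xᵀ * X) = 0 := by rw [trace_sub, trace_mul_comm, sub_self]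
  simp only [trace, diag_apply] at t
  rw [Finset.sum_congr rfl fun x _ => h0 _ hB x a, Finset.sum_const,
    Finset.card_univ, nsmul_eq_mul, mul_eq_zero, Nat.cast_eq_zero,
    or_iff_right (Fintype.card_pos_iff.2 ⟨a⟩).ne', Matrix.sub_apply, sub_eq_zero, Matrix.mul_apply,
    Matrix.mul_apply, mono_row hX hab,
    mono_row (X := Xᵀ) (fun a b h => (hX b a h).symm) hab] at t
  exact t

theorem PS.jsq (h : PS n q m Δ) (h0 : ∀ M ∈ m, ∀ a b, M a a = M b b) {M : Matrix _ _ ℂ} (hM : M ∈ m)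
    {a b : Fin (n / 2)} (hab : M a b ≠ 0) : jj n a ^ 2 = jj n b ^ 2 := by
  obtain ⟨N, hN, h1⟩ := h.cl.comp (Δ' := insert (fun a : Fin (n / 2) => slT q a ^ 2) (E2 n))
    (Set.insert_subset h.hT h.E2_sub) a b hM
  have hX : ∀ x y, N x y ≠ 0 → Mt a b x y := fun x y hxy =>
    E2_match.1 fun δ hδ => (h1 x y).2 hxy δ (Or.inr hδ)
  have e := h.sq h0 hN hX (a := a) (b := b) fun _ _ => rfl
  rw [(h1 a b).1 fun _ _ => rfl] at e
  have p1 := (h1 b a).2 (left_ne_zero_of_mul (e ▸ mul_ne_zero hab hab)) _ (Or.inl rfl)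
  simp only [slT_co h.hq, ← AddChar.map_sub_eq_div] at p1
  have p2 := co_inj h.hq p1
  exact sub_eq_zero.1 (two_mul_eq h.hn (by linear_combination -p2))

theorem PS.comm (h : PS n q m Δ) (h0 : ∀ M ∈ m, ∀ a b, M a a = M b b) {M : Matrix _ _ ℂ}
    (hM : M ∈ m) : SM n q * M = M * SM n q := by
  obtain ⟨u, hu⟩ := two_unit h.hn
  obtain ⟨κ, hκ⟩ := STS h.hn h.h5 h.hq hu
  have c1 : ∀ M ∈ m, ∀ f : ZMod n → ℂ, Commute (diagonal fun a : Fin (n / 2) => f (jj n a ^ 2)) M := by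
    intro M hM f
    ext a b
    rw [diagonal_mul, mul_diagonal, mul_comm]
    by_cases hab : M a b = 0
    · simp [hab]
    · rw [h.jsq h0 hM hab]
  set Θ : Matrix _ _ ℂ := diagonal fun a : Fin (n / 2) => co h.hq (u * jj n a ^ 2)
  set Θ' : Matrix _ _ ℂ := diagonal fun a : Fin (n / 2) => co h.hq (-(u * jj n a ^ 2))
  have hΘ : Θ * Θ' = 1 := by simp [Θ, Θ', diagonal_mul_diagonal, ← AddChar.map_add_eq_mul]
  have hΘ' : Θ' * Θ = 1 := mul_eq_one_comm.1 hΘ
  have a1 : Commute Θ M := c1 M hM fun x => co h.hq (u * x)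
  have a2 : Commute Θ (SM n q * M * SM n q) := c1 _ (h.conj hM) fun x => co h.hq (u * x)
  have a3 : Commute (SM n q * Θ * SM n q) M := by
    have e : SM n q * (Θ * (SM n q * M * SM n q)) * SM n q =
      SM n q * (SM n q * M * SM n q * Θ) * SM n q := by rw [a2.eq]
    have e1 : SM n q * Θ * SM n q * M * (SM n q * SM n q) =
      (SM n q * SM n q) * (M * (SM n q * Θ * SM n q)) := by simpa only [mul_assoc] using e
    rw [SM_two h.hn h.h5 h.hq, Matrix.mul_smul, Matrix.smul_mul, mul_one, one_mul] at e1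
    exact smul_right_injective _ h.D_ne e1
  have k0 : κ ≠ 0 := by
    rintro rfl
    have e := congrArg det hκ
    have : Nonempty (Fin (n / 2)) := ⟨⟨0, by have := h.h5; omega⟩⟩
    rw [zero_smul, det_zero, det_mul, det_mul] at e
    exact mul_ne_zero (mul_ne_zero h.cl.unit.ne_zero (isUnit_det_of_right_inverse hΘ).ne_zero)
      h.cl.unit.ne_zero e
  have a4 : Commute (Θ * (Θ' * SM n q * Θ') * Θ) M := by
    refine (a1.mul_left ?_).mul_left a1
    have e := a3.eq
    rw [hκ, Matrix.mul_smul, Matrix.smul_mul] at e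
    exact smul_right_injective _ k0 e
  rwa [← mul_assoc, ← mul_assoc, hΘ, one_mul, mul_assoc, hΘ', mul_one] at a4

theorem PS.col (h : PS n q m Δ) (h0 : ∀ M ∈ m, ∀ a b, M a a = M b b) {o : Fin (n / 2)}
    (ho : o.1 = 0) : ∀ M ∈ m, ∀ c, c ≠ o → M c o = 0 := by
  intro M hM c hc
  by_contra hne
  obtain ⟨X, hm, h1⟩ := h.cl.comp h.E2_sub c o hM
  have hX : ∀ x y, X x y ≠ 0 → Mt c o x y := fun x y hxy => E2_match.1 ((h1 x y).2 hxy)
  have hX' : ∀ x y, Xᵀ x y ≠ 0 → Mt c o x y := fun x y h => (hX y x h).symm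
  rw [← (h1 c o).1 fun _ _ => rfl] at hne
  have m0 : Mt c o c o := fun _ _ => rfl
  have j1 : jj n o = 1 := by rw [ho, jo_zero]
  have s1 := so_ne h.hn h.hq (one_ne h.h5)
  obtain ⟨a, ha⟩ := exists_jo h.hn (jo_add h.hn c.2 o.2)
  have cX := h.comm h0 hm
  have cY : SM n q * (X * Xᵀ) = X * Xᵀ * SM n q := by
    rw [← mul_assoc, cX, mul_assoc, h.comm h0 (h.cl.tr _ hm), mul_assoc]
  have dY : ∀ x y, x ≠ y → (X * Xᵀ) x y = 0 := by
    intro x y hxy
    rw [Matrix.mul_apply]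
    refine Finset.sum_eq_zero fun z _ => ?_
    by_contra h2
    exact hxy (match_uniq (hX _ _ (left_ne_zero_of_mul h2)).symm (hX' _ _ (right_ne_zero_of_mul h2)))
  have sa : SM n q a o ≠ 0 := by
    rw [SM_so h.hq, j1, mul_one]
    exact div_ne_zero (so_ne h.hn h.hq (jo_ne a.2)) s1
  have e := congrFun (congrFun cY a) o
  rw [Matrix.mul_apply, Finset.sum_eq_single o (fun x _ hx => by rw [dY x o hx, mul_zero]) (by simp),
    Matrix.mul_apply (M := X * Xᵀ),
    Finset.sum_eq_single a (fun x _ hx => by rw [dY a x hx.symm, zero_mul]) (by simp),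
    mul_comm, mul_left_inj' sa, Matrix.mul_apply, mono_row hX m0.symm, transpose_apply,
    ← h.sq h0 hm hX m0, Matrix.mul_apply] at e
  obtain ⟨b, -, hb⟩ := Finset.exists_ne_zero_of_sum_ne_zero (e ▸ mul_ne_zero hne hne)
  have hab := hX _ _ (left_ne_zero_of_mul hb)
  rw [mono_row hX hab, transpose_apply] at e
  have e2 := congrFun (congrFun cX a) o
  rw [Matrix.mul_apply, Matrix.mul_apply, mono_row hX hab,
    Finset.sum_congr rfl fun x _ => mul_comm (SM n q a x) (X x o)] at e2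
  have e3 := mono_row hX' m0.symm (SM n q a)
  simp only [transpose_apply] at e3
  rw [e3, SM_so h.hq, SM_so h.hq, j1, mul_one] at e2
  have e4 : so h.hq (jj n b) ^ 2 = so h.hq (jj n a * jj n c) ^ 2 := by
    apply mul_left_cancel₀ (mul_ne_zero hne hne)
    field_simp at e2
    linear_combination (-(X c o * so h.hq (jj n a * jj n c) + X a b * so h.hq (jj n b))) * e2 +
      so h.hq (jj n b) ^ 2 * e
  have w := h.jsq h0 hm hne
  rw [j1] at w ha
  have e5 : jj n a * jj n c = jj n a := by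
    rcases ha with ha | ha
    · rw [← ha]; linear_combination w
    · rw [← neg_eq_iff_eq_neg.2 ha]; linear_combination -w
  rw [e5] at e4
  have e6 : b = a := by
    rcases so_sq h.hn h.hq e4 with e6 | e6
    · exact Fin.ext (jo_inj b.2 a.2 e6)
    · exact absurd (eq_neg_iff_add_eq_zero.1 e6) (jo_add h.hn b.2 a.2)
  rw [e6] at hab
  exact hc (match_uniq (a := o) (c := c) (d := o) m0.symm fun j hj => by
    rw [← hab j hj, eps_sq, eps_sq])

theorem single_mem {J : Type} [Fintype J] [DecidableEq J] {m : Submodule ℂ (Matrix J J ℂ)}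
    {S : Matrix J J ℂ} {Δ : Set (J → ℂ)} (h : Cl m S Δ) (o : J)
    (hs : ∀ a, a ≠ o → ∃ δ ∈ Δ, δ ^ 2 = 1 ∧ δ o = 1 ∧ δ a = -1) :
    Pi.single o ((2 : ℂ) ^ (Fintype.card J - 1)) ∈
      AddSubmonoid.closure {δ | δ ∈ Δ ∧ ∃ k, 0 < k ∧ δ ^ k = 1} := by
  let P : Submonoid (J → ℂ) :=
    { carrier := {δ | δ ∈ Δ ∧ ∃ k, 0 < k ∧ δ ^ k = 1}
      one_mem' := ⟨h.one, 1, one_pos, one_pow _⟩
      mul_mem' := by
        rintro a b ⟨ha, k, hk, e⟩ ⟨hb, l, hl, e'⟩
        exact ⟨h.mul _ ha _ hb, k * l, by positivity, by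
          rw [mul_pow, pow_mul, e, pow_mul', e', one_pow, one_pow, one_mul]⟩ }
  choose! δ h1 h2 h3 h4 using hs
  have : ∏ a ∈ Finset.univ.erase o, (1 + δ a) ∈ P.subsemiringClosure :=
    prod_mem fun a ha => add_mem (one_mem _)
      (AddSubmonoid.subset_closure ⟨h1 a (Finset.ne_of_mem_erase ha), 2, two_pos,
        h2 a (Finset.ne_of_mem_erase ha)⟩)
  have e : Pi.single o ((2 : ℂ) ^ (Fintype.card J - 1)) = ∏ a ∈ Finset.univ.erase o, (1 + δ a) := by
    funext x
    rw [Finset.prod_apply]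
    by_cases hx : x = o
    · subst hx
      rw [Pi.single_eq_same, Finset.prod_congr rfl (g := fun _ => (2 : ℂ)) fun a ha => by
        rw [Pi.add_apply, h3 a (Finset.ne_of_mem_erase ha), Pi.one_apply, one_add_one_eq_two]]
      simp
    · rw [Pi.single_eq_of_ne hx, Finset.prod_eq_zero (i := x) (by simp [hx]) (by simp [h4 x hx])]
  rw [e]
  exact this

theorem not_int (hn : n % 2 = 1) (h5 : 5 ≤ n) (hq : IsPrimitiveRoot q n) (k : ℕ) :
    ¬IsIntegral ℤ (((2 : ℂ) ^ k) ^ 2 / (-(n : ℂ) / (so hq 1) ^ 2)) := by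
  intro h
  have n0 : (n : ℂ) ≠ 0 := Nat.cast_ne_zero.2 (NeZero.ne n)
  have q0 := hq.ne_zero (NeZero.ne n)
  have iq : IsIntegral ℤ q := hq.isIntegral (NeZero.pos n)
  have hz : IsPrimitiveRoot (q ^ 2) n := hq.pow_of_coprime 2 (by simpa using cop_two hn 1)
  have iz : IsIntegral ℤ (q ^ 2) := iq.pow 2
  obtain ⟨α, β, e⟩ := Nat.isCoprime_iff_coprime.2 (cop_two hn (k * 2))
  have e' : (α : ℂ) * (2 ^ k) ^ 2 + β * n = 1 := by rw [← pow_mul]; exact_mod_cast e
  have h1 : IsIntegral ℤ ((1 - q ^ 2) ^ 2 / n) := by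
    have := (((isIntegral_algebraMap (x := -α)).mul h).mul iz).add
      ((isIntegral_algebraMap (x := β)).mul ((isIntegral_one.sub iz).pow 2))
    refine Eq.subst (motive := fun x : ℂ => IsIntegral ℤ x) (Eq.symm ?_) this
    have s1 := so_ne hn hq (one_ne h5)
    rw [so_one] at s1 ⊢
    simp only [algebraMap_int_eq, eq_intCast, Int.cast_neg]
    field_simp
    linear_combination (-(1 - q ^ 2) ^ 2) * e'
  have h2 : ∀ l, IsIntegral ℤ ((1 - (q ^ 2) ^ l) ^ 2 / n) := by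
    intro l
    have := h1.mul ((IsIntegral.sum (fun i => (q ^ 2) ^ i)
      fun i (_ : i ∈ Finset.range l) => iz.pow i).pow 2)
    refine Eq.subst (motive := fun x : ℂ => IsIntegral ℤ x) (Eq.symm ?_) this
    rw [← mul_neg_geom_sum _ l]; ring
  obtain ⟨s, hs⟩ : ∃ s, n = s + 3 + 1 := ⟨n - 4, by omega⟩
  have h3 := IsIntegral.prod (fun l => (1 - (q ^ 2) ^ (l + 1)) ^ 2 / n)
    fun l (_ : l ∈ Finset.range (s + 3)) => h2 (l + 1)
  rw [Finset.prod_div_distrib, Finset.prod_pow, IsPrimitiveRoot.prod_one_sub_pow_eq_order (hs ▸ hz),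
    Finset.prod_const, Finset.card_range] at h3
  have h4 : IsIntegral ℤ (algebraMap ℚ ℂ (1 / n)) := by
    refine Eq.subst (motive := fun x : ℂ => IsIntegral ℤ x) (Eq.symm ?_)
      (h3.mul ((isIntegral_algebraMap (x := (n : ℤ))).pow s))
    have : ((s + 3 : ℕ) : ℂ) + 1 = n := by rw [hs]; push_cast; ring
    rw [this]
    simp only [algebraMap_int_eq, eq_intCast, Int.cast_natCast, eq_ratCast]
    push_cast
    field_simp
    ring
  rw [isIntegral_algebraMap_iff (algebraMap ℚ ℂ).injective, IsIntegrallyClosed.isIntegral_iff] at h4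
  obtain ⟨y, hy⟩ := h4
  have n1 : (n : ℚ) ≠ 0 := Nat.cast_ne_zero.2 (NeZero.ne n)
  rw [eq_div_iff n1, algebraMap_int_eq, eq_intCast] at hy
  have : y * n = 1 := by exact_mod_cast hy
  have := Int.eq_one_of_mul_eq_one_left (by omega) this
  omega

theorem PS.false (h : PS n q m Δ) {o c : Fin (n / 2)} (ho : o.1 = 0) (hc : c.1 = 1)
    (h0 : ∀ M ∈ m, M c o = 0) : False := by
  have h1 := h.col (fun M hM => h.const (fun M hM a b => h.sub ho hc h0 hM) hM) ho
  refine not_int h.hn h.h5 h.hq _ (h.cl.integral o ?_ h1 ?_ (single_mem h.cl o fun a ha => ?_))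
  · rw [SM_so h.hq, ho, jo_zero, mul_one, div_self (so_ne h.hn h.hq (one_ne h.h5))]
  · rw [show 4 = 2 * 2 from rfl, pow_mul, pow_two (SM n q), SM_two h.hn h.h5 h.hq, _root_.smul_pow, one_pow]
  · obtain ⟨j, hj, e⟩ : ∃ j, 0 < j ∧ eps n (2 ^ j) a ≠ eps n (2 ^ j) o := by
      by_contra e
      push Not at e
      exact ha (eps_sep e)
    rw [ho, eps_zero] at e
    refine ⟨_, h.hE _ (cop_two h.hn j), funext fun x => by simp [pow_two, eps_sq],
      by simp only [ho, eps_zero], (mul_self_eq_one_iff.1 (eps_sq _ _)).resolve_left e⟩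

end Pool.Agent.Lib.MP_edb142_al
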