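import Pool.Agent.Lib.MP_edb142_al.W6
import Pool.Agent.Lib.MP_edb142_al.W7
import Pool.Agent.Lib.MP_edb142_al.Data

open Matrix Function
open scoped ComplexOrder

set_option linter.unusedSectionVars false

namespace Pool.Agent.Lib.MP_edb142_al

noncomputable def ph (w : ℂ) : ℂ := w / ‖w‖

theorem ph_mul (a b : ℂ) : ph (a * b) = ph a * ph b := by
  simp [ph, div_mul_div_comm]

theorem ph_one : ph 1 = 1 := by simp [ph]

theorem ph_prod {ι : Type} (s : Finset ι) (f : ι → ℂ) : ph (∏ i ∈ s, f i) = ∏ i ∈ s, ph (f i) :=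
  map_prod (⟨⟨ph, ph_one⟩, ph_mul⟩ : ℂ →* ℂ) f s

theorem ph_ne {a : ℂ} (h : a ≠ 0) : ph a ≠ 0 := by simp [ph, h]

theorem ph_pos {a : ℂ} (h : 0 < a) : ph a = 1 := by
  rw [ph, Complex.norm_of_nonneg' h.le, div_self h.ne']

theorem ph_neg (a : ℂ) : ph (-a) = -ph a := by simp [ph, neg_div]

theorem ph_sign {t a : ℂ} (ht : t * t = 1) (h : 0 < t * a) : ph a = t := by
  rcases mul_self_eq_one_iff.1 ht with rfl | rfl
  · exact ph_pos (by simpa using h)
  · rw [← neg_neg a, ph_neg, ph_pos (by simpa using h)]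

theorem real_cases {a : ℂ} (h0 : a ≠ 0) (h : (starRingEnd ℂ) a = a) : 0 < a ∨ 0 < -a := by
  obtain ⟨r, rfl⟩ := Complex.conj_eq_iff_real.1 h
  rcases lt_trichotomy r 0 with h1 | h1 | h1
  · right; rw [← Complex.ofReal_neg]; exact Complex.zero_lt_real.2 (by linarith)
  · simp [h1] at h0
  · left; exact Complex.zero_lt_real.2 h1

theorem ph_sq {a : ℂ} (h0 : a ≠ 0) (h : (starRingEnd ℂ) a = a) : ph a * ph a = 1 := by
  rcases real_cases h0 h with h1 | h1
  · simp [ph_pos h1]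
  · rw [← neg_neg a, ph_neg, ph_pos h1]; simp

theorem pos_of_ph {t a : ℂ} (h0 : a ≠ 0) (ht : t * ph a = 1) : 0 < t * a := by
  have : t * a = (t * ph a) * ‖a‖ := by
    rw [ph, mul_assoc, div_mul_cancel₀ _ (by simpa using h0)]
  rw [this, ht, one_mul]
  exact Complex.zero_lt_real.2 (norm_pos_iff.2 h0)

theorem map_sign (σ : ℂ →+* ℂ) {t : ℂ} (h : t ^ 2 = 1) : σ t = t := by
  rcases mul_self_eq_one_iff.1 (pow_two t ▸ h) with rfl | rfl <;> simp

variable {ι : Type} [Fintype ι] [DecidableEq ι] {I : ι → Type} [∀ i, Fintype (I i)]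
  [∀ i, DecidableEq (I i)] {S : ∀ i, Matrix (I i) (I i) ℂ} {T : ∀ i, I i → ℂ} {o : ∀ i, I i}
  {w : (∀ i, I i) → ℕ}

theorem prod_up (f : ∀ i, I i → ℂ) (y : ∀ i, I i) (i : ι) (b : I i) :
    (∏ j, f j (update y i b j)) * f i (y i) = (∏ j, f j (y j)) * f i b := by
  rw [← Finset.mul_prod_erase _ _ (Finset.mem_univ i), ← Finset.mul_prod_erase _ _ (Finset.mem_univ i),
    update_self, Finset.prod_congr rfl fun j hj => by rw [update_of_ne (Finset.ne_of_mem_erase hj)]]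
  ring

theorem prod_up2 (f : ∀ i, I i → ℂ) (y : ∀ i, I i) {i j : ι} (h : i ≠ j) (b : I i) (c : I j) :
    (∏ k, f k (update (update y j c) i b k)) * (f j (y j) * f i (y i)) =
      (∏ k, f k (y k)) * (f j c * f i b) := by
  have h1 := prod_up f (update y j c) i b
  rw [update_of_ne h] at h1
  linear_combination f j (y j) * h1 + f i b * prod_up f y j c

structure LV (S : ∀ i, Matrix (I i) (I i) ℂ) (T : ∀ i, I i → ℂ) (o : ∀ i, I i)
    (w : (∀ i, I i) → ℕ) : Prop where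
  hs : ∀ i, Site (S i) (T i) (o i)
  hw : LagVec (fun a b : ∀ i, I i => ∏ i, S i (a i) (b i)) (fun a => ∏ i, T i (a i)) o w

noncomputable def zz (T : ∀ i, I i → ℂ) (w : (∀ i, I i) → ℕ) (X : ∀ i, I i) : ℂ :=
  (∏ i, T i (X i)) * w X

theorem LV.eig (h : LV S T o w) : ∃ c : ℂ, c ≠ 0 ∧ krn S *ᵥ zz T w = c • zz T w := by
  obtain ⟨-, -, c, hc, e⟩ := h.hw
  exact ⟨c, hc.ne, funext e⟩

theorem LV.good (h : LV S T o w) {X : ∀ i, I i} (hX : zz T w X ≠ 0) :
    (∏ i, T i (X i)) ^ 2 = 1 ∧ TotPos ((∏ i, T i (X i)) * ∏ i, S i (X i) (o i)) :=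
  h.hw.2.1 X fun h0 => hX (by simp [zz, h0])

theorem LV.o_ne (h : LV S T o w) : zz T w o ≠ 0 := by
  simpa [zz, fun i => (h.hs i).Tone] using h.hw.1

theorem LV.cl (h : LV S T o w) (j : ι) : Cl (mm (zz T w) j) (S j) (Dg (zz T w) j) := by
  obtain ⟨c, hc, e⟩ := h.eig
  exact cl_of j (fun i => (h.hs i).sym) (fun i => (h.hs i).unit) hc e

theorem LV.ph_eq (h : LV S T o w) {X : ∀ i, I i} (hX : zz T w X ≠ 0) (σ : ℂ →+* ℂ) :
    ∏ i, ph (σ (S i (X i) (o i))) = ∏ i, T i (X i) := by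
  obtain ⟨h1, h2⟩ := h.good hX
  have := h2 σ
  rw [map_mul, map_sign σ h1, map_prod] at this
  rw [← ph_prod, ph_sign (by rw [← h1, pow_two]) this]

theorem LV.mem_T (h : LV S T o w) (j : ι) : (fun x => T j x ^ 2) ∈ Dg (zz T w) j :=
  ⟨fun i x => T i x ^ 2, fun i x => pow_ne_zero _ ((h.hs i).Tne x), rfl,
    fun X hX => by rw [Finset.prod_pow, (h.good hX).1]⟩

theorem LV.ne (h : LV S T o w) (σ : ℂ →+* ℂ) (i : ι) (x : I i) : σ (S i x (o i)) ≠ 0 :=
  (map_ne_zero σ).2 ((h.hs i).dne x)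

theorem LV.mem_ph (h : LV S T o w) (j : ι) (σ τ : ℂ →+* ℂ) :
    (fun x => ph (σ (S j x (o j))) * ph (τ (S j x (o j)))) ∈ Dg (zz T w) j :=
  ⟨fun i x => ph (σ (S i x (o i))) * ph (τ (S i x (o i))),
    fun i x => mul_ne_zero (ph_ne (h.ne σ i x)) (ph_ne (h.ne τ i x)), rfl, fun X hX => by
      rw [Finset.prod_mul_distrib, h.ph_eq hX, h.ph_eq hX, ← pow_two, (h.good hX).1]⟩

theorem LV.mem_Tph (h : LV S T o w) (j : ι) (σ : ℂ →+* ℂ) :
    (fun x => T j x * ph (σ (S j x (o j)))) ∈ Dg (zz T w) j :=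
  ⟨fun i x => T i x * ph (σ (S i x (o i))),
    fun i x => mul_ne_zero ((h.hs i).Tne x) (ph_ne (h.ne σ i x)), rfl, fun X hX => by
      rw [Finset.prod_mul_distrib, h.ph_eq hX, ← pow_two, (h.good hX).1]⟩

theorem LV.good1 (h : LV S T o w) {j : ι} {b : I j} (hX : zz T w (update o j b) ≠ 0) :
    Good (S j) (T j) (o j) b := by
  have h1 := prod_up T o j b
  have h2 := prod_up (fun i x => S i x (o i)) o j b
  simp only [fun i => (h.hs i).Tone, fun i => (h.hs i).one, Finset.prod_const_one, mul_one,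
    one_mul] at h1 h2
  have := h.good hX
  rwa [h1, h2] at this

theorem LV.good2 (h : LV S T o w) {i j : ι} (hij : i ≠ j) {b : I i} {c : I j}
    (hX : zz T w (update (update o j c) i b) ≠ 0) :
    (T j c * T i b) ^ 2 = 1 ∧ TotPos (T j c * T i b * (S j c (o j) * S i b (o i))) := by
  have h1 := prod_up2 T o hij b c
  have h2 := prod_up2 (fun i x => S i x (o i)) o hij b c
  simp only [fun i => (h.hs i).Tone, fun i => (h.hs i).one, Finset.prod_const_one, mul_one,
    one_mul] at h1 h2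
  have := h.good hX
  rwa [h1, h2] at this

theorem LV.gal (h : LV S T o w) (σ : ℂ →+* ℂ) : ∃ π : ∀ i, I i → I i,
    (∀ i x y, σ (S i y x) * S i (π i x) (o i) = σ (S i x (o i)) * S i y (π i x)) ∧
      ∀ X, zz T w X ≠ 0 → zz T w (fun i => π i (X i)) ≠ 0 := by
  choose π hπ using fun i => (h.hs i).gal σ
  refine ⟨π, hπ, fun X hX h0 => ?_⟩
  obtain ⟨c, hc, e⟩ := h.eig
  have hz : ∀ Y, σ (zz T w Y) = zz T w Y := fun Y => by
    by_cases hY : zz T w Y = 0
    · rw [hY, map_zero]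
    · rw [zz, map_mul, map_sign σ (h.good hY).1, map_natCast]
  have e1 := congrArg σ (congrFun e X)
  have e2 := congrFun e fun i => π i (X i)
  simp only [mulVec, dotProduct, Pi.smul_apply, smul_eq_mul, map_sum, map_mul, hz, h0, mul_zero,
    krn, of_apply, map_prod] at e1 e2
  have e3 : (∏ i, S i (π i (X i)) (o i)) * (σ c * zz T w X) = (∏ i, σ (S i (X i) (o i))) * 0 := by
    rw [← e1, ← e2, Finset.mul_sum, Finset.mul_sum]
    refine Finset.sum_congr rfl fun Y _ => ?_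
    rw [← mul_assoc, ← mul_assoc, ← Finset.prod_mul_distrib, ← Finset.prod_mul_distrib]
    congr 1
    refine Finset.prod_congr rfl fun i _ => ?_
    rw [(h.hs i).sy (X i) (Y i), (h.hs i).sy (π i (X i)) (Y i), ← hπ, mul_comm]
  rw [mul_zero] at e3
  exact mul_ne_zero (Finset.prod_ne_zero_iff.2 fun i _ => (h.hs i).dne _)
    (mul_ne_zero ((map_ne_zero σ).2 hc) hX) e3

theorem LV.no_G (h : LV S T o w) (j : ι) (h1 : ∀ y, y ≠ o j → ¬Good (S j) (T j) (o j) y)
    {k : ℕ} (hk : 0 < k) (hT : ∀ y, T j y ^ k = 1) {N : ℕ}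
    (hN : ∀ y, TotPos (S j y (o j)) ∨ TotPos (-S j y (o j)) → T j y ^ N = 1)
    (hI : ∀ l : ℕ, ¬IsIntegral ℤ (4 ^ l * (N : ℂ) ^ 2 / ∑ y, S j y (o j) ^ 2))
    (h2 : ∀ i, i ≠ j → ∀ x, x ≠ o j → ∀ y, y ≠ o i →
      ¬((T j x * T i y) ^ 2 = 1 ∧ TotPos (T j x * T i y * (S j x (o j) * S i y (o i))))) : False := by
  classical
  have hj := h.hs j
  have cl := h.cl j
  let P : Submonoid (I j → ℂ) :=
    { carrier := {δ | δ ∈ Dg (zz T w) j ∧ ∃ k, 0 < k ∧ δ ^ k = 1}
      one_mem' := ⟨cl.one, 1, one_pos, one_pow _⟩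
      mul_mem' := by
        rintro a b ⟨ha, k, hk, e⟩ ⟨hb, l, hl, e'⟩
        exact ⟨cl.mul _ ha _ hb, k * l, by positivity, by
          rw [mul_pow, pow_mul, e, pow_mul', e', one_pow, one_pow, one_mul]⟩ }
  have sq : ∀ (σ : ℂ →+* ℂ) x, ph (σ (S j x (o j))) * ph (σ (S j x (o j))) = 1 :=
    fun σ x => ph_sq (h.ne σ j x) (hj.real σ x)
  let η : I j → ℂ := fun x => T j x * ph (RingHom.id ℂ (S j x (o j)))
  have hη : η ∈ P := ⟨h.mem_Tph j _, 2 * k, by omega, funext fun x => by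
    simp only [η, Pi.pow_apply, mul_pow, pow_mul' (T j x), hT, pow_mul (ph _), pow_two (ph _), sq,
      one_pow, one_mul, Pi.one_apply]⟩
  have hs : ∀ a, ∃ δ ∈ P, δ (o j) = 1 ∧ (δ a = -1 ∨ ∀ σ : ℂ →+* ℂ,
      ph (σ (S j a (o j))) = ph (RingHom.id ℂ (S j a (o j)))) := by
    intro a
    by_cases ha : ∀ σ : ℂ →+* ℂ, ph (σ (S j a (o j))) = ph (RingHom.id ℂ (S j a (o j)))
    · exact ⟨1, one_mem _, rfl, Or.inr ha⟩
    · push Not at ha
      obtain ⟨σ, ha⟩ := ha
      refine ⟨_, ⟨h.mem_ph j σ (RingHom.id ℂ), 2, two_pos, funext fun x => ?_⟩, ?_, Or.inl ?_⟩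
      · rw [Pi.pow_apply, mul_pow, pow_two, pow_two, sq, sq]; simp
      · simp [hj.one, ph_one]
      · rcases mul_self_eq_one_iff.1 (sq σ a) with e | e <;>
          rcases mul_self_eq_one_iff.1 (sq (RingHom.id ℂ) a) with e' | e' <;>
          simp only [e, e'] at ha ⊢ <;> simp at ha ⊢
  choose δ d1 d2 d3 using hs
  have hm : (∏ a, (1 + δ a)) * ∑ i ∈ Finset.range (2 * N), η ^ i ∈ P.subsemiringClosure :=
    mul_mem (prod_mem fun a _ => add_mem (one_mem _) (AddSubmonoid.subset_closure (d1 a)))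
      (sum_mem fun i _ => AddSubmonoid.subset_closure (pow_mem hη i))
  have e : (∏ a, (1 + δ a)) * ∑ i ∈ Finset.range (2 * N), η ^ i =
      Pi.single (o j) ((2 : ℂ) ^ (Fintype.card (I j) + 1) * N) := by
    funext x
    rw [Pi.mul_apply, Finset.prod_apply, Finset.sum_apply]
    by_cases hx : x = o j
    · subst hx
      simp [d2, η, hj.one, hj.Tone, ph_one, one_add_one_eq_two]
      ring
    · rw [Pi.single_eq_of_ne hx]
      rcases d3 x with e | e
      · rw [Finset.prod_eq_zero (Finset.mem_univ x) (by simp [e]), zero_mul]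
      · have t : T j x ^ N = 1 := hN x (by
          rcases mul_self_eq_one_iff.1 (sq (RingHom.id ℂ) x) with e' | e'
          · exact Or.inl fun σ => by
              simpa using pos_of_ph (t := 1) (h.ne σ j x) (by rw [e, e', one_mul])
          · exact Or.inr fun σ => by
              simpa using pos_of_ph (t := -1) (h.ne σ j x) (by rw [e, e']; simp))
        have n1 : η x ≠ 1 := fun e1 => h1 x hx (by
          have t2 : T j x ^ 2 = 1 := by
            have := sq (RingHom.id ℂ) x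
            simp only [η] at e1
            linear_combination (-T j x ^ 2) * this +
              (T j x * ph (RingHom.id ℂ (S j x (o j))) + 1) * e1
          refine ⟨t2, fun σ => ?_⟩
          rw [map_mul, map_sign σ t2]
          exact pos_of_ph (h.ne σ j x) (by rw [e]; exact e1))
        simp only [Pi.pow_apply]
        rw [geom_sum_eq n1, mul_pow, pow_mul' (T j x), t, pow_mul (ph _), pow_two (ph _), sq]
        simp
  rw [e] at hm
  have := cl.integral (o j) hj.one (fun M hM c hc => col_zero h.o_ne hc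
    (fun b hb => of_not_not (mt h.good1 (h1 b hb)))
    (fun i hi y hy => of_not_not (mt (h.good2 hi) (h2 i hi c hc y hy))) M hM)
    (D := (S j * S j) (o j) (o j)) (by rw [← hj.four]; noncomm_ring) hm
  apply hI (Fintype.card (I j) + 1)
  convert this using 2
  · rw [mul_pow, ← pow_mul, mul_comm _ 2, pow_mul]; norm_num
  · rw [Matrix.mul_apply]
    exact Finset.sum_congr rfl fun y _ => by rw [hj.sy (o j) y, pow_two]

end Pool.Agent.Lib.MP_edb142_al
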