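import Pool.Agent.Lib.MP_edb142_al.W8
import Pool.Agent.Lib.MP_edb142_al.Defs2

open Matrix Function Polynomial
open scoped ComplexOrder

set_option linter.unusedSectionVars false

namespace Pool.Agent.Lib.MP_edb142_al

theorem Cl.equiv {J J' : Type} [Fintype J] [DecidableEq J] [Fintype J'] [DecidableEq J']
    {m : Submodule ℂ (Matrix J J ℂ)} {S : Matrix J J ℂ} {Δ : Set (J → ℂ)} (h : Cl m S Δ)
    (e : J ≃ J') {S' : Matrix J' J' ℂ} (hS : S'.submatrix e e = S) :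
    Cl (m.comap (reindexAlgEquiv ℂ ℂ e.symm).toLinearMap) S' {δ | δ ∘ e ∈ Δ} := by
  have k : ∀ M : Matrix J' J' ℂ, M ∈ m.comap (reindexAlgEquiv ℂ ℂ e.symm).toLinearMap ↔
    M.submatrix e e ∈ m := fun M => Iff.rfl
  have ki : (S'⁻¹).submatrix e e = S⁻¹ := by rw [← hS, inv_submatrix_equiv]
  refine ⟨?_, ?_, fun M hM => h.tr _ hM, fun M hM N hN => ?_, fun M hM => ?_, fun M hM => ?_,
    fun δ hδ x => ?_, h.one, fun δ hδ ε hε => h.mul _ hδ _ hε, fun δ hδ => h.inv _ hδ,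
    fun δ hδ M hM => ?_, fun δ hδ φ hφ => ?_⟩
  · ext x y
    obtain ⟨x, rfl⟩ := e.surjective x
    obtain ⟨y, rfl⟩ := e.surjective y
    have := h.sym
    rw [← hS] at this
    exact congrFun (congrFun this x) y
  · rw [← det_submatrix_equiv_self e, hS]; exact h.unit
  · rw [Submodule.mem_comap, map_sub]
    simp only [AlgEquiv.toLinearMap_apply, map_mul]
    exact h.br _ hM _ hN
  · rw [k, ← submatrix_mul_equiv _ _ _ e, ← submatrix_mul_equiv _ _ _ e, hS, ki]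
    exact h.cS _ hM
  · rw [k, ← submatrix_mul_equiv _ _ _ e, ← submatrix_mul_equiv _ _ _ e, hS, ki]
    exact h.cS' _ hM
  · obtain ⟨x, rfl⟩ := e.surjective x
    exact h.ne _ hδ x
  · rw [k, ← submatrix_mul_equiv _ _ _ e, ← submatrix_mul_equiv _ _ _ e, submatrix_diagonal_equiv,
      submatrix_diagonal_equiv]
    exact h.cD _ hδ _ hM
  · obtain ⟨p, h1, h2⟩ := h.ph _ hδ φ hφ
    have q : diagonal (δ ∘ e) * S = reindexAlgEquiv ℂ ℂ e.symm (diagonal δ * S') := by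
      rw [← hS, ← submatrix_diagonal_equiv, submatrix_mul_equiv]; rfl
    rw [q] at h1 h2
    refine ⟨p, fun l hl => h1 l ?_, ?_⟩
    · rwa [coe_reindexAlgEquiv, charpoly_reindex]
    · rw [aeval_algHom_apply] at h2
      exact h2

variable {n : ℕ} [NeZero n] {q : ℂ}

theorem fold (hn : n % 2 = 1) {l : ℕ} (hl : l.Coprime n) (h2 : l % 2 = 0) (m : Fin (n / 2)) :
    ∃ m' : Fin (n / 2), ∀ {q : ℂ} (hq : IsPrimitiveRoot q n) (y : ZMod n),
      so hq (y * jj n m') = -(-1) ^ (l * (2 * m.1 + 1) / n) * so hq (l * (y * jj n m)) := by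
  have hm := m.2
  have h0 : l * (2 * m.1 + 1) % n ≠ 0 := fun h => by
    have := Nat.le_of_dvd (by omega) (hl.symm.dvd_of_dvd_mul_left (Nat.dvd_of_mod_eq_zero h))
    omega
  have h1 := Nat.mod_lt (l * (2 * m.1 + 1)) (NeZero.pos n)
  have h3 := Nat.div_add_mod (l * (2 * m.1 + 1)) n
  have h4 : l * (2 * m.1 + 1) % 2 = 0 := by rw [Nat.mul_mod, h2]; simp
  have h5 : n * (l * (2 * m.1 + 1) / n) % 2 = l * (2 * m.1 + 1) / n % 2 := by
    rw [Nat.mul_mod, hn]; simp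
  have h6 : ((l * (2 * m.1 + 1) % n : ℕ) : ZMod n) = l * jj n m := by
    rw [ZMod.natCast_mod, jj, Nat.cast_mul]
  generalize l * (2 * m.1 + 1) % n = r at *
  generalize l * (2 * m.1 + 1) / n = t at *
  rcases Nat.mod_two_eq_zero_or_one r with hr | hr
  · refine ⟨⟨(n - r) / 2, by omega⟩, fun hq y => ?_⟩
    rw [Even.neg_one_pow (Nat.even_iff.2 (by omega)), jj, show 2 * ((n - r) / 2) + 1 = n - r by omega,
      Nat.cast_sub h1.le, ZMod.natCast_self, h6, neg_one_mul, ← so_neg]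
    congr 1; ring
  · refine ⟨⟨r / 2, by omega⟩, fun hq y => ?_⟩
    rw [Odd.neg_one_pow (Nat.odd_iff.2 (by omega)), jj, show 2 * (r / 2) + 1 = r by omega, h6,
      neg_neg, one_mul]
    congr 1; ring

theorem slS_pow (hq : IsPrimitiveRoot q n) (l a b : ℕ) :
    slS (q ^ l) a b = so hq (l * (jj n a * jj n b)) / so hq l := by
  rw [slS, ← inv_pow, ← pow_mul, ← pow_mul, ← so_nat hq, ← so_nat hq, jj, jj]
  push_cast; rfl

theorem Site.col {I : Type} [Fintype I] [DecidableEq I] {S : Matrix I I ℂ} {T : I → ℂ} {o : I}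
    (h : Site S T o) {x x' : I} (e : ∀ y, S y x * S x' o = S x o * S y x') : x = x' := by
  by_contra hne
  apply h.unit.ne_zero
  rw [← exists_mulVec_eq_zero_iff]
  refine ⟨Pi.single x (S x' o) - Pi.single x' (S x o), fun h0 => h.dne x' ?_, ?_⟩
  · simpa [hne] using congrFun h0 x
  · funext k
    simp only [mulVec_sub, mulVec_single, Pi.sub_apply, Pi.smul_apply, col_apply, e,
      MulOpposite.smul_eq_mul_unop, MulOpposite.unop_op, Pi.zero_apply]
    ring

theorem sl_gal {I : Type} [Fintype I] [DecidableEq I] {S : Matrix I I ℂ} {T : I → ℂ} {o : I}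
    (h : Site S T o) (hn : n % 2 = 1) (h5 : 5 ≤ n) (hq : IsPrimitiveRoot q n) (e : I ≃ Fin (n / 2))
    (hS : ∀ x y, S x y = slS q (e x) (e y)) {l : ℕ} (hl : l.Coprime n)
    (h2 : l % 2 = 0) {σ : ℂ →+* ℂ} (hσ : σ q = q ^ l) {π : I → I}
    (hπ : ∀ x y, σ (S y x) * S (π x) o = σ (S x o) * S y (π x)) :
    ∃ κ : ℂ, κ ≠ 0 ∧ ∀ x, S (π x) o = eps n l (e x) * κ * σ (S x o) := by
  have s1 := so_ne hn hq (one_ne h5)
  have sl : so hq l ≠ 0 := so_ne hn hq (by
    rw [Ne, ZMod.natCast_eq_zero_iff]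
    intro h0
    have := hl.symm.eq_one_of_dvd h0
    omega)
  refine ⟨-(-1) ^ (l / n) * so hq l / so hq 1, by simp [s1, sl], fun x => ?_⟩
  obtain ⟨m', hm⟩ := fold hn hl h2 (e x)
  have k : ∀ y, S y (e.symm m') = -(-1) ^ (l * (2 * (e x).1 + 1) / n) * so hq l / so hq 1 *
      σ (S y x) := fun y => by
    rw [hS, hS, map_slS, hσ, slS_pow hq, slS_so hq, e.apply_symm_apply, hm]
    field_simp
  have : π x = e.symm m' := h.col fun y => by
    apply mul_left_cancel₀ ((map_ne_zero σ).2 (h.dne x))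
    rw [← mul_assoc, ← hπ, h.sy (e.symm m') o, k, k, h.sy o x]
    ring
  rw [this, h.sy _ o, k, h.sy o x, eps, pow_add]
  have : ((-1 : ℂ) ^ (l / n)) * (-1) ^ (l / n) = 1 := by rw [← mul_pow]; simp
  linear_combination ((-1) ^ (l * (2 * (e x).1 + 1) / n) * σ (S x o) * so hq l / so hq 1) * this

theorem slT_n (hq : IsPrimitiveRoot q n) (m : ℕ) : slT q m ^ n = 1 := by
  rw [slT, ← pow_mul, mul_comm, pow_mul, hq.pow_eq_one, one_pow]

theorem odd_one (hn : n % 2 = 1) {t : ℂ} (h2 : t ^ 2 = 1) (h : t ^ n = 1) : t = 1 := by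
  rwa [show n = 2 * (n / 2) + 1 by omega, pow_succ, pow_mul, h2, one_pow, one_mul] at h

theorem qq_pow (l : ℕ) : qq n l = qq n 1 ^ l := by
  rw [qq, qq, mul_pow, ← Complex.exp_nat_mul, pow_one]
  congr 2; push_cast; ring

theorem eps_one {m : ℕ} (hm : m < n / 2) : eps n 1 m = 1 := by
  rw [eps, Nat.div_eq_of_lt (by omega), Nat.div_eq_of_lt (by omega)]; simp

theorem eps_pos {l m : ℕ} {a : ℂ} (h : 0 < eps n l m * a) (h' : 0 < a) : eps n l m = 1 :=
  (ph_sign (eps_sq l m) h).symm.trans (ph_pos h')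

theorem no_rat (hn : n % 2 = 1) (h7 : 7 ≤ n) (hq : IsPrimitiveRoot q n) {t d : ℂ} {r : ℚ}
    (hd : d ^ 2 = r) : ¬GoodNum t (slS q 1 0 * d) := by
  rintro ⟨h1, h2⟩
  have p1 := qq_prim hn (Nat.coprime_one_left n)
  obtain ⟨σ, hσ⟩ := exists_sigma hq p1
  obtain ⟨τ, hτ⟩ := exists_sigma p1 (qq_prim hn (cop_two hn 1))
  have k1 : ∀ k : ℕ, (τ ^ k * σ) q = qq n (2 ^ k) := by
    intro k
    induction k with
    | zero => simpa using hσ
    | succ k ih =>
      rw [pow_succ', mul_assoc, RingHom.mul_def, RingHom.comp_apply, ih, qq_pow, map_pow, hτ,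
        qq_pow (2 ^ 1), ← pow_mul, ← qq_pow, pow_one, ← pow_succ']
  have k2 : ∀ k : ℕ, ph ((τ ^ k * σ) d) = t * eps n (2 ^ k) 1 := by
    intro k
    have a := h2 (τ ^ k * σ)
    rw [map_mul, map_mul, map_sign _ h1, map_slS, k1] at a
    have b := ph_sign (eps_sq _ _) (qq_sign (by omega) (cop_two hn k) (m := 1) (by omega))
    have c := ph_sign (pow_two t ▸ h1) a
    rw [ph_mul, b] at c
    rw [← c]
    linear_combination (-ph ((τ ^ k * σ) d)) * eps_sq (n := n) (2 ^ k) 1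
  have k3 : τ (σ d) = σ d := by
    have a := k2 0
    have b := k2 1
    have e2 : eps n (2 ^ 1) 1 = 1 := by
      rw [eps, Nat.div_eq_of_lt (by omega), Nat.div_eq_of_lt (by omega)]; simp
    rw [pow_zero, pow_zero, eps_one (by omega), one_mul] at a
    rw [e2, pow_one, RingHom.mul_def, RingHom.comp_apply, ← a] at b
    have c : τ (σ d) ^ 2 = σ d ^ 2 := by simp only [← map_pow, hd, map_ratCast]
    rcases sq_eq_sq_iff_eq_or_eq_neg.1 c with c | c
    · exact c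
    · rw [c, ph_neg, a, mul_one, neg_eq_iff_add_eq_zero, ← two_mul, mul_eq_zero] at b
      rcases b with b | b
      · norm_num at b
      · rw [b] at h1; norm_num at h1
  have k4 : ∀ k : ℕ, (τ ^ k * σ) d = σ d := by
    intro k
    induction k with
    | zero => simp
    | succ k ih => rw [pow_succ', mul_assoc, RingHom.mul_def, RingHom.comp_apply, ih, k3]
  have := eps_sep (n := n) (a := ⟨1, by omega⟩) (b := ⟨0, by omega⟩) fun k _ => by
    have a := k2 k
    have b := k2 0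
    rw [k4] at a b
    rw [a, pow_zero, eps_one (by omega)] at b
    rw [eps_zero]
    exact mul_left_cancel₀ (ne_zero_pow two_ne_zero (h1 ▸ one_ne_zero)) b
  simp at this

variable {ι : Type} [Fintype ι] [DecidableEq ι] {I : ι → Type} [∀ i, Fintype (I i)]
  [∀ i, DecidableEq (I i)] {S : ∀ i, Matrix (I i) (I i) ℂ} {T : ∀ i, I i → ℂ} {o : ∀ i, I i}
  {w : (∀ i, I i) → ℕ}

theorem LV.same (h : LV S T o w) (hn : n % 2 = 1) (h5 : 5 ≤ n) (hq : IsPrimitiveRoot q n) {q' : ℂ}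
    (hq' : IsPrimitiveRoot q' n) {i j : ι} (hij : i ≠ j) (e : I j ≃ Fin (n / 2))
    (ho : (e (o j)).1 = 0) (hS : ∀ x y, S j x y = slS q (e x) (e y)) (hT : ∀ x, T j x = slT q (e x))
    (h' : IsSl (S i) (T i) (o i) n q') {c : I j} (hc : (e c).1 = 1) {y : I i}
    (hX : zz T w (update (update o j c) i y) ≠ 0) : q * q' = 1 := by
  obtain ⟨e', ho', hS', hT'⟩ := h'
  obtain ⟨g1, g2⟩ := h.good2 hij hX
  have tn : ∀ x y, (T j x * T i y) ^ n = 1 := fun x y => by
    rw [mul_pow, hT, hT', slT_n hq, slT_n hq', one_mul]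
  have t1 := odd_one hn g1 (tn _ _)
  rw [t1, one_mul] at g2
  have hb : e' y = e c := eps_sep fun k hk => by
    have hl := cop_two hn k
    have h2 : 2 ^ k % 2 = 0 := by obtain ⟨k, rfl⟩ : ∃ s, k = s + 1 := ⟨k - 1, by omega⟩; omega
    obtain ⟨σ, hσ⟩ := exists_sigma hq (hq.pow_of_coprime _ hl)
    have hσ' : σ q' = q' ^ 2 ^ k := by
      obtain ⟨r, -, rfl⟩ := hq.eq_pow_of_pow_eq_one hq'.pow_eq_one
      rw [map_pow, hσ, ← pow_mul, ← pow_mul, mul_comm]
    obtain ⟨π, hπ, hz⟩ := h.gal σ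
    obtain ⟨κ, k0, k1⟩ := sl_gal (h.hs j) hn h5 hq e hS hl h2 hσ (hπ j)
    obtain ⟨κ', k0', k1'⟩ := sl_gal (h.hs i) hn h5 hq' e' hS' hl h2 hσ' (hπ i)
    obtain ⟨a1, a2⟩ := h.good (hz _ hX)
    obtain ⟨b1, b2⟩ := h.good (hz _ h.o_ne)
    have c1 := prod_up2 (fun k x => T k (π k x)) o hij y c
    have c2 := prod_up2 (fun k x => S k (π k x) (o k)) o hij y c
    have c3 := congrArg (· ^ n) c1
    simp only [mul_pow _ (_ * _), tn, mul_one] at c3
    rw [show n = 2 * (n / 2) + 1 by omega, pow_succ, pow_succ, pow_mul, pow_mul, a1, b1, one_pow,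
      one_mul, one_mul] at c3
    simp only [k1, k1', ho, ho', eps_zero, (h.hs j).one, (h.hs i).one, map_one] at c2
    have a3 := a2 (RingHom.id ℂ)
    have c4 : (∏ k, S k (π k (update (update o j c) i y k)) (o k)) = (∏ k, S k (π k (o k)) (o k)) *
        (eps n (2 ^ k) (e c) * eps n (2 ^ k) (e' y) * σ (S j c (o j) * S i y (o i))) := by
      apply mul_right_cancel₀ (mul_ne_zero k0 k0')
      rw [map_mul]
      linear_combination c2
    rw [RingHom.id_apply, c3, c4, ← mul_assoc] at a3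
    have a4 := ph_pos a3
    have b3 := b2 (RingHom.id ℂ)
    rw [RingHom.id_apply] at b3
    rw [ph_mul, ph_pos b3, ph_mul, ph_pos (g2 σ), one_mul, mul_one] at a4
    have a6 : eps n (2 ^ k) (e c) * eps n (2 ^ k) (e' y) * (eps n (2 ^ k) (e c) * eps n (2 ^ k) (e' y)) = 1 := by
      rw [mul_mul_mul_comm, eps_sq, eps_sq, one_mul]
    have a5 := ph_sign a6 (a6 ▸ one_pos)
    rw [a5] at a4
    linear_combination eps n (2 ^ k) (e c) * a4 - eps n (2 ^ k) (e' y) * eps_sq (n := n) (2 ^ k) (e c)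
  rw [hT, hT', hb, hc, slT, slT, ← mul_pow] at t1
  have u : (q * q') ^ n = 1 := by rw [mul_pow, hq.pow_eq_one, hq'.pow_eq_one, one_mul]
  refine odd_one hn (odd_one hn ?_ ?_) u
  · rw [← pow_mul]; exact t1
  · rw [← pow_mul, mul_comm 2, pow_mul, u, one_pow]

theorem LV.no_P (h : LV S T o w) (hn : n % 2 = 1) (h5 : 5 ≤ n) (hq : IsPrimitiveRoot q n) {j : ι}
    (hj : IsSl (S j) (T j) (o j) n q)
    (h2 : ∀ i, i ≠ j → (∀ y, y ≠ o i → ¬GoodNum (slT q 1 * T i y) (slS q 1 0 * S i y (o i))) ∨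
      (∃ N, ¬n ∣ N ∧ ∀ y, T i y ^ N = 1) ∨
      (∃ q', IsPrimitiveRoot q' n ∧ q * q' ≠ 1 ∧ IsSl (S i) (T i) (o i) n q') ∨
      (7 ≤ n ∧ ∀ y, ∃ r : ℚ, S i y (o i) ^ 2 = r)) : False := by
  obtain ⟨e, ho, hS, hT⟩ := hj
  let c : Fin (n / 2) := ⟨1, by omega⟩
  have hc : (e (e.symm c)).1 = 1 := by simp [c]
  have cl := (h.cl j).equiv e (S' := SM n q) (by ext x y; exact (hS x y).symm)
  have p1 := qq_prim hn (Nat.coprime_one_left n)
  obtain ⟨σ0, hσ0⟩ := exists_sigma hq p1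
  have sg : ∀ l : ℕ, l.Coprime n → ∃ σ : ℂ →+* ℂ, ∀ x, ph (σ (S j x (o j))) = eps n l (e x) := by
    intro l hl
    obtain ⟨σ, hσ⟩ := exists_sigma hq (qq_prim hn hl)
    refine ⟨σ, fun x => ?_⟩
    rw [hS, map_slS, hσ, ho]
    exact ph_sign (eps_sq _ _) (qq_sign h5 hl (e x).2)
  refine PS.false ⟨hn, h5, hq, cl, ?_, fun l hl => ?_⟩ (o := e (o j)) (c := e (e.symm c)) ho hc
    fun M hM => col_zero h.o_ne (c := e.symm c) (fun h0 => by rw [h0, ho] at hc; omega)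
      (fun b hb => ?_) (fun i hi y hy => ?_) _ hM
  · have := h.mem_T j
    simp only [hT] at this
    exact this
  · obtain ⟨σ, hσ⟩ := sg l hl
    obtain ⟨τ, hτ⟩ := sg 1 (Nat.coprime_one_left n)
    have := h.mem_ph j σ τ
    simp only [hσ, hτ, fun x => eps_one (e x).2, mul_one] at this
    exact this
  · by_contra h0
    obtain ⟨g1, g2⟩ := h.good1 h0
    rw [odd_one hn g1 (by rw [hT, slT_n hq]), one_mul] at g2
    refine hb (e.injective (eps_sep fun k _ => ?_))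
    obtain ⟨σ, hσ⟩ := sg _ (cop_two hn k)
    rw [← hσ, ph_pos (g2 σ), ho, eps_zero]
  · by_contra h0
    have g := h.good2 hi h0
    rw [hT, hS, hc, ho] at g
    rcases h2 i hi with h3 | ⟨N, h3, h4⟩ | ⟨q', h3, h4, h6⟩ | ⟨h3, h4⟩
    · exact h3 y hy g
    · have := congrArg (· ^ N) g.1
      simp only [← pow_mul, mul_comm 2 N] at this
      rw [pow_mul, mul_pow, h4, mul_one, slT, ← pow_mul, ← pow_mul, one_pow] at this
      have k := (hq.pow_eq_one_iff_dvd _).1 this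
      rw [show 2 * 1 * (1 + 1) * (N * 2) = 2 ^ 3 * N by ring] at k
      exact h3 ((cop_two hn 3).symm.dvd_of_dvd_mul_left k)
    · exact h4 (h.same hn h5 hq h3 hi e ho hS hT h6 hc h0)
    · obtain ⟨r, hr⟩ := h4 y
      exact no_rat hn h3 hq hr g

end Pool.Agent.Lib.MP_edb142_al
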